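import Pool.Agent.Run7.h684.E2.Cnt

/-!
Project E2 (helper684): all cells.
-/

set_option autoImplicit false

namespace Pool.Agent.Run7.h684.E2

open Finset Pool.Agent.H376R2.MR
open Pool.Agent.H499R2.CO

/-- the number of the cell of a prime -/
noncomputable def rr (p : ℕ) : ℕ := ⌊100 * Real.log p⌋₊

theorem rr_le (p : ℕ) : (rr p : ℝ) / 100 ≤ Real.log p := by
  have := Nat.floor_le (show 0 ≤ 100 * Real.log (p : ℝ) by have := Real.log_natCast_nonneg p; positivity)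
  unfold rr
  linarith

theorem lt_rr (p : ℕ) : Real.log p < (rr p : ℝ) / 100 + 1 / 100 := by
  have := Nat.lt_floor_add_one (100 * Real.log (p : ℝ))
  unfold rr
  linarith

theorem mem_cell_rr {p : ℕ} (hp : p.Prime) : p ∈ cell 100 (rr p) := by
  have hp0 : (0 : ℝ) < p := by exact_mod_cast hp.pos
  have h1 := rr_le p
  have h2 := lt_rr p
  have e : (((rr p : ℕ) : ℝ) + 1) / (100 : ℕ) = (rr p : ℝ) / 100 + 1 / 100 := by
    push_cast
    ring
  unfold cell
  rw [mem_filter, mem_range, Nat.lt_succ_iff]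
  refine ⟨?_, hp, ?_, ?_⟩
  · apply Nat.le_floor
    rw [← Real.log_le_iff_le_exp hp0, e]
    exact h2.le
  · push_cast
    exact h1
  · rw [e]
    exact h2

/-- the mean weight -/
noncomputable def Lam (P : Finset ℕ) (N : ℕ) : ℝ := ∑ p ∈ P, (1 / (p : ℝ)) / (Real.log N - (rr p : ℝ) / 100)

theorem pc_union {P : Finset ℕ} (n : ℕ) :
    pc P n = ∑ r ∈ P.image rr, pc (P.filter (fun p => rr p = r)) n := by
  classical
  unfold pc
  exact (sum_fiberwise_of_maps_to (fun p hp => mem_image_of_mem _ hp) _).symm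

theorem cnt_all (CT : CellS) (e : ℕ) {ε : ℝ} (hε : 0 < ε) (hε1 : ε ≤ 1) : ∃ θ : ℝ, 0 < θ ∧ θ ≤ 1 / 16 ∧ ∀ B : ℕ, ∃ C : ℝ, 0 < C ∧
    ∃ N₀ : ℕ, 10 ≤ N₀ ∧ ∀ N : ℕ, N₀ ≤ N → ∀ F : ℤ → ℝ, Coal F → (∀ x, |F x| ≤ 1) → ∀ s : ℤ, Ok e (θ * Real.log N) s →
    ∀ P : Finset ℕ, (∀ p ∈ P, p.Prime ∧ C * Real.log (Real.log N) ≤ Real.log p ∧ Real.log p ≤ θ * Real.log N) →
    |∑ n ∈ Ioc 0 N, pc P n * F (s * (n : ℤ)) - Lam P N * ∑ n ∈ Ioc 0 N, F (s * (n : ℤ))| ≤
      (ε * sg P + 1 / Real.log N ^ B) * (N / Real.log N) := by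
  classical
  obtain ⟨θ, hθ, hθ1, hst⟩ := cnt_cell CT e hε hε1
  refine ⟨θ, hθ, hθ1, fun B => ?_⟩
  obtain ⟨C₁, hC₁, N₀, hN₀, hs⟩ := hst (B + 2)
  refine ⟨C₁ + 1, by positivity, N₀ + ⌈Real.exp 200⌉₊, by omega, ?_⟩
  intro N hN F hF hF1 s hs1 P hP
  have hN1 : Real.exp 200 ≤ N := by
    have h1 : Real.exp 200 ≤ (⌈Real.exp 200⌉₊ : ℝ) := Nat.le_ceil _
    have h2 : (⌈Real.exp 200⌉₊ : ℝ) ≤ N := by exact_mod_cast (by omega : ⌈Real.exp 200⌉₊ ≤ N)
    linarith
  have hN0 : (0 : ℝ) < N := (Real.exp_pos _).trans_le hN1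
  have hlog : 200 ≤ Real.log N := (Real.le_log_iff_exp_le hN0).2 hN1
  have hllog : 1 ≤ Real.log (Real.log N) := by
    rw [Real.le_log_iff_exp_le (by linarith)]
    linarith [Real.exp_one_lt_d9]
  have hm := fun r : ℕ => hs N (by omega) F hF hF1 s hs1 r
  set l := Real.log (N : ℝ) with hl
  set R := P.image rr with hR
  have hPr : ∀ r ∈ R, |∑ n ∈ Ioc 0 N, pc (P.filter (fun p => rr p = r)) n * F (s * (n : ℤ)) -
      sg (P.filter (fun p => rr p = r)) / (l - (r : ℝ) / 100) * ∑ n ∈ Ioc 0 N, F (s * (n : ℤ))| ≤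
      (ε * sg (P.filter (fun p => rr p = r)) + 1 / l ^ (B + 2)) * (N / l) := by
    intro r hr
    rw [hR, mem_image] at hr
    obtain ⟨p, hp, rfl⟩ := hr
    obtain ⟨h1, h2, h3⟩ := hP p hp
    apply hm
    · have h4 := lt_rr p
      have h5 : (C₁ + 1) * Real.log l = C₁ * Real.log l + Real.log l := by ring
      linarith
    · exact (rr_le p).trans h3
    · intro q hq
      rw [mem_filter] at hq
      rw [← hq.2]
      exact mem_cell_rr (hP q hq.1).1
  have hcard : (R.card : ℝ) ≤ 100 * l := by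
    have h1 : R ⊆ range (⌊100 * (θ * l)⌋₊ + 1) := by
      intro r hr
      rw [hR, mem_image] at hr
      obtain ⟨p, hp, rfl⟩ := hr
      rw [mem_range, Nat.lt_succ_iff]
      apply Nat.floor_le_floor
      linarith [(hP p hp).2.2]
    have h2 := card_le_card h1
    rw [card_range] at h2
    have h3 : (⌊100 * (θ * l)⌋₊ : ℝ) ≤ 100 * (θ * l) := Nat.floor_le (by positivity)
    have h4 : (R.card : ℝ) ≤ ⌊100 * (θ * l)⌋₊ + 1 := by exact_mod_cast h2
    nlinarith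
  have hsg : sg P = ∑ r ∈ R, sg (P.filter (fun p => rr p = r)) := by
    unfold sg
    exact (sum_fiberwise_of_maps_to (fun p hp => mem_image_of_mem _ hp) _).symm
  have hLam : Lam P N = ∑ r ∈ R, sg (P.filter (fun p => rr p = r)) / (l - (r : ℝ) / 100) := by
    unfold Lam
    rw [← sum_fiberwise_of_maps_to (g := rr) (t := R) (fun p hp => mem_image_of_mem _ hp)]
    apply sum_congr rfl
    intro r _
    unfold sg
    rw [sum_div]
    apply sum_congr rfl
    intro p hp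
    rw [mem_filter] at hp
    rw [hp.2]
  have hpc : ∑ n ∈ Ioc 0 N, pc P n * F (s * (n : ℤ)) =
      ∑ r ∈ R, ∑ n ∈ Ioc 0 N, pc (P.filter (fun p => rr p = r)) n * F (s * (n : ℤ)) := by
    rw [sum_comm]
    apply sum_congr rfl
    intro n _
    rw [pc_union, sum_mul]
  rw [hpc, hLam, sum_mul, ← sum_sub_distrib]
  refine (abs_sum_le_sum_abs _ _).trans ((sum_le_sum hPr).trans ?_)
  rw [← sum_mul, sum_add_distrib, ← mul_sum, ← hsg, sum_const, nsmul_eq_mul]
  apply mul_le_mul_of_nonneg_right _ (by positivity)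
  apply add_le_add le_rfl
  have hl0 : 0 < l := by linarith
  calc (R.card : ℝ) * (1 / l ^ (B + 2)) ≤ (100 * l) * (1 / l ^ (B + 2)) :=
        mul_le_mul_of_nonneg_right hcard (by positivity)
    _ = 100 / l ^ B / l := by
        have e : l ^ (B + 2) = l ^ B * l * l := by ring
        rw [e]
        field_simp
    _ ≤ 1 / l ^ B := by
        rw [div_le_iff₀ hl0, div_mul_eq_mul_div, one_mul]
        apply div_le_div_of_nonneg_right _ (by positivity)
        linarith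

/-- the relative density for a set with a given density -/
theorem rel (CT : CellS) (e : ℕ) {ε : ℝ} (hε : 0 < ε) (hε1 : ε ≤ 1) : ∃ θ : ℝ, 0 < θ ∧ θ ≤ 1 / 16 ∧ ∀ B : ℕ, ∃ C : ℝ, 0 < C ∧
    ∃ N₀ : ℕ, 10 ≤ N₀ ∧ ∀ N : ℕ, N₀ ≤ N → ∀ F : ℤ → ℝ, Coal F → (∀ x, |F x| ≤ 1) → ∀ s : ℤ, Ok e (θ * Real.log N) s →
    ∀ δ : ℝ, |δ| ≤ 1 → |∑ n ∈ Ioc 0 N, F (s * (n : ℤ)) - δ * N| ≤ ε / 32 * N →
    ∀ P : Finset ℕ, (∀ p ∈ P, p.Prime ∧ C * Real.log (Real.log N) ≤ Real.log p ∧ Real.log p ≤ θ * Real.log N) →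
    1 / Real.log N ^ B ≤ sg P →
    |∑ n ∈ Ioc 0 N, pc P n * F (s * (n : ℤ)) - δ * ∑ n ∈ Ioc 0 N, pc P n| ≤ ε * ∑ n ∈ Ioc 0 N, pc P n ∧
    sg P * (N / (2 * Real.log N)) ≤ ∑ n ∈ Ioc 0 N, pc P n := by
  classical
  obtain ⟨θ, hθ, hθ1, hst⟩ := cnt_all CT e (show 0 < ε / 32 by positivity) (by linarith)
  refine ⟨θ, hθ, hθ1, fun B => ?_⟩
  obtain ⟨C, hC, N₀, hN₀, hs⟩ := hst (B + 1)
  refine ⟨C, hC, N₀ + ⌈Real.exp (200 + 32 / ε)⌉₊, by omega, ?_⟩
  intro N hN F hF hF1 s hs1 δ hδ hdens P hP hsgP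
  obtain ⟨E0, hE0⟩ : ∃ E0 : ℝ, E0 = 200 + 32 / ε := ⟨_, rfl⟩
  rw [← hE0] at hN
  have hN1 : Real.exp E0 ≤ N := by
    have h1 : Real.exp E0 ≤ (⌈Real.exp E0⌉₊ : ℝ) := Nat.le_ceil _
    have h2 : (⌈Real.exp E0⌉₊ : ℝ) ≤ N := by exact_mod_cast (by omega : ⌈Real.exp E0⌉₊ ≤ N)
    linarith
  have hN0 : (0 : ℝ) < N := (Real.exp_pos _).trans_le hN1
  have hlog : E0 ≤ Real.log N := (Real.le_log_iff_exp_le hN0).2 hN1
  have hε32 : 0 < 32 / ε := by positivity
  have m1 := hs N (by omega) F hF hF1 s hs1 P hP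
  have m2 := hs N (by omega) (fun _ => 1) (fun _ _ _ _ => rfl) (fun _ => by simp) s hs1 P hP
  set l := Real.log (N : ℝ) with hl
  have hl200 : 200 ≤ l := by rw [hE0] at hlog; linarith
  have hlε : 32 / ε ≤ l := by rw [hE0] at hlog; linarith
  have hl0 : 0 < l := by linarith
  simp only [mul_one, sum_const, Nat.card_Ioc, Nat.sub_zero, nsmul_eq_mul] at m2
  have hsg := sg_nonneg P
  set A := ∑ n ∈ Ioc 0 N, pc P n * F (s * (n : ℤ)) with hA
  set T := ∑ n ∈ Ioc 0 N, pc P n with hT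
  set D := ∑ n ∈ Ioc 0 N, F (s * (n : ℤ)) with hD
  set X := (N : ℝ) / l with hX
  have hX0 : 0 < X := by positivity
  have herr : (ε / 32 * sg P + 1 / l ^ (B + 1)) * X ≤ ε / 16 * sg P * X := by
    apply mul_le_mul_of_nonneg_right _ hX0.le
    have h1 : 1 / l ^ (B + 1) ≤ ε / 32 * sg P := by
      have e : 1 / l ^ (B + 1) = 1 / l ^ B * (1 / l) := by
        rw [pow_succ]
        field_simp
      have h2 : 1 / l ≤ ε / 32 := by
        rw [div_le_div_iff₀ hl0 (by norm_num), one_mul]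
        rw [div_le_iff₀ hε] at hlε
        linarith
      rw [e, mul_comm (ε / 32)]
      exact mul_le_mul hsgP h2 (by positivity) hsg
    linarith
  -- the mean weight
  have hLam1 : sg P * (1 / l) ≤ Lam P N := by
    unfold sg Lam
    rw [sum_mul]
    apply sum_le_sum
    intro p hp
    obtain ⟨h1, h2, h3⟩ := hP p hp
    have hp0 : (0 : ℝ) < p := by exact_mod_cast h1.pos
    have h4 := rr_le p
    have h5 : 0 < l - (rr p : ℝ) / 100 := by nlinarith
    rw [mul_one_div]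
    apply div_le_div_of_nonneg_left (by positivity) h5
    have : (0 : ℝ) ≤ (rr p : ℝ) / 100 := by positivity
    linarith
  have hLam2 : Lam P N ≤ sg P * (2 / l) := by
    unfold sg Lam
    rw [sum_mul]
    apply sum_le_sum
    intro p hp
    obtain ⟨h1, h2, h3⟩ := hP p hp
    have hp0 : (0 : ℝ) < p := by exact_mod_cast h1.pos
    have h4 := rr_le p
    have h5 : l / 2 ≤ l - (rr p : ℝ) / 100 := by nlinarith
    rw [mul_div_assoc', mul_comm (1 / (p : ℝ)) 2, div_le_div_iff₀ (by linarith) hl0]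
    have h6 : 0 < 1 / (p : ℝ) := by positivity
    nlinarith
  have hTlow : sg P * (X / 2) ≤ T := by
    have h1 := (abs_le.1 m2).1
    have h2 : sg P * X ≤ Lam P N * N := by
      calc sg P * X = sg P * (1 / l) * N := by
            rw [hX]
            ring
        _ ≤ Lam P N * N := mul_le_mul_of_nonneg_right hLam1 hN0.le
    have h3 : ε / 16 * sg P * X ≤ 1 / 2 * (sg P * X) := by
      have : 0 ≤ sg P * X := by positivity
      nlinarith
    linarith
  have hmain : |A - δ * T| ≤ ε * T := by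
    have e : A - δ * T = (A - Lam P N * D) - δ * (T - Lam P N * N) + Lam P N * (D - δ * N) := by ring
    rw [e]
    have b1 : |A - Lam P N * D| ≤ ε / 16 * sg P * X := m1.trans herr
    have b2 : |δ * (T - Lam P N * N)| ≤ ε / 16 * sg P * X := by
      rw [abs_mul]
      calc |δ| * |T - Lam P N * N| ≤ 1 * (ε / 16 * sg P * X) :=
            mul_le_mul hδ (m2.trans herr) (abs_nonneg _) zero_le_one
        _ = _ := one_mul _
    have b3 : |Lam P N * (D - δ * N)| ≤ ε / 16 * sg P * X := by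
      have h0 : 0 ≤ Lam P N := le_trans (by positivity) hLam1
      rw [abs_mul, abs_of_nonneg h0]
      calc Lam P N * |D - δ * N| ≤ (sg P * (2 / l)) * (ε / 32 * N) :=
            mul_le_mul hLam2 hdens (abs_nonneg _) (by positivity)
        _ = ε / 16 * sg P * X := by
            rw [hX]
            ring
    have b4 : |(A - Lam P N * D) - δ * (T - Lam P N * N) + Lam P N * (D - δ * N)| ≤
        ε / 16 * sg P * X + ε / 16 * sg P * X + ε / 16 * sg P * X := by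
      refine (abs_add_le _ _).trans (add_le_add ?_ b3)
      exact (abs_sub _ _).trans (add_le_add b1 b2)
    refine b4.trans ?_
    have h5 : ε * (sg P * (X / 2)) ≤ ε * T := mul_le_mul_of_nonneg_left hTlow hε.le
    have h6 : 0 ≤ ε * (sg P * X) := by positivity
    nlinarith
  refine ⟨hmain, ?_⟩
  refine le_trans (le_of_eq ?_) hTlow
  rw [hX]
  ring

end Pool.Agent.Run7.h684.E2
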