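import Pool.Agent.H376R2.MR.Ls
import Pool.Agent.H499R2.CO.D

/-!
Project E2 (helper684): small lemmas and definitions used in several modules.
-/

set_option autoImplicit false

namespace Pool.Agent.Run7.h684.E2

open Finset MeasureTheory Pool.Agent.H376R2.MR
open Pool.Agent.H499R2.CO

theorem poly_exp (K : ℝ) (n : ℕ) {b : ℝ} (hb : 0 < b) :
    ∃ Y₁ : ℝ, ∀ Y : ℝ, Y₁ ≤ Y → K * Y ^ n * Real.exp (-(b * Y)) ≤ 1 := by
  have h1 : Filter.Tendsto (fun Y : ℝ => |K| / b ^ n * ((b * Y) ^ n * Real.exp (-(b * Y)))) Filter.atTop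
      (nhds (|K| / b ^ n * 0)) :=
    ((Real.tendsto_pow_mul_exp_neg_atTop_nhds_zero n).comp
      (Filter.tendsto_id.const_mul_atTop hb)).const_mul _
  rw [mul_zero] at h1
  have h2 : ∀ᶠ Y : ℝ in Filter.atTop, |K| / b ^ n * ((b * Y) ^ n * Real.exp (-(b * Y))) < 1 :=
    (tendsto_order.1 h1).2 _ one_pos
  obtain ⟨Y₁, hY₁⟩ := Filter.eventually_atTop.1 h2
  refine ⟨max Y₁ 0, fun Y hY => ?_⟩
  have hY0 : 0 ≤ Y := (le_max_right _ _).trans hY
  have h3 := (hY₁ Y ((le_max_left _ _).trans hY)).le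
  have e : |K| / b ^ n * ((b * Y) ^ n * Real.exp (-(b * Y))) = |K| * Y ^ n * Real.exp (-(b * Y)) := by
    rw [mul_pow]
    field_simp
  rw [e] at h3
  refine le_trans ?_ h3
  apply mul_le_mul_of_nonneg_right _ (Real.exp_pos _).le
  exact mul_le_mul_of_nonneg_right (le_abs_self K) (by positivity)

theorem poly_le_exp (K : ℝ) (n : ℕ) {b : ℝ} (hb : 0 < b) :
    ∃ Y₁ : ℝ, ∀ Y : ℝ, Y₁ ≤ Y → K * Y ^ n ≤ Real.exp (b * Y) := by
  have h1 : Filter.Tendsto (fun Y : ℝ => |K| / b ^ n * ((b * Y) ^ n * Real.exp (-(b * Y)))) Filter.atTop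
      (nhds (|K| / b ^ n * 0)) :=
    ((Real.tendsto_pow_mul_exp_neg_atTop_nhds_zero n).comp
      (Filter.tendsto_id.const_mul_atTop hb)).const_mul _
  rw [mul_zero] at h1
  have h2 : ∀ᶠ Y : ℝ in Filter.atTop, |K| / b ^ n * ((b * Y) ^ n * Real.exp (-(b * Y))) < 1 :=
    (tendsto_order.1 h1).2 _ one_pos
  obtain ⟨Y₁, hY₁⟩ := Filter.eventually_atTop.1 h2
  refine ⟨max Y₁ 0, fun Y hY => ?_⟩
  have hY0 : 0 ≤ Y := (le_max_right _ _).trans hY
  have h3 := (hY₁ Y ((le_max_left _ _).trans hY)).le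
  have e : |K| / b ^ n * ((b * Y) ^ n * Real.exp (-(b * Y))) = |K| * Y ^ n / Real.exp (b * Y) := by
    rw [mul_pow, Real.exp_neg]
    field_simp
  rw [e, div_le_one (Real.exp_pos _)] at h3
  refine le_trans ?_ h3
  exact mul_le_mul_of_nonneg_right (le_abs_self K) (by positivity)

theorem exp_small {D : ℝ} {δ : ℝ} (hδ : 0 < δ) (n : ℕ) {b : ℝ} (hb : 0 < b) :
    ∃ Y₁ : ℝ, ∀ Y : ℝ, Y₁ ≤ Y → D * (Y ^ n * Real.exp (-(b * Y))) ≤ δ := by
  obtain ⟨Y₁, h⟩ := poly_exp (D / δ) n hb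
  refine ⟨Y₁, fun Y hY => ?_⟩
  have := h Y hY
  rw [div_mul_eq_mul_div, div_mul_eq_mul_div, div_le_one hδ] at this
  linarith

/-- the sum of the reciprocals -/
noncomputable def sg (s : Finset ℕ) : ℝ := ∑ p ∈ s, 1 / (p : ℝ)

theorem sg_nonneg (s : Finset ℕ) : 0 ≤ sg s := by
  unfold sg
  positivity

theorem G_int {G : ℝ → ℝ} (hG : Measurable G) (hG1 : ∀ u, |G u| ≤ 1) {f : ℝ → ℝ} (hf : Continuous f) (a b : ℝ) :
    IntervalIntegrable (fun u => G u * f u) volume a b := by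
  have h1 : IntervalIntegrable f volume a b := hf.intervalIntegrable _ _
  refine h1.mono_fun ?_ ?_
  · exact (hG.mul hf.measurable).aestronglyMeasurable
  · filter_upwards with u
    rw [Real.norm_eq_abs, Real.norm_eq_abs, abs_mul]
    calc |G u| * |f u| ≤ 1 * |f u| := mul_le_mul_of_nonneg_right (hG1 u) (abs_nonneg _)
      _ = |f u| := one_mul _

theorem G_int1 {G : ℝ → ℝ} (hG : Measurable G) (hG1 : ∀ u, |G u| ≤ 1) (a b : ℝ) :
    IntervalIntegrable G volume a b := by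
  have := G_int hG hG1 (continuous_const (y := (1 : ℝ))) a b
  simpa using this

theorem abel1 (c f : ℕ → ℝ) {a b : ℕ} (hab : a ≤ b) {E : ℝ}
    (h : ∀ m, a ≤ m → m ≤ b → |∑ n ∈ Ioc a m, c n| ≤ E) :
    |∑ n ∈ Ioc a b, c n * f n| ≤ E * (|f b| + ∑ n ∈ Ico a b, |f (n + 1) - f n|) := by
  have hid : ∀ b, a ≤ b → ∑ n ∈ Ioc a b, c n * f n =
      f b * (∑ n ∈ Ioc a b, c n) - ∑ n ∈ Ico a b, (∑ i ∈ Ioc a n, c i) * (f (n + 1) - f n) := by
    intro b hb
    induction b, hb using Nat.le_induction with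
    | base => simp
    | succ b hb ih =>
      have e1 : Ioc a (b + 1) = insert (b + 1) (Ioc a b) := by
        ext i
        simp only [mem_Ioc, mem_insert]
        omega
      have e2 : Ico a (b + 1) = insert b (Ico a b) := by
        ext i
        simp only [mem_Ico, mem_insert]
        omega
      rw [e1, e2, sum_insert (by simp), sum_insert (by simp), sum_insert (by simp), ih]
      ring
  rw [hid b hab]
  have h1 := h b hab le_rfl
  have hE : 0 ≤ E := (abs_nonneg _).trans h1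
  refine (abs_sub _ _).trans ?_
  rw [mul_add, abs_mul]
  apply add_le_add
  · rw [mul_comm]
    exact mul_le_mul_of_nonneg_right h1 (abs_nonneg _)
  · rw [mul_sum]
    refine (abs_sum_le_sum_abs _ _).trans (sum_le_sum fun n hn => ?_)
    rw [mem_Ico] at hn
    rw [abs_mul]
    exact mul_le_mul_of_nonneg_right (h n hn.1 hn.2.le) (abs_nonneg _)

theorem log_step {n : ℕ} (hn : 1 ≤ n) : 0 ≤ Real.log ((n + 1 : ℕ) : ℝ) - Real.log n ∧
    Real.log ((n + 1 : ℕ) : ℝ) - Real.log n ≤ 1 / n ∧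
    1 / ((n : ℝ) + 1) ≤ Real.log ((n + 1 : ℕ) : ℝ) - Real.log n := by
  have hn0 : (0 : ℝ) < n := by exact_mod_cast hn
  rw [← Real.log_div (by positivity) hn0.ne']
  have e : ((n + 1 : ℕ) : ℝ) / n = 1 + 1 / n := by
    push_cast
    field_simp
  rw [e]
  refine ⟨Real.log_nonneg (by have : 0 < 1 / (n : ℝ) := by positivity
                              linarith), ?_, ?_⟩
  · have := Real.log_le_sub_one_of_pos (show 0 < 1 + 1 / (n : ℝ) by positivity)
    linarith
  · have := Real.one_sub_inv_le_log_of_pos (show 0 < 1 + 1 / (n : ℝ) by positivity)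
    refine le_trans (le_of_eq ?_) this
    field_simp
    ring

/-- the function does not change on coalescing trajectories -/
def Coal (F : ℤ → ℝ) : Prop := ∀ (T : ℕ) (x y : ℤ), (Tz 1)^[T] x = (Tz 1)^[T] y → F x = F y

/-- a multiplier of size at most `exp X`, not divisible by `2 ^ (e + 1)` -/
def Ok (e : ℕ) (X : ℝ) (s : ℤ) : Prop := |(s : ℝ)| ≤ Real.exp X ∧ ¬ (2 : ℤ) ^ (e + 1) ∣ s

theorem Ok.mono {e : ℕ} {X X' : ℝ} {s : ℤ} (h : Ok e X s) (hX : X ≤ X') : Ok e X' s :=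
  ⟨h.1.trans (Real.exp_le_exp.2 hX), h.2⟩

/-- the weight of the products -/
noncomputable def ww (S : Finset ℕ) (n : ℕ) : ℝ :=
  ∑ p ∈ S, if p ∣ n then ArithmeticFunction.vonMangoldt (n / p) else 0

theorem ww_nonneg (S : Finset ℕ) (n : ℕ) : 0 ≤ ww S n := by
  unfold ww
  apply sum_nonneg
  intro p _
  split_ifs
  · exact ArithmeticFunction.vonMangoldt_nonneg
  · exact le_rfl

/-- sums over multiples -/
theorem swap (h : ℕ → ℕ → ℝ) {S : Finset ℕ} (hS : ∀ p ∈ S, 0 < p) (x : ℕ) :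
    ∑ n ∈ Ioc 0 x, ∑ p ∈ S, (if p ∣ n then h p (n / p) else 0) = ∑ p ∈ S, ∑ m ∈ Ioc 0 (x / p), h p m := by
  classical
  rw [sum_comm]
  apply sum_congr rfl
  intro p hp
  have hp0 := hS p hp
  rw [← sum_filter]
  have himg : (Ioc 0 x).filter (fun n => p ∣ n) = (Ioc 0 (x / p)).image (fun m => p * m) := by
    ext n
    simp only [mem_filter, mem_Ioc, mem_image]
    constructor
    · rintro ⟨⟨h1, h2⟩, m, rfl⟩
      refine ⟨m, ⟨?_, ?_⟩, rfl⟩
      · rcases Nat.eq_zero_or_pos m with h | h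
        · rw [h, mul_zero] at h1
          omega
        · exact h
      · rw [Nat.le_div_iff_mul_le hp0, mul_comm]
        exact h2
    · rintro ⟨m, ⟨h1, h2⟩, rfl⟩
      refine ⟨⟨Nat.mul_pos hp0 h1, ?_⟩, dvd_mul_right _ _⟩
      rw [Nat.le_div_iff_mul_le hp0, mul_comm] at h2
      exact h2
  rw [himg, sum_image (fun i _ j _ h => Nat.eq_of_mul_eq_mul_left hp0 h)]
  apply sum_congr rfl
  intro m _
  rw [Nat.mul_div_cancel_left _ hp0]

/-- the number of the representations as a product of an element of `S` and a prime -/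
noncomputable def pc (S : Finset ℕ) (n : ℕ) : ℝ := ∑ p ∈ S, if p ∣ n then (if (n / p).Prime then 1 else 0) else 0

theorem pc_nonneg (S : Finset ℕ) (n : ℕ) : 0 ≤ pc S n := by
  unfold pc
  apply sum_nonneg
  intro p _
  split_ifs <;> norm_num

/-- the polynomial of a set of primes -/
noncomputable def PS (s : Finset ℕ) (k : ℤ) : ℂ := ∑ p ∈ s, ch k (Real.log p) / (p : ℂ)

/-- the range of the second factor -/
noncomputable def MM (Y : ℝ) : Finset ℕ := Icc 1 ⌊Real.exp (Y + 3 / 2)⌋₊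

end Pool.Agent.Run7.h684.E2
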