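import Pool.Agent.Run7.h684.E2.K0
import Pool.Agent.H426R3.CL.Key
import Pool.Agent.H442R2.EHI.PntErr
import Pool.Agent.Q257.KS.HB

/-!
Project E2 (helper684): partial summation, long windows.
-/

set_option autoImplicit false

namespace Pool.Agent.Run7.h684.E2

open Finset MeasureTheory Pool.Agent.H376R2.MR Pool.Agent.Q240.KS Pool.Agent.Q95.KS

theorem Fj_lip (K : ℕ) (u v : ℝ) : |Fj K u - Fj K v| ≤ 2 * K ^ 2 * |u - v| := by
  unfold Fj
  rw [← sum_sub_distrib]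
  have h1 : ∀ k ∈ FK K, |(1 - |(k : ℝ)| / K) * Real.cos (k * u) - (1 - |(k : ℝ)| / K) * Real.cos (k * v)| ≤
      K * |u - v| := by
    intro k hk
    unfold FK at hk
    rw [mem_Ioo] at hk
    have hK : (0 : ℝ) < K := by
      have : (0 : ℤ) < K := by omega
      exact_mod_cast this
    have h2 : |(k : ℝ)| ≤ K := by
      have : |k| < (K : ℤ) := abs_lt.2 hk
      exact_mod_cast this.le
    rw [← mul_sub, abs_mul]
    have h3 : |1 - |(k : ℝ)| / K| ≤ 1 := by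
      have h4 : 0 ≤ |(k : ℝ)| / K := by positivity
      have h5 : |(k : ℝ)| / K ≤ 1 := div_le_one_of_le₀ h2 hK.le
      rw [abs_le]
      constructor <;> linarith
    have h4 : |Real.cos (k * u) - Real.cos (k * v)| ≤ |(k : ℝ) * u - k * v| := Real.abs_cos_sub_cos_le _ _
    calc |1 - |(k : ℝ)| / K| * |Real.cos (k * u) - Real.cos (k * v)| ≤ 1 * |(k : ℝ) * u - k * v| :=
          mul_le_mul h3 h4 (abs_nonneg _) zero_le_one
      _ = |(k : ℝ)| * |u - v| := by rw [one_mul, ← mul_sub, abs_mul]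
      _ ≤ K * |u - v| := mul_le_mul_of_nonneg_right h2 (abs_nonneg _)
  refine (abs_sum_le_sum_abs _ _).trans ((sum_le_sum h1).trans ?_)
  rw [sum_const, nsmul_eq_mul]
  have h2 : ((FK K).card : ℝ) ≤ 2 * K := by
    unfold FK
    rw [Int.card_Ioo]
    have : ((K : ℤ) - -(K : ℤ) - 1).toNat ≤ 2 * K := by omega
    exact_mod_cast this
  calc ((FK K).card : ℝ) * (K * |u - v|) ≤ 2 * K * (K * |u - v|) :=
        mul_le_mul_of_nonneg_right h2 (by positivity)
    _ = _ := by ring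

/-- steps of the weight -/
theorem f_step {K : ℕ} (hK : 1 ≤ K) (x : ℝ) {n : ℕ} (hn : 1 ≤ n) :
    |Fj K (x - Real.log ((n + 1 : ℕ) : ℝ)) / ((n + 1 : ℕ) : ℝ) - Fj K (x - Real.log n) / n| ≤ 3 * K ^ 2 / n ^ 2 := by
  have hn0 : (0 : ℝ) < n := by exact_mod_cast hn
  have hK1 : (1 : ℝ) ≤ K := by exact_mod_cast hK
  obtain ⟨l1, l2, l3⟩ := log_step hn
  have h1 := Fj_lip K (x - Real.log ((n + 1 : ℕ) : ℝ)) (x - Real.log n)
  have e1 : x - Real.log ((n + 1 : ℕ) : ℝ) - (x - Real.log n) = -(Real.log ((n + 1 : ℕ) : ℝ) - Real.log n) := by ring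
  rw [e1, abs_neg, abs_of_nonneg l1] at h1
  have h2 : |Fj K (x - Real.log ((n + 1 : ℕ) : ℝ)) - Fj K (x - Real.log n)| ≤ 2 * K ^ 2 * (1 / n) :=
    h1.trans (mul_le_mul_of_nonneg_left l2 (by positivity))
  have h3 := Fj_le K (x - Real.log n)
  have h4 := Fj_nonneg K (x - Real.log n)
  have e2 : Fj K (x - Real.log ((n + 1 : ℕ) : ℝ)) / ((n + 1 : ℕ) : ℝ) - Fj K (x - Real.log n) / n =
      (Fj K (x - Real.log ((n + 1 : ℕ) : ℝ)) - Fj K (x - Real.log n)) / ((n : ℝ) + 1) -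
      Fj K (x - Real.log n) * (1 / n - 1 / ((n : ℝ) + 1)) := by
    push_cast
    field_simp
    ring
  rw [e2]
  refine (abs_sub _ _).trans ?_
  have h5 : |(Fj K (x - Real.log ((n + 1 : ℕ) : ℝ)) - Fj K (x - Real.log n)) / ((n : ℝ) + 1)| ≤
      2 * K ^ 2 / n ^ 2 := by
    rw [abs_div, abs_of_pos (show (0 : ℝ) < (n : ℝ) + 1 by positivity)]
    calc _ ≤ 2 * K ^ 2 * (1 / n) / ((n : ℝ) + 1) := div_le_div_of_nonneg_right h2 (by positivity)
      _ ≤ 2 * K ^ 2 * (1 / n) / n := div_le_div_of_nonneg_left (by positivity) hn0 (by linarith)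
      _ = 2 * K ^ 2 / n ^ 2 := by field_simp
  have h6 : 1 / (n : ℝ) - 1 / ((n : ℝ) + 1) ≤ 1 / n ^ 2 := by
    rw [div_sub_div _ _ hn0.ne' (by positivity), div_le_div_iff₀ (by positivity) (by positivity)]
    nlinarith
  have h7 : 0 ≤ 1 / (n : ℝ) - 1 / ((n : ℝ) + 1) := by
    have := one_div_le_one_div_of_le hn0 (show (n : ℝ) ≤ (n : ℝ) + 1 by linarith)
    linarith
  have h8 : |Fj K (x - Real.log n) * (1 / n - 1 / ((n : ℝ) + 1))| ≤ K ^ 2 / n ^ 2 := by
    rw [abs_mul, abs_of_nonneg h4, abs_of_nonneg h7]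
    calc _ ≤ (K : ℝ) * (1 / n ^ 2) := mul_le_mul h3 h6 h7 (by positivity)
      _ ≤ K ^ 2 * (1 / n ^ 2) := by
          apply mul_le_mul_of_nonneg_right _ (by positivity)
          nlinarith
      _ = K ^ 2 / n ^ 2 := by ring
  calc _ ≤ 2 * K ^ 2 / n ^ 2 + K ^ 2 / (n : ℝ) ^ 2 := add_le_add h5 h8
    _ = _ := by ring

/-- the integral over one step -/
theorem int_step {K : ℕ} (hK : 1 ≤ K) (x : ℝ) {n : ℕ} (hn : 1 ≤ n) :
    |(∫ v in (Real.log n)..(Real.log ((n + 1 : ℕ) : ℝ)), Fj K (x - v)) -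
      Fj K (x - Real.log ((n + 1 : ℕ) : ℝ)) / ((n + 1 : ℕ) : ℝ)| ≤ 3 * K ^ 2 / n ^ 2 := by
  have hn0 : (0 : ℝ) < n := by exact_mod_cast hn
  have hK1 : (1 : ℝ) ≤ K := by exact_mod_cast hK
  obtain ⟨l1, l2, l3⟩ := log_step hn
  set a := Real.log (n : ℝ) with ha
  set b := Real.log ((n + 1 : ℕ) : ℝ) with hb
  have hcont : Continuous (fun v => Fj K (x - v)) := (Fj_cont K).comp (continuous_const.sub continuous_id)
  have h1 : (∫ v in a..b, Fj K (x - v)) - (b - a) * Fj K (x - b) = ∫ v in a..b, (Fj K (x - v) - Fj K (x - b)) := by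
    rw [intervalIntegral.integral_sub (hcont.intervalIntegrable _ _) (by simp),
      intervalIntegral.integral_const, smul_eq_mul]
  have h2 : |∫ v in a..b, (Fj K (x - v) - Fj K (x - b))| ≤ 2 * K ^ 2 * (b - a) * |b - a| := by
    have := intervalIntegral.norm_integral_le_of_norm_le_const (a := a) (b := b) (C := 2 * (K : ℝ) ^ 2 * (b - a))
      (f := fun v => Fj K (x - v) - Fj K (x - b)) (by
        intro v hv
        rw [Set.uIoc_of_le (by linarith)] at hv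
        rw [Real.norm_eq_abs]
        refine (Fj_lip K _ _).trans ?_
        apply mul_le_mul_of_nonneg_left _ (by positivity)
        have e : x - v - (x - b) = b - v := by ring
        rw [e, abs_of_nonneg (by linarith [hv.2])]
        linarith [hv.1])
    rwa [Real.norm_eq_abs] at this
  rw [abs_of_nonneg l1] at h2
  have h3 : 2 * (K : ℝ) ^ 2 * (b - a) * (b - a) ≤ 2 * K ^ 2 / n ^ 2 := by
    calc 2 * (K : ℝ) ^ 2 * (b - a) * (b - a) ≤ 2 * K ^ 2 * (1 / n) * (1 / n) := by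
          apply mul_le_mul _ l2 l1 (by positivity)
          exact mul_le_mul_of_nonneg_left l2 (by positivity)
      _ = _ := by field_simp
  have h4 := Fj_le K (x - b)
  have h5 := Fj_nonneg K (x - b)
  have h6 : |(b - a) * Fj K (x - b) - Fj K (x - b) / ((n + 1 : ℕ) : ℝ)| ≤ K ^ 2 / n ^ 2 := by
    have e : (b - a) * Fj K (x - b) - Fj K (x - b) / ((n + 1 : ℕ) : ℝ) =
        (b - a - 1 / ((n : ℝ) + 1)) * Fj K (x - b) := by
      push_cast
      field_simp
    rw [e, abs_mul, abs_of_nonneg h5, abs_of_nonneg (by linarith)]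
    have h7 : b - a - 1 / ((n : ℝ) + 1) ≤ 1 / n ^ 2 := by
      have : 1 / (n : ℝ) - 1 / ((n : ℝ) + 1) ≤ 1 / n ^ 2 := by
        rw [div_sub_div _ _ hn0.ne' (by positivity), div_le_div_iff₀ (by positivity) (by positivity)]
        nlinarith
      linarith
    calc (b - a - 1 / ((n : ℝ) + 1)) * Fj K (x - b) ≤ 1 / n ^ 2 * K := mul_le_mul h7 h4 h5 (by positivity)
      _ ≤ 1 / n ^ 2 * K ^ 2 := by
          apply mul_le_mul_of_nonneg_left _ (by positivity)
          nlinarith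
      _ = _ := by ring
  have e : (∫ v in a..b, Fj K (x - v)) - Fj K (x - b) / ((n + 1 : ℕ) : ℝ) =
      ((∫ v in a..b, Fj K (x - v)) - (b - a) * Fj K (x - b)) +
      ((b - a) * Fj K (x - b) - Fj K (x - b) / ((n + 1 : ℕ) : ℝ)) := by ring
  rw [e]
  refine (abs_add_le _ _).trans ?_
  rw [h1]
  calc _ ≤ 2 * (K : ℝ) ^ 2 / n ^ 2 + K ^ 2 / (n : ℝ) ^ 2 := add_le_add (h2.trans h3) h6
    _ = _ := by ring

theorem sum_inv_sq_le {a b : ℕ} (ha : 1 ≤ a) (hab : a ≤ b) (D : ℝ) (hD : 0 ≤ D) :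
    ∑ n ∈ Ico a b, D / (n : ℝ) ^ 2 ≤ D * b / a ^ 2 := by
  have ha0 : (0 : ℝ) < a := by exact_mod_cast ha
  have h1 : ∀ n ∈ Ico a b, D / (n : ℝ) ^ 2 ≤ D / a ^ 2 := by
    intro n hn
    rw [mem_Ico] at hn
    apply div_le_div_of_nonneg_left hD (by positivity)
    exact pow_le_pow_left₀ ha0.le (by exact_mod_cast hn.1) 2
  refine (sum_le_sum h1).trans ?_
  rw [sum_const, nsmul_eq_mul, Nat.card_Ico, Nat.cast_sub hab]
  rw [mul_div_assoc', mul_comm]
  apply div_le_div_of_nonneg_right _ (by positivity)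
  apply mul_le_mul_of_nonneg_left _ hD
  linarith

/-- sums over an interval against the integral -/
theorem sum_int {K : ℕ} (hK : 1 ≤ K) (x : ℝ) {a b : ℕ} (ha : 1 ≤ a) (hab : a ≤ b) :
    |(∫ v in (Real.log a)..(Real.log b), Fj K (x - v)) - ∑ n ∈ Ioc a b, Fj K (x - Real.log n) / n| ≤
      3 * K ^ 2 * b / a ^ 2 := by
  have hcont : Continuous (fun v => Fj K (x - v)) := (Fj_cont K).comp (continuous_const.sub continuous_id)
  have h1 : ∑ n ∈ Ico a b, ∫ v in (Real.log n)..(Real.log ((n + 1 : ℕ) : ℝ)), Fj K (x - v) =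
      ∫ v in (Real.log a)..(Real.log b), Fj K (x - v) :=
    intervalIntegral.sum_integral_adjacent_intervals_Ico (a := fun n : ℕ => Real.log n) hab
      (fun _ _ => hcont.intervalIntegrable _ _)
  have h2 : ∑ n ∈ Ioc a b, Fj K (x - Real.log n) / n =
      ∑ n ∈ Ico a b, Fj K (x - Real.log ((n + 1 : ℕ) : ℝ)) / ((n + 1 : ℕ) : ℝ) := by
    have e : Ioc a b = (Ico a b).image (fun n => n + 1) := by
      ext i
      simp only [mem_Ioc, mem_image, mem_Ico]
      constructor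
      · intro h
        exact ⟨i - 1, by omega, by omega⟩
      · rintro ⟨j, hj, rfl⟩
        omega
    rw [e, sum_image (fun i _ j _ h => by simpa using h)]
  rw [← h1, h2, ← sum_sub_distrib]
  refine (abs_sum_le_sum_abs _ _).trans ?_
  refine le_trans (sum_le_sum fun n hn => int_step hK x (ha.trans (mem_Ico.1 hn).1)) ?_
  exact sum_inv_sq_le ha hab _ (by positivity)

/-- the von Mangoldt function against the integral -/
theorem sum_lam {K : ℕ} (hK : 1 ≤ K) (x : ℝ) {a b : ℕ} (ha : 1 ≤ a) (hab : a ≤ b) {E : ℝ}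
    (hE : ∀ m : ℕ, a ≤ m → m ≤ b → |Chebyshev.psi m - m| ≤ E) :
    |(∑ n ∈ Ioc a b, ArithmeticFunction.vonMangoldt n / n * Fj K (x - Real.log n)) -
      ∫ v in (Real.log a)..(Real.log b), Fj K (x - v)| ≤
      2 * E * (K / b + 3 * K ^ 2 * b / a ^ 2) + 3 * K ^ 2 * b / a ^ 2 := by
  have hK0 : (0 : ℝ) < K := by exact_mod_cast hK
  have hE0 : 0 ≤ E := (abs_nonneg _).trans (hE a le_rfl hab)
  have hb0 : (0 : ℝ) < b := by exact_mod_cast (ha.trans hab)
  set f : ℕ → ℝ := fun n => Fj K (x - Real.log n) / n with hf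
  set c : ℕ → ℝ := fun n => ArithmeticFunction.vonMangoldt n - 1 with hc
  have hC : ∀ m, a ≤ m → m ≤ b → |∑ n ∈ Ioc a m, c n| ≤ 2 * E := by
    intro m h1 h2
    have e : ∑ n ∈ Ioc a m, c n = (Chebyshev.psi m - m) - (Chebyshev.psi a - a) := by
      have h3 : ∀ m : ℕ, a ≤ m → Chebyshev.psi (m : ℝ) - Chebyshev.psi (a : ℝ) =
          ∑ n ∈ Ioc a m, ArithmeticFunction.vonMangoldt n := by
        intro m hm
        unfold Chebyshev.psi
        rw [Nat.floor_natCast, Nat.floor_natCast]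
        have e1 : Ioc 0 m = Ioc 0 a ∪ Ioc a m := (Ioc_union_Ioc_eq_Ioc (Nat.zero_le a) hm).symm
        rw [e1, sum_union (Ioc_disjoint_Ioc_of_le le_rfl)]
        ring
      rw [hc]
      simp only
      rw [sum_sub_distrib, ← h3 m h1, sum_const, Nat.card_Ioc, nsmul_eq_mul, Nat.cast_sub h1]
      ring
    rw [e]
    refine (abs_sub _ _).trans ?_
    have h3 := hE m h1 h2
    have h4 := hE a le_rfl hab
    linarith
  have h1 := abel1 c f hab hC
  have h2 : |f b| ≤ K / b := by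
    rw [hf]
    simp only
    rw [abs_div, abs_of_nonneg (Fj_nonneg _ _), abs_of_pos hb0]
    exact div_le_div_of_nonneg_right (Fj_le _ _) hb0.le
  have h3 : ∑ n ∈ Ico a b, |f (n + 1) - f n| ≤ 3 * K ^ 2 * b / a ^ 2 := by
    refine le_trans (sum_le_sum fun n hn => f_step hK x (ha.trans (mem_Ico.1 hn).1)) ?_
    exact sum_inv_sq_le ha hab _ (by positivity)
  have h4 := sum_int hK x ha hab
  have e : (∑ n ∈ Ioc a b, ArithmeticFunction.vonMangoldt n / n * Fj K (x - Real.log n)) -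
      ∫ v in (Real.log a)..(Real.log b), Fj K (x - v) =
      ∑ n ∈ Ioc a b, c n * f n -
        ((∫ v in (Real.log a)..(Real.log b), Fj K (x - v)) - ∑ n ∈ Ioc a b, Fj K (x - Real.log n) / n) := by
    have : ∑ n ∈ Ioc a b, c n * f n =
        ∑ n ∈ Ioc a b, ArithmeticFunction.vonMangoldt n / n * Fj K (x - Real.log n) -
        ∑ n ∈ Ioc a b, Fj K (x - Real.log n) / n := by
      rw [← sum_sub_distrib]
      apply sum_congr rfl
      intro n _
      rw [hc, hf]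
      simp only
      ring
    rw [this]
    ring
  rw [e]
  refine (abs_sub _ _).trans (add_le_add (h1.trans ?_) h4)
  apply mul_le_mul_of_nonneg_left (add_le_add h2 h3) (by linarith)

/-- the integral of the kernel over a long interval -/
theorem Fj_long_int {K : ℕ} (hK : 1 ≤ K) {α β ρ : ℝ} (hρ : 0 < ρ) (h1 : α ≤ -ρ) (h2 : -Real.pi ≤ α)
    (h3 : ρ ≤ β) (h4 : β ≤ Real.pi) :
    |(∫ u in α..β, Fj K u) - 2 * Real.pi| ≤ 2 * Real.pi ^ 3 / (K * ρ ^ 2) := by
  have hK0 : (0 : ℝ) < K := by exact_mod_cast hK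
  have hpi := Real.pi_pos
  have hi : ∀ p q : ℝ, IntervalIntegrable (fun u => Fj K u) volume p q := fun p q =>
    (Fj_cont K).intervalIntegrable _ _
  have hsplit : (∫ u in (-Real.pi)..α, Fj K u) + (∫ u in α..β, Fj K u) + (∫ u in β..Real.pi, Fj K u) =
      2 * Real.pi := by
    rw [intervalIntegral.integral_add_adjacent_intervals (hi _ _) (hi _ _),
      intervalIntegral.integral_add_adjacent_intervals (hi _ _) (hi _ _),
      Pool.Agent.H426R3.CL.Fj_int hK]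
  have hb : ∀ u : ℝ, ρ ≤ |u| → |u| ≤ Real.pi → Fj K u ≤ Real.pi ^ 2 / (K * ρ ^ 2) := by
    intro u hu1 hu2
    have hu : u ≠ 0 := by
      rintro rfl
      rw [abs_zero] at hu1
      linarith
    refine (Fj_le_sq hK hu hu2).trans ?_
    apply div_le_div_of_nonneg_left (by positivity) (by positivity)
    apply mul_le_mul_of_nonneg_left _ hK0.le
    rw [← sq_abs u]
    exact pow_le_pow_left₀ hρ.le hu1 2
  have t1 : (∫ u in (-Real.pi)..α, Fj K u) ≤ Real.pi ^ 3 / (K * ρ ^ 2) := by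
    have := intervalIntegral.integral_mono_on (μ := volume) h2 (hi _ _) (intervalIntegrable_const)
      (g := fun _ => Real.pi ^ 2 / (K * ρ ^ 2)) (by
        intro u hu
        have e : |u| = -u := abs_of_nonpos (by linarith [hu.2])
        apply hb u <;> rw [e] <;> linarith [hu.1, hu.2])
    refine this.trans ?_
    rw [intervalIntegral.integral_const, smul_eq_mul]
    calc (α - -Real.pi) * (Real.pi ^ 2 / (K * ρ ^ 2)) ≤ Real.pi * (Real.pi ^ 2 / (K * ρ ^ 2)) :=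
          mul_le_mul_of_nonneg_right (by linarith) (by positivity)
      _ = _ := by ring
  have t2 : (∫ u in β..Real.pi, Fj K u) ≤ Real.pi ^ 3 / (K * ρ ^ 2) := by
    have := intervalIntegral.integral_mono_on (μ := volume) h4 (hi _ _) (intervalIntegrable_const)
      (g := fun _ => Real.pi ^ 2 / (K * ρ ^ 2)) (by
        intro u hu
        have e : |u| = u := abs_of_nonneg (by linarith [hu.1])
        apply hb u <;> rw [e] <;> linarith [hu.1, hu.2])
    refine this.trans ?_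
    rw [intervalIntegral.integral_const, smul_eq_mul]
    calc (Real.pi - β) * (Real.pi ^ 2 / (K * ρ ^ 2)) ≤ Real.pi * (Real.pi ^ 2 / (K * ρ ^ 2)) :=
          mul_le_mul_of_nonneg_right (by linarith) (by positivity)
      _ = _ := by ring
  have t3 : 0 ≤ ∫ u in (-Real.pi)..α, Fj K u :=
    intervalIntegral.integral_nonneg h2 (fun u _ => Fj_nonneg _ _)
  have t4 : 0 ≤ ∫ u in β..Real.pi, Fj K u :=
    intervalIntegral.integral_nonneg h4 (fun u _ => Fj_nonneg _ _)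
  have e : 2 * Real.pi ^ 3 / (K * ρ ^ 2) = Real.pi ^ 3 / (K * ρ ^ 2) + Real.pi ^ 3 / (K * ρ ^ 2) := by ring
  rw [e, abs_le]
  constructor <;> linarith

/-- the error of the prime number theorem in a range -/
theorem psi_err (U : ℕ) : ∃ C : ℝ, 0 < C ∧ ∃ Y₀ : ℝ, 10 ≤ Y₀ ∧ ∀ Y : ℝ, Y₀ ≤ Y → ∀ m : ℕ,
    Real.exp (Y - 1) ≤ m → (m : ℝ) ≤ Real.exp (Y + 1) →
    |Chebyshev.psi m - m| ≤ C * Real.exp Y / Y ^ U := by
  obtain ⟨C, hC, N₁, h⟩ := Pool.Agent.H442R2.EHI.PntErrAux.largeU U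
  obtain ⟨Y₁, hY₁⟩ := poly_le_exp 2 U one_pos
  refine ⟨C * 3 * 2 ^ U + 1, by positivity, max (max 10 Y₁) (N₁ + 2), (le_max_left _ _).trans (le_max_left _ _), ?_⟩
  intro Y hY m hm1 hm2
  have hY10 : 10 ≤ Y := ((le_max_left _ _).trans (le_max_left _ _)).trans hY
  have hYb := hY₁ Y (((le_max_right _ _).trans (le_max_left _ _)).trans hY)
  have hYc : (N₁ : ℝ) + 2 ≤ Y := (le_max_right _ _).trans hY
  have hY0 : 0 < Y := by linarith
  have hm0 : (0 : ℝ) < m := (Real.exp_pos _).trans_le hm1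
  have hmN : N₁ ≤ m := by
    have h1 : (N₁ : ℝ) ≤ m := by
      have := Real.add_one_le_exp (Y - 1)
      linarith
    exact_mod_cast h1
  have h1 := h m hmN
  have h2 : Y / 2 ≤ Real.log m := by
    have : Y - 1 ≤ Real.log m := (Real.le_log_iff_exp_le hm0).2 hm1
    linarith
  have h3 : (m : ℝ) / Real.log m ^ U ≤ Real.exp (Y + 1) / (Y / 2) ^ U :=
    div_le_div₀ (Real.exp_pos _).le hm2 (by positivity) (pow_le_pow_left₀ (by positivity) h2 U)
  have h4 : Real.exp (Y + 1) ≤ 3 * Real.exp Y := by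
    rw [Real.exp_add, mul_comm]
    apply mul_le_mul_of_nonneg_right _ (Real.exp_pos _).le
    have := Real.exp_one_lt_d9
    linarith
  have h5 : Real.exp (Y + 1) / (Y / 2) ^ U ≤ 3 * 2 ^ U * Real.exp Y / Y ^ U := by
    rw [div_pow, div_div_eq_mul_div]
    apply div_le_div_of_nonneg_right _ (by positivity)
    calc Real.exp (Y + 1) * 2 ^ U ≤ 3 * Real.exp Y * 2 ^ U := mul_le_mul_of_nonneg_right h4 (by positivity)
      _ = _ := by ring
  have h6 : (2 : ℝ) ≤ Real.exp Y / Y ^ U := by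
    rw [le_div_iff₀ (by positivity)]
    rw [one_mul] at hYb
    exact hYb
  calc |Chebyshev.psi m - m| ≤ C * (m / Real.log m ^ U) + 2 := h1
    _ ≤ C * (3 * 2 ^ U * Real.exp Y / Y ^ U) + Real.exp Y / Y ^ U :=
        add_le_add (mul_le_mul_of_nonneg_left (h3.trans h5) hC.le) h6
    _ = (C * 3 * 2 ^ U + 1) * Real.exp Y / Y ^ U := by ring

/-- the near range -/
noncomputable def na (Y : ℝ) : ℕ := ⌈Real.exp (Y - 1 / 2)⌉₊ - 1

noncomputable def nb (Y : ℝ) : ℕ := ⌊Real.exp (Y + 1 / 2)⌋₊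

/-- the integers of the near range -/
noncomputable def NR (Y : ℝ) : Finset ℕ := Ioc (na Y) (nb Y)

theorem mem_NR {Y : ℝ} {n : ℕ} : n ∈ NR Y ↔ 1 ≤ n ∧ |Real.log n - Y| ≤ 1 / 2 := by
  have hpos : 0 < ⌈Real.exp (Y - 1 / 2)⌉₊ := Nat.ceil_pos.2 (Real.exp_pos _)
  unfold NR na nb
  rw [mem_Ioc]
  constructor
  · rintro ⟨h1, h2⟩
    have h3 : ⌈Real.exp (Y - 1 / 2)⌉₊ ≤ n := by omega
    have h4 : Real.exp (Y - 1 / 2) ≤ n := Nat.ceil_le.1 h3
    have h5 : (n : ℝ) ≤ Real.exp (Y + 1 / 2) := (Nat.le_floor_iff (Real.exp_pos _).le).1 h2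
    have hn : 1 ≤ n := by omega
    have hn0 : (0 : ℝ) < n := by exact_mod_cast hn
    refine ⟨hn, ?_⟩
    have h6 := (Real.le_log_iff_exp_le hn0).2 h4
    have h7 := (Real.log_le_iff_le_exp hn0).2 h5
    rw [abs_le]
    constructor <;> linarith
  · rintro ⟨h1, h2⟩
    have hn0 : (0 : ℝ) < n := by exact_mod_cast h1
    obtain ⟨h3, h4⟩ := abs_le.1 h2
    have h5 : Real.exp (Y - 1 / 2) ≤ n := (Real.le_log_iff_exp_le hn0).1 (by linarith)
    have h6 : (n : ℝ) ≤ Real.exp (Y + 1 / 2) := (Real.log_le_iff_le_exp hn0).1 (by linarith)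
    have h7 := Nat.ceil_le.2 h5
    exact ⟨by omega, Nat.le_floor h6⟩

theorem NR_sub {Y : ℝ} : NR Y ⊆ MM Y := by
  intro n hn
  rw [mem_NR] at hn
  unfold MM
  rw [mem_Icc]
  have hn0 : (0 : ℝ) < n := by exact_mod_cast hn.1
  refine ⟨hn.1, Nat.le_floor ((Real.log_le_iff_le_exp hn0).1 ?_)⟩
  linarith [(abs_le.1 hn.2).2]

theorem na_nb {Y : ℝ} (hY : 10 ≤ Y) : 1 ≤ na Y ∧ na Y ≤ nb Y ∧ Real.exp (Y - 1 / 2) - 1 ≤ na Y ∧
    (na Y : ℝ) ≤ Real.exp (Y - 1 / 2) ∧ (nb Y : ℝ) ≤ Real.exp (Y + 1 / 2) ∧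
    Real.exp (Y + 1 / 2) - 1 ≤ nb Y ∧ Real.exp (Y - 0.51) ≤ na Y ∧ Real.exp (Y + 0.49) ≤ nb Y := by
  have hpos : 0 < ⌈Real.exp (Y - 1 / 2)⌉₊ := Nat.ceil_pos.2 (Real.exp_pos _)
  have e1 : ((na Y : ℕ) : ℝ) = (⌈Real.exp (Y - 1 / 2)⌉₊ : ℝ) - 1 := by
    unfold na
    rw [Nat.cast_sub hpos]
    simp
  have h1 : Real.exp (Y - 1 / 2) ≤ (⌈Real.exp (Y - 1 / 2)⌉₊ : ℝ) := Nat.le_ceil _
  have h2 : (⌈Real.exp (Y - 1 / 2)⌉₊ : ℝ) < Real.exp (Y - 1 / 2) + 1 := Nat.ceil_lt_add_one (Real.exp_pos _).le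
  have h3 : (nb Y : ℝ) ≤ Real.exp (Y + 1 / 2) := Nat.floor_le (Real.exp_pos _).le
  have h4 : Real.exp (Y + 1 / 2) < nb Y + 1 := Nat.lt_floor_add_one _
  have h5 : Real.exp 9 ≤ Real.exp (Y - 1) := Real.exp_le_exp.2 (by linarith)
  have h6 : (200 : ℝ) ≤ Real.exp 9 := by
    have h7 : Real.exp 9 = Real.exp 1 ^ 9 := by
      rw [← Real.exp_nat_mul]
      norm_num
    have h8 := Real.exp_one_gt_d9
    rw [h7]
    calc (200 : ℝ) ≤ 2 ^ 9 := by norm_num
      _ ≤ Real.exp 1 ^ 9 := pow_le_pow_left₀ (by norm_num) (by linarith) 9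
  have h7 : Real.exp (Y - 1 / 2) = Real.exp (Y - 0.51) * Real.exp 0.01 := by
    rw [← Real.exp_add]
    congr 1
    ring
  have h8 : Real.exp (Y + 1 / 2) = Real.exp (Y + 0.49) * Real.exp 0.01 := by
    rw [← Real.exp_add]
    congr 1
    ring
  have h9 : 1.01 ≤ Real.exp 0.01 := by
    have := Real.add_one_le_exp (0.01 : ℝ)
    linarith
  have h10 : Real.exp (Y - 1) ≤ Real.exp (Y - 0.51) := Real.exp_le_exp.2 (by linarith)
  have h11 : Real.exp (Y - 1) ≤ Real.exp (Y + 0.49) := Real.exp_le_exp.2 (by linarith)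
  have h12 : Real.exp (Y - 0.51) ≤ na Y := by
    rw [e1]
    nlinarith
  have h13 : Real.exp (Y + 0.49) ≤ nb Y := by nlinarith
  refine ⟨?_, ?_, by rw [e1]; linarith, by rw [e1]; linarith, h3, by linarith, h12, h13⟩
  · have : (1 : ℝ) ≤ na Y := by linarith
    exact_mod_cast this
  · have : (na Y : ℝ) ≤ nb Y := by
      have h14 : Real.exp (Y - 1 / 2) ≤ Real.exp (Y + 0.49) := Real.exp_le_exp.2 (by linarith)
      rw [e1]
      linarith
    exact_mod_cast this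

end Pool.Agent.Run7.h684.E2
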