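import Pool.Agent.Run7.h684.E2.Bt0
import Pool.Agent.Run7.h684.E2.P0

/-!
Project E2 (helper684): coalescence along short windows.
-/

set_option autoImplicit false

namespace Pool.Agent.Run7.h684.E2

open Finset Pool.Agent.H499R2.CO Pool.Agent.Y967.CM

theorem Bt (e : ℕ) {η : ℝ} (hη : 0 < η) : ∃ θ : ℝ, 0 < θ ∧ θ ≤ 1 / 4 ∧ ∀ R : ℝ, 1 ≤ R → ∃ Y₀ : ℝ, 100 ≤ Y₀ ∧
    ∀ Y : ℝ, Y₀ ≤ Y → ∀ F : ℤ → ℝ, Coal F → (∀ x, |F x| ≤ 1) → ∀ s : ℤ, Ok e (θ * Y) s →
    ∀ p : ℕ, p % 2 = 1 → (p : ℝ) ≤ Real.exp (θ * Y) → ∀ u : ℝ, |u| ≤ 2 * R * Real.exp (-Y) →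
    ∑ n ∈ (NR Y).filter Nat.Prime, Real.log n / n *
      |F (s * (⌊(p * n : ℕ) * Real.exp u⌋₊ : ℤ)) - F (s * ((p * n : ℕ) : ℤ))| ≤ η := by
  classical
  obtain ⟨C, hC, hqt⟩ := Pool.Agent.W38.PR.q_theta
  set η₁ : ℝ := η / (20000 * 2 ^ e) with hη₁
  have hη₁0 : 0 < η₁ := by positivity
  obtain ⟨θ₀, hθ₀, hθ₀1, hθ₀η⟩ := theta_small hC hη₁0
  refine ⟨θ₀ / 16, by positivity, by linarith, fun R hR => ?_⟩
  refine ⟨max 1000 (50 * (C + Real.log (20 * R) + 2) / θ₀), le_trans (by norm_num) (le_max_left _ _), ?_⟩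
  intro Y hY F hF hF1 s hs p hp hpY u hu
  have hY1 : 1000 ≤ Y := (le_max_left _ _).trans hY
  have hY2 : 50 * (C + Real.log (20 * R) + 2) ≤ θ₀ * Y := by
    have := (le_max_right _ _).trans hY
    rw [div_le_iff₀ hθ₀] at this
    linarith
  have hY0 : 0 < Y := by linarith
  have hlogR : 0 ≤ Real.log (20 * R) := Real.log_nonneg (by linarith)
  set T : ℕ := ⌊Y / 4⌋₊ with hT
  have hT1 : (T : ℝ) ≤ Y / 4 := Nat.floor_le (by positivity)
  have hT2 : Y / 4 < T + 1 := Nat.lt_floor_add_one _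
  have hT3 : Y / 5 ≤ T := by linarith
  have hT4 : 1 ≤ T := by
    have : (1 : ℝ) ≤ T := by linarith
    exact_mod_cast this
  have hCT : C ≤ θ₀ * T := by
    have : θ₀ * (Y / 5) ≤ θ₀ * T := mul_le_mul_of_nonneg_left hT3 hθ₀.le
    linarith
  have hl2 := Real.log_two_gt_d9
  have hl2' := Real.log_two_lt_d9
  have h4T : (4 : ℝ) ^ T ≤ Real.exp (0.35 * Y) := by
    have e : (4 : ℝ) ^ T = Real.exp (T * Real.log 4) := by
      rw [← Real.rpow_natCast, Real.rpow_def_of_pos (by norm_num), mul_comm]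
    have e4 : Real.log 4 = 2 * Real.log 2 := by
      rw [show (4 : ℝ) = 2 ^ 2 by norm_num, Real.log_pow]
      norm_num
    rw [e, e4]
    apply Real.exp_le_exp.2
    calc (T : ℝ) * (2 * Real.log 2) ≤ (Y / 4) * 1.4 := mul_le_mul hT1 (by linarith) (by positivity) (by positivity)
      _ = 0.35 * Y := by ring
  -- the slope
  set lam : ℝ := p * (Real.exp u - 1) with hlam
  have hexpY : Real.exp (-Y) * Real.exp Y = 1 := by
    rw [← Real.exp_add]
    simp
  have hR20 : Real.exp (Real.log (20 * R)) = 20 * R := Real.exp_log (by linarith)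
  have hRexp : 20 * R ≤ Real.exp (θ₀ * Y / 50) := by
    rw [← hR20]
    apply Real.exp_le_exp.2
    linarith
  have hu1 : |u| ≤ 1 := by
    refine hu.trans ?_
    have h1 : 20 * R ≤ Real.exp Y := by
      refine hRexp.trans (Real.exp_le_exp.2 ?_)
      nlinarith
    have h2 : 2 * R * Real.exp (-Y) ≤ Real.exp Y * Real.exp (-Y) :=
      mul_le_mul_of_nonneg_right (by linarith) (Real.exp_pos _).le
    rw [mul_comm (Real.exp Y), hexpY] at h2
    exact h2
  have hlam1 : |lam| ≤ 4 * R * Real.exp (θ₀ / 16 * Y - Y) := by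
    have h1 := Real.abs_exp_sub_one_le hu1
    rw [hlam, abs_mul, abs_of_nonneg (Nat.cast_nonneg p)]
    calc (p : ℝ) * |Real.exp u - 1| ≤ Real.exp (θ₀ / 16 * Y) * (2 * (2 * R * Real.exp (-Y))) := by
          apply mul_le_mul hpY _ (abs_nonneg _) (Real.exp_pos _).le
          linarith
      _ = 4 * R * Real.exp (θ₀ / 16 * Y - Y) := by
          rw [sub_eq_add_neg, Real.exp_add]
          ring
  have hlam2 : |lam| * 4 ^ T < 1 := by
    calc |lam| * 4 ^ T ≤ (4 * R * Real.exp (θ₀ / 16 * Y - Y)) * Real.exp (0.35 * Y) :=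
          mul_le_mul hlam1 h4T (by positivity) (by positivity)
      _ ≤ (Real.exp (θ₀ * Y / 50) * Real.exp (θ₀ / 16 * Y - Y)) * Real.exp (0.35 * Y) := by
          apply mul_le_mul_of_nonneg_right _ (Real.exp_pos _).le
          exact mul_le_mul_of_nonneg_right (by linarith) (Real.exp_pos _).le
      _ = Real.exp (θ₀ * Y / 50 + (θ₀ / 16 * Y - Y) + 0.35 * Y) := by rw [Real.exp_add, Real.exp_add]
      _ < Real.exp 0 := Real.exp_lt_exp.2 (by nlinarith)
      _ = 1 := Real.exp_zero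
  have hexphalf : Real.exp (Y + 1 / 2) ≤ 2 * Real.exp Y := by
    have h1 : Real.exp (1 / 2) ≤ 2 := by
      have h3 : Real.exp (1 / 2) ^ 2 = Real.exp 1 := by
        rw [← Real.exp_nat_mul]
        norm_num
      have h4 := Real.exp_one_lt_d9
      nlinarith [Real.exp_pos (1 / 2)]
    rw [Real.exp_add, mul_comm]
    exact mul_le_mul_of_nonneg_right h1 (Real.exp_pos _).le
  have hlam3 : Real.exp (θ₀ / 16 * Y) * (|lam| * Real.exp (Y + 1 / 2) + 3) ≤ (2 : ℝ) ^ (θ₀ * T) := by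
    have h1 : |lam| * Real.exp (Y + 1 / 2) ≤ 8 * R * Real.exp (θ₀ / 16 * Y) := by
      calc |lam| * Real.exp (Y + 1 / 2) ≤ (4 * R * Real.exp (θ₀ / 16 * Y - Y)) * (2 * Real.exp Y) :=
            mul_le_mul hlam1 hexphalf (Real.exp_pos _).le (by positivity)
        _ = 8 * R * (Real.exp (θ₀ / 16 * Y - Y) * Real.exp Y) := by ring
        _ = 8 * R * Real.exp (θ₀ / 16 * Y) := by
            rw [← Real.exp_add]
            congr 2
            ring
    have h2 : (1 : ℝ) ≤ Real.exp (θ₀ / 16 * Y) := Real.one_le_exp (by positivity)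
    calc Real.exp (θ₀ / 16 * Y) * (|lam| * Real.exp (Y + 1 / 2) + 3)
        ≤ Real.exp (θ₀ / 16 * Y) * (8 * R * Real.exp (θ₀ / 16 * Y) + 3 * Real.exp (θ₀ / 16 * Y)) := by
          apply mul_le_mul_of_nonneg_left _ (Real.exp_pos _).le
          linarith
      _ ≤ Real.exp (θ₀ / 16 * Y) * (20 * R * Real.exp (θ₀ / 16 * Y)) := by
          apply mul_le_mul_of_nonneg_left _ (Real.exp_pos _).le
          nlinarith [Real.exp_pos (θ₀ / 16 * Y)]
      _ ≤ Real.exp (θ₀ / 16 * Y) * (Real.exp (θ₀ * Y / 50) * Real.exp (θ₀ / 16 * Y)) := by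
          apply mul_le_mul_of_nonneg_left _ (Real.exp_pos _).le
          exact mul_le_mul_of_nonneg_right hRexp (Real.exp_pos _).le
      _ = Real.exp (θ₀ / 16 * Y + (θ₀ * Y / 50 + θ₀ / 16 * Y)) := by rw [Real.exp_add, Real.exp_add]
      _ ≤ Real.exp (Real.log 2 * (θ₀ * T)) := by
          apply Real.exp_le_exp.2
          have h3 : Y / 4 - 1 ≤ T := by linarith
          have h4 : θ₀ * (Y / 4 - 1) ≤ θ₀ * T := mul_le_mul_of_nonneg_left h3 hθ₀.le
          have h5 : 0.69 * (θ₀ * T) ≤ Real.log 2 * (θ₀ * T) :=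
            mul_le_mul_of_nonneg_right (by linarith) (by positivity)
          have h6 : θ₀ * 1000 ≤ θ₀ * Y := mul_le_mul_of_nonneg_left hY1 hθ₀.le
          linarith
      _ = (2 : ℝ) ^ (θ₀ * T) := by rw [Real.rpow_def_of_pos (by norm_num)]
  -- the shift
  have hshift : ∀ n : ℕ, (⌊((p * n : ℕ) : ℝ) * Real.exp u⌋₊ : ℤ) = ((p * n : ℕ) : ℤ) + ⌊lam * n⌋ := by
    intro n
    have e : ((p * n : ℕ) : ℝ) * Real.exp u = (((p * n : ℕ) : ℤ) : ℝ) + lam * n := by
      rw [hlam]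
      push_cast
      ring
    rw [Int.natCast_floor_eq_floor (by positivity), e, Int.floor_intCast_add]
  have hss : ¬ (2 : ℤ) ^ (e + 1) ∣ s * p := by
    intro hd
    apply hs.2
    have h1 : IsCoprime ((2 : ℤ) ^ (e + 1)) (p : ℤ) := by
      have : (2 ^ (e + 1)).Coprime p := by
        apply Nat.Coprime.pow_left
        rw [Nat.coprime_two_left]
        exact Nat.odd_iff.2 hp
      exact_mod_cast (Nat.isCoprime_iff_coprime.2 this)
    exact h1.dvd_of_dvd_mul_right hd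
  -- the bad primes
  set P := (NR Y).filter Nat.Prime with hP
  set bad := P.filter (fun n : ℕ => surv 1 T (0, s * ⌊lam * (n : ℝ)⌋) (s * p * (n : ℤ))) with hbad
  have hgood : ∀ n ∈ P, n ∉ bad →
      F (s * (⌊((p * n : ℕ) : ℝ) * Real.exp u⌋₊ : ℤ)) = F (s * ((p * n : ℕ) : ℤ)) := by
    intro n hn hnb
    have h1 : ¬ surv 1 T (0, s * ⌊lam * n⌋) (s * p * ((n : ℕ) : ℤ)) := by
      intro h
      exact hnb (mem_filter.2 ⟨hn, h⟩)
    have h2 := coal_T h1
    rw [hshift n]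
    apply hF T
    rw [← show (3 : ℤ) ^ 0 * (s * p * ((n : ℕ) : ℤ)) + s * ⌊lam * n⌋ =
      s * (((p * n : ℕ) : ℤ) + ⌊lam * n⌋) by push_cast; ring, h2]
    congr 1
    push_cast
    ring
  have hbadcard : (bad.card : ℝ) ≤ 3 * (2 ^ e * η₁) * (44 * 8 / Y) * (2 * Real.exp (Y + 1 / 2)) := by
    set J : ℕ := ⌊Real.exp (Y + 1 / 2) / 4 ^ T⌋₊ with hJ
    have hJ1 : (J : ℝ) ≤ Real.exp (Y + 1 / 2) / 4 ^ T := Nat.floor_le (by positivity)
    have hsub : bad ⊆ (range (J + 1)).biUnion (fun j : ℕ => (Icc (-1 : ℤ) 1).biUnion (fun i : ℤ =>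
        (Ico (j * 4 ^ T) ((j + 1) * 4 ^ T)).filter (fun n : ℕ => n.Prime ∧
          surv 1 T (0, s * (⌊lam * ((j * 4 ^ T : ℕ) : ℝ)⌋ + i)) (s * p * (n : ℤ))))) := by
      intro n hn
      rw [hbad, mem_filter, hP, mem_filter] at hn
      obtain ⟨⟨h1, h2⟩, h3⟩ := hn
      have h4T0 : 0 < 4 ^ T := by positivity
      have hn1 : n < (n / 4 ^ T + 1) * 4 ^ T := by
        have := Nat.lt_div_mul_add (a := n) h4T0
        calc n < n / 4 ^ T * 4 ^ T + 4 ^ T := this
          _ = _ := by ring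
      have hn2 : n / 4 ^ T * 4 ^ T ≤ n := Nat.div_mul_le_self _ _
      have hnle : (n : ℝ) ≤ Real.exp (Y + 1 / 2) := by
        have h5 := mem_NR.1 h1
        have hn0 : (0 : ℝ) < n := by exact_mod_cast h5.1
        rw [← Real.log_le_iff_le_exp hn0]
        linarith [(abs_le.1 h5.2).2]
      rw [mem_biUnion]
      refine ⟨n / 4 ^ T, ?_, ?_⟩
      · rw [mem_range, Nat.lt_succ_iff, hJ]
        apply Nat.le_floor
        rw [le_div_iff₀ (by positivity)]
        refine le_trans ?_ hnle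
        exact_mod_cast hn2
      · rw [mem_biUnion]
        have h5 : |lam * n - lam * ((n / 4 ^ T * 4 ^ T : ℕ) : ℝ)| < 1 := by
          rw [← mul_sub, abs_mul]
          refine lt_of_le_of_lt ?_ hlam2
          apply mul_le_mul_of_nonneg_left _ (abs_nonneg _)
          have a1 : ((n / 4 ^ T * 4 ^ T : ℕ) : ℝ) ≤ n := by exact_mod_cast hn2
          have a2 : (n : ℝ) < ((n / 4 ^ T + 1 : ℕ) : ℝ) * 4 ^ T := by exact_mod_cast hn1
          push_cast at a1 a2 ⊢
          rw [abs_of_nonneg (by linarith)]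
          linarith
        have h6 := floor_near h5
        refine ⟨⌊lam * n⌋ - ⌊lam * ((n / 4 ^ T * 4 ^ T : ℕ) : ℝ)⌋, ?_, ?_⟩
        · rw [mem_Icc]
          exact abs_le.1 h6
        · rw [mem_filter, mem_Ico]
          refine ⟨⟨hn2, hn1⟩, h2, ?_⟩
          rw [add_sub_cancel]
          exact h3
    have hone : ∀ j ∈ range (J + 1), ∀ i ∈ Icc (-1 : ℤ) 1,
        (#{n ∈ Ico (j * 4 ^ T) ((j + 1) * 4 ^ T) | n.Prime ∧
          surv 1 T (0, s * (⌊lam * ((j * 4 ^ T : ℕ) : ℝ)⌋ + i)) (s * p * ((n : ℕ) : ℤ))} : ℝ) ≤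
          2 ^ e * η₁ * (44 * 4 ^ T / (T * Real.log 2)) := by
      intro j hj i hi
      apply bad_block hT4 _ hss
      refine (hqt θ₀ hθ₀ hθ₀1 T hCT 0 _ (by norm_num; positivity) ?_).trans hθ₀η
      refine le_trans ?_ hlam3
      rw [mem_range, Nat.lt_succ_iff] at hj
      have h1 : (j : ℝ) * 4 ^ T ≤ Real.exp (Y + 1 / 2) := by
        have : (j : ℝ) ≤ J := by exact_mod_cast hj
        have h2 := this.trans hJ1
        rw [le_div_iff₀ (by positivity)] at h2
        exact h2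
      have h2 : |lam * ((j * 4 ^ T : ℕ) : ℝ)| ≤ |lam| * Real.exp (Y + 1 / 2) := by
        rw [abs_mul]
        apply mul_le_mul_of_nonneg_left _ (abs_nonneg _)
        push_cast
        rw [abs_of_nonneg (by positivity)]
        exact h1
      have h3 : |(⌊lam * ((j * 4 ^ T : ℕ) : ℝ)⌋ : ℝ)| ≤ |lam * ((j * 4 ^ T : ℕ) : ℝ)| + 1 := by
        have a1 := Int.floor_le (lam * ((j * 4 ^ T : ℕ) : ℝ))
        have a2 := Int.lt_floor_add_one (lam * ((j * 4 ^ T : ℕ) : ℝ))
        rw [abs_le]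
        constructor
        · have := neg_abs_le (lam * ((j * 4 ^ T : ℕ) : ℝ))
          linarith
        · have := le_abs_self (lam * ((j * 4 ^ T : ℕ) : ℝ))
          linarith
      have h4 : |((s * (⌊lam * ((j * 4 ^ T : ℕ) : ℝ)⌋ + i) : ℤ) : ℝ)| =
          |(s : ℝ)| * |(⌊lam * ((j * 4 ^ T : ℕ) : ℝ)⌋ : ℝ) + i| := by
        push_cast
        rw [abs_mul]
      rw [h4]
      apply mul_le_mul hs.1 _ (abs_nonneg _) (Real.exp_pos _).le
      have h5 : |(i : ℝ)| ≤ 1 := by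
        rw [mem_Icc] at hi
        rw [abs_le]
        constructor
        · exact_mod_cast hi.1
        · exact_mod_cast hi.2
      refine (abs_add_le _ _).trans ?_
      linarith
    have hcard : (bad.card : ℝ) ≤ ∑ j ∈ range (J + 1), ∑ i ∈ Icc (-1 : ℤ) 1, 2 ^ e * η₁ * (44 * 4 ^ T / (T * Real.log 2)) := by
      refine le_trans (Nat.cast_le.2 ((card_le_card hsub).trans card_biUnion_le)) ?_
      rw [Nat.cast_sum]
      refine sum_le_sum fun j hj => ?_
      refine le_trans (Nat.cast_le.2 card_biUnion_le) ?_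
      rw [Nat.cast_sum]
      exact sum_le_sum fun i hi => hone j hj i hi
    rw [sum_const, sum_const, card_range, nsmul_eq_mul, nsmul_eq_mul] at hcard
    have h3 : ((Icc (-1 : ℤ) 1).card : ℝ) = 3 := by
      have : (Icc (-1 : ℤ) 1).card = 3 := by decide
      rw [this]
      norm_num
    rw [h3] at hcard
    have h4 : (4 : ℝ) ^ T * ((J + 1 : ℕ) : ℝ) ≤ 2 * Real.exp (Y + 1 / 2) := by
      push_cast
      have a1 : (4 : ℝ) ^ T * J ≤ Real.exp (Y + 1 / 2) := by
        rw [le_div_iff₀ (by positivity)] at hJ1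
        linarith
      have a2 : (4 : ℝ) ^ T ≤ Real.exp (Y + 1 / 2) := h4T.trans (Real.exp_le_exp.2 (by linarith))
      linarith
    have h5 : 1 / (T * Real.log 2) ≤ 8 / Y := by
      rw [div_le_div_iff₀ (by positivity) hY0]
      nlinarith
    calc (bad.card : ℝ) ≤ ((J + 1 : ℕ) : ℝ) * (3 * (2 ^ e * η₁ * (44 * 4 ^ T / (T * Real.log 2)))) := hcard
      _ = 3 * (2 ^ e * η₁) * (44 * (1 / (T * Real.log 2))) * (4 ^ T * ((J + 1 : ℕ) : ℝ)) := by ring
      _ ≤ 3 * (2 ^ e * η₁) * (44 * (8 / Y)) * (2 * Real.exp (Y + 1 / 2)) := by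
          apply mul_le_mul _ h4 (by positivity) (by positivity)
          apply mul_le_mul_of_nonneg_left _ (by positivity)
          exact mul_le_mul_of_nonneg_left h5 (by norm_num)
      _ = _ := by ring
  -- the weights
  have hw : ∀ n ∈ P, Real.log n / n ≤ (Y + 1 / 2) / Real.exp (Y - 1 / 2) := by
    intro n hn
    rw [hP, mem_filter, mem_NR] at hn
    obtain ⟨⟨h1, h2⟩, _⟩ := hn
    have hn0 : (0 : ℝ) < n := by exact_mod_cast h1
    obtain ⟨h3, h4⟩ := abs_le.1 h2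
    apply div_le_div₀ (by linarith) (by linarith) (Real.exp_pos _)
    rw [← Real.le_log_iff_exp_le hn0]
    linarith
  have hterm : ∀ n ∈ P, Real.log n / n *
      |F (s * (⌊((p * n : ℕ) : ℝ) * Real.exp u⌋₊ : ℤ)) - F (s * ((p * n : ℕ) : ℤ))| ≤
      if n ∈ bad then (Y + 1 / 2) / Real.exp (Y - 1 / 2) * 2 else 0 := by
    intro n hn
    split_ifs with h
    · have h1 : 0 ≤ Real.log (n : ℝ) / n := by
        have := Real.log_natCast_nonneg n
        positivity
      apply mul_le_mul (hw n hn) _ (abs_nonneg _) (by positivity)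
      refine (abs_sub _ _).trans ?_
      linarith [hF1 (s * (⌊((p * n : ℕ) : ℝ) * Real.exp u⌋₊ : ℤ)), hF1 (s * ((p * n : ℕ) : ℤ))]
    · rw [hgood n hn h, sub_self, abs_zero, mul_zero]
  refine (sum_le_sum hterm).trans ?_
  rw [← sum_filter]
  have hfb : P.filter (fun n => n ∈ bad) = bad := by
    ext n
    rw [mem_filter]
    constructor
    · exact fun h => h.2
    · exact fun h => ⟨(mem_filter.1 h).1, h⟩
  rw [hfb, sum_const, nsmul_eq_mul]
  have hee : Real.exp (Y + 1 / 2) / Real.exp (Y - 1 / 2) ≤ 2.72 := by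
    rw [← Real.exp_sub]
    have e : Y + 1 / 2 - (Y - 1 / 2) = 1 := by ring
    rw [e]
    linarith [Real.exp_one_lt_d9]
  calc (bad.card : ℝ) * ((Y + 1 / 2) / Real.exp (Y - 1 / 2) * 2)
      ≤ (3 * (2 ^ e * η₁) * (44 * 8 / Y) * (2 * Real.exp (Y + 1 / 2))) * ((Y + 1 / 2) / Real.exp (Y - 1 / 2) * 2) :=
        mul_le_mul_of_nonneg_right hbadcard (by positivity)
    _ = 4224 * (2 ^ e * η₁) * ((Y + 1 / 2) / Y) * (Real.exp (Y + 1 / 2) / Real.exp (Y - 1 / 2)) := by ring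
    _ ≤ 4224 * (2 ^ e * η₁) * 1.1 * 2.72 := by
        apply mul_le_mul _ hee (by positivity) (by positivity)
        apply mul_le_mul_of_nonneg_left _ (by positivity)
        rw [div_le_iff₀ hY0]
        linarith
    _ ≤ η := by
        have e1 : 2 ^ e * η₁ = η / 20000 := by
          rw [hη₁]
          field_simp
        rw [e1]
        linarith

end Pool.Agent.Run7.h684.E2
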