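import Pool.Agent.Run7.h684.E2.B0
import Pool.Agent.Y967.CM.G
import Pool.Agent.H692R2.USS.T1

/-!
Project E2 (helper684): coalescing classes.
-/

set_option autoImplicit false

namespace Pool.Agent.Run7.h684.E2

open Finset Pool.Agent.H499R2.CO Pool.Agent.Y967.CM

open Classical in
/-- the classes modulo `2 ^ T` that stay apart, multiplied by an odd number -/
theorem bad_card {T : ℕ} {η : ℝ} {ρ : ℤ} (hq : q step (0, 0) T (0, ρ) ≤ η) {w : ℤ} (hw : IsCoprime w 2) :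
    (#{c ∈ range (2 ^ T) | surv 1 T (0, ρ) (w * ((c : ℕ) : ℤ))} : ℝ) ≤ η * 2 ^ T := by
  have h2T : (0 : ℤ) < 2 ^ T := by positivity
  have h1 : #{c ∈ range (2 ^ T) | surv 1 T (0, ρ) (w * ((c : ℕ) : ℤ))} ≤
      #{c ∈ range (2 ^ T) | surv 1 T (0, ρ) ((c : ℕ) : ℤ)} := by
    apply card_le_card_of_injOn (fun c => ((w * ((c : ℕ) : ℤ)) % 2 ^ T).toNat)
    · intro c hc
      rw [mem_coe, mem_filter] at hc
      rw [mem_coe, mem_filter, mem_range]
      have h2 := Int.emod_nonneg (w * (c : ℤ)) h2T.ne'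
      have h3 := Int.emod_lt_of_pos (w * (c : ℤ)) h2T
      have h4 : ((((w * (c : ℤ)) % 2 ^ T).toNat : ℕ) : ℤ) = (w * c) % 2 ^ T := Int.toNat_of_nonneg h2
      refine ⟨?_, ?_⟩
      · have : ((((w * (c : ℤ)) % 2 ^ T).toNat : ℕ) : ℤ) < ((2 ^ T : ℕ) : ℤ) := by
          rw [h4]
          push_cast
          exact h3
        exact_mod_cast this
      · beta_reduce
        rw [h4]
        have h5 := Int.emod_add_mul_ediv (w * (c : ℤ)) (2 ^ T)
        rw [← surv_periodic (by norm_num) T (0, ρ) ((w * c) % 2 ^ T) ((w * c) / 2 ^ T)]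
        rw [mul_comm ((w * (c : ℤ)) / 2 ^ T), h5]
        exact hc.2
    · intro c hc c' hc' h
      rw [mem_coe, mem_filter, mem_range] at hc hc'
      beta_reduce at h
      have h2 := Int.emod_nonneg (w * (c : ℤ)) h2T.ne'
      have h2' := Int.emod_nonneg (w * (c' : ℤ)) h2T.ne'
      have h3 : (w * (c : ℤ)) % 2 ^ T = (w * (c' : ℤ)) % 2 ^ T := by
        have this : ((((w * (c : ℤ)) % 2 ^ T).toNat : ℕ) : ℤ) = ((((w * (c' : ℤ)) % 2 ^ T).toNat : ℕ) : ℤ) := by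
          rw [h]
        rw [Int.toNat_of_nonneg h2, Int.toNat_of_nonneg h2'] at this
        exact this
      have h4 : (2 : ℤ) ^ T ∣ w * c' - w * c := Int.ModEq.dvd h3
      rw [← mul_sub] at h4
      have h5 : IsCoprime ((2 : ℤ) ^ T) w := (hw.symm).pow_left
      have h6 := h5.dvd_of_dvd_mul_left h4
      have h7 : (c : ℤ) ≡ c' [ZMOD 2 ^ T] := (Int.modEq_iff_dvd).2 h6
      have h8 : (c : ℤ) % 2 ^ T = (c' : ℤ) % 2 ^ T := h7
      have h9 : (c : ℤ) < 2 ^ T := by exact_mod_cast hc.1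
      have h10 : (c' : ℤ) < 2 ^ T := by exact_mod_cast hc'.1
      rw [Int.emod_eq_of_lt (by positivity) h9, Int.emod_eq_of_lt (by positivity) h10] at h8
      exact_mod_cast h8
  calc (#{c ∈ range (2 ^ T) | surv 1 T (0, ρ) (w * ((c : ℕ) : ℤ))} : ℝ)
      ≤ (#{c ∈ range (2 ^ T) | surv 1 T (0, ρ) ((c : ℕ) : ℤ)} : ℝ) := by exact_mod_cast h1
    _ = 2 ^ T * q step (0, 0) T (0, ρ) := card_surv T (0, ρ)
    _ ≤ 2 ^ T * η := mul_le_mul_of_nonneg_left hq (by positivity)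
    _ = _ := mul_comm _ _

open Classical in
/-- doubling the multiplier -/
theorem bad_two {T : ℕ} (hT : 1 ≤ T) (ρ w : ℤ) :
    #{c ∈ range (2 ^ T) | surv 1 T (0, ρ) (2 * w * ((c : ℕ) : ℤ))} ≤
      2 * #{c ∈ range (2 ^ T) | surv 1 T (0, ρ) (w * ((c : ℕ) : ℤ))} := by
  obtain ⟨M, hM⟩ : ∃ M : ℕ, 2 ^ T = 2 * M := ⟨2 ^ (T - 1), by
    obtain ⟨k, rfl⟩ : ∃ k, T = k + 1 := ⟨T - 1, by omega⟩
    rw [Nat.add_sub_cancel, pow_succ]
    ring⟩
  have hM0 : 0 < M := by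
    have : 0 < 2 ^ T := by positivity
    omega
  have h1 := card_le_mul_card_image (f := fun c : ℕ => (2 * c) % 2 ^ T)
    ({c ∈ range (2 ^ T) | surv 1 T (0, ρ) (2 * w * ((c : ℕ) : ℤ))} : Finset ℕ) 2 (by
      intro d _
      have h2 : ∀ c₁ ∈ ({c ∈ ({c ∈ range (2 ^ T) | surv 1 T (0, ρ) (2 * w * ((c : ℕ) : ℤ))} : Finset ℕ) |
          (2 * c) % 2 ^ T = d} : Finset ℕ),
          ({c ∈ ({c ∈ range (2 ^ T) | surv 1 T (0, ρ) (2 * w * ((c : ℕ) : ℤ))} : Finset ℕ) |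
          (2 * c) % 2 ^ T = d} : Finset ℕ) ⊆ {c₁, if c₁ < M then c₁ + M else c₁ - M} := by
        intro c₁ hc₁ c hc
        rw [mem_filter, mem_filter, mem_range] at hc₁ hc
        have h3 : (2 * c) % 2 ^ T = (2 * c₁) % 2 ^ T := hc.2.trans hc₁.2.symm
        rw [hM, Nat.mul_mod_mul_left, Nat.mul_mod_mul_left] at h3
        have h4 : c % M = c₁ % M := by omega
        have h5 := Nat.mod_add_div c M
        have h6 := Nat.mod_add_div c₁ M
        have h7 : c / M < 2 := by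
          rw [Nat.div_lt_iff_lt_mul hM0]
          rw [hM] at hc
          exact hc.1.1
        have h8 : c₁ / M < 2 := by
          rw [Nat.div_lt_iff_lt_mul hM0]
          rw [hM] at hc₁
          exact hc₁.1.1
        rw [mem_insert, mem_singleton]
        have h9 := Nat.mod_lt c hM0
        have aux : ∀ x : ℕ, x < 2 → x = 0 ∨ x = 1 := by
          intro x hx
          omega
        have h10 := aux _ h7
        have h11 := aux _ h8
        rcases h10 with h10 | h10 <;> rcases h11 with h11 | h11 <;> rw [h10] at h5 <;> rw [h11] at h6 <;>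
          split_ifs <;> omega
      rcases Finset.eq_empty_or_nonempty ({c ∈ ({c ∈ range (2 ^ T) | surv 1 T (0, ρ) (2 * w * ((c : ℕ) : ℤ))} :
          Finset ℕ) | (2 * c) % 2 ^ T = d} : Finset ℕ) with h | ⟨c₁, hc₁⟩
      · rw [h]
        simp
      · exact (card_le_card (h2 c₁ hc₁)).trans card_le_two)
  refine h1.trans (Nat.mul_le_mul_left 2 (card_le_card ?_))
  intro d hd
  rw [mem_image] at hd
  obtain ⟨c, hc, rfl⟩ := hd
  rw [mem_filter, mem_range] at hc ⊢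
  refine ⟨Nat.mod_lt _ (by positivity), ?_⟩
  have h5 : 2 * w * (c : ℤ) = w * (((2 * c) % 2 ^ T : ℕ) : ℤ) + (w * ((2 * c / 2 ^ T : ℕ) : ℤ)) * 2 ^ T := by
    have h6 : ((2 * c : ℕ) : ℤ) = (((2 * c) % 2 ^ T : ℕ) : ℤ) + 2 ^ T * ((2 * c / 2 ^ T : ℕ) : ℤ) := by
      exact_mod_cast (Nat.mod_add_div (2 * c) (2 ^ T)).symm
    have h7 : 2 * w * (c : ℤ) = w * ((2 * c : ℕ) : ℤ) := by
      push_cast
      ring
    rw [h7, h6]
    ring
  have h8 := hc.2
  rw [h5, surv_periodic (by norm_num)] at h8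
  exact h8

open Classical in
/-- the classes modulo `2 ^ T` that stay apart, multiplied by a number that is not divisible by a high power of two -/
theorem bad_card' {T : ℕ} (hT : 1 ≤ T) {η : ℝ} {ρ : ℤ} (hq : q step (0, 0) T (0, ρ) ≤ η) (e : ℕ) :
    ∀ w : ℤ, ¬ (2 : ℤ) ^ (e + 1) ∣ w →
    (#{c ∈ range (2 ^ T) | surv 1 T (0, ρ) (w * ((c : ℕ) : ℤ))} : ℝ) ≤ 2 ^ e * η * 2 ^ T := by
  have hη : 0 ≤ η := by
    have h1 := card_surv T (0, ρ)
    have h2 : (0 : ℝ) ≤ 2 ^ T * q step (0, 0) T (0, ρ) := by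
      rw [← h1]
      positivity
    have h3 : 0 ≤ q step (0, 0) T (0, ρ) := by
      by_contra hc
      have : (2 : ℝ) ^ T * q step (0, 0) T (0, ρ) < 0 := mul_neg_of_pos_of_neg (by positivity) (not_le.1 hc)
      linarith
    linarith
  induction e with
  | zero =>
    intro w hw
    rw [pow_zero, one_mul]
    apply bad_card hq
    rw [zero_add, pow_one] at hw
    have h1 : w % 2 = 1 := by omega
    obtain ⟨k, rfl⟩ : ∃ k, w = 2 * k + 1 := ⟨w / 2, by omega⟩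
    exact ⟨1, -k, by ring⟩
  | succ e ih =>
    intro w hw
    rcases Int.emod_two_eq_zero_or_one w with h | h
    · obtain ⟨v, hv⟩ : ∃ v, w = 2 * v := ⟨w / 2, by omega⟩
      have h1 : ¬ (2 : ℤ) ^ (e + 1) ∣ v := by
        intro hd
        apply hw
        rw [hv, pow_succ' 2 (e + 1)]
        exact mul_dvd_mul_left 2 hd
      have h2 := ih v h1
      have h3 := bad_two hT ρ v
      rw [hv]
      calc (#{c ∈ range (2 ^ T) | surv 1 T (0, ρ) (2 * v * ((c : ℕ) : ℤ))} : ℝ)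
          ≤ ((2 * #{c ∈ range (2 ^ T) | surv 1 T (0, ρ) (v * ((c : ℕ) : ℤ))} : ℕ) : ℝ) := Nat.cast_le.2 h3
        _ = 2 * (#{c ∈ range (2 ^ T) | surv 1 T (0, ρ) (v * ((c : ℕ) : ℤ))} : ℝ) := by push_cast; ring
        _ ≤ 2 * (2 ^ e * η * 2 ^ T) := mul_le_mul_of_nonneg_left h2 (by norm_num)
        _ = 2 ^ (e + 1) * η * 2 ^ T := by ring
    · have h2 := ih w (by
        intro hd
        have : (2 : ℤ) ∣ w := (dvd_pow_self 2 (by omega)).trans hd
        omega)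
      refine h2.trans ?_
      apply mul_le_mul_of_nonneg_right _ (by positivity)
      apply mul_le_mul_of_nonneg_right _ hη
      exact pow_le_pow_right₀ (by norm_num) (by omega)

open Classical in
/-- primes of a block in bad classes -/
theorem bad_block {T : ℕ} (hT : 1 ≤ T) {η : ℝ} {ρ : ℤ} (hq : q step (0, 0) T (0, ρ) ≤ η) {e : ℕ} {w : ℤ}
    (hw : ¬ (2 : ℤ) ^ (e + 1) ∣ w) (j : ℕ) :
    (#{n ∈ Ico (j * 4 ^ T) ((j + 1) * 4 ^ T) | n.Prime ∧ surv 1 T (0, ρ) (w * ((n : ℕ) : ℤ))} : ℝ) ≤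
      2 ^ e * η * (44 * 4 ^ T / (T * Real.log 2)) := by
  have h2T : 0 < 2 ^ T := by positivity
  have h22 : 2 ≤ 2 ^ T := by
    calc 2 = 2 ^ 1 := by norm_num
      _ ≤ 2 ^ T := Nat.pow_le_pow_right (by norm_num) hT
  set bad := ({c ∈ range (2 ^ T) | surv 1 T (0, ρ) (w * ((c : ℕ) : ℤ))} : Finset ℕ) with hbad
  have hsub : ({n ∈ Ico (j * 4 ^ T) ((j + 1) * 4 ^ T) | n.Prime ∧ surv 1 T (0, ρ) (w * ((n : ℕ) : ℤ))} : Finset ℕ) ⊆
      bad.biUnion (fun c => ((range (2 ^ T)).filter (fun k => ((c + j * 4 ^ T) + k * 2 ^ T).Prime)).image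
        (fun k => (c + j * 4 ^ T) + k * 2 ^ T)) := by
    intro n hn
    rw [mem_filter, mem_Ico] at hn
    obtain ⟨⟨h1, h2⟩, h3, h4⟩ := hn
    rw [mem_biUnion]
    have h44 : 4 ^ T = 2 ^ T * 2 ^ T := by
      rw [← mul_pow]
      norm_num
    have hdiv := Nat.mod_add_div n (2 ^ T)
    have hmod := Nat.mod_lt n h2T
    have hq1 : j * 2 ^ T ≤ n / 2 ^ T := by
      rw [Nat.le_div_iff_mul_le h2T]
      calc j * 2 ^ T * 2 ^ T = j * 4 ^ T := by rw [h44]; ring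
        _ ≤ n := h1
    have hq2 : n / 2 ^ T < (j + 1) * 2 ^ T := by
      rw [Nat.div_lt_iff_lt_mul h2T]
      calc n < (j + 1) * 4 ^ T := h2
        _ = (j + 1) * 2 ^ T * 2 ^ T := by rw [h44]; ring
    have e : n = (n % 2 ^ T + j * 4 ^ T) + (n / 2 ^ T - j * 2 ^ T) * 2 ^ T := by
      obtain ⟨d, hd⟩ : ∃ d, n / 2 ^ T = j * 2 ^ T + d := ⟨n / 2 ^ T - j * 2 ^ T, by omega⟩
      rw [hd, Nat.add_sub_cancel_left, h44]
      rw [hd] at hdiv
      calc n = n % 2 ^ T + 2 ^ T * (j * 2 ^ T + d) := hdiv.symm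
        _ = _ := by ring
    refine ⟨n % 2 ^ T, ?_, ?_⟩
    · rw [hbad, mem_filter, mem_range]
      refine ⟨hmod, ?_⟩
      have h5 : w * (n : ℤ) = w * ((n % 2 ^ T : ℕ) : ℤ) + (w * ((n / 2 ^ T : ℕ) : ℤ)) * 2 ^ T := by
        have h6 : (n : ℤ) = ((n % 2 ^ T : ℕ) : ℤ) + 2 ^ T * ((n / 2 ^ T : ℕ) : ℤ) := by exact_mod_cast hdiv.symm
        rw [h6]
        push_cast
        ring
      rw [h5, surv_periodic (by norm_num)] at h4
      exact h4
    · rw [mem_image]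
      refine ⟨n / 2 ^ T - j * 2 ^ T, ?_, e.symm⟩
      rw [mem_filter, mem_range]
      refine ⟨?_, by rw [← e]; exact h3⟩
      have h6 : (j + 1) * 2 ^ T = j * 2 ^ T + 2 ^ T := by ring
      omega
  have hBT : ∀ c : ℕ, (#((range (2 ^ T)).filter (fun k => ((c + j * 4 ^ T) + k * 2 ^ T).Prime)) : ℝ) ≤
      44 * 2 ^ T / (T * Real.log 2) := by
    intro c
    have h1 := Pool.Agent.H692R2.USS.t1_brun_titchmarsh (c + j * 4 ^ T) (2 ^ T) (2 ^ T) h22 (by omega)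
    refine h1.trans (le_of_eq ?_)
    obtain ⟨k, rfl⟩ : ∃ k, T = k + 1 := ⟨T - 1, by omega⟩
    rw [Nat.totient_prime_pow_succ Nat.prime_two]
    push_cast
    rw [Real.log_pow]
    push_cast
    field_simp
    ring
  calc (#{n ∈ Ico (j * 4 ^ T) ((j + 1) * 4 ^ T) | n.Prime ∧ surv 1 T (0, ρ) (w * ((n : ℕ) : ℤ))} : ℝ)
      ≤ ((bad.biUnion (fun c => ((range (2 ^ T)).filter (fun k => ((c + j * 4 ^ T) + k * 2 ^ T).Prime)).image
        (fun k => (c + j * 4 ^ T) + k * 2 ^ T))).card : ℝ) := by exact_mod_cast card_le_card hsub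
    _ ≤ ∑ c ∈ bad, (#((range (2 ^ T)).filter (fun k => ((c + j * 4 ^ T) + k * 2 ^ T).Prime)) : ℝ) := by
        have := card_biUnion_le (s := bad) (t := fun c => ((range (2 ^ T)).filter
          (fun k => ((c + j * 4 ^ T) + k * 2 ^ T).Prime)).image (fun k => (c + j * 4 ^ T) + k * 2 ^ T))
        refine le_trans (Nat.cast_le.2 this) ?_
        rw [Nat.cast_sum]
        exact sum_le_sum fun c _ => Nat.cast_le.2 card_image_le
    _ ≤ ∑ c ∈ bad, 44 * 2 ^ T / (T * Real.log 2) := sum_le_sum fun c _ => hBT c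
    _ = (bad.card : ℝ) * (44 * 2 ^ T / (T * Real.log 2)) := by rw [sum_const, nsmul_eq_mul]
    _ ≤ (2 ^ e * η * 2 ^ T) * (44 * 2 ^ T / (T * Real.log 2)) := by
        apply mul_le_mul_of_nonneg_right (bad_card' hT hq e w hw)
        have := Real.log_pos (show (1 : ℝ) < 2 by norm_num)
        positivity
    _ = _ := by
        have : (4 : ℝ) ^ T = 2 ^ T * 2 ^ T := by
          rw [← mul_pow]
          norm_num
        rw [this]
        ring

theorem floor_near {x y : ℝ} (h : |x - y| < 1) : |⌊x⌋ - ⌊y⌋| ≤ 1 := by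
  obtain ⟨h1, h2⟩ := abs_lt.1 h
  have a1 := Int.floor_le x
  have a2 := Int.lt_floor_add_one x
  have b1 := Int.floor_le y
  have b2 := Int.lt_floor_add_one y
  have c1 : (⌊x⌋ : ℝ) - ⌊y⌋ < 2 := by linarith
  have c2 : -2 < (⌊x⌋ : ℝ) - ⌊y⌋ := by linarith
  have d1 : ⌊x⌋ - ⌊y⌋ < 2 := by exact_mod_cast c1
  have d2 : -2 < ⌊x⌋ - ⌊y⌋ := by exact_mod_cast c2
  rw [abs_le]
  constructor <;> omega

end Pool.Agent.Run7.h684.E2
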