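import Pool.Agent.Run7.h684.E2.Ifc
import Pool.Agent.H376R2.MR.Mom

/-!
Project E2 (helper684): counting products of two primes, one cell.
-/

set_option autoImplicit false

namespace Pool.Agent.Run7.h684.E2

open Finset Pool.Agent.H376R2.MR
open Pool.Agent.H499R2.CO

theorem pi_cell : ∃ C : ℝ, 0 < C ∧ ∃ x₀ : ℕ, 10 ≤ x₀ ∧ ∀ x : ℕ, x₀ ≤ x → ∀ L : ℝ, Real.log x ≤ L → L ≤ Real.log x + 1 →
    ∑ m ∈ Ioc 0 x, |(if m.Prime then (1 : ℝ) else 0) - ArithmeticFunction.vonMangoldt m / L| ≤ C * x / L ^ 2 := by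
  obtain ⟨C₂, hC₂⟩ := Chebyshev.primeCounting_sub_theta_div_log_isBigO.bound
  obtain ⟨x₁, hx₁⟩ := Filter.eventually_atTop.1 hC₂
  obtain ⟨Y₁, hY₁⟩ := poly_exp 8 2 (show (0 : ℝ) < 1 / 2 by norm_num)
  refine ⟨4 * |C₂| + 7, by positivity, ⌈x₁⌉₊ + ⌈Real.exp Y₁⌉₊ + 10, by omega, ?_⟩
  intro x hx L hL1 hL2
  have hx1 : x₁ ≤ x := by
    have h1 : x₁ ≤ (⌈x₁⌉₊ : ℝ) := Nat.le_ceil _
    have h2 : (⌈x₁⌉₊ : ℝ) ≤ x := by exact_mod_cast (by omega : ⌈x₁⌉₊ ≤ x)
    linarith
  have hx2 : Real.exp Y₁ ≤ x := by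
    have h1 : Real.exp Y₁ ≤ (⌈Real.exp Y₁⌉₊ : ℝ) := Nat.le_ceil _
    have h2 : (⌈Real.exp Y₁⌉₊ : ℝ) ≤ x := by exact_mod_cast (by omega : ⌈Real.exp Y₁⌉₊ ≤ x)
    linarith
  have hx10 : (10 : ℝ) ≤ x := by exact_mod_cast (by omega : 10 ≤ x)
  have hx0 : (0 : ℝ) < x := by linarith
  obtain ⟨l, hl⟩ : ∃ l : ℝ, l = Real.log x := ⟨_, rfl⟩
  have hl1 : 1 ≤ l := by
    rw [hl, Real.le_log_iff_exp_le hx0]
    linarith [Real.exp_one_lt_d9]
  have hl2 : Y₁ ≤ l := by
    rw [hl]
    exact (Real.le_log_iff_exp_le hx0).2 hx2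
  rw [← hl] at hL1 hL2
  have hL0 : 0 < L := by linarith
  have hLl : L ≤ 2 * l := by linarith
  have hpt := hx₁ x hx1
  rw [Real.norm_eq_abs, Real.norm_eq_abs, ← hl, Nat.floor_natCast] at hpt
  rw [abs_of_nonneg (show (0 : ℝ) ≤ x / l ^ 2 by positivity)] at hpt
  have hpt2 := (abs_le.1 hpt).2
  -- the sum
  have hsum : ∑ m ∈ Ioc 0 x, |(if m.Prime then (1 : ℝ) else 0) - ArithmeticFunction.vonMangoldt m / L| =
      ((Nat.primeCounting x : ℝ) - Chebyshev.theta x / L) + (Chebyshev.psi x - Chebyshev.theta x) / L := by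
    rw [Chebyshev.psi_sub_theta_eq_sum_not_prime, Nat.floor_natCast,
      ← sum_filter_add_sum_filter_not (Ioc 0 x) Nat.Prime]
    congr 1
    · have h1 : ∑ m ∈ (Ioc 0 x).filter Nat.Prime,
          |(if m.Prime then (1 : ℝ) else 0) - ArithmeticFunction.vonMangoldt m / L| =
          ∑ m ∈ (Ioc 0 x).filter Nat.Prime, (1 - Real.log m / L) := by
        apply sum_congr rfl
        intro m hm
        rw [mem_filter, mem_Ioc] at hm
        rw [if_pos hm.2, ArithmeticFunction.vonMangoldt_apply_prime hm.2]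
        apply abs_of_nonneg
        have hm0 : (0 : ℝ) < m := by exact_mod_cast hm.1.1
        have h2 : Real.log m ≤ L := by
          refine le_trans ?_ hL1
          rw [hl]
          exact Real.log_le_log hm0 (by exact_mod_cast hm.1.2)
        have := div_le_one_of_le₀ h2 hL0.le
        linarith
      have h2 : (Ioc 0 x).filter Nat.Prime = (range (x + 1)).filter Nat.Prime := by
        ext i
        simp only [mem_filter, mem_Ioc, mem_range]
        constructor
        · rintro ⟨⟨h2, h3⟩, h4⟩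
          exact ⟨by omega, h4⟩
        · rintro ⟨h2, h3⟩
          exact ⟨⟨h3.pos, by omega⟩, h3⟩
      have h3 : (((Ioc 0 x).filter Nat.Prime).card : ℝ) = Nat.primeCounting x := by
        rw [h2, Nat.primeCounting, Nat.primeCounting', Nat.count_eq_card_filter_range]
      have h4 : ∑ m ∈ (Ioc 0 x).filter Nat.Prime, Real.log m = Chebyshev.theta x := by
        unfold Chebyshev.theta
        rw [Nat.floor_natCast]
      rw [h1, sum_sub_distrib, sum_const, nsmul_eq_mul, mul_one, ← sum_div, h3, h4]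
    · rw [sum_div]
      apply sum_congr rfl
      intro m hm
      rw [mem_filter] at hm
      rw [if_neg hm.2, zero_sub, abs_neg]
      exact abs_of_nonneg (div_nonneg ArithmeticFunction.vonMangoldt_nonneg hL0.le)
  rw [hsum]
  have hth0 := Chebyshev.theta_nonneg (x : ℝ)
  have hth1 := Chebyshev.theta_le_log4_mul_x hx0.le
  have h4 : Real.log 4 ≤ 1.4 := by
    rw [show (4 : ℝ) = 2 ^ 2 by norm_num, Real.log_pow]
    have := Real.log_two_lt_d9
    push_cast
    linarith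
  have a1 : (Nat.primeCounting x : ℝ) - Chebyshev.theta x / L ≤ (4 * |C₂| + 3) * x / L ^ 2 := by
    have b1 : Chebyshev.theta x / l - Chebyshev.theta x / L ≤ 3 * x / L ^ 2 := by
      have e : Chebyshev.theta x / l - Chebyshev.theta x / L = Chebyshev.theta x * (L - l) / (l * L) := by
        field_simp
      rw [e, div_le_div_iff₀ (by positivity) (by positivity)]
      calc Chebyshev.theta x * (L - l) * L ^ 2 ≤ (1.4 * x) * 1 * L ^ 2 := by
            apply mul_le_mul_of_nonneg_right _ (by positivity)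
            apply mul_le_mul _ (by linarith) (by linarith) (by positivity)
            refine hth1.trans ?_
            exact mul_le_mul_of_nonneg_right h4 hx0.le
        _ = 1.4 * x * L * L := by ring
        _ ≤ 1.4 * x * (2 * l) * L := by
            apply mul_le_mul_of_nonneg_right _ hL0.le
            exact mul_le_mul_of_nonneg_left hLl (by positivity)
        _ ≤ 3 * x * (l * L) := by
            have : 0 < x * (l * L) := by positivity
            nlinarith
    have b2 : C₂ * (x / l ^ 2) ≤ 4 * |C₂| * x / L ^ 2 := by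
      calc C₂ * (x / l ^ 2) ≤ |C₂| * (x / l ^ 2) := mul_le_mul_of_nonneg_right (le_abs_self _) (by positivity)
        _ ≤ |C₂| * (4 * x / L ^ 2) := by
            apply mul_le_mul_of_nonneg_left _ (abs_nonneg _)
            rw [div_le_div_iff₀ (by positivity) (by positivity)]
            have b3 : L ^ 2 ≤ (2 * l) ^ 2 := pow_le_pow_left₀ hL0.le hLl 2
            calc (x : ℝ) * L ^ 2 ≤ x * (2 * l) ^ 2 := mul_le_mul_of_nonneg_left b3 hx0.le
              _ = 4 * x * l ^ 2 := by ring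
        _ = _ := by ring
    calc (Nat.primeCounting x : ℝ) - Chebyshev.theta x / L =
          ((Nat.primeCounting x : ℝ) - Chebyshev.theta x / l) + (Chebyshev.theta x / l - Chebyshev.theta x / L) := by ring
      _ ≤ 4 * |C₂| * x / L ^ 2 + 3 * x / L ^ 2 := add_le_add (hpt2.trans b2) b1
      _ = _ := by ring
  have a2 : (Chebyshev.psi x - Chebyshev.theta x) / L ≤ 4 * x / L ^ 2 := by
    have b1 := Chebyshev.psi_sub_theta_le (x := (x : ℝ)) (by linarith)
    rw [← hl] at b1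
    have b2 := hY₁ l hl2
    have b3 : √ (x : ℝ) = Real.exp (l / 2) := by
      rw [Real.exp_half, hl, Real.exp_log hx0]
    have b4 : (x : ℝ) = Real.exp (l / 2) * Real.exp (l / 2) := by
      rw [← Real.exp_add, add_halves, hl, Real.exp_log hx0]
    have b5 : 8 * l ^ 2 ≤ Real.exp (l / 2) := by
      rw [show -(1 / 2 * l) = -(l / 2) by ring, Real.exp_neg, ← div_eq_mul_inv, div_le_one (Real.exp_pos _)] at b2
      exact b2
    rw [b3] at b1
    rw [div_le_div_iff₀ hL0 (by positivity)]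
    calc (Chebyshev.psi x - Chebyshev.theta x) * L ^ 2 ≤ (2 * Real.exp (l / 2) * l) * L ^ 2 :=
          mul_le_mul_of_nonneg_right b1 (by positivity)
      _ = (2 * Real.exp (l / 2) * l * L) * L := by ring
      _ ≤ (2 * Real.exp (l / 2) * l * (2 * l)) * L := by
          apply mul_le_mul_of_nonneg_right _ hL0.le
          exact mul_le_mul_of_nonneg_left hLl (by positivity)
      _ = (4 * l ^ 2) * Real.exp (l / 2) * L := by ring
      _ ≤ (4 * Real.exp (l / 2)) * Real.exp (l / 2) * L := by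
          apply mul_le_mul_of_nonneg_right _ hL0.le
          apply mul_le_mul_of_nonneg_right _ (Real.exp_pos _).le
          have b6 := sq_nonneg l
          have b7 := Real.exp_pos (l / 2)
          linarith
      _ = 4 * x * L := by
          rw [mul_assoc 4, ← b4]
  calc _ ≤ (4 * |C₂| + 3) * x / L ^ 2 + 4 * x / L ^ 2 := add_le_add a1 a2
    _ = _ := by ring

/-- counting, one cell -/
theorem cnt_cell (CT : CellS) (e : ℕ) {ε : ℝ} (hε : 0 < ε) (hε1 : ε ≤ 1) : ∃ θ : ℝ, 0 < θ ∧ θ ≤ 1 / 16 ∧ ∀ B : ℕ, ∃ C₁ : ℝ, 0 < C₁ ∧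
    ∃ N₀ : ℕ, 10 ≤ N₀ ∧ ∀ N : ℕ, N₀ ≤ N → ∀ F : ℤ → ℝ, Coal F → (∀ x, |F x| ≤ 1) → ∀ s : ℤ, Ok e (θ * Real.log N) s →
    ∀ r : ℕ, C₁ * Real.log (Real.log N) ≤ (r : ℝ) / 100 → (r : ℝ) / 100 ≤ θ * Real.log N →
    ∀ S : Finset ℕ, S ⊆ cell 100 r →
    |∑ n ∈ Ioc 0 N, pc S n * F (s * (n : ℤ)) - sg S / (Real.log N - (r : ℝ) / 100) * ∑ n ∈ Ioc 0 N, F (s * (n : ℤ))| ≤
      (ε * sg S + 1 / Real.log N ^ B) * (N / Real.log N) := by
  obtain ⟨θ, hθ, hθ1, hst⟩ := CT e (ε / 4) (show 0 < ε / 4 by positivity) (by linarith)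
  obtain ⟨C, hC, x₀, hx₀, hpi⟩ := pi_cell
  refine ⟨θ, hθ, hθ1, fun B => ?_⟩
  obtain ⟨C₁, hC₁, N₀, hN₀, hs⟩ := hst (B + 1)
  refine ⟨C₁, hC₁, N₀ + ⌈Real.exp (8 * C / ε + 100)⌉₊ + x₀ ^ 2 * 400, by omega, ?_⟩
  intro N hN F hF hF1 s hs1 r hr1 hr2 S hS
  have hmain := hs N (by omega) F hF hF1 s hs1 r hr1 hr2 S hS
  obtain ⟨E0, hE0⟩ : ∃ E0 : ℝ, E0 = 8 * C / ε + 100 := ⟨_, rfl⟩
  rw [← hE0] at hN
  have hN1 : Real.exp E0 ≤ N := by
    have h1 : Real.exp E0 ≤ (⌈Real.exp E0⌉₊ : ℝ) := Nat.le_ceil _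
    have h2 : (⌈Real.exp E0⌉₊ : ℝ) ≤ N := by exact_mod_cast (by omega : ⌈Real.exp E0⌉₊ ≤ N)
    linarith
  have hN0 : (0 : ℝ) < N := (Real.exp_pos _).trans_le hN1
  have hlog : E0 ≤ Real.log N := (Real.le_log_iff_exp_le hN0).2 hN1
  obtain ⟨l, hl⟩ : ∃ l : ℝ, l = Real.log N := ⟨_, rfl⟩
  rw [← hl] at hlog hr1 hr2 hmain ⊢
  have hCε : 0 < 8 * C / ε := by positivity
  have hl100 : 100 ≤ l := by rw [hE0] at hlog; linarith
  have hlC : 8 * C / ε ≤ l := by rw [hE0] at hlog; linarith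
  obtain ⟨L, hL⟩ : ∃ L : ℝ, L = l - (r : ℝ) / 100 := ⟨_, rfl⟩
  rw [← hL]
  have hr0 : 0 ≤ (r : ℝ) / 100 := by positivity
  have hL1 : l / 2 ≤ L := by nlinarith
  have hL2 : L ≤ l := by linarith
  have hL0 : 0 < L := by linarith
  have hsg := sg_nonneg S
  have hSpos : ∀ p ∈ S, 0 < p := fun p hp => mom_cell_pos (hS hp)
  -- the difference of the weights
  have hdiff : ∑ n ∈ Ioc 0 N, |pc S n - ww S n / L| ≤ C * sg S * N / L ^ 2 := by
    have h1 : ∀ n ∈ Ioc 0 N, |pc S n - ww S n / L| ≤ ∑ p ∈ S, (if p ∣ n then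
        |(if (n / p).Prime then (1 : ℝ) else 0) - ArithmeticFunction.vonMangoldt (n / p) / L| else 0) := by
      intro n _
      unfold pc ww
      rw [sum_div, ← sum_sub_distrib]
      refine (abs_sum_le_sum_abs _ _).trans (sum_le_sum fun p _ => ?_)
      by_cases h : p ∣ n
      · rw [if_pos h, if_pos h, if_pos h]
      · rw [if_neg h, if_neg h, if_neg h, zero_div, sub_zero, abs_zero]
    refine (sum_le_sum h1).trans ?_
    rw [swap (fun _ m => |(if m.Prime then (1 : ℝ) else 0) - ArithmeticFunction.vonMangoldt m / L|) hSpos]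
    have h2 : ∀ p ∈ S, ∑ m ∈ Ioc 0 (N / p), |(if m.Prime then (1 : ℝ) else 0) - ArithmeticFunction.vonMangoldt m / L| ≤
        C * N / L ^ 2 * (1 / p) := by
      intro p hp
      obtain ⟨hpp, hp1, hp2⟩ := smoo_mem_cell (hS hp)
      have hp0 : (0 : ℝ) < p := by exact_mod_cast hpp.pos
      have hlp1 : (r : ℝ) / 100 ≤ Real.log p := by
        rw [Real.le_log_iff_exp_le hp0]
        exact_mod_cast hp1
      have hlp2 : Real.log p ≤ (r : ℝ) / 100 + 0.01 := by
        rw [Real.log_le_iff_le_exp hp0]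
        refine hp2.trans (le_of_eq ?_)
        congr 1
        push_cast
        ring
      have hxr : Real.log (N / p : ℝ) = l - Real.log p := by
        rw [Real.log_div hN0.ne' hp0.ne', hl]
      have hNp : (10 : ℝ) + x₀ ≤ N / p := by
        have h3 : Real.log ((20 * x₀ : ℕ) : ℝ) ≤ Real.log (N / p : ℝ) := by
          rw [hxr]
          have h4 : ((20 * x₀ : ℕ) : ℝ) ^ 2 ≤ N := by
            have : (20 * x₀) ^ 2 ≤ N := by
              calc (20 * x₀) ^ 2 = x₀ ^ 2 * 400 := by ring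
                _ ≤ N := by omega
            exact_mod_cast this
          have h5 : 2 * Real.log ((20 * x₀ : ℕ) : ℝ) ≤ l := by
            rw [hl]
            have h6 := Real.log_le_log (by
              have : (0 : ℝ) < ((20 * x₀ : ℕ) : ℝ) := by exact_mod_cast (by omega : 0 < 20 * x₀)
              positivity) h4
            rw [Real.log_pow] at h6
            push_cast at h6 ⊢
            linarith
          have h6 : Real.log p ≤ l / 2 := by nlinarith
          linarith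
        have h4 := (Real.log_le_log_iff (by exact_mod_cast (by omega : 0 < 20 * x₀)) (by positivity)).1 h3
        push_cast at h4
        have h5 : (10 : ℝ) ≤ x₀ := by exact_mod_cast hx₀
        linarith
      have hx1 : (N / p : ℝ) - 1 ≤ ((N / p : ℕ) : ℝ) := by
        have := Nat.lt_succ_floor ((N : ℝ) / p)
        rw [Nat.floor_div_natCast, Nat.floor_natCast] at this
        push_cast at this
        linarith
      have hx2 : ((N / p : ℕ) : ℝ) ≤ N / p := Nat.cast_div_le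
      have hx3 : x₀ ≤ N / p := by
        have : (x₀ : ℝ) ≤ ((N / p : ℕ) : ℝ) := by linarith
        exact_mod_cast this
      have hxp : (0 : ℝ) < ((N / p : ℕ) : ℝ) := by exact_mod_cast (by omega : 0 < N / p)
      have h3 := hpi (N / p) hx3 L (by
        refine (Real.log_le_log hxp hx2).trans ?_
        rw [hxr]
        linarith) (by
        have h4 : Real.log (N / p : ℝ) ≤ Real.log (2 * ((N / p : ℕ) : ℝ)) := by
          apply Real.log_le_log (by positivity)
          have : (10 : ℝ) ≤ N / p := by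
            have : (0 : ℝ) ≤ x₀ := Nat.cast_nonneg _
            linarith
          linarith
        rw [Real.log_mul (by norm_num) hxp.ne', hxr] at h4
        have := Real.log_two_lt_d9
        linarith)
      refine h3.trans ?_
      rw [div_mul_eq_mul_div, mul_assoc C, mul_one_div]
      apply div_le_div_of_nonneg_right _ (by positivity)
      exact mul_le_mul_of_nonneg_left hx2 hC.le
    refine (sum_le_sum h2).trans (le_of_eq ?_)
    rw [← mul_sum]
    unfold sg
    ring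
  have hA : |∑ n ∈ Ioc 0 N, pc S n * F (s * (n : ℤ)) - 1 / L * ∑ n ∈ Ioc 0 N, ww S n * F (s * (n : ℤ))| ≤
      C * sg S * N / L ^ 2 := by
    refine le_trans ?_ hdiff
    rw [mul_sum, ← sum_sub_distrib]
    refine (abs_sum_le_sum_abs _ _).trans (sum_le_sum fun n _ => ?_)
    have e : pc S n * F (s * (n : ℤ)) - 1 / L * (ww S n * F (s * (n : ℤ))) = (pc S n - ww S n / L) * F (s * (n : ℤ)) := by
      ring
    rw [e, abs_mul]
    exact mul_le_of_le_one_right (abs_nonneg _) (hF1 _)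
  have hBd : |1 / L * ∑ n ∈ Ioc 0 N, ww S n * F (s * (n : ℤ)) - sg S / L * ∑ n ∈ Ioc 0 N, F (s * (n : ℤ))| ≤
      1 / L * ((ε / 4 * sg S + 1 / l ^ (B + 1)) * N) := by
    have e : 1 / L * ∑ n ∈ Ioc 0 N, ww S n * F (s * (n : ℤ)) - sg S / L * ∑ n ∈ Ioc 0 N, F (s * (n : ℤ)) =
        1 / L * ∑ n ∈ Ioc 0 N, (ww S n - sg S) * F (s * (n : ℤ)) := by
      have e2 : ∑ n ∈ Ioc 0 N, (ww S n - sg S) * F (s * (n : ℤ)) =
          ∑ n ∈ Ioc 0 N, ww S n * F (s * (n : ℤ)) - sg S * ∑ n ∈ Ioc 0 N, F (s * (n : ℤ)) := by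
        rw [mul_sum, ← sum_sub_distrib]
        apply sum_congr rfl
        intro n _
        ring
      rw [e2]
      ring
    rw [e, abs_mul, abs_of_nonneg (show 0 ≤ 1 / L by positivity)]
    exact mul_le_mul_of_nonneg_left hmain (by positivity)
  have hfin : |∑ n ∈ Ioc 0 N, pc S n * F (s * (n : ℤ)) - sg S / L * ∑ n ∈ Ioc 0 N, F (s * (n : ℤ))| ≤
      C * sg S * N / L ^ 2 + 1 / L * ((ε / 4 * sg S + 1 / l ^ (B + 1)) * N) := by
    have e : ∑ n ∈ Ioc 0 N, pc S n * F (s * (n : ℤ)) - sg S / L * ∑ n ∈ Ioc 0 N, F (s * (n : ℤ)) =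
        (∑ n ∈ Ioc 0 N, pc S n * F (s * (n : ℤ)) - 1 / L * ∑ n ∈ Ioc 0 N, ww S n * F (s * (n : ℤ))) +
        (1 / L * ∑ n ∈ Ioc 0 N, ww S n * F (s * (n : ℤ)) - sg S / L * ∑ n ∈ Ioc 0 N, F (s * (n : ℤ))) := by ring
    rw [e]
    exact (abs_add_le _ _).trans (add_le_add hA hBd)
  refine hfin.trans ?_
  have hl0 : 0 < l := by linarith
  have t1 : C * sg S * N / L ^ 2 ≤ ε / 2 * sg S * (N / l) := by
    have h1 : C / L ^ 2 ≤ ε / 2 / l := by
      rw [div_le_div_iff₀ (by positivity) hl0]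
      rw [div_le_iff₀ hε] at hlC
      have h2 : (l / 2) ^ 2 ≤ L ^ 2 := pow_le_pow_left₀ (by positivity) hL1 2
      calc C * l ≤ (l * ε / 8) * l := mul_le_mul_of_nonneg_right (by linarith) hl0.le
        _ = ε / 2 * (l / 2) ^ 2 := by ring
        _ ≤ ε / 2 * L ^ 2 := mul_le_mul_of_nonneg_left h2 (by positivity)
    calc C * sg S * N / L ^ 2 = C / L ^ 2 * (sg S * N) := by ring
      _ ≤ ε / 2 / l * (sg S * N) := mul_le_mul_of_nonneg_right h1 (by positivity)
      _ = _ := by ring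
  have t2 : 1 / L ≤ 2 / l := by
    rw [div_le_div_iff₀ hL0 hl0]
    linarith
  have t3 : 1 / L * ((ε / 4 * sg S + 1 / l ^ (B + 1)) * N) ≤ (ε / 2 * sg S + 1 / l ^ B) * (N / l) := by
    have h1 : 2 / l ^ (B + 1) ≤ 1 / l ^ B := by
      have e1 : l ^ (B + 1) = l ^ B * l := by ring
      rw [e1, div_le_div_iff₀ (by positivity) (by positivity)]
      have hB : 0 < l ^ B := by positivity
      nlinarith
    calc 1 / L * ((ε / 4 * sg S + 1 / l ^ (B + 1)) * N) ≤ 2 / l * ((ε / 4 * sg S + 1 / l ^ (B + 1)) * N) :=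
          mul_le_mul_of_nonneg_right t2 (by positivity)
      _ = (ε / 2 * sg S + 2 / l ^ (B + 1)) * (N / l) := by ring
      _ ≤ _ := mul_le_mul_of_nonneg_right (add_le_add le_rfl h1) (by positivity)
  calc _ ≤ ε / 2 * sg S * (N / l) + (ε / 2 * sg S + 1 / l ^ B) * (N / l) := add_le_add t1 t3
    _ = _ := by ring

end Pool.Agent.Run7.h684.E2
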