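import Pool.Agent.Run7.h684.E2.Ifc
import Pool.Agent.H376R2.MR.Mom

/-!
Project E2 (helper684): from windows to all integers up to `N`, for the primes of a cell.
-/

set_option autoImplicit false

namespace Pool.Agent.Run7.h684.E2

open Finset Pool.Agent.H376R2.MR
open Pool.Agent.H499R2.CO

theorem Ico_succ (a m : ℕ) : Ico (a + 1) (m + 1) = Ioc a m := by
  ext i
  simp only [mem_Ico, mem_Ioc]
  omega

/-- the lower quarter removed -/
theorem step (WF : WinFS) (e : ℕ) {ε : ℝ} (hε : 0 < ε) (hε1 : ε ≤ 1) : ∃ θ : ℝ, 0 < θ ∧ θ ≤ 1 / 8 ∧ ∀ B : ℕ, ∃ C₁ : ℝ, 0 < C₁ ∧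
    ∃ N₀ : ℕ, 10 ≤ N₀ ∧ ∀ N : ℕ, N₀ ≤ N → ∀ F : ℤ → ℝ, Coal F → (∀ x, |F x| ≤ 1) → ∀ s : ℤ, Ok e (θ * Real.log N) s →
    ∀ r : ℕ, C₁ * Real.log (Real.log N) ≤ (r : ℝ) / 100 → (r : ℝ) / 100 ≤ θ * Real.log N →
    ∀ S : Finset ℕ, S ⊆ cell 100 r →
    |∑ n ∈ Ioc (3 * N / 4) N, (ww S n - sg S) * F (s * (n : ℤ))| ≤ (ε * sg S + 1 / Real.log N ^ B) * N := by
  obtain ⟨θ, hθ, hθ1, hwin⟩ := WF e (ε / 3) (show 0 < ε / 3 by positivity) (by linarith)
  refine ⟨θ / 2, by positivity, by linarith, fun B => ?_⟩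
  obtain ⟨C₁, hC₁, Y₀, hY₀, hw⟩ := hwin (B + 1)
  refine ⟨C₁, hC₁, ⌈Real.exp (2 * Y₀ + 4 * 2 ^ (B + 1) + 6 / ε)⌉₊ + 10, by omega, ?_⟩
  intro N hN F hF hF1 s hs r hr1 hr2 S hS
  obtain ⟨E0, hE0⟩ : ∃ E0 : ℝ, E0 = 2 * Y₀ + 4 * 2 ^ (B + 1) + 6 / ε := ⟨_, rfl⟩
  rw [← hE0] at hN
  have hN1 : Real.exp E0 ≤ N := by
    have h1 : Real.exp E0 ≤ (⌈Real.exp E0⌉₊ : ℝ) := Nat.le_ceil _
    have h2 : (⌈Real.exp E0⌉₊ : ℝ) ≤ N := by
      have : ⌈Real.exp E0⌉₊ ≤ N := by omega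
      exact_mod_cast this
    linarith
  have hN0 : (0 : ℝ) < N := (Real.exp_pos _).trans_le hN1
  have hN10 : 10 ≤ N := by omega
  have hlog : E0 ≤ Real.log N := (Real.le_log_iff_exp_le hN0).2 hN1
  set L := Real.log (N : ℝ) with hL
  have hp6 : 0 < 6 / ε := by positivity
  have hp2 : (0 : ℝ) < 2 ^ (B + 1) := by positivity
  have hL1 : 2 * Y₀ ≤ L := by rw [hE0] at hlog; linarith
  have hL2 : 4 * 2 ^ (B + 1) ≤ L := by rw [hE0] at hlog; linarith
  have hL3 : 6 / ε ≤ L := by rw [hE0] at hlog; linarith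
  have hL0 : 200 ≤ L := by linarith
  obtain ⟨Y, hY⟩ : ∃ Y : ℝ, Y = L - (r : ℝ) / 100 := ⟨_, rfl⟩
  have hr0 : 0 ≤ (r : ℝ) / 100 := by positivity
  have hθL : θ / 2 * L ≤ L / 2 := by
    have := mul_le_mul_of_nonneg_right hθ1 (show (0 : ℝ) ≤ L by linarith)
    linarith
  have hY1 : L / 2 ≤ Y := by linarith
  have hY2 : Y ≤ L := by linarith
  have hYY : Y₀ ≤ Y := by linarith
  have hYp : 0 < Y := by linarith
  have hc1 : C₁ * Real.log Y ≤ (r : ℝ) / 100 :=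
    (mul_le_mul_of_nonneg_left (Real.log_le_log hYp hY2) hC₁.le).trans hr1
  have hθY := mul_le_mul_of_nonneg_left hY1 hθ.le
  have hc2 : (r : ℝ) / 100 ≤ θ * Y := by linarith
  have hYr : Y + (r : ℝ) / 100 = L := by rw [hY]; ring
  set a : ℕ := 3 * N / 4 with ha
  have ha1 : (3 * (N : ℝ) / 4) ≤ a + 1 := by
    have : 3 * N ≤ 4 * (a + 1) := by omega
    have h2 : 3 * (N : ℝ) ≤ 4 * (a + 1) := by exact_mod_cast this
    linarith
  have haN : a ≤ N := by omega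
  have ha0 : 1 ≤ a := by omega
  have hE : (0 : ℝ) ≤ ε / 3 * sg S + 1 / Y ^ (B + 1) := by
    have := sg_nonneg S
    positivity
  set c : ℕ → ℝ := fun n => (ww S n / n - sg S * (Real.log ((n + 1 : ℕ) : ℝ) - Real.log n)) * F (s * (n : ℤ)) with hc
  have hC : ∀ m, a ≤ m → m ≤ N → |∑ n ∈ Ioc a m, c n| ≤ ε / 3 * sg S + 1 / Y ^ (B + 1) := by
    intro m h1 h2
    rw [← Ico_succ]
    apply hw Y hYY F hF hF1 s (hs.mono (by linarith)) r hc1 hc2 S hS (a + 1) (m + 1) (by omega) (by omega)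
    · rw [hYr]
      have h3 : L - 0.3 ≤ Real.log (3 * (N : ℝ) / 4) := by
        rw [mul_div_right_comm, Real.log_mul (by norm_num) hN0.ne']
        have h4 : -0.3 ≤ Real.log (3 / 4) := by
          rw [Real.le_log_iff_exp_le (by norm_num)]
          have h5 : Real.exp (-0.3) = (Real.exp 0.3)⁻¹ := Real.exp_neg _
          rw [h5]
          have h6 : 1.345 ≤ Real.exp 0.3 := by
            have h7 := Real.quadratic_le_exp_of_nonneg (show (0 : ℝ) ≤ 0.3 by norm_num)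
            norm_num at h7 ⊢
            linarith
          rw [inv_le_comm₀ (Real.exp_pos _) (by norm_num)]
          norm_num
          linarith
        linarith
      refine h3.trans (Real.log_le_log (by positivity) ?_)
      push_cast
      exact ha1
    · rw [hYr]
      have h3 : Real.log ((m + 1 : ℕ) : ℝ) ≤ Real.log ((N + 1 : ℕ) : ℝ) :=
        Real.log_le_log (by positivity) (by exact_mod_cast (by omega : m + 1 ≤ N + 1))
      have h4 := (log_step (show 1 ≤ N by omega)).2.1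
      have h5 : 1 / (N : ℝ) ≤ 1 / 10 := one_div_le_one_div_of_le (by norm_num) (by exact_mod_cast hN10)
      linarith
  have h1 := abel1 c (fun n => (n : ℝ)) haN hC
  have h2 : |((N : ℕ) : ℝ)| + ∑ n ∈ Ico a N, |((n + 1 : ℕ) : ℝ) - (n : ℝ)| ≤ 2 * N := by
    have h3 : ∀ n ∈ Ico a N, |((n + 1 : ℕ) : ℝ) - (n : ℝ)| = 1 := by
      intro n _
      push_cast
      rw [add_sub_cancel_left, abs_one]
    rw [sum_congr rfl h3, sum_const, Nat.card_Ico, nsmul_eq_mul, mul_one, abs_of_pos hN0, Nat.cast_sub haN]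
    have : (0 : ℝ) ≤ a := Nat.cast_nonneg _
    linarith
  have h3 : |∑ n ∈ Ioc a N, c n * (n : ℝ)| ≤ (ε / 3 * sg S + 1 / Y ^ (B + 1)) * (2 * N) :=
    h1.trans (mul_le_mul_of_nonneg_left h2 hE)
  have h4 : |∑ n ∈ Ioc a N, sg S * F (s * (n : ℤ)) * ((n : ℝ) * (Real.log ((n + 1 : ℕ) : ℝ) - Real.log n) - 1)| ≤
      2 * sg S := by
    have h5 : ∀ n ∈ Ioc a N, |sg S * F (s * (n : ℤ)) * ((n : ℝ) * (Real.log ((n + 1 : ℕ) : ℝ) - Real.log n) - 1)| ≤
        sg S * (2 / N) := by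
      intro n hn
      rw [mem_Ioc] at hn
      have hn1 : 1 ≤ n := by omega
      have hn0 : (0 : ℝ) < n := by exact_mod_cast hn1
      obtain ⟨l1, l2, l3⟩ := log_step hn1
      have h6 : |(n : ℝ) * (Real.log ((n + 1 : ℕ) : ℝ) - Real.log n) - 1| ≤ 2 / N := by
        have h7 : (n : ℝ) * (Real.log ((n + 1 : ℕ) : ℝ) - Real.log n) ≤ 1 := by
          calc _ ≤ (n : ℝ) * (1 / n) := mul_le_mul_of_nonneg_left l2 hn0.le
            _ = 1 := by field_simp
        have h8 : 1 - 1 / ((n : ℝ) + 1) ≤ (n : ℝ) * (Real.log ((n + 1 : ℕ) : ℝ) - Real.log n) := by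
          calc 1 - 1 / ((n : ℝ) + 1) = (n : ℝ) * (1 / ((n : ℝ) + 1)) := by field_simp; ring
            _ ≤ _ := mul_le_mul_of_nonneg_left l3 hn0.le
        have h9 : 1 / ((n : ℝ) + 1) ≤ 2 / N := by
          rw [div_le_div_iff₀ (by positivity) hN0]
          have : (a : ℝ) + 1 ≤ n := by exact_mod_cast hn.1
          linarith
        have h10 : 0 ≤ 2 / (N : ℝ) := by positivity
        rw [abs_le]
        constructor <;> linarith
      rw [abs_mul, abs_mul, abs_of_nonneg (sg_nonneg S)]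
      calc sg S * |F (s * (n : ℤ))| * |(n : ℝ) * (Real.log ((n + 1 : ℕ) : ℝ) - Real.log n) - 1|
          ≤ sg S * 1 * (2 / N) := by
            apply mul_le_mul _ h6 (abs_nonneg _) (by have := sg_nonneg S; positivity)
            exact mul_le_mul_of_nonneg_left (hF1 _) (sg_nonneg S)
        _ = _ := by ring
    refine (abs_sum_le_sum_abs _ _).trans ((sum_le_sum h5).trans ?_)
    rw [sum_const, Nat.card_Ioc, nsmul_eq_mul, Nat.cast_sub haN]
    calc ((N : ℝ) - a) * (sg S * (2 / N)) ≤ N * (sg S * (2 / N)) := by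
          apply mul_le_mul_of_nonneg_right _ (by have := sg_nonneg S; positivity)
          have : (0 : ℝ) ≤ a := Nat.cast_nonneg _
          linarith
      _ = 2 * sg S := by field_simp
  have e : ∑ n ∈ Ioc a N, (ww S n - sg S) * F (s * (n : ℤ)) = ∑ n ∈ Ioc a N, c n * (n : ℝ) +
      ∑ n ∈ Ioc a N, sg S * F (s * (n : ℤ)) * ((n : ℝ) * (Real.log ((n + 1 : ℕ) : ℝ) - Real.log n) - 1) := by
    rw [← sum_add_distrib]
    apply sum_congr rfl
    intro n hn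
    rw [mem_Ioc] at hn
    have hn0 : (0 : ℝ) < n := by exact_mod_cast (by omega : 0 < n)
    rw [hc]
    simp only
    field_simp
    ring
  rw [e]
  refine (abs_add_le _ _).trans ((add_le_add h3 h4).trans ?_)
  have h5 : 2 * sg S ≤ ε / 3 * sg S * N := by
    have h6 : 2 ≤ ε / 3 * N := by
      have h7 : 6 / ε ≤ N := hL3.trans ((Real.log_le_sub_one_of_pos hN0).trans (by linarith))
      rw [div_le_iff₀ hε] at h7
      linarith
    have := mul_le_mul_of_nonneg_right h6 (sg_nonneg S)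
    linarith
  have h6 : 1 / Y ^ (B + 1) * (2 * N) ≤ 1 / L ^ B * N := by
    have h7 : 1 / Y ^ (B + 1) ≤ 2 ^ (B + 1) / L ^ (B + 1) := by
      rw [div_le_div_iff₀ (by positivity) (by positivity), one_mul, ← mul_pow]
      exact pow_le_pow_left₀ (by positivity) (by linarith) _
    have h8 : 2 ^ (B + 1) / L ^ (B + 1) * 2 ≤ 1 / L ^ B := by
      have e1 : L ^ (B + 1) = L ^ B * L := by ring
      rw [e1, div_mul_eq_mul_div, div_le_div_iff₀ (by positivity) (by positivity)]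
      have hB : 0 < L ^ B := by positivity
      have := mul_le_mul_of_nonneg_left (show 2 ^ (B + 1) * 2 ≤ L by linarith) hB.le
      linarith
    calc 1 / Y ^ (B + 1) * (2 * N) ≤ 2 ^ (B + 1) / L ^ (B + 1) * (2 * N) :=
          mul_le_mul_of_nonneg_right h7 (by positivity)
      _ = (2 ^ (B + 1) / L ^ (B + 1) * 2) * N := by ring
      _ ≤ _ := mul_le_mul_of_nonneg_right h8 hN0.le
  calc (ε / 3 * sg S + 1 / Y ^ (B + 1)) * (2 * N) + 2 * sg S
      = ε / 3 * sg S * (2 * N) + 1 / Y ^ (B + 1) * (2 * N) + 2 * sg S := by ring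
    _ ≤ ε / 3 * sg S * (2 * N) + 1 / L ^ B * N + ε / 3 * sg S * N := by linarith
    _ = (ε * sg S + 1 / L ^ B) * N := by ring

/-- the sum of the weights -/
theorem ww_sum {S : Finset ℕ} (hS : ∀ p ∈ S, 0 < p) (x : ℕ) :
    ∑ n ∈ Ioc 0 x, ww S n = ∑ p ∈ S, Chebyshev.psi ((x / p : ℕ) : ℝ) := by
  classical
  unfold ww
  rw [sum_comm]
  apply sum_congr rfl
  intro p hp
  have hp0 := hS p hp
  unfold Chebyshev.psi
  rw [Nat.floor_natCast, ← sum_filter]
  have himg : (Ioc 0 x).filter (fun n => p ∣ n) = (Ioc 0 (x / p)).image (fun m => p * m) := by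
    ext n
    simp only [mem_filter, mem_Ioc, mem_image]
    constructor
    · rintro ⟨⟨h1, h2⟩, m, rfl⟩
      refine ⟨m, ⟨Nat.pos_of_mul_pos_left h1 |> fun _ => ?_, ?_⟩, rfl⟩
      · rcases Nat.eq_zero_or_pos m with h | h
        · rw [h, mul_zero] at h1
          omega
        · exact h
      · rw [Nat.le_div_iff_mul_le hp0, mul_comm]
        exact h2
    · rintro ⟨m, ⟨h1, h2⟩, rfl⟩
      refine ⟨⟨Nat.mul_pos hp0 h1, ?_⟩, dvd_mul_right _ _⟩
      rw [Nat.le_div_iff_mul_le hp0, mul_comm] at h2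
      exact h2
  rw [himg, sum_image (fun i _ j _ h => Nat.eq_of_mul_eq_mul_left hp0 h)]
  apply sum_congr rfl
  intro m _
  rw [Nat.mul_div_cancel_left _ hp0]

theorem ww_sum_le {S : Finset ℕ} (hS : ∀ p ∈ S, 0 < p) (x : ℕ) : ∑ n ∈ Ioc 0 x, ww S n ≤ 6 * sg S * x := by
  rw [ww_sum hS]
  unfold sg
  rw [mul_assoc, sum_mul, mul_sum]
  apply sum_le_sum
  intro p hp
  have hp0 : (0 : ℝ) < p := by exact_mod_cast hS p hp
  have h1 := Chebyshev.psi_le_const_mul_self (Nat.cast_nonneg (α := ℝ) (x / p))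
  have h4 : Real.log 4 ≤ 1.4 := by
    rw [show (4 : ℝ) = 2 ^ 2 by norm_num, Real.log_pow]
    have := Real.log_two_lt_d9
    push_cast
    linarith
  have h2 : ((x / p : ℕ) : ℝ) ≤ 1 / p * x := by
    rw [one_div_mul_eq_div]
    exact Nat.cast_div_le
  calc Chebyshev.psi ((x / p : ℕ) : ℝ) ≤ (Real.log 4 + 4) * ((x / p : ℕ) : ℝ) := h1
    _ ≤ 6 * (1 / p * x) := mul_le_mul (by linarith) h2 (Nat.cast_nonneg _) (by norm_num)

/-- iteration -/
theorem iter (g : ℕ → ℝ) {κ G₀ : ℝ} (hκ : 0 ≤ κ) {N₁ N : ℕ} (h0 : ∑ n ∈ Ioc 0 N₁, |g n| ≤ G₀)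
    (h : ∀ n, N₁ < n → n ≤ N → |∑ i ∈ Ioc (3 * n / 4) n, g i| ≤ κ * n) :
    ∀ n, n ≤ N → |∑ i ∈ Ioc 0 n, g i| ≤ 4 * κ * n + G₀ := by
  intro n
  induction n using Nat.strong_induction_on with
  | _ n ih =>
    intro hn
    rcases Nat.lt_or_ge N₁ n with h1 | h1
    · have h2 : 3 * n / 4 < n := by omega
      have h3 := ih (3 * n / 4) h2 (by omega)
      have h4 := h n h1 hn
      have h5 : Ioc 0 n = Ioc 0 (3 * n / 4) ∪ Ioc (3 * n / 4) n :=
        (Ioc_union_Ioc_eq_Ioc (Nat.zero_le _) h2.le).symm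
      rw [h5, sum_union (Ioc_disjoint_Ioc_of_le le_rfl)]
      refine (abs_add_le _ _).trans ((add_le_add h3 h4).trans ?_)
      have h6 : ((3 * n / 4 : ℕ) : ℝ) ≤ 3 * n / 4 := by
        have : ((3 * n / 4 : ℕ) : ℝ) ≤ ((3 * n : ℕ) : ℝ) / 4 := Nat.cast_div_le
        push_cast at this
        exact this
      have := mul_le_mul_of_nonneg_left h6 (show (0 : ℝ) ≤ 4 * κ by linarith)
      linarith
    · have h2 : |∑ i ∈ Ioc 0 n, g i| ≤ ∑ i ∈ Ioc 0 N₁, |g i| := by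
        refine (abs_sum_le_sum_abs _ _).trans ?_
        apply sum_le_sum_of_subset_of_nonneg
        · intro i hi
          rw [mem_Ioc] at hi ⊢
          omega
        · intro _ _ _
          exact abs_nonneg _
      have h3 : 0 ≤ 4 * κ * n := by positivity
      linarith

/-- all integers up to `N`, one cell -/
theorem cell_thm (WF : WinFS) (e : ℕ) {ε : ℝ} (hε : 0 < ε) (hε1 : ε ≤ 1) : ∃ θ : ℝ, 0 < θ ∧ θ ≤ 1 / 16 ∧ ∀ B : ℕ, ∃ C₁ : ℝ, 0 < C₁ ∧
    ∃ N₀ : ℕ, 10 ≤ N₀ ∧ ∀ N : ℕ, N₀ ≤ N → ∀ F : ℤ → ℝ, Coal F → (∀ x, |F x| ≤ 1) → ∀ s : ℤ, Ok e (θ * Real.log N) s →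
    ∀ r : ℕ, C₁ * Real.log (Real.log N) ≤ (r : ℝ) / 100 → (r : ℝ) / 100 ≤ θ * Real.log N →
    ∀ S : Finset ℕ, S ⊆ cell 100 r →
    |∑ n ∈ Ioc 0 N, (ww S n - sg S) * F (s * (n : ℤ))| ≤ (ε * sg S + 1 / Real.log N ^ B) * N := by
  obtain ⟨θ, hθ, hθ1, hst⟩ := step WF e (show 0 < ε / 8 by positivity) (by linarith)
  refine ⟨θ / 2, by positivity, by linarith, fun B => ?_⟩
  obtain ⟨C₁, hC₁, N₀, hN₀, hs⟩ := hst (B + 1)
  refine ⟨C₁, hC₁, N₀ ^ 2 + ⌈Real.exp (4 * 2 ^ (B + 1) + 10)⌉₊ + ⌈(28 / ε) ^ 2⌉₊ + 10, by omega, ?_⟩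
  intro N hN F hF hF1 s hs1 r hr1 hr2 S hS
  obtain ⟨E0, hE0⟩ : ∃ E0 : ℝ, E0 = 4 * 2 ^ (B + 1) + 10 := ⟨_, rfl⟩
  rw [← hE0] at hN
  have hp2 : (0 : ℝ) < 2 ^ (B + 1) := by positivity
  have hN1 : Real.exp E0 ≤ N := by
    have h1 : Real.exp E0 ≤ (⌈Real.exp E0⌉₊ : ℝ) := Nat.le_ceil _
    have h2 : (⌈Real.exp E0⌉₊ : ℝ) ≤ N := by
      have : ⌈Real.exp E0⌉₊ ≤ N := by omega
      exact_mod_cast this
    linarith
  have hN2 : (28 / ε) ^ 2 ≤ N := by
    have h1 : (28 / ε) ^ 2 ≤ (⌈(28 / ε) ^ 2⌉₊ : ℝ) := Nat.le_ceil _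
    have h2 : (⌈(28 / ε) ^ 2⌉₊ : ℝ) ≤ N := by
      have : ⌈(28 / ε) ^ 2⌉₊ ≤ N := by omega
      exact_mod_cast this
    linarith
  have hN0 : (0 : ℝ) < N := (Real.exp_pos _).trans_le hN1
  have hlog : E0 ≤ Real.log N := (Real.le_log_iff_exp_le hN0).2 hN1
  set L := Real.log (N : ℝ) with hL
  have hL10 : 10 ≤ L := by rw [hE0] at hlog; linarith
  have hL2 : 4 * 2 ^ (B + 1) ≤ L := by rw [hE0] at hlog; linarith
  have hSpos : ∀ p ∈ S, 0 < p := fun p hp => mom_cell_pos (hS hp)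
  set N₁ := Nat.sqrt N with hN₁
  have hsq1 : N₁ * N₁ ≤ N := Nat.sqrt_le N
  have hsq2 : N < (N₁ + 1) * (N₁ + 1) := Nat.lt_succ_sqrt N
  have hN₁0 : N₀ ≤ N₁ := by
    rw [hN₁, Nat.le_sqrt]
    have : N₀ ^ 2 ≤ N := by omega
    rw [pow_two] at this
    exact this
  set κ : ℝ := ε / 8 * sg S + 2 ^ (B + 1) / L ^ (B + 1) with hκ
  have hsg := sg_nonneg S
  have hκ0 : 0 ≤ κ := by positivity
  have hG0 : ∑ n ∈ Ioc 0 N₁, |(ww S n - sg S) * F (s * (n : ℤ))| ≤ 7 * sg S * N₁ := by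
    have h1 : ∀ n ∈ Ioc 0 N₁, |(ww S n - sg S) * F (s * (n : ℤ))| ≤ ww S n + sg S := by
      intro n _
      rw [abs_mul]
      have h2 : |ww S n - sg S| ≤ ww S n + sg S := by
        refine (abs_sub _ _).trans ?_
        rw [abs_of_nonneg (ww_nonneg S n), abs_of_nonneg hsg]
      calc |ww S n - sg S| * |F (s * (n : ℤ))| ≤ (ww S n + sg S) * 1 :=
            mul_le_mul h2 (hF1 _) (abs_nonneg _) (by have := ww_nonneg S n; positivity)
        _ = _ := mul_one _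
    refine (sum_le_sum h1).trans ?_
    rw [sum_add_distrib, sum_const, Nat.card_Ioc, nsmul_eq_mul, Nat.sub_zero]
    have := ww_sum_le hSpos N₁
    linarith
  have hit := iter (fun n => (ww S n - sg S) * F (s * (n : ℤ))) hκ0 hG0 (N := N) (by
    intro n hn1 hn2
    have hn0 : (0 : ℝ) < n := by exact_mod_cast (by omega : 0 < n)
    have hlog1 : Real.log n ≤ L := Real.log_le_log hn0 (by exact_mod_cast hn2)
    have hlog2 : L / 2 ≤ Real.log n := by
      have h1 : (N : ℝ) ≤ n ^ 2 := by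
        have : N ≤ n ^ 2 := by
          have h2 : (N₁ + 1) * (N₁ + 1) ≤ n * n := Nat.mul_le_mul hn1 hn1
          rw [pow_two]
          omega
        exact_mod_cast this
      have h2 := Real.log_le_log hN0 h1
      rw [Real.log_pow] at h2
      push_cast at h2
      linarith
    have hθn := mul_le_mul_of_nonneg_left hlog2 hθ.le
    have h3 := hs n (by omega) F hF hF1 s (hs1.mono (by linarith)) r (by
      refine le_trans ?_ hr1
      apply mul_le_mul_of_nonneg_left _ hC₁.le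
      exact Real.log_le_log (by linarith) hlog1) (by linarith) S hS
    refine h3.trans ?_
    apply mul_le_mul_of_nonneg_right _ hn0.le
    rw [hκ]
    apply add_le_add le_rfl
    have hlogn : 0 < Real.log n := by linarith
    rw [div_le_div_iff₀ (by positivity) (by positivity), one_mul, ← mul_pow]
    exact pow_le_pow_left₀ (by positivity) (by linarith) _) N le_rfl
  refine hit.trans ?_
  have h1 : 7 * sg S * N₁ ≤ ε / 2 * sg S * N := by
    have h2 : (N₁ : ℝ) * N₁ ≤ N := by exact_mod_cast hsq1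
    have h3 : 28 / ε ≤ (N₁ : ℝ) + 1 := by
      have h4 : (N : ℝ) ≤ ((N₁ : ℝ) + 1) ^ 2 := by
        have : N ≤ (N₁ + 1) ^ 2 := by rw [pow_two]; omega
        exact_mod_cast this
      exact le_of_sq_le_sq (hN2.trans h4) (by positivity)
    rw [div_le_iff₀ hε] at h3
    have h3b : ε * 1 ≤ ε * (N₁ : ℝ) := mul_le_mul_of_nonneg_left (by exact_mod_cast (by omega : 1 ≤ N₁)) hε.le
    have h4 : 14 ≤ ε * N₁ := by linarith
    have h5 : 7 * (N₁ : ℝ) ≤ ε / 2 * N := by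
      have h6 : (0 : ℝ) ≤ N₁ := Nat.cast_nonneg _
      calc 7 * (N₁ : ℝ) = 14 * N₁ / 2 := by ring
        _ ≤ (ε * N₁) * N₁ / 2 := by
            apply div_le_div_of_nonneg_right _ (by norm_num)
            exact mul_le_mul_of_nonneg_right h4 h6
        _ = ε / 2 * (N₁ * N₁) := by ring
        _ ≤ ε / 2 * N := mul_le_mul_of_nonneg_left h2 (by positivity)
    calc 7 * sg S * N₁ = sg S * (7 * N₁) := by ring
      _ ≤ sg S * (ε / 2 * N) := mul_le_mul_of_nonneg_left h5 hsg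
      _ = ε / 2 * sg S * N := by ring
  have h2 : 4 * (2 ^ (B + 1) / L ^ (B + 1)) ≤ 1 / L ^ B := by
    have e1 : L ^ (B + 1) = L ^ B * L := by ring
    rw [e1, mul_div_assoc', div_le_div_iff₀ (by positivity) (by positivity)]
    have hB : 0 < L ^ B := by positivity
    have := mul_le_mul_of_nonneg_left (show 4 * 2 ^ (B + 1) ≤ L by linarith) hB.le
    linarith
  calc 4 * κ * N + 7 * sg S * N₁ ≤ 4 * κ * N + ε / 2 * sg S * N := by linarith
    _ = (ε / 2 * sg S + 4 * (2 ^ (B + 1) / L ^ (B + 1))) * N + ε / 2 * sg S * N := by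
        rw [hκ]
        ring
    _ ≤ (ε / 2 * sg S + 1 / L ^ B) * N + ε / 2 * sg S * N := by
        have := mul_le_mul_of_nonneg_right (add_le_add (le_refl (ε / 2 * sg S)) h2) hN0.le
        linarith
    _ = (ε * sg S + 1 / L ^ B) * N := by ring

end Pool.Agent.Run7.h684.E2
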