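import Pool.Agent.Run7.h684.E2.KPd
import Pool.Agent.W41.Fin

/-!
Project E2 (helper684): invariant sets of the Collatz map among products of primes.
-/

set_option autoImplicit false

namespace Pool.Agent.Run7.h684.E2

open Finset Pool.Agent.H499R2.CO Pool.Agent.H499R2.ND Pool.Agent.W41

open Classical in
/-- the indicator function -/
noncomputable def iS (S : Set ℤ) (x : ℤ) : ℝ := if x ∈ S then 1 else 0

theorem iS_nonneg (S : Set ℤ) (x : ℤ) : 0 ≤ iS S x := by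
  unfold iS
  split_ifs <;> norm_num

theorem iS_abs (S : Set ℤ) (x : ℤ) : |iS S x| ≤ 1 := by
  unfold iS
  split_ifs <;> norm_num

theorem iS_compl (S : Set ℤ) (x : ℤ) : iS S x + iS Sᶜ x = 1 := by
  unfold iS
  by_cases h : x ∈ S
  · rw [if_pos h, if_neg (by simpa using h)]
    norm_num
  · rw [if_neg h, if_pos (by simpa using h)]
    norm_num

theorem Tz_Td : Tz 1 = Td 1 := rfl

theorem inv_it {S : Set ℤ} (hS : Inv 1 S) (t : ℕ) (x : ℤ) : x ∈ S ↔ (Tz 1)^[t] x ∈ S := by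
  induction t generalizing x with
  | zero => rfl
  | succ t ih =>
    rw [Function.iterate_succ_apply]
    exact (hS x).trans (ih _)

theorem Coal_iS {S : Set ℤ} (hS : Inv 1 S) : Coal (iS S) := by
  intro t x y h
  have h1 : x ∈ S ↔ y ∈ S := by
    rw [inv_it hS t x, inv_it hS t y, h]
  unfold iS
  by_cases h2 : x ∈ S
  · rw [if_pos h2, if_pos (h1.1 h2)]
  · rw [if_neg h2, if_neg (fun h3 => h2 (h1.2 h3))]

/-- uniform natural density -/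
theorem unif_dens {s : ℤ} (hs : s = 1 ∨ s = -1) {ε : ℝ} (hε : 0 < ε) : ∃ N₀ : ℕ, 10 ≤ N₀ ∧ ∀ S : Set ℤ, Inv 1 S →
    ∀ δ : ℝ, HD s S δ → ∀ N : ℕ, N₀ ≤ N → |∑ n ∈ Ioc 0 N, iS S (s * (n : ℤ)) - δ * N| ≤ ε * N := by
  classical
  obtain ⟨θ, hθ, N0, hN0, H⟩ := interval hs (show 0 < min ε 1 from lt_min hε one_pos) (min_le_right _ _)
  refine ⟨N0 + 10, by omega, fun S hS δ hδ N hN => ?_⟩
  have hN1 : (1 : ℝ) ≤ N := by exact_mod_cast (by omega : 1 ≤ N)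
  have h := H S hS δ hδ N (by omega) 0 (Nat.zero_le _) 1 le_rfl (by
    rw [Nat.cast_one]
    exact Real.one_le_rpow hN1 hθ.le) ∅ (by simp) 0
  have e1 : As (ind s S) N 1 0 ∅ = ∑ n ∈ Ioc 0 N, iS S (s * (n : ℤ)) := by
    unfold As ind iS
    have e2 : (Icc 1 N).filter (fun m : ℕ => (m : ℤ) ≡ 0 [ZMOD (1 : ℕ)] ∧ ∀ p ∈ (∅ : Finset ℕ), ¬ (p : ℤ) ∣ m) = Ioc 0 N := by
      ext m
      simp only [mem_filter, mem_Icc, mem_Ioc, notMem_empty, false_imp_iff, implies_true, and_true, Nat.cast_one]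
      constructor
      · rintro ⟨⟨h1, h2⟩, -⟩
        exact ⟨by omega, h2⟩
      · rintro ⟨h1, h2⟩
        exact ⟨⟨by omega, h2⟩, Int.modEq_one⟩
    rw [e2]
  have e3 : As (ind s S) 0 1 0 ∅ = 0 := by
    unfold As
    simp
  have e4 : Pool.Agent.W41.V ∅ = 1 := by
    unfold Pool.Agent.W41.V
    simp
  rw [e1, e3, e4] at h
  simp only [Nat.cast_zero, sub_zero, Nat.cast_one, div_one, one_mul] at h
  refine h.trans ?_
  exact mul_le_mul_of_nonneg_right (min_le_left _ _) (by positivity)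

theorem dens_abs {s : ℤ} (hs : s = 1 ∨ s = -1) {S : Set ℤ} {δ : ℝ} (hδ : HD s S δ) : 0 ≤ δ ∧ δ ≤ 1 := by
  have h1 : 0 ≤ δ := ge_of_tendsto' (cF_tendsto hs hδ) fun N => by positivity
  refine ⟨h1, ?_⟩
  apply le_of_tendsto' (cF_tendsto hs hδ) fun N => ?_
  apply div_le_one_of_le₀ _ (Nat.cast_nonneg _)
  have := cF_compl s S N
  exact_mod_cast (by omega : cF s S N ≤ N)

/-- the density among the products of exactly `k` primes -/
theorem dens_kp (RL : RelS) (ML : MultS) {s : ℤ} (hs : s = 1 ∨ s = -1) {k : ℕ} (hk : 2 ≤ k) {ε : ℝ} (hε : 0 < ε) : ∃ N₀ : ℕ, 10 ≤ N₀ ∧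
    ∀ S : Set ℤ, Inv 1 S → ∀ δ : ℝ, HD s S δ → ∀ N : ℕ, N₀ ≤ N →
    |∑ n ∈ PK k N, iS S (s * (n : ℤ)) - δ * (#(PK k N) : ℝ)| ≤ ε * (#(PK k N) : ℝ) := by
  obtain ⟨j, rfl⟩ : ∃ j, k = j + 2 := ⟨k - 2, by omega⟩
  obtain ⟨N₁, hN₁, h1⟩ := kp RL ML j (show 0 < ε / 2 by positivity)
  obtain ⟨N₂, hN₂, h2⟩ := unif_dens hs (show 0 < ε / 2 by positivity)
  refine ⟨N₁ + N₂, by omega, fun S hS δ hδ N hN => ?_⟩
  have h3 := h1 N (by omega) (iS S) (Coal_iS hS) (iS_abs S) s hs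
  have h4 := h2 S hS δ hδ N (by omega)
  have hN0 : (0 : ℝ) < N := by exact_mod_cast (by omega : 0 < N)
  set K := (#(PK (j + 2) N) : ℝ) with hK
  have hK0 : 0 ≤ K := Nat.cast_nonneg _
  set D := ∑ n ∈ Ioc 0 N, iS S (s * (n : ℤ)) with hD
  have h5 : |1 / (N : ℝ) * D * K - δ * K| ≤ ε / 2 * K := by
    have e : 1 / (N : ℝ) * D * K - δ * K = (D - δ * N) / N * K := by
      field_simp
    rw [e, abs_mul, abs_of_nonneg hK0, abs_div, abs_of_pos hN0]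
    apply mul_le_mul_of_nonneg_right _ hK0
    rw [div_le_iff₀ hN0]
    exact h4
  have e : ∑ n ∈ PK (j + 2) N, iS S (s * (n : ℤ)) - δ * K =
      (∑ n ∈ PK (j + 2) N, iS S (s * (n : ℤ)) - 1 / (N : ℝ) * D * K) + (1 / (N : ℝ) * D * K - δ * K) := by ring
  rw [e]
  refine (abs_add_le _ _).trans ?_
  linarith

/-- the mean over the multiples of a small integer -/
theorem dens_mult (ML : MultS) {s : ℤ} (hs : s = 1 ∨ s = -1) (e : ℕ) {η : ℝ} (hη : 0 < η) : ∃ θ : ℝ, 0 < θ ∧ ∃ N₀ : ℕ, 10 ≤ N₀ ∧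
    ∀ S : Set ℤ, Inv 1 S → ∀ δ : ℝ, HD s S δ → ∀ N : ℕ, N₀ ≤ N → ∀ b : ℕ, 1 ≤ b → Ok e (θ * Real.log N) (s * b) →
    |∑ n ∈ Ioc 0 N, iS S (s * b * (n : ℤ)) - δ * N| ≤ η * N := by
  obtain ⟨θ, hθ, hθ1, Y₀, hY₀, h1⟩ := ML e (η / 2) (show 0 < η / 2 by positivity)
  obtain ⟨N₂, hN₂, h2⟩ := unif_dens hs (show 0 < η / 2 by positivity)
  refine ⟨θ, hθ, ⌈Real.exp Y₀⌉₊ + N₂, by omega, fun S hS δ hδ N hN b hb hok => ?_⟩
  have hN0 : (0 : ℝ) < N := by exact_mod_cast (by omega : 0 < N)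
  have hNE : Real.exp Y₀ ≤ N := (Nat.le_ceil _).trans (by exact_mod_cast (by omega))
  have hb0 : (0 : ℝ) < b := by exact_mod_cast hb
  have h3 := h1 N ((Real.le_log_iff_exp_le hN0).2 hNE) (iS S) (Coal_iS hS) (iS_abs S) s hs b hb hok
  have h4 := h2 S hS δ hδ (b * N) (le_trans (by omega : N₂ ≤ N) (Nat.le_mul_of_pos_left _ hb))
  set D := ∑ m ∈ Ioc 0 (b * N), iS S (s * (m : ℤ)) with hD
  have h5 : |1 / (b : ℝ) * D - δ * N| ≤ η / 2 * N := by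
    have e : 1 / (b : ℝ) * D - δ * N = (D - δ * ((b * N : ℕ) : ℝ)) / b := by
      push_cast
      field_simp
    rw [e, abs_div, abs_of_pos hb0, div_le_iff₀ hb0]
    refine h4.trans (le_of_eq ?_)
    push_cast
    ring
  have e : ∑ n ∈ Ioc 0 N, iS S (s * b * (n : ℤ)) - δ * N =
      (∑ n ∈ Ioc 0 N, iS S (s * b * (n : ℤ)) - 1 / (b : ℝ) * D) + (1 / (b : ℝ) * D - δ * N) := by ring
  rw [e]
  refine (abs_add_le _ _).trans ?_
  linarith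

/-- the density among the products `b p q` -/
theorem dens_pq (RL : RelS) (ML : MultS) {s : ℤ} (hs : s = 1 ∨ s = -1) (e : ℕ) {ε : ℝ} (hε : 0 < ε) : ∃ θ : ℝ, 0 < θ ∧ ∀ B : ℕ, ∃ C : ℝ, 0 < C ∧
    ∃ N₀ : ℕ, 10 ≤ N₀ ∧ ∀ S : Set ℤ, Inv 1 S → ∀ δ : ℝ, HD s S δ → ∀ N : ℕ, N₀ ≤ N →
    ∀ P : Finset ℕ, (∀ p ∈ P, p.Prime ∧ C * Real.log (Real.log N) ≤ Real.log p ∧ Real.log p ≤ θ * Real.log N) →
    1 / Real.log N ^ B ≤ sg P → ∀ b : ℕ, 1 ≤ b → Real.log b ≤ θ * Real.log N → ¬ 2 ^ (e + 1) ∣ b →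
    |∑ n ∈ Ioc 0 N, pc P n * iS S (s * b * (n : ℤ)) - δ * ∑ n ∈ Ioc 0 N, pc P n| ≤ ε * ∑ n ∈ Ioc 0 N, pc P n ∧
    0 < ∑ n ∈ Ioc 0 N, pc P n := by
  obtain ⟨ε₁, hε₁⟩ : ∃ ε₁ : ℝ, ε₁ = min ε 1 := ⟨_, rfl⟩
  have hε₁0 : 0 < ε₁ := hε₁ ▸ lt_min hε one_pos
  have hε₁1 : ε₁ ≤ 1 := hε₁ ▸ min_le_right _ _
  have hε₁ε : ε₁ ≤ ε := hε₁ ▸ min_le_left _ _
  obtain ⟨θ₁, hθ₁, hθ₁1, h1⟩ := RL e ε₁ hε₁0 hε₁1
  obtain ⟨θ₂, hθ₂, N₂, hN₂, h2⟩ := dens_mult ML hs e (show 0 < ε₁ / 32 by positivity)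
  refine ⟨min θ₁ θ₂, lt_min hθ₁ hθ₂, fun B => ?_⟩
  obtain ⟨C, hC, N₁, hN₁, h1⟩ := h1 B
  refine ⟨C, hC, N₁ + N₂, by omega, ?_⟩
  intro S hS δ hδ N hN P hP hsg b hb hbθ hb2
  have hN0 : (0 : ℝ) < N := by exact_mod_cast (by omega : 0 < N)
  have hN1 : (1 : ℝ) < N := by exact_mod_cast (by omega : 1 < N)
  have hl0 : 0 < Real.log N := Real.log_pos hN1
  have hb0 : (0 : ℝ) < b := by exact_mod_cast hb
  have hok : ∀ θ : ℝ, min θ₁ θ₂ ≤ θ → Ok e (θ * Real.log N) (s * b) := by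
    intro θ hθ
    constructor
    · push_cast
      rw [abs_mul, abs_of_pos hb0]
      have hs1 : |(s : ℝ)| = 1 := by
        rcases hs with rfl | rfl <;> simp
      rw [hs1, one_mul]
      apply (Real.log_le_iff_le_exp hb0).1
      exact hbθ.trans (mul_le_mul_of_nonneg_right hθ hl0.le)
    · intro hd
      apply hb2
      have h3 : (2 : ℤ) ^ (e + 1) ∣ (b : ℤ) := by
        rcases hs with rfl | rfl
        · simpa using hd
        · simpa using hd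
      exact_mod_cast h3
  obtain ⟨hδ0, hδ1⟩ := dens_abs hs hδ
  have h3 := h2 S hS δ hδ N (by omega) b hb (hok θ₂ (min_le_right _ _))
  have h4 := h1 N (by omega) (iS S) (Coal_iS hS) (iS_abs S) (s * b) (hok θ₁ (min_le_left _ _)) δ
    (abs_le.2 ⟨by linarith, hδ1⟩) h3 P (fun p hp => by
      obtain ⟨g1, g2, g3⟩ := hP p hp
      exact ⟨g1, g2, g3.trans (mul_le_mul_of_nonneg_right (min_le_left _ _) hl0.le)⟩) hsg
  have hT : 0 < ∑ n ∈ Ioc 0 N, pc P n := by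
    have h5 : 0 < sg P := lt_of_lt_of_le (by positivity) hsg
    exact lt_of_lt_of_le (by positivity) h4.2
  refine ⟨h4.1.trans ?_, hT⟩
  exact mul_le_mul_of_nonneg_right hε₁ε hT.le

open Classical in
/-- the sum with the weight counts pairs -/
theorem pc_pairs {P : Finset ℕ} (hP : ∀ p ∈ P, 0 < p) (N : ℕ) (c : ℤ) (S : Set ℤ) :
    ∑ n ∈ Ioc 0 N, pc P n * iS S (c * (n : ℤ)) =
      (#((P ×ˢ Ioc 0 N).filter (fun x => x.2.Prime ∧ x.1 * x.2 ≤ N ∧ c * ((x.1 * x.2 : ℕ) : ℤ) ∈ S)) : ℝ) := by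
  have e1 : ∑ n ∈ Ioc 0 N, pc P n * iS S (c * (n : ℤ)) =
      ∑ p ∈ P, ∑ m ∈ Ioc 0 (N / p), ((if m.Prime then (1 : ℝ) else 0) * iS S (c * ((p * m : ℕ) : ℤ))) := by
    rw [← swap (fun p m => (if m.Prime then (1 : ℝ) else 0) * iS S (c * ((p * m : ℕ) : ℤ))) hP N]
    apply sum_congr rfl
    intro n _
    unfold pc
    rw [sum_mul]
    apply sum_congr rfl
    intro p _
    by_cases h : p ∣ n
    · rw [if_pos h, if_pos h, Nat.mul_div_cancel' h]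
    · rw [if_neg h, if_neg h, zero_mul]
  rw [e1, card_filter, sum_product]
  push_cast
  apply sum_congr rfl
  intro p hp
  have hp0 := hP p hp
  have hsub : Ioc 0 (N / p) ⊆ Ioc 0 N := by
    intro m hm
    rw [mem_Ioc] at *
    exact ⟨hm.1, hm.2.trans (Nat.div_le_self _ _)⟩
  rw [← sum_subset hsub]
  · apply sum_congr rfl
    intro m hm
    rw [mem_Ioc, Nat.le_div_iff_mul_le hp0] at hm
    have h2 : p * m ≤ N := by rw [mul_comm]; exact hm.2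
    unfold iS
    by_cases h3 : m.Prime
    · by_cases h4 : c * ((p : ℤ) * (m : ℤ)) ∈ S
      · simp [h3, h2, h4]
      · simp [h3, h4]
    · simp [h3]
  · intro m hm hm2
    rw [mem_Ioc] at hm hm2
    rw [if_neg]
    rintro ⟨h3, h4, -⟩
    apply hm2
    refine ⟨hm.1, ?_⟩
    rw [Nat.le_div_iff_mul_le hp0, mul_comm]
    exact h4

end Pool.Agent.Run7.h684.E2
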