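import Pool.Agent.Run7.h684.E2.Bt0

/-!
Project E2 (helper684): the mean of a function constant on coalescing trajectories over the multiples of a small integer.
-/

set_option autoImplicit false

namespace Pool.Agent.Run7.h684.E2

open Finset Pool.Agent.H499R2.CO Pool.Agent.Y967.CM

/-- a sum over an interval, by classes -/
theorem split_classes (g : ℕ → ℝ) {b : ℕ} (hb : 1 ≤ b) (M : ℕ) :
    ∑ m ∈ Ioc 0 (b * M), g m = ∑ n ∈ Ioc 0 M, ∑ r ∈ range b, g (b * n - r) := by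
  induction M with
  | zero => simp
  | succ M ih =>
    have e1 : Ioc 0 (b * (M + 1)) = Ioc 0 (b * M) ∪ Ioc (b * M) (b * (M + 1)) :=
      (Ioc_union_Ioc_eq_Ioc (Nat.zero_le _) (Nat.mul_le_mul_left b (Nat.le_succ M))).symm
    have e2 : Ioc 0 (M + 1) = insert (M + 1) (Ioc 0 M) := by
      ext i
      simp only [mem_Ioc, mem_insert]
      omega
    rw [e1, sum_union (Ioc_disjoint_Ioc_of_le le_rfl), ih, e2, sum_insert (by simp), add_comm]
    congr 1
    have e3 : Ioc (b * M) (b * (M + 1)) = (range b).image (fun r => b * (M + 1) - r) := by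
      ext i
      simp only [mem_Ioc, mem_image, mem_range]
      have h1 : b * (M + 1) = b * M + b := by ring
      constructor
      · rintro ⟨h2, h3⟩
        exact ⟨b * (M + 1) - i, by omega, by omega⟩
      · rintro ⟨r, h2, rfl⟩
        omega
    rw [e3, sum_image]
    intro i hi j hj h
    have h1 : b * (M + 1) = b * M + b := by ring
    rw [mem_coe, mem_range] at hi hj
    simp only at h
    omega

theorem class_count (M T : ℕ) (c : ℤ) :
    (#{n ∈ Icc 1 M | ((n : ℕ) : ℤ) ≡ c [ZMOD 2 ^ T]} : ℝ) ≤ M / 2 ^ T + 1 := by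
  have h2T : 0 < 2 ^ T := by positivity
  have h1 : #{n ∈ Icc 1 M | ((n : ℕ) : ℤ) ≡ c [ZMOD 2 ^ T]} ≤ M / 2 ^ T + 1 := by
    calc #{n ∈ Icc 1 M | ((n : ℕ) : ℤ) ≡ c [ZMOD 2 ^ T]} ≤ #(range (M / 2 ^ T + 1)) := by
          apply card_le_card_of_injOn (fun n => n / 2 ^ T)
          · intro n hn
            rw [mem_coe, mem_filter, mem_Icc] at hn
            rw [mem_coe, mem_range, Nat.lt_succ_iff]
            exact Nat.div_le_div_right hn.1.2
          · intro n hn n' hn' h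
            rw [mem_coe, mem_filter] at hn hn'
            have h3 : ((n : ℕ) : ℤ) ≡ (n' : ℤ) [ZMOD 2 ^ T] := hn.2.trans hn'.2.symm
            have h4 : n ≡ n' [MOD 2 ^ T] := by
              rw [← Int.natCast_modEq_iff]
              exact_mod_cast h3
            have h5 : n % 2 ^ T = n' % 2 ^ T := h4
            simp only at h
            rw [← Nat.mod_add_div n (2 ^ T), ← Nat.mod_add_div n' (2 ^ T), h, h5]
      _ = _ := card_range _
  calc (#{n ∈ Icc 1 M | ((n : ℕ) : ℤ) ≡ c [ZMOD 2 ^ T]} : ℝ) ≤ ((M / 2 ^ T + 1 : ℕ) : ℝ) := Nat.cast_le.2 h1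
    _ ≤ _ := by
        push_cast
        have : ((M / 2 ^ T : ℕ) : ℝ) ≤ (M : ℝ) / ((2 ^ T : ℕ) : ℝ) := Nat.cast_div_le
        push_cast at this
        linarith

theorem mult_mean (e : ℕ) {η : ℝ} (hη : 0 < η) : ∃ θ : ℝ, 0 < θ ∧ θ ≤ 1 / 4 ∧ ∃ Y₀ : ℝ, 100 ≤ Y₀ ∧
    ∀ M : ℕ, Y₀ ≤ Real.log M → ∀ F : ℤ → ℝ, Coal F → (∀ x, |F x| ≤ 1) → ∀ s : ℤ, (s = 1 ∨ s = -1) →
    ∀ b : ℕ, 1 ≤ b → Ok e (θ * Real.log M) (s * b) →
    |∑ n ∈ Ioc 0 M, F (s * b * (n : ℤ)) - 1 / (b : ℝ) * ∑ m ∈ Ioc 0 (b * M), F (s * (m : ℤ))| ≤ η * M := by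
  classical
  obtain ⟨C, hC, hqt⟩ := Pool.Agent.W38.PR.q_theta
  set η₁ : ℝ := η / (4 * 2 ^ e) with hη₁
  have hη₁0 : 0 < η₁ := by positivity
  obtain ⟨θ₀, hθ₀, hθ₀1, hθ₀η⟩ := theta_small hC hη₁0
  refine ⟨θ₀ / 16, by positivity, by linarith, max 1000 (10 * C / θ₀), le_trans (by norm_num) (le_max_left _ _), ?_⟩
  intro M hM F hF hF1 s hs b hb hok
  obtain ⟨Y, hY⟩ : ∃ Y : ℝ, Y = Real.log M := ⟨_, rfl⟩
  rw [← hY] at hM hok
  have hY1 : 1000 ≤ Y := (le_max_left _ _).trans hM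
  have hY2 : 10 * C ≤ θ₀ * Y := by
    have := (le_max_right _ _).trans hM
    rw [div_le_iff₀ hθ₀] at this
    linarith
  have hM0 : (0 : ℝ) < M := by
    rcases Nat.eq_zero_or_pos M with h | h
    · rw [h] at hY
      simp at hY
      linarith
    · exact_mod_cast h
  set T : ℕ := ⌊Y / 4⌋₊ with hT
  have hT1 : (T : ℝ) ≤ Y / 4 := Nat.floor_le (by positivity)
  have hT2 : Y / 4 < T + 1 := Nat.lt_floor_add_one _
  have hT3 : Y / 5 ≤ T := by linarith
  have hT4 : 1 ≤ T := by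
    have : (1 : ℝ) ≤ T := by linarith
    exact_mod_cast this
  have hCT : C ≤ θ₀ * T := by
    have : θ₀ * (Y / 5) ≤ θ₀ * T := mul_le_mul_of_nonneg_left hT3 hθ₀.le
    linarith
  have hl2 := Real.log_two_gt_d9
  have hl2' := Real.log_two_lt_d9
  have h2T : (2 : ℝ) ^ T ≤ M := by
    have e1 : (2 : ℝ) ^ T = Real.exp (T * Real.log 2) := by
      rw [← Real.rpow_natCast, Real.rpow_def_of_pos (by norm_num), mul_comm]
    rw [e1, ← Real.le_log_iff_exp_le hM0, ← hY]
    nlinarith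
  have hsabs : |(s : ℝ)| = 1 := by
    rcases hs with rfl | rfl <;> simp
  have hbθ : (b : ℝ) ≤ (2 : ℝ) ^ (θ₀ * T) := by
    have h1 := hok.1
    push_cast at h1
    rw [abs_mul, hsabs, one_mul, abs_of_nonneg (Nat.cast_nonneg b)] at h1
    refine h1.trans ?_
    rw [Real.rpow_def_of_pos (by norm_num)]
    apply Real.exp_le_exp.2
    have h4 : θ₀ * (Y / 5) ≤ θ₀ * T := mul_le_mul_of_nonneg_left hT3 hθ₀.le
    have h5 : 0.69 * (θ₀ * T) ≤ Real.log 2 * (θ₀ * T) :=
      mul_le_mul_of_nonneg_right (by linarith) (by positivity)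
    have h6 : 0 < θ₀ * Y := by positivity
    linarith
  have hb0 : (0 : ℝ) < b := by exact_mod_cast hb
  -- one class
  have hone : ∀ r ∈ range b, |∑ n ∈ Ioc 0 M, (F (s * ((b * n - r : ℕ) : ℤ)) - F (s * b * (n : ℤ)))| ≤ η * M := by
    intro r hr
    rw [mem_range] at hr
    have h1 : ∀ n ∈ Ioc 0 M, |F (s * ((b * n - r : ℕ) : ℤ)) - F (s * b * (n : ℤ))| ≤
        if surv 1 T (0, -(s * r)) (s * b * (n : ℤ)) then 2 else 0 := by
      intro n hn
      rw [mem_Ioc] at hn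
      split_ifs with h
      · refine (abs_sub _ _).trans ?_
        linarith [hF1 (s * ((b * n - r : ℕ) : ℤ)), hF1 (s * b * (n : ℤ))]
      · have h2 := coal_T h
        have h3 : r ≤ b * n := by nlinarith
        have h4 : (3 : ℤ) ^ 0 * (s * b * (n : ℤ)) + -(s * r) = s * ((b * n - r : ℕ) : ℤ) := by
          rw [Nat.cast_sub h3]
          push_cast
          ring
        rw [h4] at h2
        rw [hF T _ _ h2, sub_self, abs_zero]
    refine (abs_sum_le_sum_abs _ _).trans ((sum_le_sum h1).trans ?_)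
    rw [← sum_filter, sum_const, nsmul_eq_mul]
    have h5 := periodic_count (fun n => (n : ℤ)) (Icc 1 M) (T := T) (B := M / 2 ^ T + 1)
      (fun c => class_count M T c) (fun y => surv 1 T (0, -(s * r)) (s * b * y)) (fun y m => by
        have : s * b * (y + m * 2 ^ T) = s * b * y + (s * b * m) * 2 ^ T := by ring
        rw [this]
        exact surv_periodic (by norm_num) T (0, -(s * r)) _ _)
    have h6 := bad_card' hT4 (η := η₁) (ρ := -(s * r)) ((hqt θ₀ hθ₀ hθ₀1 T hCT 0 _ (by norm_num; positivity) (by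
      push_cast
      rw [abs_neg, abs_mul, hsabs, one_mul, abs_of_nonneg (Nat.cast_nonneg r)]
      refine le_trans ?_ hbθ
      exact_mod_cast hr.le)).trans hθ₀η) e (s * b) hok.2
    have h7 : (Ioc 0 M).filter (fun n => surv 1 T (0, -(s * r)) (s * b * ((n : ℕ) : ℤ))) =
        (Icc 1 M).filter (fun n => surv 1 T (0, -(s * r)) (s * b * ((n : ℕ) : ℤ))) := by
      ext n
      simp only [mem_filter, mem_Ioc, mem_Icc]
      constructor
      · rintro ⟨⟨h8, h9⟩, h10⟩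
        exact ⟨⟨by omega, h9⟩, h10⟩
      · rintro ⟨⟨h8, h9⟩, h10⟩
        exact ⟨⟨by omega, h9⟩, h10⟩
    rw [h7]
    calc (#{n ∈ Icc 1 M | surv 1 T (0, -(s * r)) (s * b * ((n : ℕ) : ℤ))} : ℝ) * 2
        ≤ ((M / 2 ^ T + 1) * (2 ^ e * η₁ * 2 ^ T)) * 2 := by
          apply mul_le_mul_of_nonneg_right _ (by norm_num)
          exact h5.trans (mul_le_mul_of_nonneg_left h6 (by positivity))
      _ = 2 ^ e * η₁ * (M + 2 ^ T) * 2 := by field_simp
      _ ≤ 2 ^ e * η₁ * (M + M) * 2 := by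
          apply mul_le_mul_of_nonneg_right _ (by norm_num)
          exact mul_le_mul_of_nonneg_left (by linarith) (by positivity)
      _ = η * M := by
          rw [hη₁]
          field_simp
          ring
  rw [split_classes (fun m => F (s * (m : ℤ))) hb M]
  have e1 : ∑ n ∈ Ioc 0 M, F (s * b * (n : ℤ)) - 1 / (b : ℝ) * ∑ n ∈ Ioc 0 M, ∑ r ∈ range b, F (s * ((b * n - r : ℕ) : ℤ)) =
      -(1 / (b : ℝ) * ∑ r ∈ range b, ∑ n ∈ Ioc 0 M, (F (s * ((b * n - r : ℕ) : ℤ)) - F (s * b * (n : ℤ)))) := by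
    have e2 : ∑ r ∈ range b, ∑ n ∈ Ioc 0 M, (F (s * ((b * n - r : ℕ) : ℤ)) - F (s * b * (n : ℤ))) =
        ∑ n ∈ Ioc 0 M, ∑ r ∈ range b, F (s * ((b * n - r : ℕ) : ℤ)) - b * ∑ n ∈ Ioc 0 M, F (s * b * (n : ℤ)) := by
      rw [sum_comm, mul_sum, ← sum_sub_distrib]
      apply sum_congr rfl
      intro n _
      rw [sum_sub_distrib, sum_const, card_range, nsmul_eq_mul]
    rw [e2]
    field_simp
    ring
  rw [e1, abs_neg, abs_mul, abs_of_pos (by positivity : 0 < 1 / (b : ℝ))]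
  calc 1 / (b : ℝ) * |∑ r ∈ range b, ∑ n ∈ Ioc 0 M, (F (s * ((b * n - r : ℕ) : ℤ)) - F (s * b * (n : ℤ)))|
      ≤ 1 / (b : ℝ) * (b * (η * M)) := by
        apply mul_le_mul_of_nonneg_left _ (by positivity)
        refine (abs_sum_le_sum_abs _ _).trans ((sum_le_sum hone).trans (le_of_eq ?_))
        rw [sum_const, card_range, nsmul_eq_mul]
    _ = η * M := by field_simp

end Pool.Agent.Run7.h684.E2
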