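import Pool.Agent.Run7.h684.E2.WinF
import Pool.Agent.Run7.h684.E2.Dens
import Pool.Agent.Run7.h684.E2.All
import Pool.Agent.Run7.h684.E2.Mult
import Pool.Agent.Run7.h684.E2.KPe

/-!
Project E2 (helper684): the statements put together.
-/

set_option autoImplicit false

namespace Pool.Agent.Run7.h684.E2


theorem winFS : WinFS := fun e _ h h1 => WinF e h h1

theorem cellS : CellS := fun e _ h h1 => cell_thm winFS e h h1

theorem relS : RelS := fun e _ h h1 => rel cellS e h h1

theorem multS : MultS := fun e _ h => mult_mean e h

end Pool.Agent.Run7.h684.E2
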