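import Pool.Agent.Run7.h684.E2.B0

/-!
Project E2 (helper684): the statements that connect the modules.
-/

set_option autoImplicit false

namespace Pool.Agent.Run7.h684.E2

open Finset MeasureTheory Pool.Agent.H376R2.MR
open Pool.Agent.H499R2.CO

/-- the estimate in windows -/
def WinFS : Prop := ∀ (e : ℕ) (ε : ℝ), 0 < ε → ε ≤ 1 →
    ∃ θ : ℝ, 0 < θ ∧ θ ≤ 1 / 8 ∧ ∀ B : ℕ, ∃ C₁ : ℝ, 0 < C₁ ∧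
    ∃ Y₀ : ℝ, 100 ≤ Y₀ ∧
    ∀ Y : ℝ, Y₀ ≤ Y → ∀ F : ℤ → ℝ, Coal F → (∀ x, |F x| ≤ 1) → ∀ s : ℤ, Ok e (θ * Y) s →
    ∀ r : ℕ, C₁ * Real.log Y ≤ (r : ℝ) / 100 → (r : ℝ) / 100 ≤ θ * Y → ∀ S : Finset ℕ, S ⊆ cell 100 r →
    ∀ n₀ n₁ : ℕ, 1 ≤ n₀ → n₀ ≤ n₁ →
    Y + (r : ℝ) / 100 - 0.3 ≤ Real.log n₀ → Real.log n₁ ≤ Y + (r : ℝ) / 100 + 0.3 →
    |∑ n ∈ Ico n₀ n₁, (ww S n / n - sg S * (Real.log ((n + 1 : ℕ) : ℝ) - Real.log n)) * F (s * (n : ℤ))| ≤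
      ε * sg S + 1 / Y ^ B

/-- the estimate for one cell -/
def CellS : Prop := ∀ (e : ℕ) (ε : ℝ), 0 < ε → ε ≤ 1 →
    ∃ θ : ℝ, 0 < θ ∧ θ ≤ 1 / 16 ∧ ∀ B : ℕ, ∃ C₁ : ℝ, 0 < C₁ ∧
    ∃ N₀ : ℕ, 10 ≤ N₀ ∧ ∀ N : ℕ, N₀ ≤ N → ∀ F : ℤ → ℝ, Coal F → (∀ x, |F x| ≤ 1) → ∀ s : ℤ, Ok e (θ * Real.log N) s →
    ∀ r : ℕ, C₁ * Real.log (Real.log N) ≤ (r : ℝ) / 100 → (r : ℝ) / 100 ≤ θ * Real.log N →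
    ∀ S : Finset ℕ, S ⊆ cell 100 r →
    |∑ n ∈ Ioc 0 N, (ww S n - sg S) * F (s * (n : ℤ))| ≤ (ε * sg S + 1 / Real.log N ^ B) * N

/-- the relative density -/
def RelS : Prop := ∀ (e : ℕ) (ε : ℝ), 0 < ε → ε ≤ 1 →
    ∃ θ : ℝ, 0 < θ ∧ θ ≤ 1 / 16 ∧ ∀ B : ℕ, ∃ C : ℝ, 0 < C ∧
    ∃ N₀ : ℕ, 10 ≤ N₀ ∧ ∀ N : ℕ, N₀ ≤ N → ∀ F : ℤ → ℝ, Coal F → (∀ x, |F x| ≤ 1) → ∀ s : ℤ, Ok e (θ * Real.log N) s →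
    ∀ δ : ℝ, |δ| ≤ 1 → |∑ n ∈ Ioc 0 N, F (s * (n : ℤ)) - δ * N| ≤ ε / 32 * N →
    ∀ P : Finset ℕ, (∀ p ∈ P, p.Prime ∧ C * Real.log (Real.log N) ≤ Real.log p ∧ Real.log p ≤ θ * Real.log N) →
    1 / Real.log N ^ B ≤ sg P →
    |∑ n ∈ Ioc 0 N, pc P n * F (s * (n : ℤ)) - δ * ∑ n ∈ Ioc 0 N, pc P n| ≤ ε * ∑ n ∈ Ioc 0 N, pc P n ∧
    sg P * (N / (2 * Real.log N)) ≤ ∑ n ∈ Ioc 0 N, pc P n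

/-- the mean over multiples -/
def MultS : Prop := ∀ (e : ℕ) (η : ℝ), 0 < η →
    ∃ θ : ℝ, 0 < θ ∧ θ ≤ 1 / 4 ∧ ∃ Y₀ : ℝ, 100 ≤ Y₀ ∧
    ∀ M : ℕ, Y₀ ≤ Real.log M → ∀ F : ℤ → ℝ, Coal F → (∀ x, |F x| ≤ 1) → ∀ s : ℤ, (s = 1 ∨ s = -1) →
    ∀ b : ℕ, 1 ≤ b → Ok e (θ * Real.log M) (s * b) →
    |∑ n ∈ Ioc 0 M, F (s * b * (n : ℤ)) - 1 / (b : ℝ) * ∑ m ∈ Ioc 0 (b * M), F (s * (m : ℤ))| ≤ η * M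

end Pool.Agent.Run7.h684.E2
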