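import Pool.Agent.Run7.h684.E2.B0
import Pool.Agent.Q95.KS.Tup
import Pool.Agent.H376R2.MR.Mom
import Pool.Agent.H376R2.MR.Mv

/-!
Project E2 (helper684): Fejer kernels.
-/

set_option autoImplicit false

namespace Pool.Agent.Run7.h684.E2

open Finset MeasureTheory Pool.Agent.H376R2.MR Pool.Agent.Q240.KS Pool.Agent.Q95.KS

/-- the kernel sum -/
noncomputable def Ph (Y : ℝ) (s : Finset ℕ) (K : ℕ) (u : ℝ) : ℝ :=
  ∑ p ∈ s, ∑ m ∈ MM Y, aY Y m / p * Fj K (u - (Real.log p + Real.log m))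

/-- truncated Fejer weight -/
noncomputable def fw (K : ℕ) (k : ℤ) : ℝ := max 0 (1 - |(k : ℝ)| / K)

theorem Fj_neg (K : ℕ) (u : ℝ) : Fj K (-u) = Fj K u := by
  unfold Fj
  apply sum_congr rfl
  intro k _
  rw [mul_neg, Real.cos_neg]

theorem Fj_cont (K : ℕ) : Continuous (Fj K) := by
  unfold Fj
  fun_prop

theorem Ph_cont (Y : ℝ) (s : Finset ℕ) (K : ℕ) : Continuous (Ph Y s K) := by
  unfold Ph
  refine continuous_finsetSum _ fun p _ => continuous_finsetSum _ fun m _ => ?_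
  exact continuous_const.mul ((Fj_cont K).comp (by fun_prop))

theorem fw_eq {K : ℕ} (hK : 1 ≤ K) {k : ℤ} (hk : k ∈ FK K) : fw K k = 1 - |(k : ℝ)| / K := by
  unfold FK at hk
  rw [mem_Ioo] at hk
  have hK0 : (0 : ℝ) < K := by exact_mod_cast hK
  have h1 : |(k : ℝ)| ≤ K := by
    have : |k| < (K : ℤ) := abs_lt.2 hk
    exact_mod_cast this.le
  unfold fw
  apply max_eq_right
  have := div_le_one_of_le₀ h1 hK0.le
  linarith

theorem fw_zero {K : ℕ} (hK : 1 ≤ K) {k : ℤ} (hk : k ∉ FK K) : fw K k = 0 := by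
  unfold FK at hk
  rw [mem_Ioo] at hk
  have hK0 : (0 : ℝ) < K := by exact_mod_cast hK
  have h1 : (K : ℝ) ≤ |(k : ℝ)| := by
    have : (K : ℤ) ≤ |k| := by
      by_contra hc
      exact hk (abs_lt.1 (not_le.1 hc))
    exact_mod_cast this
  unfold fw
  apply max_eq_left
  have : 1 ≤ |(k : ℝ)| / K := (one_le_div hK0).2 h1
  linarith

/-- the Fejer kernel as an exponential sum over a longer range -/
theorem Fj_long {K₁ K : ℕ} (hK₁ : 1 ≤ K₁) (h : K₁ ≤ K) (u x : ℝ) :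
    (Fj K₁ (u - x) : ℂ) = ∑ k ∈ FK K, ((fw K₁ k : ℝ) : ℂ) * (ch k x * ch (-k) u) := by
  have h0 : u - x = -(x - u) := by ring
  rw [h0, Fj_neg, ← fej_exp]
  have hsub : FK K₁ ⊆ FK K := by
    intro k hk
    unfold FK at hk ⊢
    rw [mem_Ioo] at hk ⊢
    omega
  rw [← sum_subset hsub]
  · apply sum_congr rfl
    intro k hk
    rw [fw_eq hK₁ hk]
    congr 1
    unfold ch
    rw [← Complex.exp_add]
    congr 1
    push_cast
    ring
  · intro k _ hk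
    rw [fw_zero hK₁ hk]
    simp

theorem Ph_eq {K₁ K : ℕ} (hK₁ : 1 ≤ K₁) (h : K₁ ≤ K) (Y : ℝ) (s : Finset ℕ) (u : ℝ) :
    (Ph Y s K₁ u : ℂ) =
      ∑ k ∈ FK K, ((fw K₁ k : ℝ) : ℂ) * (PS s k * AA (zY Y) Y k) * ch (-k) u := by
  unfold Ph
  push_cast
  have h1 : ∀ p ∈ s, ∀ m ∈ MM Y, ((aY Y m : ℝ) : ℂ) / (p : ℂ) * (Fj K₁ (u - (Real.log p + Real.log m)) : ℂ) =
      ∑ k ∈ FK K, ((fw K₁ k : ℝ) : ℂ) * ((ch k (Real.log p) / p) * (((aY Y m : ℝ) : ℂ) * ch k (Real.log m))) *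
        ch (-k) u := by
    intro p _ m _
    rw [Fj_long hK₁ h, mul_sum]
    apply sum_congr rfl
    intro k _
    rw [mom_ch_add]
    ring
  rw [sum_congr rfl fun p hp => sum_congr rfl fun m hm => h1 p hp m hm]
  rw [sum_congr rfl fun p _ => sum_comm, sum_comm]
  apply sum_congr rfl
  intro k _
  rw [AA_eq]
  unfold PS DP MM
  rw [sum_mul_sum, mul_sum, sum_mul]
  apply sum_congr rfl
  intro p _
  rw [mul_sum, sum_mul]

/-- the mean square of the difference of two resolutions -/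
theorem Ph_par {K₁ K : ℕ} (hK₁ : 1 ≤ K₁) (h : K₁ ≤ K) (Y Z : ℝ) (s : Finset ℕ) :
    ∫ x in (-Real.pi)..Real.pi, (Ph Y s K (Z + x) - Ph Y s K₁ (Z + x)) ^ 2 =
      2 * Real.pi * ∑ k ∈ FK K, (fw K k - fw K₁ k) ^ 2 * (‖PS s k‖ ^ 2 * ‖AA (zY Y) Y k‖ ^ 2) := by
  have hK : 1 ≤ K := hK₁.trans h
  have h1 := ls_par (FK K) (fun k => ((fw K k - fw K₁ k : ℝ) : ℂ) * (PS s (-k) * AA (zY Y) Y (-k)) * ch k Z)
  have hneg : ∀ k : ℤ, -k ∈ FK K ↔ k ∈ FK K := by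
    intro k
    unfold FK
    rw [mem_Ioo, mem_Ioo]
    omega
  have hfw : ∀ (L : ℕ) (k : ℤ), fw L (-k) = fw L k := by
    intro L k
    unfold fw
    rw [Int.cast_neg, abs_neg]
  have h2 : ∀ x : ℝ, (Ph Y s K (Z + x) - Ph Y s K₁ (Z + x)) ^ 2 =
      ‖∑ k ∈ FK K, (((fw K k - fw K₁ k : ℝ) : ℂ) * (PS s (-k) * AA (zY Y) Y (-k)) * ch k Z) * ch k x‖ ^ 2 := by
    intro x
    have h3 : ((Ph Y s K (Z + x) - Ph Y s K₁ (Z + x) : ℝ) : ℂ) =
        ∑ k ∈ FK K, (((fw K k - fw K₁ k : ℝ) : ℂ) * (PS s (-k) * AA (zY Y) Y (-k)) * ch k Z) * ch k x := by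
      push_cast
      rw [Ph_eq hK le_rfl, Ph_eq hK₁ h, ← sum_sub_distrib]
      refine sum_equiv (Equiv.neg ℤ) (fun k => ?_) (fun k _ => ?_)
      · rw [Equiv.neg_apply, hneg]
      · rw [Equiv.neg_apply, neg_neg, hfw, hfw, mom_ch_add]
        ring
    rw [← h3, Complex.norm_real, Real.norm_eq_abs, sq_abs]
  simp_rw [h2]
  rw [h1]
  congr 1
  refine sum_equiv (Equiv.neg ℤ) (fun k => ?_) (fun k _ => ?_)
  · rw [Equiv.neg_apply, hneg]
  · rw [Equiv.neg_apply, hfw, hfw, norm_mul, norm_mul, norm_mul, ls_norm_ch, mul_one, Complex.norm_real,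
      Real.norm_eq_abs, mul_pow, sq_abs, mul_pow]

theorem fw_diff {K₁ K : ℕ} (hK₁ : 1 ≤ K₁) (h : K₁ ≤ K) (k : ℤ) : (fw K k - fw K₁ k) ^ 2 ≤ 1 ∧
    (fw K k - fw K₁ k) ^ 2 ≤ (|(k : ℝ)| / K₁) ^ 2 := by
  have hK0 : (0 : ℝ) < K₁ := by exact_mod_cast hK₁
  have hKK : (K₁ : ℝ) ≤ K := by exact_mod_cast h
  have h1 : |(k : ℝ)| / K ≤ |(k : ℝ)| / K₁ := div_le_div_of_nonneg_left (abs_nonneg _) hK0 hKK
  have h2 : 0 ≤ |(k : ℝ)| / K := by positivity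
  have h3 : 0 ≤ |(k : ℝ)| / K₁ := by positivity
  have h4 : 0 ≤ fw K₁ k := le_max_left _ _
  have h5 : 1 - |(k : ℝ)| / K₁ ≤ fw K₁ k := le_max_right _ _
  have h6 : fw K₁ k ≤ fw K k := max_le_max le_rfl (by linarith)
  have h7 : fw K k ≤ 1 := max_le zero_le_one (by linarith)
  constructor
  · have : 0 ≤ fw K k - fw K₁ k := by linarith
    have h8 : fw K k - fw K₁ k ≤ 1 := by linarith
    nlinarith
  · apply pow_le_pow_left₀ (by linarith)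
    linarith

end Pool.Agent.Run7.h684.E2
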