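import Pool.Agent.Run7.h684.E2.B0

/-!
Project E2 (helper684): products of exactly `k` primes, the combinatorial part.
-/

set_option autoImplicit false

namespace Pool.Agent.Run7.h684.E2

open Finset

/-- products of exactly `j` primes of `W` -/
noncomputable def BB (W : Finset ℕ) : ℕ → Finset ℕ
  | 0 => {1}
  | j + 1 => (W ×ˢ BB W j).image (fun x => x.1 * x.2)

theorem BB_mem {W : Finset ℕ} (hW : ∀ p ∈ W, p.Prime) (j : ℕ) : ∀ b : ℕ,
    b ∈ BB W j ↔ b ≠ 0 ∧ ArithmeticFunction.cardFactors b = j ∧ ∀ p : ℕ, p.Prime → p ∣ b → p ∈ W := by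
  induction j with
  | zero =>
    intro b
    simp only [BB, mem_singleton]
    constructor
    · rintro rfl
      refine ⟨by norm_num, by simp, ?_⟩
      intro p hp h
      exact absurd (Nat.dvd_one.1 h) hp.one_lt.ne'
    · rintro ⟨h1, h2, -⟩
      rcases ArithmeticFunction.cardFactors_eq_zero_iff_eq_zero_or_one.1 h2 with h | h
      · exact absurd h h1
      · exact h
  | succ j ih =>
    intro b
    simp only [BB, mem_image, mem_product]
    constructor
    · rintro ⟨⟨p, b'⟩, ⟨hp, hb'⟩, rfl⟩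
      obtain ⟨h1, h2, h3⟩ := (ih b').1 hb'
      have hpp := hW p hp
      refine ⟨mul_ne_zero hpp.ne_zero h1, ?_, ?_⟩
      · rw [ArithmeticFunction.cardFactors_mul hpp.ne_zero h1, h2, ArithmeticFunction.cardFactors_apply_prime hpp, add_comm]
      · intro r hr hrd
        rcases (hr.dvd_mul).1 hrd with h | h
        · rw [(Nat.prime_dvd_prime_iff_eq hr hpp).1 h]
          exact hp
        · exact h3 r hr h
    · rintro ⟨h1, h2, h3⟩
      have hb1 : b ≠ 1 := by
        rintro rfl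
        simp at h2
      obtain ⟨p, hp, hpb⟩ := Nat.exists_prime_and_dvd hb1
      obtain ⟨b', rfl⟩ := hpb
      have hb' : b' ≠ 0 := fun h => h1 (by rw [h, mul_zero])
      refine ⟨(p, b'), ⟨h3 p hp (dvd_mul_right _ _), (ih b').2 ⟨hb', ?_, ?_⟩⟩, rfl⟩
      · rw [ArithmeticFunction.cardFactors_mul hp.ne_zero hb', ArithmeticFunction.cardFactors_apply_prime hp] at h2
        omega
      · intro r hr hrd
        exact h3 r hr (hrd.mul_left _)

theorem card_primeFactors_le {n : ℕ} : n.primeFactors.card ≤ ArithmeticFunction.cardFactors n := by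
  rw [ArithmeticFunction.cardFactors_apply]
  exact List.toFinset_card_le _

/-- the sum of the reciprocals -/
noncomputable def TT (W : Finset ℕ) (j : ℕ) : ℝ := ∑ b ∈ BB W j, 1 / (b : ℝ)

theorem TT_nonneg (W : Finset ℕ) (j : ℕ) : 0 ≤ TT W j := by
  unfold TT
  positivity

theorem TT_fiber (W : Finset ℕ) (j : ℕ) :
    sg W * TT W j = ∑ m ∈ BB W (j + 1), (1 / (m : ℝ)) * (((W ×ˢ BB W j).filter (fun x => x.1 * x.2 = m)).card : ℝ) := by
  unfold sg TT
  rw [sum_mul_sum, ← sum_product']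
  rw [← sum_fiberwise_of_maps_to (s := W ×ˢ BB W j) (t := BB W (j + 1)) (g := fun x => x.1 * x.2)
    (fun x hx => mem_image_of_mem _ hx)]
  apply sum_congr rfl
  intro m _
  rw [mul_comm, ← nsmul_eq_mul, ← sum_const]
  apply sum_congr rfl
  intro x hx
  rw [mem_filter] at hx
  rw [← hx.2]
  push_cast
  rw [div_mul_div_comm, one_mul]

theorem TT_lower {W : Finset ℕ} (hW : ∀ p ∈ W, p.Prime) (j : ℕ) : sg W * TT W j ≤ (j + 1) * TT W (j + 1) := by
  rw [TT_fiber]
  unfold TT
  rw [mul_sum]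
  apply sum_le_sum
  intro m hm
  rw [mul_comm]
  apply mul_le_mul_of_nonneg_right _ (by positivity)
  obtain ⟨h1, h2, h3⟩ := (BB_mem hW (j + 1) m).1 hm
  have h4 : ((W ×ˢ BB W j).filter (fun x => x.1 * x.2 = m)).card ≤ m.primeFactors.card := by
    apply card_le_card_of_injOn (fun x => x.1)
    · intro x hx
      simp only [coe_filter, mem_product, Set.mem_setOf_eq] at hx
      rw [mem_coe, Nat.mem_primeFactors]
      exact ⟨hW _ hx.1.1, hx.2 ▸ dvd_mul_right _ _, h1⟩
    · intro x hx y hy hxy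
      simp only [coe_filter, mem_product, Set.mem_setOf_eq] at hx hy
      have h5 : x.1 = y.1 := hxy
      have h6 : x.1 * x.2 = x.1 * y.2 := by rw [hx.2, h5, hy.2]
      exact Prod.ext h5 (Nat.eq_of_mul_eq_mul_left (hW _ hx.1.1).pos h6)
  have h5 := h4.trans (card_primeFactors_le.trans h2.le)
  exact_mod_cast h5

theorem TT_upper {W : Finset ℕ} (j : ℕ) : TT W (j + 1) ≤ sg W * TT W j := by
  rw [TT_fiber]
  unfold TT
  apply sum_le_sum
  intro m hm
  have h1 : (1 : ℝ) ≤ (((W ×ˢ BB W j).filter (fun x => x.1 * x.2 = m)).card : ℝ) := by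
    have h2 : 0 < ((W ×ˢ BB W j).filter (fun x => x.1 * x.2 = m)).card := by
      rw [card_pos]
      obtain ⟨x, hx, hxm⟩ := mem_image.1 hm
      exact ⟨x, mem_filter.2 ⟨hx, hxm⟩⟩
    exact_mod_cast h2
  calc 1 / (m : ℝ) = 1 / (m : ℝ) * 1 := (mul_one _).symm
    _ ≤ _ := mul_le_mul_of_nonneg_left h1 (by positivity)

theorem TT_le {W : Finset ℕ} (j : ℕ) : TT W j ≤ sg W ^ j := by
  induction j with
  | zero => simp [TT, BB]
  | succ j ih =>
    refine (TT_upper j).trans ?_
    rw [pow_succ, mul_comm]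
    exact mul_le_mul_of_nonneg_right ih (sg_nonneg W)

theorem TT_ge {W : Finset ℕ} (hW : ∀ p ∈ W, p.Prime) (j : ℕ) : sg W ^ j / j.factorial ≤ TT W j := by
  induction j with
  | zero => simp [TT, BB]
  | succ j ih =>
    have h1 := TT_lower hW j
    have h2 := mul_le_mul_of_nonneg_left ih (sg_nonneg W)
    have hf : (0 : ℝ) < j.factorial := by exact_mod_cast j.factorial_pos
    rw [Nat.factorial_succ]
    push_cast
    rw [div_le_iff₀ (by positivity)]
    have h3 : sg W * (sg W ^ j / j.factorial) * j.factorial = sg W ^ (j + 1) := by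
      field_simp
      ring
    have h4 : sg W * (sg W ^ j / j.factorial) * j.factorial ≤ (((j : ℝ) + 1) * TT W (j + 1)) * j.factorial :=
      mul_le_mul_of_nonneg_right (h2.trans h1) hf.le
    rw [← h3]
    refine h4.trans (le_of_eq (by ring))

/-- the weight -/
noncomputable def RR (W : Finset ℕ) (j n : ℕ) : ℝ := ∑ b ∈ BB W j, if b ∣ n then pc W (n / b) else 0

theorem RR_nonneg (W : Finset ℕ) (j n : ℕ) : 0 ≤ RR W j n := by
  unfold RR
  apply sum_nonneg
  intro b _
  split_ifs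
  · exact pc_nonneg _ _
  · exact le_rfl

/-- the set counted by the weight -/
noncomputable def QQ (W : Finset ℕ) (j n : ℕ) : Finset (ℕ × ℕ) :=
  (BB W j ×ˢ W).filter (fun x => x.1 ∣ n ∧ x.2 ∣ n / x.1 ∧ (n / x.1 / x.2).Prime)

theorem RR_eq (W : Finset ℕ) (j n : ℕ) : RR W j n = ((QQ W j n).card : ℝ) := by
  classical
  unfold RR QQ pc
  rw [card_filter, sum_product]
  push_cast
  apply sum_congr rfl
  intro b _
  by_cases h1 : b ∣ n
  · rw [if_pos h1]
    apply sum_congr rfl
    intro p _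
    by_cases h2 : p ∣ n / b
    · by_cases h3 : (n / b / p).Prime
      · simp [h1, h2, h3]
      · simp [h1, h2, h3]
    · simp [h2]
  · rw [if_neg h1]
    symm
    apply sum_eq_zero
    intro p _
    simp [h1]

theorem QQ_spec {W : Finset ℕ} {j n : ℕ} (hW : ∀ p ∈ W, p.Prime) {x : ℕ × ℕ} (hx : x ∈ QQ W j n) :
    x.1 ∈ BB W j ∧ x.2 ∈ W ∧ (n / x.1 / x.2).Prime ∧ n = x.1 * (x.2 * (n / x.1 / x.2)) := by
  unfold QQ at hx
  rw [mem_filter, mem_product] at hx
  obtain ⟨⟨h1, h2⟩, h3, h4, h5⟩ := hx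
  refine ⟨h1, h2, h5, ?_⟩
  rw [Nat.mul_div_cancel' h4, Nat.mul_div_cancel' h3]

theorem RR_Omega {W : Finset ℕ} {j n : ℕ} (hW : ∀ p ∈ W, p.Prime) (h : RR W j n ≠ 0) :
    ArithmeticFunction.cardFactors n = j + 2 := by
  rw [RR_eq] at h
  have h1 : (QQ W j n).card ≠ 0 := by exact_mod_cast h
  obtain ⟨x, hx⟩ := card_ne_zero.1 h1
  obtain ⟨h2, h3, h4, h5⟩ := QQ_spec hW hx
  obtain ⟨h6, h7, -⟩ := (BB_mem hW j _).1 h2
  rw [h5, ArithmeticFunction.cardFactors_mul h6 (mul_ne_zero (hW _ h3).ne_zero h4.ne_zero),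
    ArithmeticFunction.cardFactors_mul (hW _ h3).ne_zero h4.ne_zero, h7,
    ArithmeticFunction.cardFactors_apply_prime (hW _ h3), ArithmeticFunction.cardFactors_apply_prime h4]

theorem RR_le {W : Finset ℕ} {j n : ℕ} (hW : ∀ p ∈ W, p.Prime) : RR W j n ≤ (j + 2) ^ 2 := by
  by_cases h : RR W j n = 0
  · rw [h]
    positivity
  have hΩ := RR_Omega hW h
  rw [RR_eq] at h ⊢
  have hn0 : n ≠ 0 := by
    rintro rfl
    simp at hΩ
  have h1 : (QQ W j n).card ≤ (n.primeFactors ×ˢ n.primeFactors).card := by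
    apply card_le_card_of_injOn (fun x => (x.2, n / x.1 / x.2))
    · intro x hx
      obtain ⟨h2, h3, h4, h5⟩ := QQ_spec hW hx
      simp only [coe_product, Set.mem_prod, mem_coe, Nat.mem_primeFactors]
      refine ⟨⟨hW _ h3, ?_, hn0⟩, h4, ?_, hn0⟩
      · conv_rhs => rw [h5]
        exact (dvd_mul_right _ _).mul_left _
      · conv_rhs => rw [h5]
        exact (dvd_mul_left _ _).mul_left _
    · intro x hx y hy hxy
      obtain ⟨h2, h3, h4, h5⟩ := QQ_spec hW hx
      obtain ⟨h2', h3', h4', h5'⟩ := QQ_spec hW hy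
      simp only [Prod.mk.injEq] at hxy
      obtain ⟨e1, e2⟩ := hxy
      have e3 : x.1 * (x.2 * (n / x.1 / x.2)) = y.1 * (x.2 * (n / x.1 / x.2)) := by
        rw [← h5, e2, e1]
        exact h5'
      exact Prod.ext (Nat.eq_of_mul_eq_mul_right (Nat.mul_pos (hW _ h3).pos h4.pos) e3) e1
  rw [card_product] at h1
  have h2 : n.primeFactors.card ≤ j + 2 := card_primeFactors_le.trans hΩ.le
  have h3 : (QQ W j n).card ≤ (j + 2) * (j + 2) := h1.trans (Nat.mul_le_mul h2 h2)
  have h4 : ((QQ W j n).card : ℝ) ≤ ((j + 2) * (j + 2) : ℕ) := by exact_mod_cast h3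
  refine h4.trans (le_of_eq ?_)
  push_cast
  ring

theorem RR_good {W : Finset ℕ} {j m q : ℕ} (hW : ∀ p ∈ W, p.Prime) (hq : q.Prime) (hqW : q ∉ W) (hm : Squarefree m)
    (hmΩ : ArithmeticFunction.cardFactors m = j + 1) (hmW : ∀ p : ℕ, p.Prime → p ∣ m → p ∈ W) :
    RR W j (m * q) = j + 1 := by
  have hm0 : m ≠ 0 := hm.ne_zero
  have hcard : m.primeFactors.card = j + 1 := by
    have h1 := (ArithmeticFunction.cardDistinctFactors_eq_cardFactors_iff_squarefree hm0).2 hm
    rw [hmΩ, ArithmeticFunction.cardDistinctFactors_apply] at h1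
    rw [← h1]
    rfl
  rw [RR_eq]
  have h2 : QQ W j (m * q) = m.primeFactors.image (fun p => (m / p, p)) := by
    ext x
    constructor
    · intro hx
      obtain ⟨h2, h3, h4, h5⟩ := QQ_spec hW hx
      set r := m * q / x.1 / x.2 with hr
      have h6 : q ∣ x.1 * (x.2 * r) := by
        rw [← h5]
        exact dvd_mul_left _ _
      have h7 : q = r := by
        rcases (hq.dvd_mul).1 h6 with h | h
        · exact absurd (((BB_mem hW j _).1 h2).2.2 q hq h) hqW
        · rcases (hq.dvd_mul).1 h with h | h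
          · exact absurd ((Nat.prime_dvd_prime_iff_eq hq (hW _ h3)).1 h ▸ h3) hqW
          · exact (Nat.prime_dvd_prime_iff_eq hq h4).1 h
      have h8 : m = x.1 * x.2 := by
        apply Nat.eq_of_mul_eq_mul_right hq.pos
        rw [h5, ← h7]
        ring
      rw [mem_image]
      refine ⟨x.2, ?_, ?_⟩
      · rw [Nat.mem_primeFactors]
        exact ⟨hW _ h3, h8 ▸ dvd_mul_left _ _, hm0⟩
      · rw [h8, Nat.mul_div_cancel _ (hW _ h3).pos]
    · intro hx
      obtain ⟨p, hp, rfl⟩ := mem_image.1 hx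
      rw [Nat.mem_primeFactors] at hp
      obtain ⟨hpp, hpm, -⟩ := hp
      obtain ⟨b, rfl⟩ := hpm
      have hb0 : b ≠ 0 := fun h => hm0 (by rw [h, mul_zero])
      unfold QQ
      rw [mem_filter, mem_product]
      simp only [Nat.mul_div_cancel_left b hpp.pos]
      have e1 : p * b * q / b = p * q := by
        rw [show p * b * q = b * (p * q) by ring]
        exact Nat.mul_div_cancel_left _ (Nat.pos_of_ne_zero hb0)
      rw [e1, Nat.mul_div_cancel_left _ hpp.pos]
      refine ⟨⟨(BB_mem hW j _).2 ⟨hb0, ?_, ?_⟩, hmW p hpp (dvd_mul_right _ _)⟩, ⟨p * q, by ring⟩, dvd_mul_right _ _, hq⟩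
      · rw [ArithmeticFunction.cardFactors_mul hpp.ne_zero hb0, ArithmeticFunction.cardFactors_apply_prime hpp] at hmΩ
        omega
      · intro r hr hrb
        exact hmW r hr (hrb.mul_left _)
  rw [h2, card_image_of_injective _ (fun a b h => (Prod.mk.inj h).2), hcard]
  push_cast
  ring

/-- the sum with the weight, over the cofactors -/
theorem RR_sum {W : Finset ℕ} (hW : ∀ p ∈ W, p.Prime) (j N : ℕ) (F : ℤ → ℝ) (s : ℤ) :
    ∑ n ∈ Ioc 0 N, RR W j n * F (s * (n : ℤ)) =
      ∑ b ∈ BB W j, ∑ m ∈ Ioc 0 (N / b), pc W m * F (s * b * (m : ℤ)) := by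
  rw [← swap (fun b m => pc W m * F (s * b * (m : ℤ))) (fun b hb => Nat.pos_of_ne_zero ((BB_mem hW j b).1 hb).1) N]
  apply sum_congr rfl
  intro n _
  unfold RR
  rw [sum_mul]
  apply sum_congr rfl
  intro b _
  by_cases h : b ∣ n
  · rw [if_pos h, if_pos h]
    obtain ⟨c, rfl⟩ := h
    rcases Nat.eq_zero_or_pos b with hb | hb
    · subst hb
      simp
    · rw [Nat.mul_div_cancel_left _ hb]
      push_cast
      rw [mul_assoc]
  · rw [if_neg h, if_neg h, zero_mul]

end Pool.Agent.Run7.h684.E2
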