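import Pool.Agent.Run7.h684.E2.KPa
import Pool.Agent.Erdos456.Mertens

/-!
Project E2 (helper684): products of exactly `k` primes, the masses of the sets of primes and the exceptional integers.
-/

set_option autoImplicit false

namespace Pool.Agent.Run7.h684.E2

open Finset

/-- the primes up to `N` -/
noncomputable def PN (N : ℕ) : Finset ℕ := (Icc 1 N).filter Nat.Prime

/-- the primes between `exp (C log log N)` and `N ^ κ` -/
noncomputable def WW (C κ : ℝ) (N : ℕ) : Finset ℕ :=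
  (Ioc ⌈Real.exp (C * Real.log (Real.log N))⌉₊ ⌊Real.exp (κ * Real.log N)⌋₊).filter Nat.Prime

theorem sg_mono {s t : Finset ℕ} (h : s ⊆ t) : sg s ≤ sg t := by
  unfold sg
  exact sum_le_sum_of_subset_of_nonneg h (fun _ _ _ => by positivity)

theorem sg_union_le (s t : Finset ℕ) : sg (s ∪ t) ≤ sg s + sg t := by
  classical
  unfold sg
  rw [← sum_union_inter]
  have : 0 ≤ ∑ x ∈ s ∩ t, 1 / (x : ℝ) := by positivity
  linarith

theorem sg_sdiff {s t : Finset ℕ} (h : s ⊆ t) : sg (t \ s) = sg t - sg s := by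
  unfold sg
  rw [sum_sdiff_eq_sub h]

theorem PN_mono {a b : ℕ} (h : a ≤ b) : PN a ⊆ PN b := by
  intro p hp
  unfold PN at *
  rw [mem_filter, mem_Icc] at *
  exact ⟨⟨hp.1.1, hp.1.2.trans h⟩, hp.2⟩

theorem log_eventually (K₁ K : ℝ) {η : ℝ} (hη : 0 < η) : ∃ L₀ : ℝ, 1 ≤ L₀ ∧ ∀ L : ℝ, L₀ ≤ L →
    Real.log L + K₁ ≤ η * (L - Real.log L - K₁) ∧ K ≤ L - Real.log L - K₁ := by
  have hc : 0 < η / (2 * (1 + η)) := by positivity
  obtain ⟨L₁, hL₁⟩ := Filter.eventually_atTop.1 (Real.isLittleO_log_id_atTop.bound hc)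
  refine ⟨max 1 (max L₁ (2 * (1 + η) * |K₁| / η + 2 * (|K| + |K₁|))), le_max_left _ _, fun L hL => ?_⟩
  have h1 : 1 ≤ L := (le_max_left _ _).trans hL
  have h2 : L₁ ≤ L := (le_max_left _ _).trans ((le_max_right _ _).trans hL)
  have h3 : 2 * (1 + η) * |K₁| / η + 2 * (|K| + |K₁|) ≤ L := (le_max_right _ _).trans ((le_max_right _ _).trans hL)
  have h4 := hL₁ L h2
  rw [Real.norm_eq_abs, Real.norm_eq_abs, id, abs_of_nonneg (Real.log_nonneg h1), abs_of_pos (by linarith : 0 < L)] at h4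
  have h5 : (1 + η) * Real.log L ≤ η * L / 2 := by
    calc (1 + η) * Real.log L ≤ (1 + η) * (η / (2 * (1 + η)) * L) := mul_le_mul_of_nonneg_left h4 (by positivity)
      _ = η * L / 2 := by field_simp
  have h6 : 0 ≤ 2 * (|K| + |K₁|) := by positivity
  have h6' : 0 ≤ 2 * (1 + η) * |K₁| / η := by positivity
  have h7 : (1 + η) * K₁ ≤ η * L / 2 := by
    have h8 : 2 * (1 + η) * |K₁| / η ≤ L := by linarith
    rw [div_le_iff₀ hη] at h8
    have h9 : (1 + η) * K₁ ≤ (1 + η) * |K₁| := mul_le_mul_of_nonneg_left (le_abs_self _) (by positivity)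
    nlinarith
  have h10 : Real.log L ≤ L / 2 := by
    refine h4.trans ?_
    have : η / (2 * (1 + η)) ≤ 1 / 2 := by
      rw [div_le_div_iff₀ (by positivity) (by norm_num)]
      linarith
    nlinarith
  refine ⟨by linarith, ?_⟩
  have h11 : |K| + |K₁| ≤ L / 2 := by linarith
  have h12 := le_abs_self K
  have h13 := le_abs_self K₁
  linarith

theorem pmass {C κ : ℝ} (hC : 0 < C) (hκ : 0 < κ) (hκ1 : κ ≤ 1) {η : ℝ} (hη : 0 < η) (K : ℝ) :
    ∃ N₀ : ℕ, 10 ≤ N₀ ∧ ∀ N : ℕ, N₀ ≤ N → WW C κ N ⊆ PN N ∧ sg (PN N \ WW C κ N) ≤ η * sg (WW C κ N) ∧ K ≤ sg (WW C κ N) := by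
  classical
  obtain ⟨M, hM⟩ := Pool.Agent.Erdos456.Mert.mertens_inv
  have hM' : ∀ N : ℕ, 3 ≤ N → |sg (PN N) - Real.log (Real.log N)| ≤ M := hM
  have hM0 : 0 ≤ M := (abs_nonneg _).trans (hM' 3 le_rfl)
  set K₁ : ℝ := Real.log (C + 1) + 3 * M + Real.log (2 / κ) with hK₁
  obtain ⟨L₀, hL₀, hL⟩ := log_eventually K₁ K hη
  refine ⟨⌈Real.exp (Real.exp (L₀ + 2 / C + 2 / κ + 2))⌉₊ + 10, by omega, fun N hN => ?_⟩
  set L := Real.log (Real.log N) with hLdef
  set l := Real.log (N : ℝ) with hldef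
  have hN1 : Real.exp (Real.exp (L₀ + 2 / C + 2 / κ + 2)) ≤ N :=
    (Nat.le_ceil _).trans (by exact_mod_cast (by omega))
  have hN10 : 10 ≤ N := by omega
  have hN0 : (0 : ℝ) < N := by exact_mod_cast (by omega : 0 < N)
  have hl : Real.exp (L₀ + 2 / C + 2 / κ + 2) ≤ l := (Real.le_log_iff_exp_le hN0).2 hN1
  have hl0 : 0 < l := (Real.exp_pos _).trans_le hl
  have hLL : L₀ + 2 / C + 2 / κ + 2 ≤ L := (Real.le_log_iff_exp_le hl0).2 hl
  have h2C : 0 < 2 / C := by positivity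
  have h2κ : 0 < 2 / κ := by positivity
  have hL0 : L₀ ≤ L := by linarith
  have hL1 : 1 ≤ L := hL₀.trans hL0
  have hlL : L ≤ l := by
    have := Real.log_le_sub_one_of_pos hl0
    linarith
  have hCL : 2 ≤ C * L := by
    have h1 : 2 / C ≤ L := by linarith
    rw [div_le_iff₀ hC] at h1
    linarith
  have hκl : 2 ≤ κ * l := by
    have h1 : 2 / κ ≤ l := by linarith
    rw [div_le_iff₀ hκ] at h1
    linarith
  have he2 : (7 : ℝ) ≤ Real.exp 2 := by
    have h1 := Real.exp_one_gt_d9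
    have h2 : Real.exp 2 = Real.exp 1 * Real.exp 1 := by
      rw [← Real.exp_add]
      norm_num
    rw [h2]
    nlinarith
  have he1 : (2 : ℝ) ≤ Real.exp 1 := by
    have h1 := Real.exp_one_gt_d9
    linarith
  set a := ⌈Real.exp (C * L)⌉₊ with ha
  set c := ⌊Real.exp (κ * l)⌋₊ with hc
  have hW : WW C κ N = (Ioc a c).filter Nat.Prime := rfl
  rw [hW]
  -- the lower end
  have ha1 : Real.exp (C * L) ≤ a := Nat.le_ceil _
  have ha2 : (a : ℝ) ≤ Real.exp ((C + 1) * L) := by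
    have h1 : (a : ℝ) < Real.exp (C * L) + 1 := Nat.ceil_lt_add_one (Real.exp_pos _).le
    have h2 : 1 ≤ Real.exp (C * L) := Real.one_le_exp (by linarith)
    have h3 : Real.exp 1 ≤ Real.exp L := Real.exp_le_exp.2 hL1
    have h4 : Real.exp ((C + 1) * L) = Real.exp (C * L) * Real.exp L := by
      rw [← Real.exp_add]
      ring_nf
    rw [h4]
    nlinarith
  have ha7 : (7 : ℝ) ≤ a := he2.trans ((Real.exp_le_exp.2 hCL).trans ha1)
  have ha3 : 3 ≤ a := by
    have : (3 : ℝ) ≤ a := by linarith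
    exact_mod_cast this
  have ha0 : (0 : ℝ) < a := by linarith
  have hla1 : C * L ≤ Real.log a := (Real.le_log_iff_exp_le ha0).2 ha1
  have hla2 : Real.log a ≤ (C + 1) * L := (Real.log_le_iff_le_exp ha0).2 ha2
  have hlla : Real.log (Real.log a) ≤ Real.log (C + 1) + Real.log L := by
    rw [← Real.log_mul (by positivity) (by linarith)]
    exact Real.log_le_log (by linarith) hla2
  -- the upper end
  have hc1 : (c : ℝ) ≤ Real.exp (κ * l) := Nat.floor_le (Real.exp_pos _).le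
  have hcN : c ≤ N := by
    have h1 : Real.exp (κ * l) ≤ N := by
      calc Real.exp (κ * l) ≤ Real.exp l := Real.exp_le_exp.2 (by nlinarith)
        _ = N := Real.exp_log hN0
    exact_mod_cast hc1.trans h1
  have hc2 : Real.exp (κ * l / 2) ≤ c := by
    have h1 : Real.exp (κ * l) < c + 1 := Nat.lt_floor_add_one _
    have h2 : Real.exp (κ * l) = Real.exp (κ * l / 2) * Real.exp (κ * l / 2) := by
      rw [← Real.exp_add]
      ring_nf
    have h3 : Real.exp 1 ≤ Real.exp (κ * l / 2) := Real.exp_le_exp.2 (by linarith)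
    nlinarith
  have hc3 : 3 ≤ c := by
    have h1 : Real.exp (κ * l) < c + 1 := Nat.lt_floor_add_one _
    have h2 : Real.exp 2 ≤ Real.exp (κ * l) := Real.exp_le_exp.2 hκl
    have : (2 : ℝ) < c := by linarith
    exact_mod_cast this
  have hc0 : (0 : ℝ) < c := by exact_mod_cast (by omega : 0 < c)
  have hlc : κ * l / 2 ≤ Real.log c := (Real.le_log_iff_exp_le hc0).2 hc2
  have hllc : L - Real.log (2 / κ) ≤ Real.log (Real.log c) := by
    have h1 : Real.log (κ * l / 2) = L - Real.log (2 / κ) := by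
      rw [show κ * l / 2 = l / (2 / κ) by field_simp, Real.log_div hl0.ne' (by positivity)]
    rw [← h1]
    exact Real.log_le_log (by linarith) hlc
  have m1 := abs_le.1 (hM' a ha3)
  have m2 := abs_le.1 (hM' c hc3)
  have m3 := abs_le.1 (hM' N (by omega))
  have hWPN : (Ioc a c).filter Nat.Prime ⊆ PN N := by
    intro p hp
    rw [mem_filter, mem_Ioc] at hp
    unfold PN
    rw [mem_filter, mem_Icc]
    exact ⟨⟨hp.2.one_lt.le, by omega⟩, hp.2⟩
  have hup : sg (PN N \ (Ioc a c).filter Nat.Prime) ≤ Real.log L + K₁ := by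
    have h1 : PN N \ (Ioc a c).filter Nat.Prime ⊆ PN a ∪ (PN N \ PN c) := by
      intro p hp
      rw [mem_sdiff, mem_filter, mem_Ioc] at hp
      unfold PN at *
      simp only [mem_union, mem_sdiff, mem_filter, mem_Icc] at *
      obtain ⟨⟨⟨h1, h2⟩, h3⟩, h4⟩ := hp
      by_cases h5 : p ≤ a
      · exact Or.inl ⟨⟨h1, h5⟩, h3⟩
      · right
        refine ⟨⟨⟨h1, h2⟩, h3⟩, ?_⟩
        rintro ⟨⟨-, h6⟩, -⟩
        exact h4 ⟨⟨by omega, h6⟩, h3⟩
    have h2 := (sg_mono h1).trans (sg_union_le _ _)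
    rw [sg_sdiff (PN_mono hcN)] at h2
    rw [hK₁]
    linarith [m1.2, m2.1, m3.2]
  have hlow : L - Real.log L - K₁ ≤ sg ((Ioc a c).filter Nat.Prime) := by
    have h1 : PN c ⊆ PN a ∪ (Ioc a c).filter Nat.Prime := by
      intro p hp
      unfold PN at *
      simp only [mem_union, mem_filter, mem_Icc, mem_Ioc] at *
      by_cases h5 : p ≤ a
      · exact Or.inl ⟨⟨hp.1.1, h5⟩, hp.2⟩
      · exact Or.inr ⟨⟨by omega, hp.1.2⟩, hp.2⟩
    have h2 := (sg_mono h1).trans (sg_union_le _ _)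
    rw [hK₁]
    linarith [m1.2, m2.1, m3.2]
  obtain ⟨h1, h2⟩ := hL L hL0
  refine ⟨hWPN, hup.trans (h1.trans (mul_le_mul_of_nonneg_left hlow hη.le)), h2.trans hlow⟩

/-- the integers for which the weight is `j + 1` -/
def Good (W : Finset ℕ) (j n : ℕ) : Prop := ∃ m q : ℕ, n = m * q ∧ q.Prime ∧ q ∉ W ∧ Squarefree m ∧
  ArithmeticFunction.cardFactors m = j + 1 ∧ ∀ p : ℕ, p.Prime → p ∣ m → p ∈ W

theorem pi_le : ∃ x₀ : ℝ, 2 ≤ x₀ ∧ ∀ N m : ℕ, x₀ ≤ (N : ℝ) / m → ((PN (N / m)).card : ℝ) ≤ 3 * ((N : ℝ) / m) / Real.log ((N : ℝ) / m) := by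
  obtain ⟨x₁, hx₁⟩ := Filter.eventually_atTop.1 (Chebyshev.eventually_primeCounting_le (show (0 : ℝ) < 1 by norm_num))
  refine ⟨max x₁ 2, le_max_right _ _, fun N m h => ?_⟩
  have h1 := hx₁ ((N : ℝ) / m) ((le_max_left _ _).trans h)
  have h2 : 2 ≤ (N : ℝ) / m := (le_max_right _ _).trans h
  rw [Nat.floor_div_eq_div] at h1
  have h3 : (PN (N / m)).card ≤ Nat.primeCounting (N / m) := by
    rw [Nat.primeCounting, Nat.primeCounting', Nat.count_eq_card_filter_range]
    apply card_le_card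
    intro p hp
    unfold PN at hp
    rw [mem_filter, mem_Icc] at hp
    rw [mem_filter, mem_range]
    exact ⟨by omega, hp.2⟩
  have h4 : ((PN (N / m)).card : ℝ) ≤ (Nat.primeCounting (N / m) : ℝ) := by exact_mod_cast h3
  refine h4.trans (h1.trans ?_)
  have h5 : Real.log 4 ≤ 2 := by
    have e : (4 : ℝ) = 2 ^ 2 := by norm_num
    rw [e, Real.log_pow]
    have := Real.log_two_lt_d9
    push_cast
    linarith
  apply div_le_div_of_nonneg_right _ (Real.log_nonneg (by linarith))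
  exact mul_le_mul_of_nonneg_right (by linarith) (by linarith)

theorem le_pow_of_primes {n : ℕ} (hn : n ≠ 0) {q k : ℕ} (hk : ArithmeticFunction.cardFactors n = k)
    (h : ∀ p : ℕ, p.Prime → p ∣ n → p ≤ q) : n ≤ q ^ k := by
  have h1 : n.primeFactorsList.prod ≤ q ^ n.primeFactorsList.length := by
    apply List.prod_le_pow_card
    intro p hp
    exact h p (Nat.prime_of_mem_primeFactorsList hp) (Nat.dvd_of_mem_primeFactorsList hp)
  rwa [Nat.prod_primeFactorsList hn, ← ArithmeticFunction.cardFactors_apply, hk] at h1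

open Classical in
theorem exc_subset (j : ℕ) {N : ℕ} {W : Finset ℕ} (hW : ∀ p ∈ W, p.Prime ∧ p ^ (2 * (j + 2)) ≤ N) :
    (Ioc 0 N).filter (fun n => ArithmeticFunction.cardFactors n = j + 2 ∧ ¬ Good W j n) ⊆
      (Ioc 0 (Nat.sqrt N) ∪ W.biUnion (fun p => (Ioc 0 N).filter (fun n => p ^ 2 ∣ n))) ∪
      (((PN N \ W) ×ˢ BB (PN N) j).filter (fun x => (x.1 * x.2) ^ (j + 2) ≤ N ^ (j + 1))).biUnion
        (fun x => (PN (N / (x.1 * x.2))).image (fun q => x.1 * x.2 * q)) := by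
  intro n hn
  rw [mem_filter, mem_Ioc] at hn
  obtain ⟨⟨hn0, hnN⟩, hΩ, hng⟩ := hn
  have hn1 : n ≠ 1 := by
    rintro rfl
    simp at hΩ
  have hne : n.primeFactors.Nonempty := by
    obtain ⟨p, hp, hpn⟩ := Nat.exists_prime_and_dvd hn1
    exact ⟨p, Nat.mem_primeFactors.2 ⟨hp, hpn, hn0.ne'⟩⟩
  set q := n.primeFactors.max' hne with hq
  have hqm : q ∈ n.primeFactors := max'_mem _ _
  obtain ⟨hqp, hqn, -⟩ := Nat.mem_primeFactors.1 hqm
  have hqmax : ∀ p : ℕ, p.Prime → p ∣ n → p ≤ q := fun p hp hpn =>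
    le_max' _ _ (Nat.mem_primeFactors.2 ⟨hp, hpn, hn0.ne'⟩)
  have hnq : n ≤ q ^ (j + 2) := le_pow_of_primes hn0.ne' hΩ hqmax
  by_cases hqW : q ∈ W
  · apply mem_union_left
    apply mem_union_left
    rw [mem_Ioc]
    refine ⟨hn0, ?_⟩
    rw [Nat.le_sqrt]
    calc n * n ≤ q ^ (j + 2) * q ^ (j + 2) := Nat.mul_le_mul hnq hnq
      _ = q ^ (2 * (j + 2)) := by ring
      _ ≤ N := (hW q hqW).2
  obtain ⟨m, hm⟩ := hqn
  have hm0 : m ≠ 0 := by
    rintro rfl
    omega
  have hmΩ : ArithmeticFunction.cardFactors m = j + 1 := by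
    rw [hm, ArithmeticFunction.cardFactors_mul hqp.ne_zero hm0, ArithmeticFunction.cardFactors_apply_prime hqp] at hΩ
    omega
  by_cases hmW : ∀ p : ℕ, p.Prime → p ∣ m → p ∈ W
  · -- not squarefree
    have hsq : ¬ Squarefree m := by
      intro hsq
      exact hng ⟨m, q, by rw [hm, mul_comm], hqp, hqW, hsq, hmΩ, hmW⟩
    rw [Nat.squarefree_iff_prime_squarefree] at hsq
    push Not at hsq
    obtain ⟨p, hp, hpm⟩ := hsq
    apply mem_union_left
    apply mem_union_right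
    rw [mem_biUnion]
    refine ⟨p, hmW p hp ((dvd_mul_right p p).trans hpm), ?_⟩
    rw [mem_filter, mem_Ioc, pow_two]
    refine ⟨⟨hn0, hnN⟩, ?_⟩
    rw [hm]
    exact hpm.mul_left _
  · push Not at hmW
    obtain ⟨r, hr, hrm, hrW⟩ := hmW
    obtain ⟨b, hb⟩ := hrm
    have hb0 : b ≠ 0 := by
      rintro rfl
      rw [mul_zero] at hb
      exact hm0 hb
    have hmn : m ∣ n := ⟨q, by rw [hm, mul_comm]⟩
    apply mem_union_right
    rw [mem_biUnion]
    refine ⟨(r, b), ?_, ?_⟩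
    · rw [mem_filter, mem_product, mem_sdiff]
      refine ⟨⟨⟨?_, hrW⟩, ?_⟩, ?_⟩
      · unfold PN
        rw [mem_filter, mem_Icc]
        refine ⟨⟨hr.one_lt.le, ?_⟩, hr⟩
        exact (Nat.le_of_dvd hn0 ((hb ▸ dvd_mul_right r b : r ∣ m).trans hmn)).trans hnN
      · rw [BB_mem (fun p hp => by
          unfold PN at hp
          exact (mem_filter.1 hp).2)]
        refine ⟨hb0, ?_, ?_⟩
        · rw [hb, ArithmeticFunction.cardFactors_mul hr.ne_zero hb0, ArithmeticFunction.cardFactors_apply_prime hr] at hmΩ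
          show ArithmeticFunction.cardFactors b = j
          omega
        · intro p hp hpb
          unfold PN
          rw [mem_filter, mem_Icc]
          refine ⟨⟨hp.one_lt.le, ?_⟩, hp⟩
          have h1 : p ∣ m := by
            rw [hb]
            exact hpb.mul_left _
          exact (Nat.le_of_dvd hn0 (h1.trans hmn)).trans hnN
      · show (r * b) ^ (j + 2) ≤ N ^ (j + 1)
        rw [← hb]
        have h1 : m ≤ q ^ (j + 1) := by
          apply Nat.le_of_mul_le_mul_left _ hqp.pos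
          calc q * m = n := hm.symm
            _ ≤ q ^ (j + 2) := hnq
            _ = q * q ^ (j + 1) := by ring
        calc m ^ (j + 2) = m ^ (j + 1) * m := by ring
          _ ≤ m ^ (j + 1) * q ^ (j + 1) := Nat.mul_le_mul_left _ h1
          _ = n ^ (j + 1) := by rw [hm]; ring
          _ ≤ N ^ (j + 1) := Nat.pow_le_pow_left hnN _
    · rw [mem_image]
      refine ⟨q, ?_, ?_⟩
      · unfold PN
        rw [mem_filter, mem_Icc]
        refine ⟨⟨hqp.one_lt.le, ?_⟩, hqp⟩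
        show q ≤ N / (r * b)
        rw [← hb, Nat.le_div_iff_mul_le (Nat.pos_of_ne_zero hm0), ← hm]
        exact hnN
      · show r * b * q = n
        rw [← hb, hm, mul_comm]

open Classical in
theorem exc (j : ℕ) : ∃ N₀ : ℕ, 10 ≤ N₀ ∧ ∀ N : ℕ, N₀ ≤ N → ∀ a : ℕ, 0 < a → ∀ W : Finset ℕ,
    (∀ p ∈ W, p.Prime ∧ a < p ∧ p ^ (2 * (j + 2)) ≤ N) →
    (#((Ioc 0 N).filter (fun n => ArithmeticFunction.cardFactors n = j + 2 ∧ ¬ Good W j n)) : ℝ) ≤
      Real.sqrt N + N / a + 3 * (j + 2) * (N / Real.log N) * (sg (PN N \ W) * sg (PN N) ^ j) := by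
  obtain ⟨x₀, hx₀, hpi⟩ := pi_le
  refine ⟨⌈x₀⌉₊ ^ (j + 2) + 10, by omega, ?_⟩
  intro N hN a ha W hW
  have hN10 : 10 ≤ N := by omega
  have hN0 : (0 : ℝ) < N := by exact_mod_cast (by omega : 0 < N)
  have hNx : x₀ ^ (j + 2) ≤ N := by
    calc x₀ ^ (j + 2) ≤ (⌈x₀⌉₊ : ℝ) ^ (j + 2) := pow_le_pow_left₀ (by linarith) (Nat.le_ceil _) _
      _ ≤ N := by exact_mod_cast (by omega)
  have hl0 : 0 < Real.log N := Real.log_pos (by exact_mod_cast (by omega : 1 < N))
  have h1 := card_le_card (exc_subset j (W := W) (N := N) (fun p hp => ⟨(hW p hp).1, (hW p hp).2.2⟩))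
  have h2 := h1.trans ((card_union_le _ _).trans (add_le_add_left (card_union_le _ _) _))
  have h3 := (Nat.cast_le (α := ℝ)).2 h2
  rw [Nat.cast_add, Nat.cast_add] at h3
  refine h3.trans (add_le_add (add_le_add ?_ ?_) ?_)
  · rw [Nat.card_Ioc, Nat.sub_zero]
    exact Real.nat_sqrt_le_real_sqrt
  · have h4 := card_biUnion_le (s := W) (t := fun p => (Ioc 0 N).filter (fun n => p ^ 2 ∣ n))
    simp only [Nat.Ioc_filter_dvd_card_eq_div] at h4
    have h5 := (Nat.cast_le (α := ℝ)).2 h4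
    refine h5.trans ?_
    push_cast
    have haR : (0 : ℝ) < a := by exact_mod_cast ha
    by_cases haN : a ≤ N
    · calc ∑ p ∈ W, ((N / p ^ 2 : ℕ) : ℝ) ≤ ∑ p ∈ W, (N : ℝ) * ((p : ℝ) ^ 2)⁻¹ := by
            apply sum_le_sum
            intro p _
            refine Nat.cast_div_le.trans (le_of_eq ?_)
            push_cast
            rw [div_eq_mul_inv]
        _ ≤ ∑ p ∈ Ioc a N, (N : ℝ) * ((p : ℝ) ^ 2)⁻¹ := by
            apply sum_le_sum_of_subset_of_nonneg
            · intro p hp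
              obtain ⟨g1, g2, g3⟩ := hW p hp
              rw [mem_Ioc]
              refine ⟨g2, le_trans ?_ g3⟩
              exact Nat.le_self_pow (by omega) p
            · intro _ _ _
              positivity
        _ ≤ N * ((a : ℝ)⁻¹ - (N : ℝ)⁻¹) := by
            rw [← mul_sum]
            exact mul_le_mul_of_nonneg_left (sum_Ioc_inv_sq_le_sub ha.ne' haN) hN0.le
        _ ≤ N / a := by
            rw [div_eq_mul_inv]
            apply mul_le_mul_of_nonneg_left _ hN0.le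
            have : 0 ≤ (N : ℝ)⁻¹ := by positivity
            linarith
    · have hWe : W = ∅ := by
        rw [eq_empty_iff_forall_notMem]
        intro p hp
        obtain ⟨g1, g2, g3⟩ := hW p hp
        have := Nat.le_self_pow (show 2 * (j + 2) ≠ 0 by omega) p
        omega
      rw [hWe]
      simp only [sum_empty]
      positivity
  · refine ((Nat.cast_le (α := ℝ)).2 card_biUnion_le).trans ?_
    rw [Nat.cast_sum]
    have hterm : ∀ x ∈ ((PN N \ W) ×ˢ BB (PN N) j).filter (fun x => (x.1 * x.2) ^ (j + 2) ≤ N ^ (j + 1)),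
        (((PN (N / (x.1 * x.2))).image (fun q => x.1 * x.2 * q)).card : ℝ) ≤
          3 * (j + 2) * (N / Real.log N) * (1 / (x.1 : ℝ) * (1 / (x.2 : ℝ))) := by
      intro x hx
      rw [mem_filter, mem_product] at hx
      obtain ⟨⟨g1, g2⟩, g3⟩ := hx
      have gp : x.1.Prime := by
        rw [mem_sdiff] at g1
        unfold PN at g1
        exact (mem_filter.1 g1.1).2
      have gb : x.2 ≠ 0 := ((BB_mem (fun p hp => by
          unfold PN at hp
          exact (mem_filter.1 hp).2) j _).1 g2).1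
      have hx1 : (0 : ℝ) < x.1 := by exact_mod_cast gp.pos
      have hx2 : (0 : ℝ) < x.2 := by exact_mod_cast Nat.pos_of_ne_zero gb
      have hm0 : (0 : ℝ) < ((x.1 * x.2 : ℕ) : ℝ) := by
        push_cast
        positivity
      set m := x.1 * x.2 with hm
      have g4 : (m : ℝ) ^ (j + 2) ≤ (N : ℝ) ^ (j + 1) := by exact_mod_cast g3
      have g5 : (N : ℝ) ≤ ((N : ℝ) / m) ^ (j + 2) := by
        rw [div_pow, le_div_iff₀ (by positivity)]
        calc (N : ℝ) * (m : ℝ) ^ (j + 2) ≤ N * (N : ℝ) ^ (j + 1) := mul_le_mul_of_nonneg_left g4 hN0.le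
          _ = (N : ℝ) ^ (j + 2) := by ring
      have g6 : x₀ ≤ (N : ℝ) / m := by
        by_contra hlt
        push Not at hlt
        have := pow_lt_pow_left₀ hlt (by positivity) (show j + 2 ≠ 0 by omega)
        linarith
      have g7 := hpi N m g6
      have g8 : Real.log N ≤ (j + 2) * Real.log ((N : ℝ) / m) := by
        have := Real.log_le_log hN0 g5
        rw [Real.log_pow] at this
        push_cast at this
        exact this
      have g9 : 0 < Real.log ((N : ℝ) / m) := Real.log_pos (by linarith)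
      refine ((Nat.cast_le (α := ℝ)).2 card_image_le).trans (g7.trans ?_)
      rw [div_le_iff₀ g9]
      have g10 : 0 < (N : ℝ) / m := by positivity
      have g11 : 1 ≤ (j + 2) * (1 / Real.log N) * Real.log ((N : ℝ) / m) := by
        rw [mul_one_div, div_mul_eq_mul_div, le_div_iff₀ hl0, one_mul]
        exact g8
      calc 3 * ((N : ℝ) / m) ≤ 3 * ((N : ℝ) / m) * ((j + 2) * (1 / Real.log N) * Real.log ((N : ℝ) / m)) :=
            le_mul_of_one_le_right (by positivity) g11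
        _ = 3 * (j + 2) * (N / Real.log N) * (1 / (x.1 : ℝ) * (1 / (x.2 : ℝ))) * Real.log ((N : ℝ) / m) := by
            rw [hm]
            push_cast
            field_simp
    refine (sum_le_sum hterm).trans ?_
    rw [← mul_sum]
    apply mul_le_mul_of_nonneg_left _ (by positivity)
    calc ∑ x ∈ ((PN N \ W) ×ˢ BB (PN N) j).filter (fun x => (x.1 * x.2) ^ (j + 2) ≤ N ^ (j + 1)),
          (1 / (x.1 : ℝ) * (1 / (x.2 : ℝ)))
        ≤ ∑ x ∈ (PN N \ W) ×ˢ BB (PN N) j, (1 / (x.1 : ℝ) * (1 / (x.2 : ℝ))) :=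
          sum_le_sum_of_subset_of_nonneg (filter_subset _ _) (fun _ _ _ => by positivity)
      _ = sg (PN N \ W) * TT (PN N) j := by
          unfold sg TT
          rw [sum_mul_sum, ← sum_product']
      _ ≤ _ := mul_le_mul_of_nonneg_left (TT_le j) (sg_nonneg _)

end Pool.Agent.Run7.h684.E2
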