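import Pool.Agent.Run7.h684.E2.KPb
import Pool.Agent.Run7.h684.E2.Ifc

/-!
Project E2 (helper684): products of exactly `k` primes, the weighted sums.
-/

set_option autoImplicit false

namespace Pool.Agent.Run7.h684.E2

open Finset

theorem BB_le {W : Finset ℕ} {z : ℝ} (hz : 0 ≤ z) (h : ∀ p ∈ W, (p : ℝ) ≤ z) (j : ℕ) : ∀ b ∈ BB W j, (b : ℝ) ≤ z ^ j := by
  induction j with
  | zero =>
    intro b hb
    simp only [BB, mem_singleton] at hb
    rw [hb]
    simp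
  | succ j ih =>
    intro b hb
    simp only [BB, mem_image, mem_product] at hb
    obtain ⟨⟨p, b'⟩, ⟨hp, hb'⟩, rfl⟩ := hb
    push_cast
    rw [pow_succ, mul_comm]
    exact mul_le_mul (ih b' hb') (h p hp) (by positivity) (by positivity)

theorem not_pow_dvd {j b : ℕ} (hb : b ≠ 0) (hΩ : ArithmeticFunction.cardFactors b = j) {s : ℤ} (hs : s = 1 ∨ s = -1) :
    ¬ (2 : ℤ) ^ (j + 1) ∣ s * b := by
  intro h
  have h1 : (2 : ℤ) ^ (j + 1) ∣ (b : ℤ) := by
    rcases hs with rfl | rfl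
    · simpa using h
    · simpa using h
  have h2 : 2 ^ (j + 1) ∣ b := by
    exact_mod_cast h1
  obtain ⟨c, rfl⟩ := h2
  have hc : c ≠ 0 := fun h => hb (by rw [h, mul_zero])
  rw [ArithmeticFunction.cardFactors_mul (by positivity) hc, ArithmeticFunction.cardFactors_pow,
    ArithmeticFunction.cardFactors_apply_prime Nat.prime_two] at hΩ
  omega

/-- the mean over the multiples of `b`, compared with the mean over all integers -/
theorem mean_b {F : ℤ → ℝ} (hF1 : ∀ x, |F x| ≤ 1) {s : ℤ} {N b : ℕ} (hb : 1 ≤ b) (hN : 1 ≤ N) {η δ : ℝ}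
    (hδ : δ = 1 / (N : ℝ) * ∑ n ∈ Ioc 0 N, F (s * (n : ℤ))) (hδ1 : |δ| ≤ 1)
    (h : |∑ n ∈ Ioc 0 (N / b), F (s * b * (n : ℤ)) - 1 / (b : ℝ) * ∑ m ∈ Ioc 0 (b * (N / b)), F (s * (m : ℤ))| ≤
      η * (N / b : ℕ)) :
    |∑ n ∈ Ioc 0 (N / b), F (s * b * (n : ℤ)) - δ * (N / b : ℕ)| ≤ η * (N / b : ℕ) + 2 := by
  have hb0 : (0 : ℝ) < b := by exact_mod_cast hb
  have hN0 : (0 : ℝ) < N := by exact_mod_cast hN
  have h1 : b * (N / b) ≤ N := Nat.mul_div_le N b
  have h2 : N < b * (N / b) + b := by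
    have := Nat.lt_mul_div_succ N (Nat.pos_of_ne_zero (by omega) : 0 < b)
    rw [mul_add, mul_one] at this
    exact this
  have h1R : (b : ℝ) * ((N / b : ℕ) : ℝ) ≤ N := by exact_mod_cast h1
  have h2R : (N : ℝ) ≤ (b : ℝ) * ((N / b : ℕ) : ℝ) + b := by exact_mod_cast h2.le
  have h3 : |∑ m ∈ Ioc 0 (b * (N / b)), F (s * (m : ℤ)) - δ * N| ≤ b := by
    have e1 : δ * N = ∑ n ∈ Ioc 0 N, F (s * (n : ℤ)) := by
      rw [hδ]
      field_simp
    have e2 : Ioc 0 N = Ioc 0 (b * (N / b)) ∪ Ioc (b * (N / b)) N := (Ioc_union_Ioc_eq_Ioc (Nat.zero_le _) h1).symm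
    rw [e1, e2, sum_union (Ioc_disjoint_Ioc_of_le le_rfl), sub_add_cancel_left, abs_neg]
    refine (abs_sum_le_sum_abs _ _).trans ((sum_le_sum (fun n _ => hF1 _)).trans ?_)
    rw [sum_const, Nat.card_Ioc, nsmul_eq_mul, mul_one]
    exact_mod_cast (by omega : N - b * (N / b) ≤ b)
  have h4 : |1 / (b : ℝ) * ∑ m ∈ Ioc 0 (b * (N / b)), F (s * (m : ℤ)) - δ * (N / b)| ≤ 1 := by
    have e : 1 / (b : ℝ) * ∑ m ∈ Ioc 0 (b * (N / b)), F (s * (m : ℤ)) - δ * (N / b) =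
        1 / (b : ℝ) * (∑ m ∈ Ioc 0 (b * (N / b)), F (s * (m : ℤ)) - δ * N) := by
      rw [mul_sub]
      congr 1
      ring
    rw [e, abs_mul, abs_of_pos (by positivity : 0 < 1 / (b : ℝ)), div_mul_eq_mul_div, one_mul, div_le_iff₀ hb0, one_mul]
    exact h3
  have h5 : |δ * (N / b) - δ * ((N / b : ℕ) : ℝ)| ≤ 1 := by
    rw [← mul_sub, abs_mul]
    have h6 : |(N : ℝ) / b - ((N / b : ℕ) : ℝ)| ≤ 1 := by
      rw [abs_le]
      constructor
      · have : ((N / b : ℕ) : ℝ) ≤ (N : ℝ) / b := by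
          rw [le_div_iff₀ hb0, mul_comm]
          exact h1R
        linarith
      · have : (N : ℝ) / b ≤ ((N / b : ℕ) : ℝ) + 1 := by
          rw [div_le_iff₀ hb0]
          linarith
        linarith
    calc |δ| * |(N : ℝ) / b - ((N / b : ℕ) : ℝ)| ≤ 1 * 1 := mul_le_mul hδ1 h6 (abs_nonneg _) zero_le_one
      _ = 1 := one_mul _
  have e : ∑ n ∈ Ioc 0 (N / b), F (s * b * (n : ℤ)) - δ * ((N / b : ℕ) : ℝ) =
      (∑ n ∈ Ioc 0 (N / b), F (s * b * (n : ℤ)) - 1 / (b : ℝ) * ∑ m ∈ Ioc 0 (b * (N / b)), F (s * (m : ℤ))) +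
      (1 / (b : ℝ) * ∑ m ∈ Ioc 0 (b * (N / b)), F (s * (m : ℤ)) - δ * (N / b)) +
      (δ * (N / b) - δ * ((N / b : ℕ) : ℝ)) := by ring
  rw [e]
  refine (abs_add_le _ _).trans ?_
  have h7 := abs_add_le (∑ n ∈ Ioc 0 (N / b), F (s * b * (n : ℤ)) - 1 / (b : ℝ) * ∑ m ∈ Ioc 0 (b * (N / b)), F (s * (m : ℤ)))
    (1 / (b : ℝ) * ∑ m ∈ Ioc 0 (b * (N / b)), F (s * (m : ℤ)) - δ * (N / b))
  linarith

theorem delta_le {F : ℤ → ℝ} (hF1 : ∀ x, |F x| ≤ 1) (s : ℤ) {N : ℕ} (hN : 1 ≤ N) :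
    |1 / (N : ℝ) * ∑ n ∈ Ioc 0 N, F (s * (n : ℤ))| ≤ 1 := by
  have hN0 : (0 : ℝ) < N := by exact_mod_cast hN
  rw [abs_mul, abs_of_pos (by positivity : 0 < 1 / (N : ℝ)), div_mul_eq_mul_div, one_mul, div_le_iff₀ hN0, one_mul]
  refine (abs_sum_le_sum_abs _ _).trans ((sum_le_sum (fun n _ => hF1 _)).trans ?_)
  rw [sum_const, Nat.card_Ioc, nsmul_eq_mul, mul_one, Nat.sub_zero]

theorem kpw (RL : RelS) (ML : MultS) (j : ℕ) {ε : ℝ} (hε : 0 < ε) (hε1 : ε ≤ 1) : ∃ C κ : ℝ, 2 ≤ C ∧ 0 < κ ∧ κ ≤ 1 / (2 * (j + 2)) ∧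
    ∃ N₀ : ℕ, 10 ≤ N₀ ∧ ∀ N : ℕ, N₀ ≤ N → 1 ≤ sg (WW C κ N) → ∀ F : ℤ → ℝ, Coal F → (∀ x, |F x| ≤ 1) →
    ∀ s : ℤ, (s = 1 ∨ s = -1) → ∀ δ : ℝ, δ = 1 / (N : ℝ) * ∑ n ∈ Ioc 0 N, F (s * (n : ℤ)) →
    |∑ n ∈ Ioc 0 N, RR (WW C κ N) j n * F (s * (n : ℤ)) - δ * ∑ n ∈ Ioc 0 N, RR (WW C κ N) j n| ≤
      ε * ∑ n ∈ Ioc 0 N, RR (WW C κ N) j n ∧
    sg (WW C κ N) ^ (j + 1) / (4 * j.factorial) * (N / Real.log N) ≤ ∑ n ∈ Ioc 0 N, RR (WW C κ N) j n := by
  obtain ⟨θ₁, hθ₁, hθ₁1, hrel⟩ := RL j ε hε hε1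
  obtain ⟨C₁, hC₁, N₁, hN₁, hrel'⟩ := hrel 0
  obtain ⟨θ₂, hθ₂, hθ₂1, Y₀, hY₀, hmm⟩ := ML j (ε / 64) (show 0 < ε / 64 by positivity)
  obtain ⟨C, hC⟩ : ∃ C : ℝ, C = max C₁ 2 := ⟨_, rfl⟩
  have hCC₁ : C₁ ≤ C := hC ▸ le_max_left _ _
  have hC2 : 2 ≤ C := hC ▸ le_max_right _ _
  obtain ⟨θ, hθdef⟩ : ∃ θ : ℝ, θ = min θ₁ θ₂ := ⟨_, rfl⟩
  have hθ : 0 < θ := hθdef ▸ lt_min hθ₁ hθ₂
  have hθle1 : θ ≤ θ₁ := hθdef ▸ min_le_left _ _
  have hθle2 : θ ≤ θ₂ := hθdef ▸ min_le_right _ _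
  have hj2 : (0 : ℝ) < (j : ℝ) + 2 := by positivity
  obtain ⟨κ, hκdef⟩ : ∃ κ : ℝ, κ = θ / (2 * (j + 2)) := ⟨_, rfl⟩
  have hκ : 0 < κ := by rw [hκdef]; positivity
  have hκj : κ * (j + 2) = θ / 2 := by
    rw [hκdef]
    field_simp
  have hκ1 : κ ≤ 1 / (2 * (j + 2)) := by
    rw [hκdef]
    apply div_le_div_of_nonneg_right _ (by positivity)
    linarith
  obtain ⟨E0, hE0⟩ : ∃ E0 : ℝ, E0 = 2 * (Real.log N₁ + Y₀ + 128 / ε + 10) := ⟨_, rfl⟩
  refine ⟨C, κ, hC2, hκ, hκ1, ⌈Real.exp E0⌉₊ + 10, by omega, ?_⟩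
  intro N hN hsg F hF hF1 s hs δ hδ
  have hN10 : 10 ≤ N := by omega
  have hN0 : (0 : ℝ) < N := by exact_mod_cast (by omega : 0 < N)
  have hNE : Real.exp E0 ≤ N := (Nat.le_ceil _).trans (by exact_mod_cast (by omega))
  obtain ⟨l, hl⟩ : ∃ l : ℝ, l = Real.log N := ⟨_, rfl⟩
  have hlE : E0 ≤ l := hl ▸ (Real.le_log_iff_exp_le hN0).2 hNE
  have hN₁0 : 0 ≤ Real.log N₁ := Real.log_natCast_nonneg _
  have h128 : 0 < 128 / ε := by positivity
  have hl2 : Real.log N₁ + Y₀ + 128 / ε + 10 ≤ l / 2 := by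
    rw [hE0] at hlE
    linarith
  have hl20 : 20 ≤ l := by linarith
  have hexpl : Real.exp l = N := by rw [hl]; exact Real.exp_log hN0
  have hδ1 : |δ| ≤ 1 := by
    rw [hδ]
    exact delta_le hF1 s (by omega)
  obtain ⟨W, hWdef⟩ : ∃ W : Finset ℕ, W = WW C κ N := ⟨_, rfl⟩
  rw [← hWdef] at hsg ⊢
  have hWp : ∀ p ∈ W, p.Prime ∧ C * Real.log l ≤ Real.log p ∧ Real.log p ≤ κ * l := by
    intro p hp
    rw [hWdef] at hp
    unfold WW at hp
    rw [mem_filter, mem_Ioc] at hp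
    obtain ⟨⟨h1, h2⟩, h3⟩ := hp
    have hp0 : (0 : ℝ) < p := by exact_mod_cast h3.pos
    refine ⟨h3, ?_, ?_⟩
    · rw [hl]
      apply (Real.le_log_iff_exp_le hp0).2
      exact (Nat.le_ceil _).trans (by exact_mod_cast h1.le)
    · rw [hl]
      apply (Real.log_le_iff_le_exp hp0).2
      exact (show (p : ℝ) ≤ (⌊Real.exp (κ * Real.log N)⌋₊ : ℝ) by exact_mod_cast h2).trans (Nat.floor_le (Real.exp_pos _).le)
  have hWprime : ∀ p ∈ W, p.Prime := fun p hp => (hWp p hp).1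
  -- for each cofactor
  have hb : ∀ b ∈ BB W j, |∑ m ∈ Ioc 0 (N / b), pc W m * F (s * b * (m : ℤ)) - δ * ∑ m ∈ Ioc 0 (N / b), pc W m| ≤
      ε * ∑ m ∈ Ioc 0 (N / b), pc W m ∧ sg W * (N / (4 * l)) * (1 / (b : ℝ)) ≤ ∑ m ∈ Ioc 0 (N / b), pc W m := by
    intro b hbB
    obtain ⟨hb0, hbΩ, hbW⟩ := (BB_mem hWprime j b).1 hbB
    have hb1 : 1 ≤ b := Nat.one_le_iff_ne_zero.2 hb0
    have hbR : (0 : ℝ) < b := by exact_mod_cast hb1
    have hble : (b : ℝ) ≤ Real.exp (κ * j * l) := by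
      have h1 := BB_le (W := W) (Real.exp_pos (κ * l)).le (fun p hp => by
        have := (hWp p hp).2.2
        exact (Real.log_le_iff_le_exp (by exact_mod_cast (hWprime p hp).pos)).1 this) j b hbB
      refine h1.trans (le_of_eq ?_)
      rw [← Real.exp_nat_mul]
      congr 1
      ring
    have hκjθ : κ * j * l ≤ θ / 4 * l * 2 := by
      have h1 : κ * j ≤ θ / 2 := by
        rw [← hκj]
        exact mul_le_mul_of_nonneg_left (by linarith) hκ.le
      calc κ * j * l ≤ θ / 2 * l := mul_le_mul_of_nonneg_right h1 (by linarith)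
        _ = θ / 4 * l * 2 := by ring
    have hθ16 : θ ≤ 1 / 16 := hθle1.trans hθ₁1
    have hlb : Real.log b ≤ κ * j * l := (Real.log_le_iff_le_exp hbR).2 hble
    have hlb2 : Real.log b ≤ l / 32 := by
      have := mul_le_mul_of_nonneg_right hθ16 (show (0 : ℝ) ≤ l by linarith)
      linarith
    have hlb3 : Real.log b ≤ θ / 2 * l := by linarith
    -- the new cut-off
    have hN2b : (N : ℝ) / (2 * b) ≤ (N / b : ℕ) := by
      have h2 : N < b * (N / b) + b := by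
        have := Nat.lt_mul_div_succ N (Nat.pos_of_ne_zero (by omega) : 0 < b)
        rw [mul_add, mul_one] at this
        exact this
      have h2R : (N : ℝ) ≤ (b : ℝ) * ((N / b : ℕ) : ℝ) + b := by exact_mod_cast h2.le
      have h3 : (b : ℝ) ≤ N / 2 := by
        have h4 : (b : ℝ) ≤ Real.exp (l / 32) := (Real.log_le_iff_le_exp hbR).1 hlb2
        have h5 : Real.exp (l / 32) * Real.exp (l * 31 / 32) = N := by
          rw [← Real.exp_add, ← hexpl]
          congr 1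
          ring
        have h6 : (2 : ℝ) ≤ Real.exp (l * 31 / 32) := by
          have := Real.add_one_le_exp (l * 31 / 32)
          linarith
        have h7 := mul_le_mul_of_nonneg_left h6 (Real.exp_pos (l / 32)).le
        linarith
      rw [div_le_iff₀ (by positivity)]
      have e : ((N / b : ℕ) : ℝ) * (2 * b) = 2 * ((b : ℝ) * ((N / b : ℕ) : ℝ)) := by ring
      rw [e]
      linarith
    obtain ⟨N', hN'⟩ : ∃ N' : ℕ, N' = N / b := ⟨_, rfl⟩
    rw [← hN'] at hN2b ⊢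
    have hN'0 : (0 : ℝ) < N' := lt_of_lt_of_le (by positivity) hN2b
    have hlN' : l / 2 + 5 ≤ Real.log N' := by
      have h1 : Real.log ((N : ℝ) / (2 * b)) = l - (Real.log 2 + Real.log b) := by
        rw [Real.log_div hN0.ne' (by positivity), Real.log_mul (by norm_num) hbR.ne', hl]
      have h2 := Real.log_le_log (by positivity) hN2b
      rw [h1] at h2
      have := Real.log_two_lt_d9
      linarith
    have hlN'l : Real.log N' ≤ l := by
      rw [hl]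
      apply Real.log_le_log hN'0
      rw [hN']
      exact_mod_cast Nat.div_le_self N b
    have hlN'0 : 0 < Real.log N' := by linarith
    have hsabs : |((s * (b : ℤ) : ℤ) : ℝ)| = b := by
      push_cast
      rw [abs_mul, abs_of_pos hbR]
      rcases hs with rfl | rfl <;> simp
    have hbθ : (b : ℝ) ≤ Real.exp (θ * Real.log N') := by
      apply (Real.log_le_iff_le_exp hbR).1
      have := mul_le_mul_of_nonneg_left hlN' hθ.le
      linarith
    have hok1 : Ok j (θ₁ * Real.log N') (s * b) := by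
      refine ⟨?_, not_pow_dvd hb0 hbΩ hs⟩
      rw [hsabs]
      refine hbθ.trans (Real.exp_le_exp.2 ?_)
      exact mul_le_mul_of_nonneg_right hθle1 hlN'0.le
    have hok2 : Ok j (θ₂ * Real.log N') (s * b) := by
      refine ⟨?_, not_pow_dvd hb0 hbΩ hs⟩
      rw [hsabs]
      refine hbθ.trans (Real.exp_le_exp.2 ?_)
      exact mul_le_mul_of_nonneg_right hθle2 hlN'0.le
    have hN'1 : N₁ ≤ N' := by
      rcases Nat.eq_zero_or_pos N₁ with h0 | h0
      · omega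
      · have h1 : Real.log N₁ ≤ Real.log N' := by linarith
        have h2 := (Real.log_le_log_iff (by exact_mod_cast h0) hN'0).1 h1
        exact_mod_cast h2
    have hN'ε : 128 / ε ≤ N' := by
      have h1 : Real.log N' ≤ N' := by
        have := Real.log_le_sub_one_of_pos hN'0
        linarith
      linarith
    have hmean := mean_b hF1 (s := s) (N := N) (b := b) hb1 (by omega) hδ hδ1 (η := ε / 64) (by
      rw [← hN']
      exact hmm N' (by linarith) F hF hF1 s hs b hb1 hok2)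
    rw [← hN'] at hmean
    have hdens : |∑ n ∈ Ioc 0 N', F (s * b * (n : ℤ)) - δ * N'| ≤ ε / 32 * N' := by
      refine hmean.trans ?_
      rw [div_le_iff₀ hε] at hN'ε
      linarith
    have hres := hrel' N' hN'1 F hF hF1 (s * b) hok1 δ hδ1 hdens W (by
      intro p hp
      obtain ⟨h1, h2, h3⟩ := hWp p hp
      refine ⟨h1, ?_, ?_⟩
      · have h4 : Real.log (Real.log N') ≤ Real.log l := Real.log_le_log hlN'0 hlN'l
        have h5 : 0 ≤ Real.log (Real.log N') := Real.log_nonneg (by linarith)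
        calc C₁ * Real.log (Real.log N') ≤ C * Real.log (Real.log N') := mul_le_mul_of_nonneg_right hCC₁ h5
          _ ≤ C * Real.log l := mul_le_mul_of_nonneg_left h4 (by linarith)
          _ ≤ Real.log p := h2
      · have h4 : κ * l ≤ θ / 4 * l := by
          have h5 : κ * 2 ≤ θ / 2 := by
            rw [← hκj]
            have : (0 : ℝ) ≤ j := by positivity
            exact mul_le_mul_of_nonneg_left (by linarith) hκ.le
          exact mul_le_mul_of_nonneg_right (by linarith) (by linarith)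
        have h6 : θ * (l / 2) ≤ θ₁ * Real.log N' := mul_le_mul hθle1 (by linarith) (by linarith) hθ₁.le
        have h7 : 0 ≤ θ * l := mul_nonneg hθ.le (by linarith)
        linarith) (by
      rw [pow_zero, div_one]
      exact hsg)
    refine ⟨hres.1, le_trans ?_ hres.2⟩
    calc sg W * (N / (4 * l)) * (1 / (b : ℝ)) = sg W * (N / (2 * b) / (2 * l)) := by
          field_simp
          ring
      _ ≤ sg W * (N' / (2 * Real.log N')) := by
          apply mul_le_mul_of_nonneg_left _ (sg_nonneg W)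
          exact div_le_div₀ hN'0.le hN2b (by positivity) (by linarith)
  have hsum1 : ∑ n ∈ Ioc 0 N, RR W j n = ∑ b ∈ BB W j, ∑ m ∈ Ioc 0 (N / b), pc W m := by
    have := RR_sum hWprime j N (fun _ => 1) s
    simpa using this
  rw [RR_sum hWprime j N F s, hsum1]
  constructor
  · rw [mul_sum, ← sum_sub_distrib, mul_sum]
    exact (abs_sum_le_sum_abs _ _).trans (sum_le_sum (fun b hbB => (hb b hbB).1))
  · calc sg W ^ (j + 1) / (4 * j.factorial) * (N / Real.log N) = sg W * (N / (4 * l)) * (sg W ^ j / j.factorial) := by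
          rw [← hl, pow_succ]
          field_simp
      _ ≤ sg W * (N / (4 * l)) * TT W j := by
          apply mul_le_mul_of_nonneg_left (TT_ge hWprime j)
          have := sg_nonneg W
          positivity
      _ = ∑ b ∈ BB W j, sg W * (N / (4 * l)) * (1 / (b : ℝ)) := by
          unfold TT
          rw [mul_sum]
      _ ≤ _ := sum_le_sum (fun b hbB => (hb b hbB).2)

end Pool.Agent.Run7.h684.E2
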