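import Pool.Agent.Run7.h684.E2.KPc

/-!
Project E2 (helper684): a function constant on coalescing trajectories over the products of exactly `k` primes.
-/

set_option autoImplicit false

namespace Pool.Agent.Run7.h684.E2

open Finset

/-- the integers up to `N` with exactly `k` prime factors -/
noncomputable def PK (k N : ℕ) : Finset ℕ := (Ioc 0 N).filter (fun n => ArithmeticFunction.cardFactors n = k)

open Classical in
theorem weight_removal {W : Finset ℕ} (hW : ∀ p ∈ W, p.Prime) (j N : ℕ) {F : ℤ → ℝ} (hF1 : ∀ x, |F x| ≤ 1) (s : ℤ) :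
    |(j + 1) * ∑ n ∈ PK (j + 2) N, F (s * (n : ℤ)) - ∑ n ∈ Ioc 0 N, RR W j n * F (s * (n : ℤ))| ≤
      (j + 2) ^ 2 * (#((Ioc 0 N).filter (fun n => ArithmeticFunction.cardFactors n = j + 2 ∧ ¬ Good W j n)) : ℝ) := by
  have h1 : ∑ n ∈ Ioc 0 N, RR W j n * F (s * (n : ℤ)) = ∑ n ∈ PK (j + 2) N, RR W j n * F (s * (n : ℤ)) := by
    symm
    apply sum_subset (filter_subset _ _)
    intro n hn hn2
    have h0 : RR W j n = 0 := by
      by_contra h
      exact hn2 (mem_filter.2 ⟨hn, RR_Omega hW h⟩)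
    rw [h0, zero_mul]
  rw [h1, mul_sum, ← sum_sub_distrib]
  have h2 : ∀ n ∈ PK (j + 2) N, |((j : ℝ) + 1) * F (s * (n : ℤ)) - RR W j n * F (s * (n : ℤ))| ≤
      if ¬ Good W j n then ((j : ℝ) + 2) ^ 2 else 0 := by
    intro n hn
    by_cases hg : Good W j n
    · rw [if_neg (by simpa using hg)]
      obtain ⟨m, q, rfl, hq, hqW, hm, hmΩ, hmW⟩ := hg
      rw [RR_good hW hq hqW hm hmΩ hmW, sub_self, abs_zero]
    · rw [if_pos hg, ← sub_mul, abs_mul]
      have h3 := RR_nonneg W j n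
      have h4 := RR_le (j := j) (n := n) hW
      have h5 : |(j : ℝ) + 1 - RR W j n| ≤ ((j : ℝ) + 2) ^ 2 := by
        have hj : (0 : ℝ) ≤ j := by positivity
        rw [abs_le]
        constructor
        · nlinarith
        · nlinarith
      calc |(j : ℝ) + 1 - RR W j n| * |F (s * (n : ℤ))| ≤ ((j : ℝ) + 2) ^ 2 * 1 :=
            mul_le_mul h5 (hF1 _) (abs_nonneg _) (by positivity)
        _ = _ := mul_one _
  refine (abs_sum_le_sum_abs _ _).trans ((sum_le_sum h2).trans ?_)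
  rw [← sum_filter, sum_const, nsmul_eq_mul, mul_comm]
  apply mul_le_mul_of_nonneg_left _ (by positivity)
  have h6 : (PK (j + 2) N).filter (fun n => ¬ Good W j n) =
      (Ioc 0 N).filter (fun n => ArithmeticFunction.cardFactors n = j + 2 ∧ ¬ Good W j n) := by
    unfold PK
    rw [filter_filter]
  rw [h6]

theorem RR_total {W : Finset ℕ} (hW : ∀ p ∈ W, p.Prime) (j N : ℕ) :
    ∑ n ∈ Ioc 0 N, RR W j n ≤ (j + 2) ^ 2 * (#(PK (j + 2) N) : ℝ) := by
  have h1 : ∑ n ∈ Ioc 0 N, RR W j n = ∑ n ∈ PK (j + 2) N, RR W j n := by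
    symm
    apply sum_subset (filter_subset _ _)
    intro n hn hn2
    by_contra h
    exact hn2 (mem_filter.2 ⟨hn, RR_Omega hW h⟩)
  rw [h1]
  refine (sum_le_sum (fun n _ => RR_le hW)).trans ?_
  rw [sum_const, nsmul_eq_mul, mul_comm]

/-- the exceptional integers are few -/
theorem exc_small (j : ℕ) {C κ : ℝ} (hC : 2 ≤ C) (hκ : 0 < κ) (hκ1 : κ ≤ 1 / (2 * (j + 2))) {ε : ℝ} (hε : 0 < ε) :
    ∃ N₀ : ℕ, 10 ≤ N₀ ∧ ∀ N : ℕ, N₀ ≤ N → 1 ≤ sg (WW C κ N) ∧
      open Classical in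
      (#((Ioc 0 N).filter (fun n => ArithmeticFunction.cardFactors n = j + 2 ∧ ¬ Good (WW C κ N) j n)) : ℝ) ≤
        ε * (sg (WW C κ N) ^ (j + 1) / (4 * j.factorial) * (N / Real.log N)) := by
  classical
  have hj2 : (0 : ℝ) < (j : ℝ) + 2 := by positivity
  have hf : (0 : ℝ) < j.factorial := by exact_mod_cast j.factorial_pos
  obtain ⟨η, hη⟩ : ∃ η : ℝ, η = min 1 (ε / (24 * j.factorial * (j + 2) * 2 ^ j)) := ⟨_, rfl⟩
  have hη0 : 0 < η := by
    rw [hη]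
    exact lt_min one_pos (by positivity)
  have hη1 : η ≤ 1 := hη ▸ min_le_left _ _
  have hη2 : η ≤ ε / (24 * j.factorial * (j + 2) * 2 ^ j) := hη ▸ min_le_right _ _
  have hκ1' : κ ≤ 1 := by
    refine hκ1.trans ?_
    rw [div_le_one (by positivity)]
    have : (0 : ℝ) ≤ j := by positivity
    linarith
  obtain ⟨N₁, hN₁, hmass⟩ := pmass (show 0 < C by linarith) hκ hκ1' hη0 1
  obtain ⟨N₂, hN₂, hexc⟩ := exc j
  obtain ⟨Y₁, hY₁⟩ := poly_exp (16 * j.factorial / ε) 1 (show (0 : ℝ) < 1 / 2 by norm_num)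
  obtain ⟨E0, hE0⟩ : ∃ E0 : ℝ, E0 = |Y₁| + 16 * j.factorial / ε + 10 := ⟨_, rfl⟩
  refine ⟨N₁ + N₂ + ⌈Real.exp E0⌉₊, by omega, fun N hN => ?_⟩
  obtain ⟨hWPN, hm1, hm2⟩ := hmass N (by omega)
  refine ⟨hm2, ?_⟩
  have hN0 : (0 : ℝ) < N := by exact_mod_cast (by omega : 0 < N)
  have hNE : Real.exp E0 ≤ N := (Nat.le_ceil _).trans (by exact_mod_cast (by omega))
  obtain ⟨l, hl⟩ : ∃ l : ℝ, l = Real.log N := ⟨_, rfl⟩
  have hlE : E0 ≤ l := hl ▸ (Real.le_log_iff_exp_le hN0).2 hNE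
  have hexpl : Real.exp l = N := by rw [hl]; exact Real.exp_log hN0
  have h16 : 0 < 16 * j.factorial / ε := by positivity
  have hlY : Y₁ ≤ l := by
    have := le_abs_self Y₁
    rw [hE0] at hlE
    linarith
  have hl10 : 10 ≤ l := by
    have := abs_nonneg Y₁
    rw [hE0] at hlE
    linarith
  have hl16 : 16 * j.factorial / ε ≤ l := by
    have := abs_nonneg Y₁
    rw [hE0] at hlE
    linarith
  have hl0 : 0 < l := by linarith
  obtain ⟨W, hW⟩ : ∃ W, W = WW C κ N := ⟨_, rfl⟩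
  rw [← hW] at hWPN hm1 hm2 ⊢
  have h1 := hexc N (by omega) ⌈Real.exp (C * Real.log (Real.log N))⌉₊ (Nat.ceil_pos.2 (Real.exp_pos _)) W (by
    intro p hp
    rw [hW] at hp
    unfold WW at hp
    rw [mem_filter, mem_Ioc] at hp
    refine ⟨hp.2, hp.1.1, ?_⟩
    have h2 : (p : ℝ) ≤ Real.exp (κ * l) := by
      rw [hl]
      exact (show (p : ℝ) ≤ (⌊Real.exp (κ * Real.log N)⌋₊ : ℝ) by exact_mod_cast hp.1.2).trans (Nat.floor_le (Real.exp_pos _).le)
    have h3 : (p : ℝ) ^ (2 * (j + 2)) ≤ N := by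
      calc (p : ℝ) ^ (2 * (j + 2)) ≤ Real.exp (κ * l) ^ (2 * (j + 2)) := pow_le_pow_left₀ (by positivity) h2 _
        _ = Real.exp (((2 * (j + 2) : ℕ) : ℝ) * (κ * l)) := by rw [← Real.exp_nat_mul]
        _ ≤ Real.exp l := by
            apply Real.exp_le_exp.2
            push_cast
            rw [le_div_iff₀ (by positivity)] at hκ1
            nlinarith
        _ = N := hexpl
    exact_mod_cast h3)
  refine h1.trans ?_
  rw [← hl]
  obtain ⟨S, hS⟩ : ∃ S, S = sg W := ⟨_, rfl⟩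
  rw [← hS] at hm1 hm2 ⊢
  have hS1 : 1 ≤ S ^ (j + 1) := one_le_pow₀ hm2
  have hPN : sg (PN N) ≤ 2 * S := by
    have h2 := sg_sdiff hWPN
    rw [← hS] at h2
    nlinarith
  obtain ⟨X, hX⟩ : ∃ X : ℝ, X = N / l := ⟨_, rfl⟩
  have hX0 : 0 < X := by rw [hX]; positivity
  rw [← hX]
  have hmain : ε / 4 * (X / (4 * j.factorial)) ≤ ε / 4 * (S ^ (j + 1) / (4 * j.factorial) * X) := by
    apply mul_le_mul_of_nonneg_left _ (by positivity)
    rw [div_mul_eq_mul_div]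
    apply div_le_div_of_nonneg_right _ (by positivity)
    nlinarith
  -- the three terms
  have t1 : Real.sqrt N ≤ ε / 4 * (X / (4 * j.factorial)) := by
    have h2 := hY₁ l hlY
    rw [pow_one] at h2
    have h3 : Real.sqrt N = Real.exp (l / 2) := by
      rw [Real.sqrt_eq_iff_mul_self_eq hN0.le (Real.exp_pos _).le, ← Real.exp_add, ← hexpl]
      congr 1
      ring
    have h4 : (N : ℝ) = Real.exp (l / 2) * Real.exp (l / 2) := by
      rw [← Real.exp_add, ← hexpl]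
      congr 1
      ring
    have h5 : Real.exp (-(1 / 2 * l)) * Real.exp (l / 2) = 1 := by
      rw [← Real.exp_add, show -(1 / 2 * l) + l / 2 = 0 by ring, Real.exp_zero]
    have h6 : 16 * j.factorial / ε * l ≤ Real.exp (l / 2) := by
      have h7 := mul_le_mul_of_nonneg_right h2 (Real.exp_pos (l / 2)).le
      rw [mul_assoc, h5, mul_one, one_mul] at h7
      exact h7
    rw [h3, hX, h4]
    have h8 : ε / 4 * (Real.exp (l / 2) * Real.exp (l / 2) / l / (4 * j.factorial)) =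
        Real.exp (l / 2) * (Real.exp (l / 2) / (16 * j.factorial / ε * l)) := by
      field_simp
      ring
    rw [h8]
    apply le_mul_of_one_le_right (Real.exp_pos _).le
    rw [one_le_div (by positivity)]
    exact h6
  have t2 : (N : ℝ) / (⌈Real.exp (C * Real.log l)⌉₊ : ℝ) ≤ ε / 4 * (X / (4 * j.factorial)) := by
    have h2 : l ^ 2 ≤ (⌈Real.exp (C * Real.log l)⌉₊ : ℝ) := by
      refine le_trans ?_ (Nat.le_ceil _)
      calc l ^ 2 = Real.exp (2 * Real.log l) := by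
            rw [show (2 : ℝ) * Real.log l = ((2 : ℕ) : ℝ) * Real.log l by norm_num, Real.exp_nat_mul, Real.exp_log hl0]
        _ ≤ Real.exp (C * Real.log l) := by
            apply Real.exp_le_exp.2
            exact mul_le_mul_of_nonneg_right hC (Real.log_nonneg (by linarith))
    calc (N : ℝ) / (⌈Real.exp (C * Real.log l)⌉₊ : ℝ) ≤ N / l ^ 2 := div_le_div_of_nonneg_left hN0.le (by positivity) h2
      _ = X * (1 / l) := by
          rw [hX]
          field_simp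
      _ ≤ X * (ε / (16 * j.factorial)) := by
          apply mul_le_mul_of_nonneg_left _ hX0.le
          rw [div_le_div_iff₀ hl0 (by positivity), one_mul]
          rw [div_le_iff₀ hε] at hl16
          linarith
      _ = ε / 4 * (X / (4 * j.factorial)) := by
          field_simp
          ring
  have t3 : 3 * ((j : ℝ) + 2) * X * (sg (PN N \ W) * sg (PN N) ^ j) ≤ ε / 2 * (S ^ (j + 1) / (4 * j.factorial) * X) := by
    have hS0 : 0 ≤ S := by linarith
    have h2 : sg (PN N) ^ j ≤ (2 * S) ^ j := pow_le_pow_left₀ (sg_nonneg _) hPN _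
    have h3 : sg (PN N \ W) * sg (PN N) ^ j ≤ (η * S) * (2 * S) ^ j :=
      mul_le_mul hm1 h2 (pow_nonneg (sg_nonneg _) _) (by positivity)
    calc 3 * ((j : ℝ) + 2) * X * (sg (PN N \ W) * sg (PN N) ^ j) ≤ 3 * ((j : ℝ) + 2) * X * ((η * S) * (2 * S) ^ j) :=
          mul_le_mul_of_nonneg_left h3 (by positivity)
      _ = η * (3 * ((j : ℝ) + 2) * X * 2 ^ j * S ^ (j + 1)) := by
          rw [mul_pow, pow_succ]
          ring
      _ ≤ ε / (24 * j.factorial * (j + 2) * 2 ^ j) * (3 * ((j : ℝ) + 2) * X * 2 ^ j * S ^ (j + 1)) :=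
          mul_le_mul_of_nonneg_right hη2 (by positivity)
      _ = ε / 2 * (S ^ (j + 1) / (4 * j.factorial) * X) := by
          field_simp
          ring
  have e : ε * (S ^ (j + 1) / (4 * j.factorial) * X) = ε / 4 * (S ^ (j + 1) / (4 * j.factorial) * X) +
      ε / 4 * (S ^ (j + 1) / (4 * j.factorial) * X) + ε / 2 * (S ^ (j + 1) / (4 * j.factorial) * X) := by ring
  rw [e]
  exact add_le_add (add_le_add (t1.trans hmain) (t2.trans hmain)) t3

theorem kp (RL : RelS) (ML : MultS) (j : ℕ) {ε : ℝ} (hε : 0 < ε) : ∃ N₀ : ℕ, 10 ≤ N₀ ∧ ∀ N : ℕ, N₀ ≤ N → ∀ F : ℤ → ℝ, Coal F →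
    (∀ x, |F x| ≤ 1) → ∀ s : ℤ, (s = 1 ∨ s = -1) →
    |∑ n ∈ PK (j + 2) N, F (s * (n : ℤ)) - (1 / (N : ℝ) * ∑ n ∈ Ioc 0 N, F (s * (n : ℤ))) * (#(PK (j + 2) N) : ℝ)| ≤
      ε * (#(PK (j + 2) N) : ℝ) := by
  classical
  have hj2 : (0 : ℝ) < (j : ℝ) + 2 := by positivity
  obtain ⟨ε₁, hε₁⟩ : ∃ ε₁ : ℝ, ε₁ = min 1 (ε / (2 * (j + 2) ^ 2)) := ⟨_, rfl⟩
  have hε₁0 : 0 < ε₁ := by
    rw [hε₁]
    exact lt_min one_pos (by positivity)
  have hε₁1 : ε₁ ≤ 1 := hε₁ ▸ min_le_left _ _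
  have hε₁2 : ε₁ ≤ ε / (2 * (j + 2) ^ 2) := hε₁ ▸ min_le_right _ _
  obtain ⟨C, κ, hC, hκ, hκ1, N₁, hN₁, hw⟩ := kpw RL ML j hε₁0 hε₁1
  obtain ⟨N₂, hN₂, hx⟩ := exc_small j hC hκ hκ1 (show 0 < ε / (4 * ((j : ℝ) + 2) ^ 4) by positivity)
  refine ⟨N₁ + N₂, by omega, ?_⟩
  intro N hN F hF hF1 s hs
  obtain ⟨hsg, hx⟩ := hx N (by omega)
  obtain ⟨δ, hδ⟩ : ∃ δ : ℝ, δ = 1 / (N : ℝ) * ∑ n ∈ Ioc 0 N, F (s * (n : ℤ)) := ⟨_, rfl⟩
  have hδ1 : |δ| ≤ 1 := by
    rw [hδ]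
    exact delta_le hF1 s (by omega)
  obtain ⟨h1, h2⟩ := hw N (by omega) hsg F hF hF1 s hs δ hδ
  have hWp : ∀ p ∈ WW C κ N, p.Prime := by
    intro p hp
    unfold WW at hp
    exact (mem_filter.1 hp).2
  have h3 := weight_removal hWp j N hF1 s
  have h4 := weight_removal hWp j N (F := fun _ => 1) (fun _ => by simp) s
  have h5 := RR_total hWp j N
  rw [← hδ]
  simp only [mul_one, sum_const, nsmul_eq_mul] at h4
  set E := (#((Ioc 0 N).filter (fun n => ArithmeticFunction.cardFactors n = j + 2 ∧ ¬ Good (WW C κ N) j n)) : ℝ) with hE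
  set A := ∑ n ∈ Ioc 0 N, RR (WW C κ N) j n * F (s * (n : ℤ)) with hA
  set A₁ := ∑ n ∈ Ioc 0 N, RR (WW C κ N) j n with hA₁
  set P := ∑ n ∈ PK (j + 2) N, F (s * (n : ℤ)) with hP
  set K := (#(PK (j + 2) N) : ℝ) with hK
  have hE2 : E ≤ ε / (4 * ((j : ℝ) + 2) ^ 4) * A₁ := hx.trans (mul_le_mul_of_nonneg_left h2 (by positivity))
  have hK0 : 0 ≤ K := Nat.cast_nonneg _
  have hj1 : (1 : ℝ) ≤ (j : ℝ) + 1 := by
    have : (0 : ℝ) ≤ j := by positivity
    linarith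
  have h6 : |((j : ℝ) + 1) * (P - δ * K)| ≤ ε * K := by
    have e : ((j : ℝ) + 1) * (P - δ * K) = (((j : ℝ) + 1) * P - A) + (A - δ * A₁) - δ * (((j : ℝ) + 1) * K - A₁) := by ring
    have b1 : |δ * (((j : ℝ) + 1) * K - A₁)| ≤ (j + 2) ^ 2 * E := by
      rw [abs_mul]
      calc |δ| * |((j : ℝ) + 1) * K - A₁| ≤ 1 * ((j + 2) ^ 2 * E) := mul_le_mul hδ1 h4 (abs_nonneg _) zero_le_one
        _ = _ := one_mul _
    have b2 : (j + 2) ^ 2 * E ≤ ε / 4 * K := by
      calc ((j : ℝ) + 2) ^ 2 * E ≤ (j + 2) ^ 2 * (ε / (4 * ((j : ℝ) + 2) ^ 4) * ((j + 2) ^ 2 * K)) := by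
            apply mul_le_mul_of_nonneg_left _ (by positivity)
            exact hE2.trans (mul_le_mul_of_nonneg_left h5 (by positivity))
        _ = ε / 4 * K := by
            field_simp
    have b3 : ε₁ * A₁ ≤ ε / 2 * K := by
      calc ε₁ * A₁ ≤ ε / (2 * (j + 2) ^ 2) * ((j + 2) ^ 2 * K) := by
            apply mul_le_mul hε₁2 h5 _ (by positivity)
            exact sum_nonneg (fun n _ => RR_nonneg _ _ _)
        _ = ε / 2 * K := by
            field_simp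
    rw [e]
    have b4 := abs_sub (((j : ℝ) + 1) * P - A + (A - δ * A₁)) (δ * (((j : ℝ) + 1) * K - A₁))
    have b5 := abs_add_le (((j : ℝ) + 1) * P - A) (A - δ * A₁)
    linarith
  rw [abs_mul, abs_of_nonneg (by linarith : (0 : ℝ) ≤ (j : ℝ) + 1)] at h6
  refine le_trans ?_ h6
  exact le_mul_of_one_le_left (abs_nonneg _) hj1

end Pool.Agent.Run7.h684.E2
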