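import Pool.Agent.Run7.h684.E2.Mean
import Pool.Agent.Run7.h684.E2.K0

/-!
Project E2 (helper684): the mean square over short windows.
-/

set_option autoImplicit false

namespace Pool.Agent.Run7.h684.E2

open Finset MeasureTheory Pool.Agent.H376R2.MR Pool.Agent.Q240.KS Pool.Agent.Q95.KS

/-- the two resolutions agree in mean square -/
theorem L2 (B : ℕ) : ∃ C₁ : ℝ, 0 < C₁ ∧ ∃ c₀ : ℕ, ∀ c : ℕ, c₀ ≤ c → ∃ Y₀ : ℝ, 100 ≤ Y₀ ∧ ∀ Y : ℝ, Y₀ ≤ Y →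
    ∀ (r : ℕ) (s : Finset ℕ), C₁ * Real.log Y ≤ (r : ℝ) / 100 → (r : ℝ) / 100 ≤ Y → s ⊆ cell 100 r → ∀ Z : ℝ,
    1 ≤ ⌈Y ^ c⌉₊ ∧ ⌈Y ^ c⌉₊ ≤ ⌊Real.exp Y⌋₊ ∧
    ∫ x in (-Real.pi)..Real.pi, (Ph Y s ⌊Real.exp Y⌋₊ (Z + x) - Ph Y s ⌈Y ^ c⌉₊ (Z + x)) ^ 2 ≤ 1 / Y ^ B := by
  classical
  obtain ⟨C₁, hC₁, A, Y₁, hY₁, hfar⟩ := ms_far (B + 1)
  obtain ⟨M, Y₂, hY₂, hms⟩ := AA_ms
  refine ⟨C₁, hC₁, A + M + B + 1, fun c hc => ?_⟩
  obtain ⟨Y₃, hY₃⟩ := poly_le_exp 2 c one_pos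
  refine ⟨max (max Y₁ Y₂) (max Y₃ 100), (le_max_right _ _).trans (le_max_right _ _), ?_⟩
  intro Y hY r s hr1 hr2 hs Z
  have hYa : Y₁ ≤ Y := ((le_max_left _ _).trans (le_max_left _ _)).trans hY
  have hYb : Y₂ ≤ Y := ((le_max_right _ _).trans (le_max_left _ _)).trans hY
  have hYc := hY₃ Y (((le_max_left _ _).trans (le_max_right _ _)).trans hY)
  have hYd : 100 ≤ Y := ((le_max_right _ _).trans (le_max_right _ _)).trans hY
  have hY0 : 0 < Y := by linarith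
  have hYc1 : (1 : ℝ) ≤ Y ^ c := one_le_pow₀ (by linarith)
  have hK₁ : 1 ≤ ⌈Y ^ c⌉₊ := Nat.one_le_ceil_iff.2 (by linarith)
  have hK₁Y : Y ^ c ≤ ⌈Y ^ c⌉₊ := Nat.le_ceil _
  have hKK : ⌈Y ^ c⌉₊ ≤ ⌊Real.exp Y⌋₊ := by
    apply Nat.le_floor
    have := (Nat.ceil_lt_add_one (show 0 ≤ Y ^ c by positivity)).le
    rw [one_mul] at hYc
    linarith
  refine ⟨hK₁, hKK, ?_⟩
  set K := ⌊Real.exp Y⌋₊ with hK
  set K₁ := ⌈Y ^ c⌉₊ with hK1
  have hKY : (K : ℝ) ≤ Real.exp Y := Nat.floor_le (Real.exp_pos _).le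
  have hK10 : (0 : ℝ) < K₁ := by exact_mod_cast hK₁
  rw [Ph_par hK₁ hKK]
  have hf := hfar Y hYa r K s hr1 hr2 hs (hK₁.trans hKK) hKY
  have hm := hms Y hYb K (hK₁.trans hKK) hKY
  rw [← sum_filter_add_sum_filter_not (FK K) (fun k : ℤ => Y ^ A ≤ |(k : ℝ)|)]
  have h1 : ∑ k ∈ (FK K).filter (fun k : ℤ => Y ^ A ≤ |(k : ℝ)|),
      (fw K k - fw K₁ k) ^ 2 * (‖PS s k‖ ^ 2 * ‖AA (zY Y) Y k‖ ^ 2) ≤ 1 / Y ^ (B + 1) := by
    refine le_trans (sum_le_sum fun k _ => ?_) hf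
    exact mul_le_of_le_one_left (by positivity) (fw_diff hK₁ hKK k).1
  have h2 : ∑ k ∈ (FK K).filter (fun k : ℤ => ¬ Y ^ A ≤ |(k : ℝ)|),
      (fw K k - fw K₁ k) ^ 2 * (‖PS s k‖ ^ 2 * ‖AA (zY Y) Y k‖ ^ 2) ≤ 4 / Y ^ (B + 2) := by
    have h3 : ∀ k ∈ (FK K).filter (fun k : ℤ => ¬ Y ^ A ≤ |(k : ℝ)|),
        (fw K k - fw K₁ k) ^ 2 * (‖PS s k‖ ^ 2 * ‖AA (zY Y) Y k‖ ^ 2) ≤
          (1 / Y ^ (M + B + 1)) ^ 2 * 4 * ‖AA (zY Y) Y k‖ ^ 2 := by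
      intro k hk
      rw [mem_filter, not_le] at hk
      have h4 : |(k : ℝ)| / K₁ ≤ 1 / Y ^ (M + B + 1) := by
        rw [div_le_div_iff₀ hK10 (by positivity)]
        calc |(k : ℝ)| * Y ^ (M + B + 1) ≤ Y ^ A * Y ^ (M + B + 1) :=
              mul_le_mul_of_nonneg_right hk.2.le (by positivity)
          _ = Y ^ (A + M + B + 1) := by ring
          _ ≤ Y ^ c := pow_le_pow_right₀ (by linarith) hc
          _ ≤ 1 * K₁ := by rw [one_mul]; exact hK₁Y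
      have h5 : ‖PS s k‖ ^ 2 ≤ 4 := by
        have := PS_le (by norm_num : 1 ≤ 100) hs k
        nlinarith [norm_nonneg (PS s k)]
      have h6 : (fw K k - fw K₁ k) ^ 2 ≤ (1 / Y ^ (M + B + 1)) ^ 2 :=
        (fw_diff hK₁ hKK k).2.trans (pow_le_pow_left₀ (by positivity) h4 2)
      calc (fw K k - fw K₁ k) ^ 2 * (‖PS s k‖ ^ 2 * ‖AA (zY Y) Y k‖ ^ 2)
          ≤ (1 / Y ^ (M + B + 1)) ^ 2 * (4 * ‖AA (zY Y) Y k‖ ^ 2) := by
            apply mul_le_mul h6 _ (by positivity) (by positivity)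
            exact mul_le_mul_of_nonneg_right h5 (by positivity)
        _ = _ := by ring
    refine (sum_le_sum h3).trans ?_
    rw [← mul_sum]
    have h7 : ∑ k ∈ (FK K).filter (fun k : ℤ => ¬ Y ^ A ≤ |(k : ℝ)|), ‖AA (zY Y) Y k‖ ^ 2 ≤ Y ^ M :=
      (sum_le_sum_of_subset_of_nonneg (filter_subset _ _) fun _ _ _ => by positivity).trans hm
    calc (1 / Y ^ (M + B + 1)) ^ 2 * 4 * ∑ k ∈ (FK K).filter (fun k : ℤ => ¬ Y ^ A ≤ |(k : ℝ)|), ‖AA (zY Y) Y k‖ ^ 2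
        ≤ (1 / Y ^ (M + B + 1)) ^ 2 * 4 * Y ^ M := mul_le_mul_of_nonneg_left h7 (by positivity)
      _ = 4 / Y ^ (M + 2 * B + 2) := by
          have e : Y ^ (M + 2 * B + 2) * Y ^ M = (Y ^ (M + B + 1)) ^ 2 := by ring
          have hp : 0 < Y ^ M := by positivity
          have hp2 : 0 < Y ^ (M + 2 * B + 2) := by positivity
          rw [div_pow, one_pow, ← e]
          field_simp
      _ ≤ 4 / Y ^ (B + 2) := by
          apply div_le_div_of_nonneg_left (by norm_num) (by positivity)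
          exact pow_le_pow_right₀ (by linarith) (by omega)
  have hpi : Real.pi ≤ 4 := Real.pi_le_four
  calc 2 * Real.pi * (_ + _) ≤ 8 * (1 / Y ^ (B + 1) + 4 / Y ^ (B + 2)) := by
        apply mul_le_mul (by linarith) (add_le_add h1 h2) _ (by norm_num)
        exact add_nonneg (sum_nonneg fun _ _ => by positivity) (sum_nonneg fun _ _ => by positivity)
    _ ≤ 1 / Y ^ B := by
        have e1 : Y ^ (B + 1) = Y ^ B * Y := by ring
        have e2 : Y ^ (B + 2) = Y ^ B * Y ^ 2 := by ring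
        rw [e1, e2]
        have hB : 0 < Y ^ B := by positivity
        have h3 : 1 / (Y ^ B * Y) = (1 / Y ^ B) * (1 / Y) := by field_simp
        have h4 : 4 / (Y ^ B * Y ^ 2) = (1 / Y ^ B) * (4 / Y ^ 2) := by field_simp
        rw [h3, h4]
        have h5 : 1 / Y ≤ 1 / 100 := one_div_le_one_div_of_le (by norm_num) hYd
        have h6 : 4 / Y ^ 2 ≤ 4 / 100 ^ 2 := by
          apply div_le_div_of_nonneg_left (by norm_num) (by norm_num)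
          exact pow_le_pow_left₀ (by norm_num) hYd 2
        have h7 : 0 < 1 / Y ^ B := by positivity
        nlinarith

end Pool.Agent.Run7.h684.E2
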