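import Pool.Agent.Run7.h684.E2.One
import Pool.Agent.Run7.h684.E2.P0

/-!
Project E2 (helper684): local averages.
-/

set_option autoImplicit false

namespace Pool.Agent.Run7.h684.E2

open Finset MeasureTheory Pool.Agent.H376R2.MR Pool.Agent.Q240.KS Pool.Agent.Q95.KS
open Pool.Agent.H499R2.CO

/-- the function on the logarithmic scale -/
noncomputable def GF (F : ℤ → ℝ) (s : ℤ) (u : ℝ) : ℝ := F (s * (⌊Real.exp u⌋₊ : ℤ))

theorem GF_meas (F : ℤ → ℝ) (s : ℤ) : Measurable (GF F s) := by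
  have h1 : Measurable (fun u : ℝ => ⌊Real.exp u⌋₊) := Nat.measurable_floor.comp Real.measurable_exp
  exact (measurable_of_countable (fun n : ℕ => F (s * (n : ℤ)))).comp h1

theorem GF_le {F : ℤ → ℝ} (hF : ∀ x, |F x| ≤ 1) (s : ℤ) (u : ℝ) : |GF F s u| ≤ 1 := hF _

/-- the kernel mean over a window -/
noncomputable def JJ (F : ℤ → ℝ) (s : ℤ) (K : ℕ) (a b v : ℝ) : ℝ := ∫ u in a..b, GF F s u * Fj K (u - v)

theorem JJ_far {F : ℤ → ℝ} (hF : ∀ x, |F x| ≤ 1) (s : ℤ) {K : ℕ} (hK : 1 ≤ K) {a b v : ℝ} (hab : a ≤ b)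
    (hba : b - a ≤ 1) (h : ∀ u, a ≤ u → u ≤ b → 0.18 ≤ |u - v| ∧ |u - v| ≤ Real.pi) :
    |JJ F s K a b v| ≤ 500 / K := by
  have hK0 : (0 : ℝ) < K := by exact_mod_cast hK
  have hpi := Real.pi_pos
  have hpi4 := Real.pi_le_four
  unfold JJ
  have h1 := intervalIntegral.norm_integral_le_of_norm_le_const (a := a) (b := b)
    (f := fun u => GF F s u * Fj K (u - v)) (C := 500 / K) (by
      intro u hu
      rw [Set.uIoc_of_le hab] at hu
      obtain ⟨h2, h3⟩ := h u hu.1.le hu.2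
      rw [Real.norm_eq_abs, abs_mul, abs_of_nonneg (Fj_nonneg _ _)]
      have h4 : u - v ≠ 0 := by
        intro hc
        rw [hc, abs_zero] at h2
        linarith
      have h5 := Fj_le_sq hK h4 h3
      have h6 : 0.0324 ≤ (u - v) ^ 2 := by
        rw [← sq_abs]
        nlinarith
      have h7 : Real.pi ^ 2 / (K * (u - v) ^ 2) ≤ 500 / K := by
        rw [div_le_div_iff₀ (by positivity) hK0]
        calc Real.pi ^ 2 * K ≤ 16 * K := by
              apply mul_le_mul_of_nonneg_right _ hK0.le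
              nlinarith
          _ ≤ 500 * (K * 0.0324) := by linarith
          _ ≤ 500 * (K * (u - v) ^ 2) := by
              apply mul_le_mul_of_nonneg_left _ (by norm_num)
              exact mul_le_mul_of_nonneg_left h6 hK0.le
      calc |GF F s u| * Fj K (u - v) ≤ 1 * (500 / K) :=
            mul_le_mul (GF_le hF s u) (h5.trans h7) (Fj_nonneg _ _) zero_le_one
        _ = _ := one_mul _)
  rw [Real.norm_eq_abs] at h1
  refine h1.trans ?_
  rw [abs_of_nonneg (by linarith)]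
  exact mul_le_of_le_one_right (by positivity) hba

/-- the truncated value -/
noncomputable def be (F : ℤ → ℝ) (s : ℤ) (n₀ n₁ n : ℕ) : ℝ := if n₀ ≤ n ∧ n < n₁ then F (s * (n : ℤ)) else 0

theorem be_le {F : ℤ → ℝ} (hF : ∀ x, |F x| ≤ 1) (s : ℤ) (n₀ n₁ n : ℕ) : |be F s n₀ n₁ n| ≤ 1 := by
  unfold be
  split_ifs
  · exact hF _
  · simp

/-- indicator of the neighbourhood of the boundary of the window -/
noncomputable def bd (τ a b v : ℝ) : ℝ := (if |v - a| ≤ τ then 1 else 0) + (if |v - b| ≤ τ then 1 else 0)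

theorem bd_nonneg (τ a b v : ℝ) : 0 ≤ bd τ a b v := by
  unfold bd
  split_ifs <;> norm_num

theorem osc_le {F : ℤ → ℝ} (hF : ∀ x, |F x| ≤ 1) (s : ℤ) {τ u : ℝ} (hu : |u| ≤ τ) {n₀ n₁ n : ℕ} (hn₀ : 1 ≤ n₀)
    (hn₁ : 1 ≤ n₁) (hn : 1 ≤ n) :
    |(Set.Ioc (Real.log n₀) (Real.log n₁)).indicator (GF F s) (Real.log n + u) - be F s n₀ n₁ n| ≤
      |F (s * (⌊(n : ℝ) * Real.exp u⌋₊ : ℤ)) - F (s * (n : ℤ))| + bd τ (Real.log n₀) (Real.log n₁) (Real.log n) := by
  have hn0 : (0 : ℝ) < n := by exact_mod_cast hn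
  have hn00 : (0 : ℝ) < n₀ := by exact_mod_cast hn₀
  have hn10 : (0 : ℝ) < n₁ := by exact_mod_cast hn₁
  have eG : GF F s (Real.log n + u) = F (s * (⌊(n : ℝ) * Real.exp u⌋₊ : ℤ)) := by
    unfold GF
    rw [Real.exp_add, Real.exp_log hn0]
  have c0 : n₀ ≤ n ↔ Real.log n₀ ≤ Real.log n := by
    rw [Real.log_le_log_iff hn00 hn0]
    exact Nat.cast_le.symm
  have c1 : n < n₁ ↔ Real.log n < Real.log n₁ := by
    rw [Real.log_lt_log_iff hn0 hn10]
    exact Nat.cast_lt.symm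
  obtain ⟨hu1, hu2⟩ := abs_le.1 hu
  have hbd := bd_nonneg τ (Real.log n₀) (Real.log n₁) (Real.log n)
  have habs := abs_nonneg (F (s * (⌊(n : ℝ) * Real.exp u⌋₊ : ℤ)) - F (s * (n : ℤ)))
  by_cases hin : Real.log n + u ∈ Set.Ioc (Real.log n₀) (Real.log n₁)
  · rw [Set.indicator_of_mem hin, eG]
    by_cases hb : n₀ ≤ n ∧ n < n₁
    · unfold be
      rw [if_pos hb]
      linarith
    · unfold be
      rw [if_neg hb, sub_zero]
      have h1 : 1 ≤ bd τ (Real.log n₀) (Real.log n₁) (Real.log n) := by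
        rw [c0, c1, not_and_or, not_le, not_lt] at hb
        unfold bd
        rcases hb with hb | hb
        · rw [if_pos (by rw [abs_le]; constructor <;> linarith [hin.1])]
          split_ifs <;> norm_num
        · rw [if_pos (show |Real.log (n : ℝ) - Real.log n₁| ≤ τ by
            rw [abs_le]; constructor <;> linarith [hin.2])]
          split_ifs <;> norm_num
      linarith [hF (s * (⌊(n : ℝ) * Real.exp u⌋₊ : ℤ))]
  · rw [Set.indicator_of_notMem hin, zero_sub, abs_neg]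
    by_cases hb : n₀ ≤ n ∧ n < n₁
    · have h1 : 1 ≤ bd τ (Real.log n₀) (Real.log n₁) (Real.log n) := by
        rw [c0, c1] at hb
        rw [Set.mem_Ioc, not_and_or, not_lt, not_le] at hin
        unfold bd
        rcases hin with hin | hin
        · rw [if_pos (show |Real.log (n : ℝ) - Real.log n₀| ≤ τ by
            rw [abs_le]; constructor <;> linarith [hb.1])]
          split_ifs <;> norm_num
        · rw [if_pos (show |Real.log (n : ℝ) - Real.log n₁| ≤ τ by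
            rw [abs_le]; constructor <;> linarith [hb.2])]
          split_ifs <;> norm_num
      linarith [be_le hF s n₀ n₁ n]
    · unfold be
      rw [if_neg hb, abs_zero]
      linarith

theorem JJ_near {F : ℤ → ℝ} (hF : ∀ x, |F x| ≤ 1) (s : ℤ) {K : ℕ} (hK : 1 ≤ K) {Z τ : ℝ} (hτ : 0 < τ) (hτ1 : τ ≤ 1)
    {n₀ n₁ n : ℕ} (hZ : |Z - Real.log n| ≤ 1) (h1 : Z - 2 ≤ Real.log n₀) (h2 : Real.log n₀ ≤ Real.log n₁)
    (h3 : Real.log n₁ ≤ Z + 2) :
    |JJ F s K (Real.log n₀) (Real.log n₁) (Real.log n) - 2 * Real.pi * be F s n₀ n₁ n| ≤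
      K * (∫ u in (-τ)..τ, |(Set.Ioc (Real.log n₀) (Real.log n₁)).indicator (GF F s) (Real.log n + u) -
        be F s n₀ n₁ n|) + 4 * Real.pi ^ 3 / (K * τ) := by
  have := one_pt hK hZ hτ hτ1 ((Set.Ioc (Real.log n₀) (Real.log n₁)).indicator (GF F s))
    ((GF_meas F s).indicator measurableSet_Ioc) (by
      intro t
      by_cases h : t ∈ Set.Ioc (Real.log (n₀ : ℝ)) (Real.log n₁)
      · rw [Set.indicator_of_mem h]
        exact GF_le hF s t
      · rw [Set.indicator_of_notMem h, abs_zero]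
        exact zero_le_one) (be_le hF s n₀ n₁ n)
  rw [win_ind (GF F s) (fun u => Fj K (u - Real.log n)) h1 h2 h3] at this
  exact this

/-- the weight -/
noncomputable def Wm (m : ℕ) : ℝ := ArithmeticFunction.vonMangoldt m / m

theorem Wm_nonneg (m : ℕ) : 0 ≤ Wm m := div_nonneg ArithmeticFunction.vonMangoldt_nonneg (Nat.cast_nonneg _)

theorem Wm_le {Y : ℝ} (hY : 1 ≤ Y) {m : ℕ} (hm : m ∈ NR Y) : Wm m ≤ (Y + 1 / 2) / Real.exp (Y - 1 / 2) := by
  obtain ⟨h1, h2⟩ := mem_NR.1 hm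
  have hn0 : (0 : ℝ) < m := by exact_mod_cast h1
  obtain ⟨h3, h4⟩ := abs_le.1 h2
  unfold Wm
  apply div_le_div₀ (by linarith) _ (Real.exp_pos _)
  · rw [← Real.le_log_iff_exp_le hn0]
    linarith
  · exact ArithmeticFunction.vonMangoldt_le_log.trans (by linarith)

theorem NR_sum_le {Y : ℝ} (f : ℕ → ℝ) (hf : ∀ m, 0 ≤ f m) :
    ∑ m ∈ NR Y, f m ≤ ∑ m ∈ Ioc 0 ⌊Real.exp (Y + 1 / 2)⌋₊, f m := by
  apply sum_le_sum_of_subset_of_nonneg
  · intro m hm
    unfold NR nb at hm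
    rw [mem_Ioc] at hm ⊢
    omega
  · intro m _ _
    exact hf m

/-- the mass of the near range -/
theorem NR_mass (Y : ℝ) : ∑ m ∈ NR Y, Wm m ≤ 16 := by
  have h1 : ∀ m ∈ NR Y, Wm m ≤ ArithmeticFunction.vonMangoldt m * Real.exp (-(Y - 1 / 2)) := by
    intro m hm
    obtain ⟨h1, h2⟩ := mem_NR.1 hm
    have hn0 : (0 : ℝ) < m := by exact_mod_cast h1
    unfold Wm
    rw [div_eq_mul_inv]
    apply mul_le_mul_of_nonneg_left _ ArithmeticFunction.vonMangoldt_nonneg
    rw [Real.exp_neg]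
    apply inv_anti₀ (Real.exp_pos _)
    rw [← Real.le_log_iff_exp_le hn0]
    linarith [(abs_le.1 h2).1]
  refine (sum_le_sum h1).trans ?_
  rw [← sum_mul]
  have h2 : ∑ m ∈ NR Y, ArithmeticFunction.vonMangoldt m ≤ Chebyshev.psi (Real.exp (Y + 1 / 2)) :=
    NR_sum_le _ fun m => ArithmeticFunction.vonMangoldt_nonneg
  have h3 := Chebyshev.psi_le_const_mul_self (Real.exp_pos (Y + 1 / 2)).le
  have h4 : Real.log 4 ≤ 1.4 := by
    rw [show (4 : ℝ) = 2 ^ 2 by norm_num, Real.log_pow]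
    have := Real.log_two_lt_d9
    push_cast
    linarith
  have h5 : Real.exp (Y + 1 / 2) * Real.exp (-(Y - 1 / 2)) = Real.exp 1 := by
    rw [← Real.exp_add]
    congr 1
    ring
  have h6 := Real.exp_one_lt_d9
  calc (∑ m ∈ NR Y, ArithmeticFunction.vonMangoldt m) * Real.exp (-(Y - 1 / 2))
      ≤ ((Real.log 4 + 4) * Real.exp (Y + 1 / 2)) * Real.exp (-(Y - 1 / 2)) :=
        mul_le_mul_of_nonneg_right (h2.trans h3) (Real.exp_pos _).le
    _ = (Real.log 4 + 4) * Real.exp 1 := by rw [mul_assoc, h5]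
    _ ≤ 5.4 * 2.72 := mul_le_mul (by linarith) (by linarith) (Real.exp_pos _).le (by norm_num)
    _ ≤ 16 := by norm_num

/-- the prime powers -/
theorem NR_pow {Y : ℝ} (hY : 1 ≤ Y) :
    ∑ m ∈ (NR Y).filter (fun m => ¬ m.Prime), Wm m ≤ 9 * (Y * Real.exp (-(Y / 2))) := by
  have h1 : ∀ m ∈ (NR Y).filter (fun m => ¬ m.Prime), Wm m ≤
      ArithmeticFunction.vonMangoldt m * Real.exp (-(Y - 1 / 2)) := by
    intro m hm
    obtain ⟨h1, h2⟩ := mem_NR.1 (mem_filter.1 hm).1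
    have hn0 : (0 : ℝ) < m := by exact_mod_cast h1
    unfold Wm
    rw [div_eq_mul_inv]
    apply mul_le_mul_of_nonneg_left _ ArithmeticFunction.vonMangoldt_nonneg
    rw [Real.exp_neg]
    apply inv_anti₀ (Real.exp_pos _)
    rw [← Real.le_log_iff_exp_le hn0]
    linarith [(abs_le.1 h2).1]
  refine (sum_le_sum h1).trans ?_
  rw [← sum_mul]
  have h2 : ∑ m ∈ (NR Y).filter (fun m => ¬ m.Prime), ArithmeticFunction.vonMangoldt m ≤
      Chebyshev.psi (Real.exp (Y + 1 / 2)) - Chebyshev.theta (Real.exp (Y + 1 / 2)) := by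
    rw [Chebyshev.psi_sub_theta_eq_sum_not_prime]
    apply sum_le_sum_of_subset_of_nonneg
    · apply filter_subset_filter
      intro m hm
      unfold NR nb at hm
      rw [mem_Ioc] at hm ⊢
      omega
    · intro m _ _
      exact ArithmeticFunction.vonMangoldt_nonneg
  have h3 := Chebyshev.psi_sub_theta_le (x := Real.exp (Y + 1 / 2)) (Real.one_le_exp (by linarith))
  have h4 : √ (Real.exp (Y + 1 / 2)) = Real.exp (Y / 2 + 1 / 4) := by
    rw [← Real.exp_half]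
    congr 1
    ring
  rw [h4, Real.log_exp] at h3
  calc (∑ m ∈ (NR Y).filter (fun m => ¬ m.Prime), ArithmeticFunction.vonMangoldt m) * Real.exp (-(Y - 1 / 2))
      ≤ (2 * Real.exp (Y / 2 + 1 / 4) * (Y + 1 / 2)) * Real.exp (-(Y - 1 / 2)) :=
        mul_le_mul_of_nonneg_right (h2.trans h3) (Real.exp_pos _).le
    _ = 2 * (Y + 1 / 2) * Real.exp (3 / 4) * Real.exp (-(Y / 2)) := by
        have e : Real.exp (Y / 2 + 1 / 4) * Real.exp (-(Y - 1 / 2)) = Real.exp (3 / 4) * Real.exp (-(Y / 2)) := by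
          rw [← Real.exp_add, ← Real.exp_add]
          congr 1
          ring
        calc _ = 2 * (Y + 1 / 2) * (Real.exp (Y / 2 + 1 / 4) * Real.exp (-(Y - 1 / 2))) := by ring
          _ = _ := by rw [e]; ring
    _ ≤ 9 * (Y * Real.exp (-(Y / 2))) := by
        have h5 : Real.exp (3 / 4) ≤ Real.exp 1 := Real.exp_le_exp.2 (by norm_num)
        have h6 := Real.exp_one_lt_d9
        have h7 : 2 * (Y + 1 / 2) * Real.exp (3 / 4) ≤ 9 * Y := by
          calc 2 * (Y + 1 / 2) * Real.exp (3 / 4) ≤ 2 * (Y + 1 / 2) * 2.72 :=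
                mul_le_mul_of_nonneg_left (by linarith) (by linarith)
            _ ≤ 9 * Y := by linarith
        have h8 := Real.exp_pos (-(Y / 2))
        nlinarith

/-- integers with logarithm in a short interval -/
theorem short_card {w τ : ℝ} (hτ : 0 ≤ τ) (hτ1 : τ ≤ 1) (S : Finset ℕ) (hS : ∀ m ∈ S, 1 ≤ m ∧ |Real.log m - w| ≤ τ) :
    (S.card : ℝ) ≤ 6 * Real.exp w * τ + 1 := by
  have h1 : S ⊆ Icc ⌈Real.exp (w - τ)⌉₊ ⌊Real.exp (w + τ)⌋₊ := by
    intro m hm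
    obtain ⟨h1, h2⟩ := hS m hm
    have hm0 : (0 : ℝ) < m := by exact_mod_cast h1
    obtain ⟨h3, h4⟩ := abs_le.1 h2
    rw [mem_Icc]
    refine ⟨Nat.ceil_le.2 ?_, Nat.le_floor ?_⟩
    · rw [← Real.le_log_iff_exp_le hm0]
      linarith
    · rw [← Real.log_le_iff_le_exp hm0]
      linarith
  have h2 := card_le_card h1
  rw [Nat.card_Icc] at h2
  have h3 : Real.exp (w - τ) ≤ (⌈Real.exp (w - τ)⌉₊ : ℝ) := Nat.le_ceil _
  have h4 : (⌊Real.exp (w + τ)⌋₊ : ℝ) ≤ Real.exp (w + τ) := Nat.floor_le (Real.exp_pos _).le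
  have h5 : (S.card : ℝ) ≤ Real.exp (w + τ) - Real.exp (w - τ) + 1 := by
    have h6 : ((⌊Real.exp (w + τ)⌋₊ + 1 - ⌈Real.exp (w - τ)⌉₊ : ℕ) : ℝ) ≤ Real.exp (w + τ) - Real.exp (w - τ) + 1 := by
      rcases le_total ⌈Real.exp (w - τ)⌉₊ (⌊Real.exp (w + τ)⌋₊ + 1) with h | h
      · rw [Nat.cast_sub h]
        push_cast
        linarith
      · rw [Nat.sub_eq_zero_of_le h]
        have := Real.exp_le_exp.2 (show w - τ ≤ w + τ by linarith)
        push_cast
        linarith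
    exact (Nat.cast_le.2 h2).trans h6
  refine h5.trans ?_
  have h7 : Real.exp (w + τ) - Real.exp (w - τ) = Real.exp w * (Real.exp τ - Real.exp (-τ)) := by
    rw [sub_eq_add_neg w τ, Real.exp_add, Real.exp_add]
    ring
  have h8 : Real.exp τ ≤ 1 + 2 * τ := by
    have := Real.abs_exp_sub_one_le (x := τ) (by rw [abs_of_nonneg hτ]; exact hτ1)
    rw [abs_of_nonneg hτ] at this
    linarith [le_abs_self (Real.exp τ - 1)]
  have h9 : 1 - τ ≤ Real.exp (-τ) := by
    have := Real.add_one_le_exp (-τ)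
    linarith
  rw [h7]
  have h10 : Real.exp w * (Real.exp τ - Real.exp (-τ)) ≤ Real.exp w * (6 * τ) :=
    mul_le_mul_of_nonneg_left (by linarith) (Real.exp_pos _).le
  linarith

end Pool.Agent.Run7.h684.E2
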