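import Pool.Agent.Run7.h684.E2.B0
import Pool.Agent.Q95.KS.Tup
import Pool.Agent.H398R2.BA1

/-!
Project E2 (helper684): the mass of the weights.
-/

set_option autoImplicit false

namespace Pool.Agent.Run7.h684.E2

open Finset Pool.Agent.H376R2.MR Pool.Agent.Q240.KS Pool.Agent.Q95.KS

/-- coefficients of the von Mangoldt polynomial: bound by a power of the number of divisors -/
theorem aY_div {Y : ℝ} (hY : 10 ≤ Y) {n : ℕ} (hn : 1 ≤ n) :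
    |aY Y n| ≤ 31 * (41 * Y) ^ 10 * (3 * Y) ^ 10 * ((n.divisors.card : ℝ) ^ 10 / n) := by
  have hnpos : (0 : ℝ) < n := by exact_mod_cast hn
  by_cases hfar : 3 / 2 < |Real.log n - Y|
  · rw [aY_zero hfar, abs_zero]
    positivity
  · have hlog := (abs_le.mp (not_lt.mp hfar)).2
    have hln : 0 ≤ Real.log (n : ℝ) := Real.log_natCast_nonneg n
    have hT : ∀ d ∈ DY Y, |(ed d : ℝ) * TT (zY Y) d n| ≤
        31 * ((3 * Y) ^ 10 * (n.divisors.card : ℝ) ^ 10 / n) := by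
      intro d _
      rw [abs_mul]
      apply mul_le_mul (ed_bound d) _ (abs_nonneg _) (by norm_num)
      refine (TT_bound (zY Y) d (by omega)).trans ?_
      apply div_le_div_of_nonneg_right _ hnpos.le
      apply mul_le_mul_of_nonneg_right _ (by positivity)
      apply pow_le_pow_left₀ (by positivity)
      linarith
    have hR : ((⌊20 * (Y + 1)⌋₊ + 1 : ℕ) : ℝ) ≤ 41 * Y := by
      push_cast
      have := Nat.floor_le (show 0 ≤ 20 * (Y + 1) by linarith)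
      linarith
    have hcard : ((DY Y).card : ℝ) ≤ (41 * Y) ^ 10 :=
      (DY_card Y).trans (pow_le_pow_left₀ (Nat.cast_nonneg _) hR 10)
    calc |aY Y n| ≤ ∑ d ∈ DY Y, |(ed d : ℝ) * TT (zY Y) d n| := abs_sum_le_sum_abs _ _
      _ ≤ ∑ d ∈ DY Y, 31 * ((3 * Y) ^ 10 * (n.divisors.card : ℝ) ^ 10 / n) := sum_le_sum hT
      _ = ((DY Y).card : ℝ) * (31 * ((3 * Y) ^ 10 * (n.divisors.card : ℝ) ^ 10 / n)) := by
          rw [sum_const, nsmul_eq_mul]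
      _ ≤ (41 * Y) ^ 10 * (31 * ((3 * Y) ^ 10 * (n.divisors.card : ℝ) ^ 10 / n)) :=
          mul_le_mul_of_nonneg_right hcard (by positivity)
      _ = _ := by ring

theorem tau_range {Y : ℝ} (hY : 10 ≤ Y) (m : ℕ) :
    ∑ n ∈ Icc 1 ⌊Real.exp (Y + 3 / 2)⌋₊, (n.divisors.card : ℝ) ^ m / n ≤ (3 * Y) ^ (2 ^ m) := by
  refine (Pool.Agent.H398R2.BV.sum_card_pow_div m _).trans ?_
  have h0 : (1 : ℝ) ≤ ⌊Real.exp (Y + 3 / 2)⌋₊ := by
    have : 1 ≤ ⌊Real.exp (Y + 3 / 2)⌋₊ := Nat.le_floor (by push_cast; exact Real.one_le_exp (by linarith))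
    exact_mod_cast this
  have h1 : Real.log (⌊Real.exp (Y + 3 / 2)⌋₊ : ℝ) ≤ Y + 3 / 2 := by
    rw [Real.log_le_iff_le_exp (by linarith)]
    exact Nat.floor_le (Real.exp_pos _).le
  have h2 : 0 ≤ Real.log (⌊Real.exp (Y + 3 / 2)⌋₊ : ℝ) := Real.log_nonneg h0
  apply pow_le_pow_left₀ (by linarith)
  linarith

/-- the total mass of the coefficients -/
theorem aY_mass : ∃ M : ℕ, ∃ Y₀ : ℝ, 10 ≤ Y₀ ∧ ∀ Y : ℝ, Y₀ ≤ Y →
    ∑ n ∈ Icc 1 ⌊Real.exp (Y + 3 / 2)⌋₊, |aY Y n| ≤ Y ^ M := by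
  obtain ⟨q, hq⟩ : ∃ q : ℕ, q = 2 ^ 10 := ⟨_, rfl⟩
  refine ⟨q + 21, max 10 (31 * 41 ^ 10 * 3 ^ 10 * 3 ^ q), le_max_left _ _, fun Y hY => ?_⟩
  have hY10 : 10 ≤ Y := (le_max_left _ _).trans hY
  have hYK := (le_max_right _ _).trans hY
  have hY0 : 0 < Y := by linarith
  have h1 := tau_range hY10 10
  rw [← hq] at h1
  calc ∑ n ∈ Icc 1 ⌊Real.exp (Y + 3 / 2)⌋₊, |aY Y n|
      ≤ ∑ n ∈ Icc 1 ⌊Real.exp (Y + 3 / 2)⌋₊, 31 * (41 * Y) ^ 10 * (3 * Y) ^ 10 *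
          ((n.divisors.card : ℝ) ^ 10 / n) :=
        sum_le_sum fun n hn => aY_div hY10 (mem_Icc.1 hn).1
    _ = 31 * (41 * Y) ^ 10 * (3 * Y) ^ 10 *
          ∑ n ∈ Icc 1 ⌊Real.exp (Y + 3 / 2)⌋₊, (n.divisors.card : ℝ) ^ 10 / n := by rw [mul_sum]
    _ ≤ 31 * (41 * Y) ^ 10 * (3 * Y) ^ 10 * (3 * Y) ^ q := mul_le_mul_of_nonneg_left h1 (by positivity)
    _ = (31 * 41 ^ 10 * 3 ^ 10 * 3 ^ q) * Y ^ (q + 20) := by ring
    _ ≤ Y * Y ^ (q + 20) := mul_le_mul_of_nonneg_right hYK (by positivity)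
    _ = Y ^ (q + 21) := by ring

end Pool.Agent.Run7.h684.E2
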