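import Pool.Agent.Run7.h684.E2.B0
import Pool.Agent.H376R2.MR.Mom

/-!
Project E2 (helper684): moments over sets of primes.
-/

set_option autoImplicit false

namespace Pool.Agent.Run7.h684.E2

open Finset Pool.Agent.H376R2.MR

theorem PS_pow {H r : ℕ} {s : Finset ℕ} (hs : s ⊆ cell H r) (ℓ : ℕ) (k : ℤ) :
    PS s k ^ ℓ = DP ((Fintype.piFinset (fun _ : Fin ℓ => s)).image (fun p => ∏ i, p i))
      (fun n => (ge s ℓ n : ℂ) / (n : ℂ)) k := by
  have h0 : PS s k ^ ℓ = ∑ p ∈ Fintype.piFinset (fun _ : Fin ℓ => s),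
      ch k (Real.log ((∏ i, p i : ℕ) : ℝ)) / ((∏ i, p i : ℕ) : ℂ) := by
    unfold PS
    rw [Finset.sum_pow']
    apply Finset.sum_congr rfl
    intro p hp
    rw [Fintype.mem_piFinset] at hp
    exact mom_ch_prod k p fun i => mom_cell_pos (hs (hp i))
  rw [h0]
  unfold DP
  rw [← Finset.sum_fiberwise_of_maps_to (g := fun p : Fin ℓ → ℕ => ∏ i, p i)
    (fun p hp => Finset.mem_image_of_mem _ hp)]
  apply Finset.sum_congr rfl
  intro n _
  unfold ge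
  rw [Finset.sum_congr rfl (g := fun _ => ch k (Real.log n) / (n : ℂ))]
  · rw [Finset.sum_const, nsmul_eq_mul]
    ring
  · intro p hp
    rw [Finset.mem_filter] at hp
    rw [hp.2]

theorem ge_mono {s t : Finset ℕ} (h : s ⊆ t) (ℓ n : ℕ) : ge s ℓ n ≤ ge t ℓ n := by
  unfold ge
  apply card_le_card
  apply filter_subset_filter
  exact Fintype.piFinset_subset _ _ fun _ => h

theorem mom_S : ∃ C : ℝ, 0 < C ∧ ∀ (H r ℓ K : ℕ) (s : Finset ℕ), s ⊆ cell H r → 1 ≤ H → 1 ≤ K →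
    (K : ℝ) ≤ Real.exp ((r : ℝ) * ℓ / H) →
    ∑ k ∈ FK K, ‖PS s k‖ ^ (2 * ℓ) ≤ C * (1 + (ℓ : ℝ) / H) * 2 ^ ℓ * (ℓ.factorial : ℝ) := by
  obtain ⟨C, hC, hmv⟩ := mv
  refine ⟨2 * C, by positivity, ?_⟩
  intro H r ℓ K s hs hH hK hKe
  set t := (Fintype.piFinset (fun _ : Fin ℓ => s)).image (fun p => ∏ i, p i) with ht
  set N₁ : ℝ := Real.exp ((r : ℝ) * ℓ / H) with hN1
  set N₂ : ℝ := Real.exp (((r : ℝ) + 1) * ℓ / H) with hN2
  have hHpos : (0 : ℝ) < H := by exact_mod_cast hH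
  have h1 : (1 : ℝ) ≤ N₁ := Real.one_le_exp (by positivity)
  have h12 : N₁ ≤ N₂ := by
    apply Real.exp_le_exp.2
    gcongr
    linarith
  have hsub : ∀ p ∈ Fintype.piFinset (fun _ : Fin ℓ => s), p ∈ Fintype.piFinset (fun _ : Fin ℓ => cell H r) :=
    fun p hp => Fintype.piFinset_subset _ _ (fun _ => hs) hp
  have hmem : ∀ n ∈ t, N₁ ≤ (n : ℝ) ∧ (n : ℝ) ≤ N₂ := by
    intro n hn
    rw [ht, Finset.mem_image] at hn
    obtain ⟨p, hp, rfl⟩ := hn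
    have hpos : (0 : ℝ) < ((∏ i, p i : ℕ) : ℝ) := by exact_mod_cast mom_prod_pos (hsub p hp)
    have := mom_prod_log (hsub p hp)
    constructor
    · rw [hN1, ← Real.le_log_iff_exp_le hpos]
      exact this.1
    · rw [hN2, ← Real.log_le_iff_le_exp hpos]
      exact this.2
  have hlog : Real.log (N₂ / N₁) = ℓ / H := by
    rw [hN1, hN2, ← Real.exp_sub, Real.log_exp]
    ring
  have hm := hmv t (fun n => (ge s ℓ n : ℂ) / (n : ℂ)) N₁ N₂ K h1 h12 hmem hK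
  rw [hlog] at hm
  calc ∑ k ∈ FK K, ‖PS s k‖ ^ (2 * ℓ) = ∑ k ∈ FK K, ‖DP t (fun n => (ge s ℓ n : ℂ) / (n : ℂ)) k‖ ^ 2 := by
        apply Finset.sum_congr rfl
        intro k _
        rw [← PS_pow hs, norm_pow, ← pow_mul, mul_comm]
    _ ≤ _ := hm
    _ ≤ C * (1 + (ℓ : ℝ) / H) * ∑ n ∈ t, 2 * ((ge (cell H r) ℓ n : ℝ) ^ 2 / n) := by
        apply mul_le_mul_of_nonneg_left _ (by positivity)
        apply Finset.sum_le_sum
        intro n hn
        have hn1 := (hmem n hn).1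
        have hnpos : (0 : ℝ) < n := by linarith
        have hKn : (K : ℝ) ≤ n := hKe.trans hn1
        rw [norm_div, Complex.norm_natCast, Complex.norm_natCast]
        have hge : (ge s ℓ n : ℝ) ≤ ge (cell H r) ℓ n := by exact_mod_cast ge_mono hs ℓ n
        calc ((ge s ℓ n : ℝ) / n) ^ 2 * ((n : ℝ) + K)
            ≤ ((ge (cell H r) ℓ n : ℝ) / n) ^ 2 * ((n : ℝ) + n) := by gcongr
          _ = 2 * ((ge (cell H r) ℓ n : ℝ) ^ 2 / n) := by
              field_simp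
              ring
    _ = C * (1 + (ℓ : ℝ) / H) * (2 * ∑ n ∈ t, ((ge (cell H r) ℓ n : ℝ) ^ 2 / n)) := by
        rw [← Finset.mul_sum]
    _ ≤ C * (1 + (ℓ : ℝ) / H) * (2 * ((ℓ.factorial : ℝ) * 2 ^ ℓ)) := by
        have := sum_ge_sq H r ℓ hH t
        gcongr
    _ = 2 * C * (1 + (ℓ : ℝ) / H) * 2 ^ ℓ * (ℓ.factorial : ℝ) := by ring

/-- few large values -/
theorem cnt_S {ε : ℝ} (hε : 0 < ε) (hε1 : ε ≤ 1) : ∃ Y₀ : ℝ, ∀ Y : ℝ, Y₀ ≤ Y → ∀ (r K : ℕ) (s : Finset ℕ),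
    8 / ε * Real.log Y ≤ (r : ℝ) / 100 → (r : ℝ) / 100 ≤ Y → s ⊆ cell 100 r → 1 ≤ K → (K : ℝ) ≤ Real.exp Y →
    (((FK K).filter (fun k => Real.exp (-(ε / 16 * ((r : ℝ) / 100))) < ‖PS s k‖)).card : ℝ) ≤
      Real.exp (ε * Y) := by
  classical
  obtain ⟨C, hC, hmom⟩ := mom_S
  obtain ⟨Y₁, hY₁⟩ := poly_le_exp (2 * C) 3 (show 0 < ε / 2 by positivity)
  refine ⟨max Y₁ 10, fun Y hY r K s hr1 hr2 hs hK hKY => ?_⟩
  have hYY := hY₁ Y ((le_max_left _ _).trans hY)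
  have hY10 : 10 ≤ Y := (le_max_right _ _).trans hY
  have hY0 : 0 < Y := by linarith
  have hlog1 : 1 ≤ Real.log Y := by
    rw [Real.le_log_iff_exp_le hY0]
    linarith [Real.exp_one_lt_d9]
  have h8 : 8 ≤ 8 / ε := by
    rw [le_div_iff₀ hε]
    linarith
  have hr8 : 8 ≤ (r : ℝ) / 100 := by nlinarith
  have hr0 : 0 < (r : ℝ) / 100 := by linarith
  set ρ : ℝ := (r : ℝ) / 100 with hρ
  set ℓ : ℕ := ⌈Y / ρ⌉₊ with hℓ
  have hℓ1 : Y / ρ ≤ ℓ := Nat.le_ceil _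
  have hℓ2 : (ℓ : ℝ) < Y / ρ + 1 := Nat.ceil_lt_add_one (by positivity)
  have hℓY : (ℓ : ℝ) ≤ Y := by
    have : Y / ρ ≤ Y / 8 := div_le_div_of_nonneg_left hY0.le (by norm_num) hr8
    linarith
  have hρℓ1 : Y ≤ ρ * ℓ := by
    rw [div_le_iff₀ hr0] at hℓ1
    linarith
  have hρℓ2 : ρ * ℓ ≤ 2 * Y := by
    have h1 : ρ * ℓ ≤ ρ * (Y / ρ + 1) := mul_le_mul_of_nonneg_left hℓ2.le hr0.le
    have h2 : ρ * (Y / ρ + 1) = Y + ρ := by field_simp
    linarith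
  have hKe : (K : ℝ) ≤ Real.exp ((r : ℝ) * ℓ / (100 : ℕ)) := by
    refine hKY.trans (Real.exp_le_exp.2 ?_)
    push_cast
    calc Y ≤ ρ * ℓ := hρℓ1
      _ = _ := by rw [hρ]; ring
  have hm := hmom 100 r ℓ K s hs (by norm_num) hK hKe
  set L := (FK K).filter (fun k => Real.exp (-(ε / 16 * ρ)) < ‖PS s k‖) with hL
  have h1 : (L.card : ℝ) * Real.exp (-(ε / 16 * ρ)) ^ (2 * ℓ) ≤ ∑ k ∈ FK K, ‖PS s k‖ ^ (2 * ℓ) := by
    calc (L.card : ℝ) * Real.exp (-(ε / 16 * ρ)) ^ (2 * ℓ) = ∑ _k ∈ L, Real.exp (-(ε / 16 * ρ)) ^ (2 * ℓ) := by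
          rw [Finset.sum_const, nsmul_eq_mul]
      _ ≤ ∑ k ∈ L, ‖PS s k‖ ^ (2 * ℓ) := by
          apply Finset.sum_le_sum
          intro k hk
          rw [hL, mem_filter] at hk
          exact pow_le_pow_left₀ (Real.exp_pos _).le hk.2.le _
      _ ≤ _ := Finset.sum_le_sum_of_subset_of_nonneg (filter_subset _ _) fun _ _ _ => by positivity
  have h2 : Real.exp (-(ε / 16 * ρ)) ^ (2 * ℓ) * Real.exp (ε / 4 * Y) ≥ 1 := by
    rw [← Real.exp_nat_mul, ← Real.exp_add]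
    apply Real.one_le_exp
    push_cast
    nlinarith
  have h3 : (2 : ℝ) ^ ℓ * (ℓ.factorial : ℝ) ≤ Y ^ 2 * Real.exp (ε / 4 * Y) := by
    have hf : (ℓ.factorial : ℝ) ≤ (ℓ : ℝ) ^ ℓ := by exact_mod_cast Nat.factorial_le_pow ℓ
    have h4 : (2 : ℝ) ^ ℓ * (ℓ.factorial : ℝ) ≤ (2 * Y) ^ ℓ := by
      rw [mul_pow]
      apply mul_le_mul_of_nonneg_left _ (by positivity)
      exact hf.trans (pow_le_pow_left₀ (Nat.cast_nonneg _) hℓY _)
    refine h4.trans ?_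
    have h5 : (2 * Y) ^ ℓ = Real.exp (ℓ * Real.log (2 * Y)) := by
      rw [← Real.rpow_natCast, Real.rpow_def_of_pos (by positivity), mul_comm]
    have h6 : Real.log (2 * Y) ≤ 2 * Real.log Y := by
      rw [Real.log_mul (by norm_num) hY0.ne']
      have : Real.log 2 ≤ Real.log Y := Real.log_le_log (by norm_num) (by linarith)
      linarith
    have h7 : Y ^ 2 = Real.exp (2 * Real.log Y) := by
      rw [← Real.rpow_natCast, Real.rpow_def_of_pos hY0]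
      congr 1
      push_cast
      ring
    rw [h5, h7, ← Real.exp_add]
    apply Real.exp_le_exp.2
    have h8 : (ℓ : ℝ) * Real.log (2 * Y) ≤ (Y / ρ + 1) * (2 * Real.log Y) :=
      mul_le_mul hℓ2.le h6 (Real.log_nonneg (by linarith)) (by positivity)
    have h9 : Y / ρ * (2 * Real.log Y) ≤ ε / 4 * Y := by
      rw [div_mul_eq_mul_div, div_le_iff₀ hr0]
      have h10 : 2 * Real.log Y ≤ ε / 4 * ρ := by
        have h11 : 8 / ε * Real.log Y * (ε / 4) ≤ ρ * (ε / 4) := mul_le_mul_of_nonneg_right hr1 (by positivity)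
        have h12 : 8 / ε * Real.log Y * (ε / 4) = 2 * Real.log Y := by
          field_simp
          ring
        linarith
      nlinarith
    linarith
  have h4 : (1 : ℝ) + (ℓ : ℝ) / (100 : ℕ) ≤ 2 * Y := by
    push_cast
    linarith
  calc (L.card : ℝ) ≤ (L.card : ℝ) * (Real.exp (-(ε / 16 * ρ)) ^ (2 * ℓ) * Real.exp (ε / 4 * Y)) :=
        le_mul_of_one_le_right (Nat.cast_nonneg _) h2
    _ = (L.card : ℝ) * Real.exp (-(ε / 16 * ρ)) ^ (2 * ℓ) * Real.exp (ε / 4 * Y) := by ring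
    _ ≤ (C * (1 + (ℓ : ℝ) / (100 : ℕ)) * 2 ^ ℓ * (ℓ.factorial : ℝ)) * Real.exp (ε / 4 * Y) :=
        mul_le_mul_of_nonneg_right (h1.trans hm) (Real.exp_pos _).le
    _ = C * (1 + (ℓ : ℝ) / (100 : ℕ)) * (2 ^ ℓ * (ℓ.factorial : ℝ)) * Real.exp (ε / 4 * Y) := by ring
    _ ≤ C * (2 * Y) * (Y ^ 2 * Real.exp (ε / 4 * Y)) * Real.exp (ε / 4 * Y) := by
        apply mul_le_mul_of_nonneg_right _ (Real.exp_pos _).le
        apply mul_le_mul _ h3 (by positivity) (by positivity)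
        exact mul_le_mul_of_nonneg_left h4 hC.le
    _ = 2 * C * Y ^ 3 * Real.exp (ε / 2 * Y) := by
        have : Real.exp (ε / 2 * Y) = Real.exp (ε / 4 * Y) * Real.exp (ε / 4 * Y) := by
          rw [← Real.exp_add]
          congr 1
          ring
        rw [this]
        ring
    _ ≤ Real.exp (ε / 2 * Y) * Real.exp (ε / 2 * Y) := mul_le_mul_of_nonneg_right hYY (Real.exp_pos _).le
    _ = Real.exp (ε * Y) := by
        rw [← Real.exp_add]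
        congr 1
        ring

end Pool.Agent.Run7.h684.E2
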