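import Pool.Agent.Run7.h684.E2.Small
import Pool.Agent.Run7.h684.E2.MomS
import Pool.Agent.Run7.h684.E2.Mass
import Pool.Agent.H376R2.MR.Ls

/-!
Project E2 (helper684): mean squares.
-/

set_option autoImplicit false

namespace Pool.Agent.Run7.h684.E2

open Finset Pool.Agent.H376R2.MR Pool.Agent.Q240.KS Pool.Agent.Q95.KS

/-- the mean square -/
theorem AA_ms : ∃ M : ℕ, ∃ Y₀ : ℝ, 10 ≤ Y₀ ∧ ∀ Y : ℝ, Y₀ ≤ Y → ∀ K : ℕ, 1 ≤ K → (K : ℝ) ≤ Real.exp Y →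
    ∑ k ∈ FK K, ‖AA (zY Y) Y k‖ ^ 2 ≤ Y ^ M := by
  classical
  obtain ⟨C, hC, hmv⟩ := mv
  obtain ⟨q, hq⟩ : ∃ q : ℕ, q = 2 ^ 20 := ⟨_, rfl⟩
  obtain ⟨D, hD⟩ : ∃ D : ℝ, D = 31 * 41 ^ 10 * 3 ^ 10 := ⟨_, rfl⟩
  have hD0 : 0 < D := by rw [hD]; positivity
  refine ⟨q + 41, max 10 (C * 4 * (6 * D ^ 2 * 3 ^ q)), le_max_left _ _, fun Y hY K hK hKY => ?_⟩
  have hY10 : 10 ≤ Y := (le_max_left _ _).trans hY
  have hYK := (le_max_right _ _).trans hY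
  have hY0 : 0 < Y := by linarith
  set s := (Icc 1 ⌊Real.exp (Y + 3 / 2)⌋₊).filter (fun n : ℕ => Y - 3 / 2 ≤ Real.log n) with hs
  have hDP : ∀ k : ℤ, AA (zY Y) Y k = DP s (fun n => ((aY Y n : ℝ) : ℂ)) k := by
    intro k
    rw [AA_eq]
    unfold DP
    rw [hs, sum_filter_of_ne]
    intro n hn h
    by_contra hc
    apply h
    have : aY Y n = 0 := by
      apply aY_zero
      rw [abs_sub_comm, lt_abs]
      left
      linarith
    simp only [this]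
    simp
  have hsm : ∀ n ∈ s, Real.exp (Y - 3 / 2) ≤ (n : ℝ) ∧ (n : ℝ) ≤ Real.exp (Y + 3 / 2) := by
    intro n hn
    rw [hs, mem_filter, mem_Icc] at hn
    have hn0 : (0 : ℝ) < n := by exact_mod_cast hn.1.1
    refine ⟨(Real.le_log_iff_exp_le hn0).1 hn.2, ?_⟩
    exact (Nat.cast_le.2 hn.1.2).trans (Nat.floor_le (Real.exp_pos _).le)
  have hm := hmv s (fun n => ((aY Y n : ℝ) : ℂ)) (Real.exp (Y - 3 / 2)) (Real.exp (Y + 3 / 2)) K
    (Real.one_le_exp (by linarith)) (Real.exp_le_exp.2 (by linarith)) hsm hK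
  have hlog : Real.log (Real.exp (Y + 3 / 2) / Real.exp (Y - 3 / 2)) = 3 := by
    rw [← Real.exp_sub, Real.log_exp]
    ring
  rw [hlog] at hm
  have hexp32 : Real.exp (3 / 2) ≤ 5 := by
    have h1 : Real.exp (3 / 2) = Real.exp 1 * Real.exp (1 / 2) := by
      rw [← Real.exp_add]
      norm_num
    have h2 : Real.exp (1 / 2) ≤ 1.7 := by
      have h3 : Real.exp (1 / 2) ^ 2 = Real.exp 1 := by
        rw [← Real.exp_nat_mul]
        norm_num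
      have h4 := Real.exp_one_lt_d9
      nlinarith [Real.exp_pos (1 / 2)]
    have h4 := Real.exp_one_lt_d9
    rw [h1]
    nlinarith [Real.exp_pos (1 / 2), Real.exp_pos 1]
  have hterm : ∀ n ∈ s, ‖((aY Y n : ℝ) : ℂ)‖ ^ 2 * ((n : ℝ) + K) ≤
      6 * D ^ 2 * Y ^ 40 * ((n.divisors.card : ℝ) ^ 20 / n) := by
    intro n hn
    have hn1 : 1 ≤ n := by
      rw [hs, mem_filter, mem_Icc] at hn
      exact hn.1.1
    have hn0 : (0 : ℝ) < n := by exact_mod_cast hn1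
    have h1 := aY_div hY10 hn1
    have h2 : (K : ℝ) ≤ 5 * n := by
      refine hKY.trans ?_
      have h3 := (hsm n hn).1
      have h4 : Real.exp Y = Real.exp (3 / 2) * Real.exp (Y - 3 / 2) := by
        rw [← Real.exp_add]
        congr 1
        ring
      rw [h4]
      exact mul_le_mul hexp32 h3 (Real.exp_pos _).le (by norm_num)
    rw [Complex.norm_real, Real.norm_eq_abs]
    have h3 : 31 * (41 * Y) ^ 10 * (3 * Y) ^ 10 * ((n.divisors.card : ℝ) ^ 10 / n) =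
        D * Y ^ 20 * ((n.divisors.card : ℝ) ^ 10 / n) := by
      rw [hD]
      ring
    rw [h3] at h1
    calc |aY Y n| ^ 2 * ((n : ℝ) + K) ≤ (D * Y ^ 20 * ((n.divisors.card : ℝ) ^ 10 / n)) ^ 2 * (6 * n) := by
          apply mul_le_mul (pow_le_pow_left₀ (abs_nonneg _) h1 2) (by linarith) (by positivity) (by positivity)
      _ = _ := by
          field_simp
  have htau := tau_range hY10 20
  rw [← hq] at htau
  calc ∑ k ∈ FK K, ‖AA (zY Y) Y k‖ ^ 2 = ∑ k ∈ FK K, ‖DP s (fun n => ((aY Y n : ℝ) : ℂ)) k‖ ^ 2 :=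
        sum_congr rfl fun k _ => by rw [hDP]
    _ ≤ C * (1 + 3) * ∑ n ∈ s, ‖((aY Y n : ℝ) : ℂ)‖ ^ 2 * ((n : ℝ) + K) := hm
    _ ≤ C * (1 + 3) * ∑ n ∈ s, 6 * D ^ 2 * Y ^ 40 * ((n.divisors.card : ℝ) ^ 20 / n) :=
        mul_le_mul_of_nonneg_left (sum_le_sum hterm) (by positivity)
    _ = C * 4 * (6 * D ^ 2 * Y ^ 40) * ∑ n ∈ s, (n.divisors.card : ℝ) ^ 20 / n := by
        rw [← mul_sum]
        ring
    _ ≤ C * 4 * (6 * D ^ 2 * Y ^ 40) * (3 * Y) ^ q := by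
        apply mul_le_mul_of_nonneg_left _ (by positivity)
        refine le_trans (sum_le_sum_of_subset_of_nonneg (filter_subset _ _) fun _ _ _ => by positivity) htau
    _ = (C * 4 * (6 * D ^ 2 * 3 ^ q)) * Y ^ (q + 40) := by ring
    _ ≤ Y * Y ^ (q + 40) := mul_le_mul_of_nonneg_right hYK (by positivity)
    _ = Y ^ (q + 41) := by ring

theorem card_DY {Y : ℝ} (hY : 21 ≤ Y) : ((DY Y).card : ℝ) ≤ (41 * Y) ^ 10 := by
  refine (DY_card Y).trans (pow_le_pow_left₀ (Nat.cast_nonneg _) ?_ 10)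
  push_cast
  have := Nat.floor_le (show 0 ≤ 20 * (Y + 1) by linarith)
  linarith

theorem AA_sq {Y : ℝ} (hY : 21 ≤ Y) (k : ℤ) :
    ‖AA (zY Y) Y k‖ ^ 2 ≤ (41 * Y) ^ 10 * 31 ^ 2 * ∑ d ∈ DY Y, ‖EE (zY Y) d k‖ ^ 2 := by
  have h1 : ‖AA (zY Y) Y k‖ ≤ ∑ d ∈ DY Y, 31 * ‖EE (zY Y) d k‖ := by
    unfold AA
    refine (norm_sum_le _ _).trans (sum_le_sum fun d _ => ?_)
    rw [norm_mul]
    apply mul_le_mul_of_nonneg_right _ (norm_nonneg _)
    have := ed_bound d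
    rw [Complex.norm_intCast]
    exact this
  have h2 : (∑ d ∈ DY Y, 31 * ‖EE (zY Y) d k‖) ^ 2 ≤ (DY Y).card * ∑ d ∈ DY Y, (31 * ‖EE (zY Y) d k‖) ^ 2 :=
    sq_sum_le_card_mul_sum_sq
  calc ‖AA (zY Y) Y k‖ ^ 2 ≤ (∑ d ∈ DY Y, 31 * ‖EE (zY Y) d k‖) ^ 2 :=
        pow_le_pow_left₀ (norm_nonneg _) h1 2
    _ ≤ (DY Y).card * ∑ d ∈ DY Y, (31 * ‖EE (zY Y) d k‖) ^ 2 := h2
    _ ≤ (41 * Y) ^ 10 * ∑ d ∈ DY Y, (31 * ‖EE (zY Y) d k‖) ^ 2 :=
        mul_le_mul_of_nonneg_right (card_DY hY) (sum_nonneg fun _ _ => by positivity)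
    _ = _ := by
        simp only [mul_pow]
        rw [← mul_sum]
        ring

theorem PS_le {H r : ℕ} (hH : 1 ≤ H) {s : Finset ℕ} (hs : s ⊆ cell H r) (k : ℤ) : ‖PS s k‖ ≤ 2 := by
  unfold PS
  have h1 : ‖∑ p ∈ s, ch k (Real.log p) / (p : ℂ)‖ ≤ ∑ p ∈ s, 1 / (p : ℝ) := by
    refine (norm_sum_le _ _).trans (sum_le_sum fun p _ => ?_)
    rw [norm_div, Complex.norm_natCast, ls_norm_ch]
  refine h1.trans (le_trans ?_ (mm_le H r hH))
  unfold mm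
  exact sum_le_sum_of_subset_of_nonneg hs fun _ _ _ => by positivity

/-- the mean square over the large frequencies -/
theorem ms_far : ∀ B : ℕ, ∃ C₁ : ℝ, 0 < C₁ ∧ ∃ A : ℕ, ∃ Y₀ : ℝ, 100 ≤ Y₀ ∧ ∀ Y : ℝ, Y₀ ≤ Y →
    ∀ (r K : ℕ) (s : Finset ℕ), C₁ * Real.log Y ≤ (r : ℝ) / 100 → (r : ℝ) / 100 ≤ Y → s ⊆ cell 100 r →
    1 ≤ K → (K : ℝ) ≤ Real.exp Y →
    ∑ k ∈ (FK K).filter (fun k : ℤ => Y ^ A ≤ |(k : ℝ)|), ‖PS s k‖ ^ 2 * ‖AA (zY Y) Y k‖ ^ 2 ≤ 1 / Y ^ B := by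
  classical
  intro B
  obtain ⟨ε₂, hε₂, hsmall⟩ := small_set
  obtain ⟨ε, hε, hε1, hεε⟩ : ∃ ε : ℝ, 0 < ε ∧ ε ≤ 1 ∧ ε ≤ ε₂ := ⟨min 1 ε₂, lt_min one_pos hε₂, min_le_left _ _, min_le_right _ _⟩
  obtain ⟨A, Y₁, hA⟩ := hsmall (B + 23)
  obtain ⟨Y₂, hcnt⟩ := cnt_S hε hε1
  obtain ⟨M, Y₃, hY₃, hms⟩ := AA_ms
  obtain ⟨D, hD⟩ : ∃ D : ℝ, D = 41 ^ 20 * 31 ^ 2 * 4 := ⟨_, rfl⟩
  refine ⟨8 / ε * (M + B + 1) + 8 / ε, by positivity, A,
    max (max 100 Y₁) (max (max Y₂ Y₃) (2 * D)), (le_max_left _ _).trans (le_max_left _ _), ?_⟩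
  intro Y hY r K s hr1 hr2 hs hK hKY
  have hY1 : 100 ≤ Y := ((le_max_left _ _).trans (le_max_left _ _)).trans hY
  have hY2 : Y₁ ≤ Y := ((le_max_right _ _).trans (le_max_left _ _)).trans hY
  have hY3 : Y₂ ≤ Y := (((le_max_left _ _).trans (le_max_left _ _)).trans (le_max_right _ _)).trans hY
  have hY4 : Y₃ ≤ Y := (((le_max_right _ _).trans (le_max_left _ _)).trans (le_max_right _ _)).trans hY
  have hY5 : 2 * D ≤ Y := ((le_max_right _ _).trans (le_max_right _ _)).trans hY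
  have hY0 : 0 < Y := by linarith
  have hlog : 0 ≤ Real.log Y := Real.log_nonneg (by linarith)
  have hr3 : 8 / ε * Real.log Y ≤ (r : ℝ) / 100 := by
    refine le_trans ?_ hr1
    apply mul_le_mul_of_nonneg_right _ hlog
    have : 0 ≤ 8 / ε * ((M : ℝ) + B + 1) := by positivity
    linarith
  set ρ : ℝ := (r : ℝ) / 100 with hρ
  set L := (FK K).filter (fun k : ℤ => Y ^ A ≤ |(k : ℝ)|) with hL
  set L₁ := L.filter (fun k => ‖PS s k‖ ≤ Real.exp (-(ε / 16 * ρ))) with hL₁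
  set L₂ := L.filter (fun k => ¬ ‖PS s k‖ ≤ Real.exp (-(ε / 16 * ρ))) with hL₂
  have hsplit : ∑ k ∈ L, ‖PS s k‖ ^ 2 * ‖AA (zY Y) Y k‖ ^ 2 =
      ∑ k ∈ L₁, ‖PS s k‖ ^ 2 * ‖AA (zY Y) Y k‖ ^ 2 + ∑ k ∈ L₂, ‖PS s k‖ ^ 2 * ‖AA (zY Y) Y k‖ ^ 2 :=
    (sum_filter_add_sum_filter_not L _ _).symm
  have h1 : ∑ k ∈ L₁, ‖PS s k‖ ^ 2 * ‖AA (zY Y) Y k‖ ^ 2 ≤ 1 / (2 * Y ^ B) := by
    have e1 : Real.exp (-(ε / 16 * ρ)) ^ 2 = Real.exp (-(ε / 8 * ρ)) := by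
      rw [← Real.exp_nat_mul]
      congr 1
      push_cast
      ring
    have h2 : ∑ k ∈ L₁, ‖PS s k‖ ^ 2 * ‖AA (zY Y) Y k‖ ^ 2 ≤
        ∑ k ∈ L₁, Real.exp (-(ε / 8 * ρ)) * ‖AA (zY Y) Y k‖ ^ 2 := by
      apply sum_le_sum
      intro k hk
      rw [hL₁, mem_filter] at hk
      apply mul_le_mul_of_nonneg_right _ (by positivity)
      rw [← e1]
      exact pow_le_pow_left₀ (norm_nonneg _) hk.2 2
    have h3 : ∑ k ∈ L₁, ‖AA (zY Y) Y k‖ ^ 2 ≤ Y ^ M := by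
      refine le_trans (sum_le_sum_of_subset_of_nonneg ?_ fun _ _ _ => by positivity) (hms Y hY4 K hK hKY)
      intro k hk
      rw [hL₁, mem_filter, hL, mem_filter] at hk
      exact hk.1.1
    have h4 : Real.exp (-(ε / 8 * ρ)) ≤ 1 / Y ^ (M + B + 1) := by
      have h5 : ((M : ℝ) + B + 1) * Real.log Y ≤ ε / 8 * ρ := by
        have h6 : (8 / ε * ((M : ℝ) + B + 1)) * Real.log Y ≤ ρ := by
          refine le_trans ?_ hr1
          apply mul_le_mul_of_nonneg_right _ hlog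
          have : 0 ≤ 8 / ε := by positivity
          linarith
        have h7 : ε / 8 * ((8 / ε * ((M : ℝ) + B + 1)) * Real.log Y) ≤ ε / 8 * ρ :=
          mul_le_mul_of_nonneg_left h6 (by positivity)
        have h8 : ε / 8 * ((8 / ε * ((M : ℝ) + B + 1)) * Real.log Y) = ((M : ℝ) + B + 1) * Real.log Y := by
          field_simp
        linarith
      have h9 : Y ^ (M + B + 1) = Real.exp (((M : ℝ) + B + 1) * Real.log Y) := by
        rw [← Real.rpow_natCast, Real.rpow_def_of_pos hY0]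
        congr 1
        push_cast
        ring
      rw [h9, one_div, ← Real.exp_neg]
      exact Real.exp_le_exp.2 (neg_le_neg h5)
    refine h2.trans ?_
    rw [← mul_sum]
    calc Real.exp (-(ε / 8 * ρ)) * ∑ k ∈ L₁, ‖AA (zY Y) Y k‖ ^ 2 ≤ 1 / Y ^ (M + B + 1) * Y ^ M :=
          mul_le_mul h4 h3 (sum_nonneg fun _ _ => by positivity) (by positivity)
      _ = 1 / (Y * Y ^ B) := by
          have : Y ^ (M + B + 1) = Y ^ M * (Y * Y ^ B) := by ring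
          rw [this]
          field_simp
      _ ≤ 1 / (2 * Y ^ B) := by
          apply one_div_le_one_div_of_le (by positivity)
          exact mul_le_mul_of_nonneg_right (by linarith) (by positivity)
  have h2 : ∑ k ∈ L₂, ‖PS s k‖ ^ 2 * ‖AA (zY Y) Y k‖ ^ 2 ≤ 1 / (2 * Y ^ B) := by
    have hcard : (L₂.card : ℝ) ≤ Real.exp (ε₂ * Y) := by
      have h3 := hcnt Y hY3 r K s hr3 hr2 hs hK hKY
      have h4 : L₂ ⊆ (FK K).filter (fun k => Real.exp (-(ε / 16 * ρ)) < ‖PS s k‖) := by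
        intro k hk
        rw [hL₂, mem_filter, hL, mem_filter] at hk
        rw [mem_filter]
        exact ⟨hk.1.1, not_le.1 hk.2⟩
      calc (L₂.card : ℝ) ≤ _ := Nat.cast_le.2 (card_le_card h4)
        _ ≤ Real.exp (ε * Y) := h3
        _ ≤ _ := Real.exp_le_exp.2 (mul_le_mul_of_nonneg_right hεε hY0.le)
    have hrange : ∀ k ∈ L₂, Y ^ A ≤ |(k : ℝ)| ∧ |(k : ℝ)| ≤ Real.exp Y := by
      intro k hk
      rw [hL₂, mem_filter, hL, mem_filter] at hk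
      refine ⟨hk.1.2, ?_⟩
      have h5 := hk.1.1
      unfold FK at h5
      rw [mem_Ioo] at h5
      have h6 : |(k : ℝ)| ≤ (K : ℝ) := by
        have : |k| < (K : ℤ) := abs_lt.2 h5
        exact_mod_cast this.le
      exact h6.trans hKY
    have h3 : ∀ d ∈ DY Y, ∑ k ∈ L₂, ‖EE (zY Y) d k‖ ^ 2 ≤ 1 / Y ^ (B + 23) :=
      fun d hd => hA Y hY2 d hd L₂ hrange hcard
    calc ∑ k ∈ L₂, ‖PS s k‖ ^ 2 * ‖AA (zY Y) Y k‖ ^ 2
        ≤ ∑ k ∈ L₂, 4 * ((41 * Y) ^ 10 * 31 ^ 2 * ∑ d ∈ DY Y, ‖EE (zY Y) d k‖ ^ 2) := by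
          apply sum_le_sum
          intro k _
          apply mul_le_mul _ (AA_sq (by linarith) k) (by positivity) (by norm_num)
          have := PS_le (by norm_num : 1 ≤ 100) hs k
          nlinarith [norm_nonneg (PS s k)]
      _ = 4 * ((41 * Y) ^ 10 * 31 ^ 2) * ∑ d ∈ DY Y, ∑ k ∈ L₂, ‖EE (zY Y) d k‖ ^ 2 := by
          rw [sum_comm, mul_sum]
          apply sum_congr rfl
          intro k _
          ring
      _ ≤ 4 * ((41 * Y) ^ 10 * 31 ^ 2) * ((DY Y).card * (1 / Y ^ (B + 23))) := by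
          apply mul_le_mul_of_nonneg_left _ (by positivity)
          rw [← nsmul_eq_mul]
          exact sum_le_card_nsmul _ _ _ h3
      _ ≤ 4 * ((41 * Y) ^ 10 * 31 ^ 2) * ((41 * Y) ^ 10 * (1 / Y ^ (B + 23))) := by
          apply mul_le_mul_of_nonneg_left _ (by positivity)
          exact mul_le_mul_of_nonneg_right (card_DY (by linarith)) (by positivity)
      _ = D * Y ^ 20 / Y ^ (B + 23) := by
          rw [hD]
          ring
      _ ≤ 1 / (2 * Y ^ B) := by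
          rw [div_le_div_iff₀ (by positivity) (by positivity)]
          have e : Y ^ (B + 23) = Y * (Y ^ 20 * Y ^ B) * Y ^ 2 := by ring
          rw [e]
          have h6 : D * Y ^ 20 * (2 * Y ^ B) = (2 * D) * (Y ^ 20 * Y ^ B) := by ring
          rw [h6, one_mul]
          have h7 : (1 : ℝ) ≤ Y ^ 2 := by nlinarith
          calc (2 * D) * (Y ^ 20 * Y ^ B) ≤ Y * (Y ^ 20 * Y ^ B) :=
                mul_le_mul_of_nonneg_right hY5 (by positivity)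
            _ ≤ Y * (Y ^ 20 * Y ^ B) * Y ^ 2 := le_mul_of_one_le_right (by positivity) h7
  rw [hsplit]
  calc _ ≤ 1 / (2 * Y ^ B) + 1 / (2 * Y ^ B) := add_le_add h1 h2
    _ = 1 / Y ^ B := by field_simp; norm_num

end Pool.Agent.Run7.h684.E2
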