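import Pool.Agent.Run7.h684.E2.K0
import Pool.Agent.H426R3.CL.Key

/-!
Project E2 (helper684): one point.
-/

set_option autoImplicit false

namespace Pool.Agent.Run7.h684.E2

open Finset MeasureTheory Pool.Agent.H376R2.MR

theorem one_pt {K : ℕ} (hK : 1 ≤ K) {v Z ρ β : ℝ} (hv : |Z - v| ≤ 1) (hρ : 0 < ρ) (hρ1 : ρ ≤ 1)
    (g : ℝ → ℝ) (hgm : Measurable g) (hg : ∀ t, |g t| ≤ 1) (hβ : |β| ≤ 1) :
    |(∫ u in (Z - 2)..(Z + 2), g u * Fj K (u - v)) - 2 * Real.pi * β| ≤
      K * (∫ u in (-ρ)..ρ, |g (v + u) - β|) + 4 * Real.pi ^ 3 / (K * ρ) := by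
  have hpi3 := Real.pi_gt_three
  have hK0 : (0 : ℝ) < K := by exact_mod_cast hK
  obtain ⟨hx1, hx2⟩ := abs_le.1 hv
  set b : ℝ → ℝ := fun u => g (v + u) with hb
  have hbm : Measurable b := hgm.comp (measurable_const.add measurable_id)
  have hb1 : ∀ u, |b u| ≤ 1 := fun u => hg _
  set F : ℝ → ℝ := fun u => (2 * Real.pi ^ 2 / K) * (ρ ^ 2 + u ^ 2)⁻¹ with hF
  have hF0 : ∀ u, 0 ≤ F u := fun u => by
    simp only [hF]
    positivity
  have hFc : Continuous F := by
    simp only [hF]
    apply Continuous.mul continuous_const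
    apply Continuous.inv₀ (by fun_prop)
    intro u
    positivity
  have hFj0 : ∀ u, 0 ≤ Fj K u := fun u => Fj_nonneg K u
  have hFjc := Fj_cont K
  set p : ℝ := Z - 2 - v with hp
  set q : ℝ := Z + 2 - v with hq
  -- change of variable
  have hcv : (∫ u in (Z - 2)..(Z + 2), g u * Fj K (u - v)) = ∫ u in p..q, b u * Fj K u := by
    have h := intervalIntegral.integral_comp_sub_right (fun u => b u * Fj K u) v (a := Z - 2) (b := Z + 2)
    rw [← h]
    apply intervalIntegral.integral_congr
    intro u _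
    simp only [hb]
    rw [show v + (u - v) = u by ring]
  have hFi : ∀ x y : ℝ, IntervalIntegrable F volume x y := fun x y => hFc.intervalIntegrable _ _
  have hFji : ∀ x y : ℝ, IntervalIntegrable (fun u => Fj K u) volume x y := fun x y =>
    hFjc.intervalIntegrable _ _
  have hbi : ∀ x y : ℝ, IntervalIntegrable (fun u => b u * Fj K u) volume x y := fun x y =>
    G_int hbm hb1 hFjc x y
  have hdi : ∀ x y : ℝ, IntervalIntegrable (fun u => (b u - β) * Fj K u) volume x y := by
    intro x y
    have := (hbi x y).sub ((hFji x y).const_mul β)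
    refine this.congr ?_
    intro u _
    simp only
    ring
  have hai : ∀ x y : ℝ, IntervalIntegrable (fun u => |b u - β|) volume x y := by
    intro x y
    exact ((G_int1 hbm hb1 x y).sub intervalIntegrable_const).abs
  have h2pi := Pool.Agent.H426R3.CL.Fj_int hK
  have hsplit : (∫ u in (-Real.pi)..p, Fj K u) + (∫ u in p..q, Fj K u) +
      (∫ u in q..Real.pi, Fj K u) = 2 * Real.pi := by
    rw [intervalIntegral.integral_add_adjacent_intervals (hFji _ _) (hFji _ _),
      intervalIntegral.integral_add_adjacent_intervals (hFji _ _) (hFji _ _), h2pi]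
  have hsplitF : (∫ u in (-Real.pi)..p, F u) + (∫ u in p..(-ρ), F u) + (∫ u in (-ρ)..ρ, F u) +
      (∫ u in ρ..q, F u) + (∫ u in q..Real.pi, F u) = ∫ u in (-Real.pi)..Real.pi, F u := by
    rw [intervalIntegral.integral_add_adjacent_intervals (hFi _ _) (hFi _ _),
      intervalIntegral.integral_add_adjacent_intervals (hFi _ _) (hFi _ _),
      intervalIntegral.integral_add_adjacent_intervals (hFi _ _) (hFi _ _),
      intervalIntegral.integral_add_adjacent_intervals (hFi _ _) (hFi _ _)]
  have hFint : ∫ u in (-Real.pi)..Real.pi, F u ≤ 2 * Real.pi ^ 3 / (K * ρ) := by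
    simp only [hF]
    rw [intervalIntegral.integral_const_mul]
    calc 2 * Real.pi ^ 2 / K * ∫ u in (-Real.pi)..Real.pi, (ρ ^ 2 + u ^ 2)⁻¹
        ≤ 2 * Real.pi ^ 2 / K * (Real.pi / ρ) := by
          apply mul_le_mul_of_nonneg_left (Pool.Agent.H426R3.CL.dom_int hρ)
          positivity
      _ = 2 * Real.pi ^ 3 / (K * ρ) := by field_simp
  -- outer parts
  have ho1 : (∫ u in (-Real.pi)..p, Fj K u) ≤ ∫ u in (-Real.pi)..p, F u := by
    apply intervalIntegral.integral_mono_on (by linarith) (hFji _ _) (hFi _ _)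
    intro u hu
    have h1 : |u| = -u := abs_of_nonpos (by linarith [hu.2])
    exact Pool.Agent.H426R3.CL.Fj_dom hK hρ (by rw [h1]; linarith [hu.2]) (by rw [h1]; linarith [hu.1])
  have ho2 : (∫ u in q..Real.pi, Fj K u) ≤ ∫ u in q..Real.pi, F u := by
    apply intervalIntegral.integral_mono_on (by linarith) (hFji _ _) (hFi _ _)
    intro u hu
    have h1 : |u| = u := abs_of_nonneg (by linarith [hu.1])
    exact Pool.Agent.H426R3.CL.Fj_dom hK hρ (by rw [h1]; linarith [hu.1]) (by rw [h1]; linarith [hu.2])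
  have ho1' : 0 ≤ ∫ u in (-Real.pi)..p, Fj K u :=
    intervalIntegral.integral_nonneg (by linarith) (fun u _ => hFj0 u)
  have ho2' : 0 ≤ ∫ u in q..Real.pi, Fj K u :=
    intervalIntegral.integral_nonneg (by linarith) (fun u _ => hFj0 u)
  have hm1 : 0 ≤ ∫ u in p..(-ρ), F u :=
    intervalIntegral.integral_nonneg (by linarith) (fun u _ => hF0 u)
  have hm2 : 0 ≤ ∫ u in (-ρ)..ρ, F u :=
    intervalIntegral.integral_nonneg (by linarith) (fun u _ => hF0 u)
  have hm3 : 0 ≤ ∫ u in ρ..q, F u :=
    intervalIntegral.integral_nonneg (by linarith) (fun u _ => hF0 u)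
  have h2β : ∀ u, |b u - β| ≤ 2 := by
    intro u
    refine (abs_sub _ _).trans ?_
    have := hb1 u
    linarith
  -- the inner part
  have hi1 : |∫ u in p..(-ρ), (b u - β) * Fj K u| ≤ 2 * ∫ u in p..(-ρ), F u := by
    rw [← intervalIntegral.integral_const_mul]
    have h2 := intervalIntegral.norm_integral_le_of_norm_le (μ := volume)
      (f := fun u => (b u - β) * Fj K u) (g := fun u => 2 * F u)
      (a := p) (b := -ρ) (by linarith) (by
        filter_upwards with u hu
        rw [Real.norm_eq_abs, abs_mul, abs_of_nonneg (hFj0 u)]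
        have e : |u| = -u := abs_of_nonpos (by linarith [hu.2])
        exact mul_le_mul (h2β u) (Pool.Agent.H426R3.CL.Fj_dom hK hρ (by rw [e]; linarith [hu.2])
          (by rw [e]; linarith [hu.1])) (hFj0 u) (by norm_num)) ((hFi _ _).const_mul 2)
    rw [Real.norm_eq_abs] at h2
    exact h2
  have hi3 : |∫ u in ρ..q, (b u - β) * Fj K u| ≤ 2 * ∫ u in ρ..q, F u := by
    rw [← intervalIntegral.integral_const_mul]
    have h2 := intervalIntegral.norm_integral_le_of_norm_le (μ := volume)
      (f := fun u => (b u - β) * Fj K u) (g := fun u => 2 * F u)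
      (a := ρ) (b := q) (by linarith) (by
        filter_upwards with u hu
        rw [Real.norm_eq_abs, abs_mul, abs_of_nonneg (hFj0 u)]
        have e : |u| = u := abs_of_nonneg (by linarith [hu.1])
        exact mul_le_mul (h2β u) (Pool.Agent.H426R3.CL.Fj_dom hK hρ (by rw [e]; linarith [hu.1])
          (by rw [e]; linarith [hu.2])) (hFj0 u) (by norm_num)) ((hFi _ _).const_mul 2)
    rw [Real.norm_eq_abs] at h2
    exact h2
  have hi2 : |∫ u in (-ρ)..ρ, (b u - β) * Fj K u| ≤ K * ∫ u in (-ρ)..ρ, |b u - β| := by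
    rw [← intervalIntegral.integral_const_mul]
    have h2 := intervalIntegral.norm_integral_le_of_norm_le (μ := volume)
      (f := fun u => (b u - β) * Fj K u) (g := fun u => K * |b u - β|)
      (a := -ρ) (b := ρ) (by linarith) (by
        filter_upwards with u hu
        rw [Real.norm_eq_abs, abs_mul, abs_of_nonneg (hFj0 u), mul_comm]
        exact mul_le_mul_of_nonneg_right (Fj_le K u) (abs_nonneg _)) ((hai _ _).const_mul _)
    rw [Real.norm_eq_abs] at h2
    exact h2
  have hsp : (∫ u in p..q, (b u - β) * Fj K u) = (∫ u in p..(-ρ), (b u - β) * Fj K u) +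
      (∫ u in (-ρ)..ρ, (b u - β) * Fj K u) + ∫ u in ρ..q, (b u - β) * Fj K u := by
    rw [intervalIntegral.integral_add_adjacent_intervals (hdi _ _) (hdi _ _),
      intervalIntegral.integral_add_adjacent_intervals (hdi _ _) (hdi _ _)]
  have hinner : |∫ u in p..q, (b u - β) * Fj K u| ≤
      K * (∫ u in (-ρ)..ρ, |b u - β|) + 2 * (∫ u in p..(-ρ), F u) + 2 * ∫ u in ρ..q, F u := by
    rw [hsp]
    refine (abs_add_le _ _).trans ?_
    refine (add_le_add (abs_add_le _ _) le_rfl).trans ?_
    linarith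
  have heq : (∫ u in p..q, b u * Fj K u) =
      (∫ u in p..q, (b u - β) * Fj K u) + β * ∫ u in p..q, Fj K u := by
    rw [← intervalIntegral.integral_const_mul, ← intervalIntegral.integral_add (hdi _ _)
      ((hFji _ _).const_mul β)]
    apply intervalIntegral.integral_congr
    intro u _
    simp only
    ring
  rw [hcv, heq]
  have h7 : |(∫ u in p..q, (b u - β) * Fj K u) + β * (∫ u in p..q, Fj K u) - 2 * Real.pi * β| ≤
      |∫ u in p..q, (b u - β) * Fj K u| +
        |β| * ((∫ u in (-Real.pi)..p, Fj K u) + ∫ u in q..Real.pi, Fj K u) := by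
    have e : (∫ u in p..q, (b u - β) * Fj K u) + β * (∫ u in p..q, Fj K u) - 2 * Real.pi * β =
        (∫ u in p..q, (b u - β) * Fj K u) +
        -(β * ((∫ u in (-Real.pi)..p, Fj K u) + ∫ u in q..Real.pi, Fj K u)) := by
      linear_combination β * hsplit
    rw [e]
    refine (abs_add_le _ _).trans ?_
    rw [abs_neg, abs_mul, abs_of_nonneg (add_nonneg ho1' ho2')]
  have h8 : |β| * ((∫ u in (-Real.pi)..p, Fj K u) + ∫ u in q..Real.pi, Fj K u) ≤
      (∫ u in (-Real.pi)..p, F u) + ∫ u in q..Real.pi, F u := by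
    calc _ ≤ 1 * ((∫ u in (-Real.pi)..p, Fj K u) + ∫ u in q..Real.pi, Fj K u) :=
          mul_le_mul_of_nonneg_right hβ (add_nonneg ho1' ho2')
      _ ≤ _ := by linarith
  have h10 : 4 * Real.pi ^ 3 / (K * ρ) = 2 * (2 * Real.pi ^ 3 / (K * ρ)) := by ring
  rw [h10]
  linarith

/-- an integral over a window as an integral over a fixed interval -/
theorem win_ind (G f : ℝ → ℝ) {a b p q : ℝ} (h1 : p ≤ a) (h2 : a ≤ b) (h3 : b ≤ q) :
    ∫ u in p..q, (Set.Ioc a b).indicator G u * f u = ∫ u in a..b, G u * f u := by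
  rw [intervalIntegral.integral_of_le (by linarith), intervalIntegral.integral_of_le h2]
  have e : (fun u => (Set.Ioc a b).indicator G u * f u) = (Set.Ioc a b).indicator (fun u => G u * f u) := by
    ext u
    by_cases h : u ∈ Set.Ioc a b
    · rw [Set.indicator_of_mem h, Set.indicator_of_mem h]
    · rw [Set.indicator_of_notMem h, Set.indicator_of_notMem h, zero_mul]
  rw [e, MeasureTheory.setIntegral_indicator measurableSet_Ioc]
  congr 2
  ext u
  simp only [Set.mem_inter_iff, Set.mem_Ioc]
  constructor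
  · intro h
    exact h.2
  · intro h
    exact ⟨⟨by linarith [h.1], by linarith [h.2]⟩, h⟩

end Pool.Agent.Run7.h684.E2
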