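import Pool.Agent.Run7.h684.E2.P0
import Pool.Agent.Run7.h684.E2.Mass

/-!
Project E2 (helper684): primes in long windows.
-/

set_option autoImplicit false

namespace Pool.Agent.Run7.h684.E2

open Finset MeasureTheory Pool.Agent.H376R2.MR Pool.Agent.Q240.KS Pool.Agent.Q95.KS

theorem Pn (B : ℕ) : ∃ c₀ : ℕ, ∀ c : ℕ, c₀ ≤ c → ∃ Y₀ : ℝ, 100 ≤ Y₀ ∧ ∀ Y : ℝ, Y₀ ≤ Y → ∀ x : ℝ, |x - Y| ≤ 0.35 →
    |∑ m ∈ MM Y, aY Y m * Fj ⌈Y ^ c⌉₊ (x - Real.log m) - 2 * Real.pi| ≤ 1 / Y ^ B := by
  classical
  obtain ⟨M, Y₁, hY₁, hmass⟩ := aY_mass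
  refine ⟨M + B + 1, fun c hc => ?_⟩
  obtain ⟨C, hC, Y₂, hY₂, hpsi⟩ := psi_err (2 * c + B + 1)
  obtain ⟨Y₃, hY₃⟩ := poly_le_exp 1 (2 * c + B + 1) one_pos
  refine ⟨max (max Y₁ Y₂) (max (max Y₃ 100) (30000 + 2000 * C)), ?_, ?_⟩
  · exact (le_max_right _ _).trans ((le_max_left _ _).trans (le_max_right _ _))
  intro Y hY x hx
  have hYa : Y₁ ≤ Y := ((le_max_left _ _).trans (le_max_left _ _)).trans hY
  have hYb : Y₂ ≤ Y := ((le_max_right _ _).trans (le_max_left _ _)).trans hY
  have hYc := hY₃ Y (((le_max_left _ _).trans ((le_max_left _ _).trans (le_max_right _ _))).trans hY)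
  have hYd : 100 ≤ Y := ((le_max_right _ _).trans ((le_max_left _ _).trans (le_max_right _ _))).trans hY
  have hYe : 30000 + 2000 * C ≤ Y := ((le_max_right _ _).trans (le_max_right _ _)).trans hY
  have hY0 : 0 < Y := by linarith
  obtain ⟨n1, n2, n3, n4, n5, n6, n7, n8⟩ := na_nb (show 10 ≤ Y by linarith)
  have hYc1 : (1 : ℝ) ≤ Y ^ c := one_le_pow₀ (by linarith)
  set K : ℕ := ⌈Y ^ c⌉₊ with hKdef
  have hK : 1 ≤ K := Nat.one_le_ceil_iff.2 (by linarith)
  have hK1 : Y ^ c ≤ K := Nat.le_ceil _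
  have hK2 : (K : ℝ) ≤ 2 * Y ^ c := by
    have := (Nat.ceil_lt_add_one (show 0 ≤ Y ^ c by positivity)).le
    linarith
  have hK0 : (0 : ℝ) < K := by exact_mod_cast hK
  obtain ⟨hx1, hx2⟩ := abs_le.1 hx
  have hpi := Real.pi_pos
  have hpi3 := Real.pi_gt_three
  have hpi4 := Real.pi_le_four
  -- splitting into near and far
  have hsplit : ∑ m ∈ MM Y, aY Y m * Fj K (x - Real.log m) =
      ∑ m ∈ NR Y, aY Y m * Fj K (x - Real.log m) + ∑ m ∈ MM Y \ NR Y, aY Y m * Fj K (x - Real.log m) := by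
    rw [add_comm, sum_sdiff NR_sub]
  have hnear : ∑ m ∈ NR Y, aY Y m * Fj K (x - Real.log m) =
      ∑ n ∈ Ioc (na Y) (nb Y), ArithmeticFunction.vonMangoldt n / n * Fj K (x - Real.log n) := by
    apply sum_congr rfl
    intro n hn
    obtain ⟨h1, h2⟩ := mem_NR.1 hn
    rw [aY_eq Pool.Agent.Q257.KS.hb (by linarith) h1 h2]
  have hfar : |∑ m ∈ MM Y \ NR Y, aY Y m * Fj K (x - Real.log m)| ≤ 1 / (4 * Y ^ B) := by
    have h1 : ∀ m ∈ MM Y \ NR Y, |aY Y m * Fj K (x - Real.log m)| ≤ |aY Y m| * (800 / K) := by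
      intro m hm
      rw [mem_sdiff, mem_NR] at hm
      obtain ⟨hm1, hm2⟩ := hm
      have hm3 : 1 ≤ m := by
        unfold MM at hm1
        exact (mem_Icc.1 hm1).1
      rw [abs_mul, abs_of_nonneg (Fj_nonneg _ _)]
      by_cases h0 : 3 / 2 < |Real.log m - Y|
      · rw [aY_zero h0]
        simp
      · apply mul_le_mul_of_nonneg_left _ (abs_nonneg _)
        have h2 : 1 / 2 < |Real.log m - Y| := by
          by_contra hc
          exact hm2 ⟨hm3, not_lt.1 hc⟩
        have h3 : 0.15 ≤ |x - Real.log m| := by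
          have e : Real.log m - Y = (x - Y) - (x - Real.log m) := by ring
          have h4 : |Real.log m - Y| ≤ |x - Y| + |x - Real.log m| := by
            rw [e]
            exact abs_sub _ _
          linarith
        have h4 : |x - Real.log m| ≤ Real.pi := by
          have e : x - Real.log m = (x - Y) - (Real.log m - Y) := by ring
          have h5 : |x - Real.log m| ≤ |x - Y| + |Real.log m - Y| := by
            rw [e]
            exact abs_sub _ _
          linarith
        have h5 : x - Real.log m ≠ 0 := by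
          intro hc
          rw [hc, abs_zero] at h3
          linarith
        refine (Fj_le_sq hK h5 h4).trans ?_
        have h6 : 0.0225 ≤ (x - Real.log m) ^ 2 := by
          rw [← sq_abs]
          nlinarith
        rw [div_le_div_iff₀ (by positivity) hK0]
        calc Real.pi ^ 2 * K ≤ 16 * K := by
              apply mul_le_mul_of_nonneg_right _ hK0.le
              nlinarith
          _ ≤ 800 * (K * 0.0225) := by linarith
          _ ≤ 800 * (K * (x - Real.log m) ^ 2) := by
              apply mul_le_mul_of_nonneg_left _ (by norm_num)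
              exact mul_le_mul_of_nonneg_left h6 hK0.le
    refine (abs_sum_le_sum_abs _ _).trans ((sum_le_sum h1).trans ?_)
    rw [← sum_mul]
    have h2 : ∑ m ∈ MM Y \ NR Y, |aY Y m| ≤ Y ^ M := by
      refine le_trans (sum_le_sum_of_subset_of_nonneg sdiff_subset fun _ _ _ => abs_nonneg _) ?_
      exact hmass Y hYa
    calc (∑ m ∈ MM Y \ NR Y, |aY Y m|) * (800 / K) ≤ Y ^ M * (800 / Y ^ c) := by
          apply mul_le_mul h2 _ (by positivity) (by positivity)
          exact div_le_div_of_nonneg_left (by norm_num) (by positivity) hK1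
      _ ≤ Y ^ M * (800 / Y ^ (M + B + 1)) := by
          apply mul_le_mul_of_nonneg_left _ (by positivity)
          exact div_le_div_of_nonneg_left (by norm_num) (by positivity) (pow_le_pow_right₀ (by linarith) hc)
      _ = 800 / (Y ^ B * Y) := by
          have e : Y ^ (M + B + 1) = Y ^ M * (Y ^ B * Y) := by ring
          rw [e]
          field_simp
      _ ≤ 1 / (4 * Y ^ B) := by
          rw [div_le_div_iff₀ (by positivity) (by positivity)]
          have hB : 0 < Y ^ B := by positivity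
          nlinarith
  -- the near part
  have hsl := sum_lam hK x n1 n2 (E := C * Real.exp Y / Y ^ (2 * c + B + 1)) (by
    intro m h1 h2
    apply hpsi Y hYb m
    · have h3 : (na Y : ℝ) ≤ m := by exact_mod_cast h1
      have h4 : Real.exp (Y - 1) ≤ Real.exp (Y - 0.51) := Real.exp_le_exp.2 (by linarith)
      linarith
    · have h3 : (m : ℝ) ≤ nb Y := by exact_mod_cast h2
      have h4 : Real.exp (Y + 1 / 2) ≤ Real.exp (Y + 1) := Real.exp_le_exp.2 (by linarith)
      linarith)
  have hna0 : (0 : ℝ) < na Y := by exact_mod_cast n1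
  have hnb0 : (0 : ℝ) < nb Y := by exact_mod_cast n1.trans n2
  have hint : |(∫ v in (Real.log (na Y))..(Real.log (nb Y)), Fj K (x - v)) - 2 * Real.pi| ≤ 1 / (4 * Y ^ B) := by
    have e1 : (∫ v in (Real.log (na Y))..(Real.log (nb Y)), Fj K (x - v)) =
        ∫ u in (x - Real.log (nb Y))..(x - Real.log (na Y)), Fj K u := by
      rw [intervalIntegral.integral_comp_sub_left (fun u => Fj K u) x]
    rw [e1]
    have l1 : Y - 0.51 ≤ Real.log (na Y) := (Real.le_log_iff_exp_le hna0).2 n7
    have l2 : Real.log (na Y) ≤ Y - 1 / 2 := (Real.log_le_iff_le_exp hna0).2 n4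
    have l3 : Y + 0.49 ≤ Real.log (nb Y) := (Real.le_log_iff_exp_le hnb0).2 n8
    have l4 : Real.log (nb Y) ≤ Y + 1 / 2 := (Real.log_le_iff_le_exp hnb0).2 n5
    have h1 := Fj_long_int hK (α := x - Real.log (nb Y)) (β := x - Real.log (na Y)) (ρ := 0.14)
      (by norm_num) (by linarith) (by linarith) (by linarith) (by linarith)
    refine h1.trans ?_
    have h2 : Real.pi ^ 3 ≤ 64 := by
      calc Real.pi ^ 3 ≤ 4 ^ 3 := pow_le_pow_left₀ hpi.le hpi4 3
        _ = 64 := by norm_num
    have h3 : Y ^ (B + 1) ≤ K := (pow_le_pow_right₀ (by linarith) (by omega)).trans hK1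
    have e2 : Y ^ (B + 1) = Y ^ B * Y := by ring
    rw [e2] at h3
    rw [div_le_div_iff₀ (by positivity) (by positivity)]
    have hB : 0 < Y ^ B := by positivity
    calc 2 * Real.pi ^ 3 * (4 * Y ^ B) ≤ 2 * 64 * (4 * Y ^ B) := by
          apply mul_le_mul_of_nonneg_right _ (by positivity)
          linarith
      _ = Y ^ B * 512 := by ring
      _ ≤ Y ^ B * (Y * 0.0196) := by
          apply mul_le_mul_of_nonneg_left _ hB.le
          linarith
      _ = (Y ^ B * Y) * 0.0196 := by ring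
      _ ≤ K * 0.0196 := mul_le_mul_of_nonneg_right h3 (by norm_num)
      _ = 1 * (K * 0.14 ^ 2) := by norm_num
  have hratio : (nb Y : ℝ) / na Y ^ 2 ≤ 9 / Real.exp Y := by
    rw [div_le_div_iff₀ (by positivity) (Real.exp_pos _)]
    have h1 : Real.exp Y ≤ 1.7 * na Y := by
      have h2 : Real.exp Y = Real.exp (Y - 0.51) * Real.exp 0.51 := by
        rw [← Real.exp_add]
        congr 1
        ring
      have h3 : Real.exp 0.51 ≤ 1.7 := by
        have h4 : Real.exp 0.51 ^ 2 = Real.exp 1.02 := by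
          rw [← Real.exp_nat_mul]
          norm_num
        have h5 : Real.exp 1.02 = Real.exp 1 * Real.exp 0.02 := by
          rw [← Real.exp_add]
          norm_num
        have h6 : Real.exp 0.02 ≤ 1.03 := by
          have h7 := Real.add_one_le_exp (-0.02 : ℝ)
          have h8 : Real.exp (-0.02) * Real.exp 0.02 = 1 := by
            rw [← Real.exp_add]
            norm_num
          have h10 : (-0.02 + 1) * Real.exp 0.02 ≤ Real.exp (-0.02) * Real.exp 0.02 :=
            mul_le_mul_of_nonneg_right h7 (Real.exp_pos _).le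
          rw [h8] at h10
          linarith
        have h9 := Real.exp_one_lt_d9
        have h10 : Real.exp 0.51 ^ 2 ≤ 1.7 ^ 2 := by
          rw [h4, h5]
          calc Real.exp 1 * Real.exp 0.02 ≤ 2.72 * 1.03 :=
                mul_le_mul (by linarith) h6 (Real.exp_pos _).le (by norm_num)
            _ ≤ 1.7 ^ 2 := by norm_num
        exact le_of_sq_le_sq h10 (by norm_num)
      rw [h2]
      nlinarith [Real.exp_pos (Y - 0.51)]
    have h2 : (nb Y : ℝ) ≤ 3 * Real.exp Y := by
      have h3 : Real.exp (Y + 1 / 2) ≤ 3 * Real.exp Y := by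
        have h4 : Real.exp (Y + 1 / 2) ≤ Real.exp (Y + 1) := Real.exp_le_exp.2 (by linarith)
        have h6 : Real.exp (Y + 1) = Real.exp Y * Real.exp 1 := Real.exp_add _ _
        have h5 := Real.exp_one_lt_d9
        have h7 : Real.exp Y * Real.exp 1 ≤ Real.exp Y * 3 :=
          mul_le_mul_of_nonneg_left (by linarith) (Real.exp_pos Y).le
        linarith
      linarith
    calc (nb Y : ℝ) * Real.exp Y ≤ (3 * Real.exp Y) * Real.exp Y :=
          mul_le_mul_of_nonneg_right h2 (Real.exp_pos _).le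
      _ = 3 * (Real.exp Y) ^ 2 := by ring
      _ ≤ 3 * (1.7 * na Y) ^ 2 := by
          apply mul_le_mul_of_nonneg_left _ (by norm_num)
          exact pow_le_pow_left₀ (Real.exp_pos _).le h1 2
      _ ≤ 9 * na Y ^ 2 := by nlinarith
  have hnear2 : |(∑ n ∈ Ioc (na Y) (nb Y), ArithmeticFunction.vonMangoldt n / n * Fj K (x - Real.log n)) -
      ∫ v in (Real.log (na Y))..(Real.log (nb Y)), Fj K (x - v)| ≤ 1 / (2 * Y ^ B) := by
    refine hsl.trans ?_
    have hKsq : (K : ℝ) ^ 2 ≤ 4 * Y ^ (2 * c) := by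
      calc (K : ℝ) ^ 2 ≤ (2 * Y ^ c) ^ 2 := pow_le_pow_left₀ hK0.le hK2 2
        _ = 4 * Y ^ (2 * c) := by ring
    have t1 : 3 * (K : ℝ) ^ 2 * nb Y / na Y ^ 2 ≤ 108 * Y ^ (2 * c) / Real.exp Y := by
      calc 3 * (K : ℝ) ^ 2 * nb Y / na Y ^ 2 = 3 * (K : ℝ) ^ 2 * (nb Y / na Y ^ 2) := by ring
        _ ≤ 3 * (4 * Y ^ (2 * c)) * (9 / Real.exp Y) := by
            apply mul_le_mul _ hratio (by positivity) (by positivity)
            exact mul_le_mul_of_nonneg_left hKsq (by norm_num)
        _ = _ := by ring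
    have t2 : (K : ℝ) / nb Y ≤ 2 * Y ^ (2 * c) / Real.exp Y := by
      apply div_le_div₀ (by positivity) _ (Real.exp_pos _)
      · have : Real.exp Y ≤ Real.exp (Y + 0.49) := Real.exp_le_exp.2 (by linarith)
        linarith
      · refine hK2.trans ?_
        apply mul_le_mul_of_nonneg_left _ (by norm_num)
        exact pow_le_pow_right₀ (by linarith) (by omega)
    have t3 : 3 * (K : ℝ) ^ 2 * nb Y / na Y ^ 2 ≤ 108 / (Y ^ B * Y) := by
      refine t1.trans ?_
      rw [div_le_div_iff₀ (Real.exp_pos _) (by positivity)]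
      rw [one_mul, one_mul] at hYc
      calc 108 * Y ^ (2 * c) * (Y ^ B * Y) = 108 * Y ^ (2 * c + B + 1) := by ring
        _ ≤ 108 * Real.exp Y := mul_le_mul_of_nonneg_left hYc (by norm_num)
    have t4 : 2 * (C * Real.exp Y / Y ^ (2 * c + B + 1)) * (K / nb Y + 3 * K ^ 2 * nb Y / na Y ^ 2) ≤
        220 * C / (Y ^ B * Y) := by
      calc 2 * (C * Real.exp Y / Y ^ (2 * c + B + 1)) * (K / nb Y + 3 * K ^ 2 * nb Y / na Y ^ 2)
          ≤ 2 * (C * Real.exp Y / Y ^ (2 * c + B + 1)) *
            (2 * Y ^ (2 * c) / Real.exp Y + 108 * Y ^ (2 * c) / Real.exp Y) :=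
            mul_le_mul_of_nonneg_left (add_le_add t2 t1) (by positivity)
        _ = 220 * C / (Y ^ B * Y) := by
            have e : Y ^ (2 * c + B + 1) = Y ^ (2 * c) * (Y ^ B * Y) := by ring
            rw [e]
            have he := (Real.exp_pos Y).ne'
            field_simp
            norm_num
    calc _ ≤ 220 * C / (Y ^ B * Y) + 108 / (Y ^ B * Y) := add_le_add t4 t3
      _ = (220 * C + 108) / (Y ^ B * Y) := by ring
      _ ≤ 1 / (2 * Y ^ B) := by
          rw [div_le_div_iff₀ (by positivity) (by positivity)]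
          have hB : 0 < Y ^ B := by positivity
          have h1 : 2 * (220 * C + 108) ≤ Y := by linarith
          calc (220 * C + 108) * (2 * Y ^ B) = (2 * (220 * C + 108)) * Y ^ B := by ring
            _ ≤ Y * Y ^ B := mul_le_mul_of_nonneg_right h1 hB.le
            _ = 1 * (Y ^ B * Y) := by ring
  rw [hsplit, hnear]
  have e : ∑ n ∈ Ioc (na Y) (nb Y), ArithmeticFunction.vonMangoldt n / n * Fj K (x - Real.log n) +
      ∑ m ∈ MM Y \ NR Y, aY Y m * Fj K (x - Real.log m) - 2 * Real.pi =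
      ((∑ n ∈ Ioc (na Y) (nb Y), ArithmeticFunction.vonMangoldt n / n * Fj K (x - Real.log n)) -
        ∫ v in (Real.log (na Y))..(Real.log (nb Y)), Fj K (x - v)) +
      ((∫ v in (Real.log (na Y))..(Real.log (nb Y)), Fj K (x - v)) - 2 * Real.pi) +
      ∑ m ∈ MM Y \ NR Y, aY Y m * Fj K (x - Real.log m) := by ring
  rw [e]
  refine (abs_add_le _ _).trans ?_
  refine (add_le_add ((abs_add_le _ _).trans (add_le_add hnear2 hint)) hfar).trans (le_of_eq ?_)
  field_simp
  norm_num

end Pool.Agent.Run7.h684.E2
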