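import Pool.Agent.Run7.h684.E2.Loc
import Pool.Agent.Run7.h684.E2.Bt
import Pool.Agent.Run7.h684.E2.Mass

/-!
Project E2 (helper684): the estimate for one small prime.
-/

set_option autoImplicit false

namespace Pool.Agent.Run7.h684.E2

open Finset MeasureTheory Pool.Agent.H376R2.MR Pool.Agent.Q240.KS Pool.Agent.Q95.KS
open Pool.Agent.H499R2.CO

/-- the estimate for one small prime -/
theorem per_p (e : ℕ) {ε : ℝ} (hε : 0 < ε) (hε1 : ε ≤ 1) : ∃ θ : ℝ, 0 < θ ∧ θ ≤ 1 / 8 ∧ ∃ Y₀ : ℝ, 100 ≤ Y₀ ∧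
    ∀ Y : ℝ, Y₀ ≤ Y → ∀ F : ℤ → ℝ, Coal F → (∀ x, |F x| ≤ 1) → ∀ s : ℤ, Ok e (θ * Y) s →
    ∀ r : ℕ, (r : ℝ) / 100 ≤ θ * Y → ∀ p ∈ cell 100 r, p ≠ 2 → ∀ n₀ n₁ : ℕ, 1 ≤ n₀ → n₀ ≤ n₁ →
    Y + (r : ℝ) / 100 - 0.3 ≤ Real.log n₀ → Real.log n₁ ≤ Y + (r : ℝ) / 100 + 0.3 →
    |∑ m ∈ MM Y, aY Y m * JJ F s ⌊Real.exp Y⌋₊ (Real.log n₀) (Real.log n₁) (Real.log p + Real.log m) -
      2 * Real.pi * ∑ m ∈ NR Y, Wm m * be F s n₀ n₁ (p * m)| ≤ ε := by
  classical
  obtain ⟨R, hR⟩ : ∃ R : ℝ, R = 16 * 256 * 4 / ε := ⟨_, rfl⟩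
  have hR1 : 1 ≤ R := by
    rw [hR, le_div_iff₀ hε]
    linarith
  have hR0 : 0 < R := by linarith
  obtain ⟨η, hη⟩ : ∃ η : ℝ, η = ε / (8 * R) := ⟨_, rfl⟩
  have hη0 : 0 < η := by rw [hη]; positivity
  obtain ⟨θ, hθ, hθ1, hBt⟩ := Bt e hη0
  obtain ⟨Y₁, hY₁, hbt⟩ := hBt R hR1
  obtain ⟨M, Y₂, hY₂, hmass⟩ := aY_mass
  obtain ⟨Y₃, hY₃⟩ := exp_small (D := 1000) (δ := ε / 4) (by positivity) M one_pos
  obtain ⟨Y₄, hY₄⟩ := exp_small (D := 36 * R) (δ := ε / 16) (by positivity) 1 (show (0 : ℝ) < 1 / 2 by norm_num)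
  obtain ⟨Y₅, hY₅⟩ := exp_small (D := 200 * R * (36 * R + 1)) (δ := ε / 16) (by positivity) 1 one_pos
  refine ⟨θ / 2, by positivity, by linarith, max (max (max Y₁ Y₂) (max Y₃ Y₄)) (max (max Y₅ 100) (max (1 / θ) (2 * R))),
    (le_max_right _ _).trans ((le_max_left _ _).trans (le_max_right _ _)), ?_⟩
  intro Y hY F hF hF1 s hs r hr p hp hp2 n₀ n₁ hn₀ hn₁ hlog0 hlog1
  have hYa : Y₁ ≤ Y := ((le_max_left _ _).trans ((le_max_left _ _).trans (le_max_left _ _))).trans hY
  have hYb : Y₂ ≤ Y := ((le_max_right _ _).trans ((le_max_left _ _).trans (le_max_left _ _))).trans hY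
  have hYc := hY₃ Y (((le_max_left _ _).trans ((le_max_right _ _).trans (le_max_left _ _))).trans hY)
  have hYd := hY₄ Y (((le_max_right _ _).trans ((le_max_right _ _).trans (le_max_left _ _))).trans hY)
  have hYe := hY₅ Y (((le_max_left _ _).trans ((le_max_left _ _).trans (le_max_right _ _))).trans hY)
  have hYf : 100 ≤ Y := ((le_max_right _ _).trans ((le_max_left _ _).trans (le_max_right _ _))).trans hY
  have hYg : 1 / θ ≤ Y := ((le_max_left _ _).trans ((le_max_right _ _).trans (le_max_right _ _))).trans hY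
  have hYh : 2 * R ≤ Y := ((le_max_right _ _).trans ((le_max_right _ _).trans (le_max_right _ _))).trans hY
  have hY0 : 0 < Y := by linarith
  set K := ⌊Real.exp Y⌋₊ with hKdef
  have hexpY : 1 + Y ≤ Real.exp Y := by linarith [Real.add_one_le_exp Y]
  have hK : 1 ≤ K := Nat.le_floor (by push_cast; linarith)
  have hK0 : (0 : ℝ) < K := by exact_mod_cast hK
  have hK1 : (K : ℝ) ≤ Real.exp Y := Nat.floor_le (Real.exp_pos _).le
  have hK2 : Real.exp Y ≤ 2 * K := by
    have h1 : Real.exp Y < K + 1 := Nat.lt_floor_add_one _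
    have h2 : (1 : ℝ) ≤ K := by exact_mod_cast hK
    linarith
  have hK3 : R ≤ K := by
    have h1 : Real.exp Y < K + 1 := Nat.lt_floor_add_one _
    linarith
  have hpi := Real.pi_pos
  have hpi3 := Real.pi_gt_three
  have hpi4 := Real.pi_le_four
  obtain ⟨ρ, hρ⟩ : ∃ ρ : ℝ, ρ = (r : ℝ) / 100 := ⟨_, rfl⟩
  rw [← hρ] at hr hlog0 hlog1
  obtain ⟨hpp, hp1, hp2'⟩ := smoo_mem_cell hp
  have hp0 : (0 : ℝ) < p := by exact_mod_cast hpp.pos
  have hlp1 : ρ ≤ Real.log p := by
    rw [Real.le_log_iff_exp_le hp0, hρ]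
    exact_mod_cast hp1
  have hlp2 : Real.log p ≤ ρ + 0.01 := by
    rw [Real.log_le_iff_le_exp hp0, hρ]
    refine hp2'.trans (le_of_eq ?_)
    congr 1
    push_cast
    ring
  set a := Real.log (n₀ : ℝ) with ha
  set b := Real.log (n₁ : ℝ) with hb
  have hab : a ≤ b := Real.log_le_log (by exact_mod_cast hn₀) (by exact_mod_cast hn₁)
  obtain ⟨τ, hτ⟩ : ∃ τ : ℝ, τ = R / K := ⟨_, rfl⟩
  have hτ0 : 0 < τ := by rw [hτ]; positivity
  have hτ1 : τ ≤ 1 := by rw [hτ, div_le_one hK0]; exact hK3
  have hτ2 : τ ≤ 2 * R * Real.exp (-Y) := by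
    rw [hτ, div_le_iff₀ hK0, Real.exp_neg]
    have hE := Real.exp_pos Y
    have e : 2 * R * (Real.exp Y)⁻¹ * K = R * (2 * K * (Real.exp Y)⁻¹) := by ring
    rw [e]
    have h1 : 1 ≤ 2 * K * (Real.exp Y)⁻¹ := by
      rw [← div_eq_mul_inv, le_div_iff₀ hE]
      linarith
    exact le_mul_of_one_le_right (by linarith) h1
  -- far part
  have hfar : |∑ m ∈ MM Y \ NR Y, aY Y m * JJ F s K a b (Real.log p + Real.log m)| ≤ ε / 4 := by
    have h1 : ∀ m ∈ MM Y \ NR Y, |aY Y m * JJ F s K a b (Real.log p + Real.log m)| ≤ |aY Y m| * (500 / K) := by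
      intro m hm
      rw [mem_sdiff, mem_NR] at hm
      obtain ⟨hm1, hm2⟩ := hm
      have hm3 : 1 ≤ m := by
        unfold MM at hm1
        exact (mem_Icc.1 hm1).1
      rw [abs_mul]
      by_cases h0 : 3 / 2 < |Real.log m - Y|
      · rw [aY_zero h0]
        simp
      · apply mul_le_mul_of_nonneg_left _ (abs_nonneg _)
        have h2 : 1 / 2 < |Real.log m - Y| := by
          by_contra hc
          exact hm2 ⟨hm3, not_lt.1 hc⟩
        apply JJ_far hF1 s hK hab (by linarith)
        intro u hu1 hu2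
        have h3 : |u - Real.log p - Y| ≤ 0.31 := by
          rw [abs_le]
          constructor <;> linarith
        have e : u - (Real.log p + Real.log m) = (u - Real.log p - Y) - (Real.log m - Y) := by ring
        rw [e]
        constructor
        · have h4 : |Real.log m - Y| ≤ |(u - Real.log p - Y) - (Real.log m - Y)| + |u - Real.log p - Y| := by
            have h5 := abs_sub (u - Real.log p - Y) ((u - Real.log p - Y) - (Real.log m - Y))
            rw [sub_sub_cancel] at h5
            linarith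
          linarith
        · have h4 := abs_sub (u - Real.log p - Y) (Real.log m - Y)
          linarith
    refine (abs_sum_le_sum_abs _ _).trans ((sum_le_sum h1).trans ?_)
    rw [← sum_mul]
    have h2 : ∑ m ∈ MM Y \ NR Y, |aY Y m| ≤ Y ^ M :=
      le_trans (sum_le_sum_of_subset_of_nonneg sdiff_subset fun _ _ _ => abs_nonneg _) (hmass Y hYb)
    calc (∑ m ∈ MM Y \ NR Y, |aY Y m|) * (500 / K) ≤ Y ^ M * (1000 * Real.exp (-(1 * Y))) := by
          apply mul_le_mul h2 _ (by positivity) (by positivity)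
          rw [div_le_iff₀ hK0, one_mul, Real.exp_neg]
          have hE := Real.exp_pos Y
          have h3 : 1 ≤ 2 * K * (Real.exp Y)⁻¹ := by
            rw [← div_eq_mul_inv, le_div_iff₀ hE]
            linarith
          calc (500 : ℝ) ≤ 500 * (2 * K * (Real.exp Y)⁻¹) := by linarith
            _ = _ := by ring
      _ = 1000 * (Y ^ M * Real.exp (-(1 * Y))) := by ring
      _ ≤ ε / 4 := hYc
  -- near part
  have hnear : |∑ m ∈ NR Y, Wm m * (JJ F s K a b (Real.log p + Real.log m) -
      2 * Real.pi * be F s n₀ n₁ (p * m))| ≤ 3 * ε / 4 := by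
    set D : ℕ → ℝ → ℝ := fun m u => |(Set.Ioc a b).indicator (GF F s) (Real.log ((p * m : ℕ) : ℝ) + u) -
        be F s n₀ n₁ (p * m)| with hD
    have h1 : ∀ m ∈ NR Y, |Wm m * (JJ F s K a b (Real.log p + Real.log m) -
        2 * Real.pi * be F s n₀ n₁ (p * m))| ≤ Wm m * (K * ∫ u in (-τ)..τ, D m u) + Wm m * (256 / R) := by
      intro m hm
      obtain ⟨hm1, hm2⟩ := mem_NR.1 hm
      obtain ⟨hm3, hm4⟩ := abs_le.1 hm2
      have hm0 : (0 : ℝ) < m := by exact_mod_cast hm1
      have elog : Real.log p + Real.log m = Real.log ((p * m : ℕ) : ℝ) := by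
        push_cast
        rw [Real.log_mul hp0.ne' hm0.ne']
      rw [abs_mul, abs_of_nonneg (Wm_nonneg m), ← mul_add]
      apply mul_le_mul_of_nonneg_left _ (Wm_nonneg m)
      rw [elog]
      have h2 := JJ_near hF1 s hK (Z := Y + ρ) hτ0 hτ1 (n₀ := n₀) (n₁ := n₁) (n := p * m) (by
        rw [← elog, abs_le]
        constructor <;> linarith) (by linarith) hab (by linarith)
      refine h2.trans (add_le_add le_rfl ?_)
      have e : (K : ℝ) * τ = R := by
        rw [hτ]
        field_simp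
      rw [e]
      apply div_le_div_of_nonneg_right _ hR0.le
      have : Real.pi ^ 3 ≤ 4 ^ 3 := pow_le_pow_left₀ hpi.le hpi4 3
      linarith
    refine (abs_sum_le_sum_abs _ _).trans ((sum_le_sum h1).trans ?_)
    rw [sum_add_distrib, ← sum_mul]
    have h3 : (∑ m ∈ NR Y, Wm m) * (256 / R) ≤ ε / 4 := by
      calc (∑ m ∈ NR Y, Wm m) * (256 / R) ≤ 16 * (256 / R) :=
            mul_le_mul_of_nonneg_right (NR_mass Y) (by positivity)
        _ = ε / 4 := by
            rw [hR]
            field_simp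
    have hDm : ∀ m, Measurable (fun u => D m u) := by
      intro m
      have h4 : Measurable ((Set.Ioc a b).indicator (GF F s)) := (GF_meas F s).indicator measurableSet_Ioc
      have h5 : Measurable (fun u : ℝ => (Set.Ioc a b).indicator (GF F s) (Real.log ((p * m : ℕ) : ℝ) + u) -
        be F s n₀ n₁ (p * m)) := (h4.comp (measurable_const.add measurable_id)).sub measurable_const
      exact h5.norm
    have hind1 : ∀ t, |(Set.Ioc a b).indicator (GF F s) t| ≤ 1 := by
      intro t
      by_cases h : t ∈ Set.Ioc a b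
      · rw [Set.indicator_of_mem h]
        exact GF_le hF1 s t
      · rw [Set.indicator_of_notMem h, abs_zero]
        exact zero_le_one
    have hD2 : ∀ m u, |D m u| ≤ 2 := by
      intro m u
      simp only [hD]
      rw [abs_abs]
      refine (abs_sub _ _).trans ?_
      linarith [hind1 (Real.log ((p * m : ℕ) : ℝ) + u), be_le hF1 s n₀ n₁ (p * m)]
    have hDi : ∀ m, IntervalIntegrable (fun u => D m u) volume (-τ) τ := by
      intro m
      have hc : IntervalIntegrable (fun _ : ℝ => (2 : ℝ)) volume (-τ) τ := intervalIntegrable_const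
      refine hc.mono_fun (hDm m).aestronglyMeasurable ?_
      filter_upwards with u
      rw [Real.norm_eq_abs, Real.norm_eq_abs, abs_of_pos (by norm_num : (0 : ℝ) < 2)]
      exact hD2 m u
    have h4 : ∑ m ∈ NR Y, Wm m * (K * ∫ u in (-τ)..τ, D m u) = K * ∫ u in (-τ)..τ, ∑ m ∈ NR Y, Wm m * D m u := by
      rw [intervalIntegral.integral_finsetSum (fun m _ => (hDi m).const_mul _), mul_sum]
      apply sum_congr rfl
      intro m _
      rw [intervalIntegral.integral_const_mul]
      ring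
    -- the oscillation for one shift
    obtain ⟨Q, hQ⟩ : ∃ Q : ℝ, Q = η + 2 * (9 * (Y * Real.exp (-(Y / 2)))) +
      2 * ((36 * R + 1) * ((Y + 1 / 2) / Real.exp (Y - 1 / 2))) := ⟨_, rfl⟩
    have h5 : ∀ u, |u| ≤ τ → ∑ m ∈ NR Y, Wm m * D m u ≤ Q := by
      intro u hu
      have h6 : ∀ m ∈ NR Y, Wm m * D m u ≤
          Wm m * |F (s * (⌊((p * m : ℕ) : ℝ) * Real.exp u⌋₊ : ℤ)) - F (s * ((p * m : ℕ) : ℤ))| +
          Wm m * bd τ a b (Real.log ((p * m : ℕ) : ℝ)) := by
        intro m hm
        obtain ⟨hm1, hm2⟩ := mem_NR.1 hm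
        rw [← mul_add]
        apply mul_le_mul_of_nonneg_left _ (Wm_nonneg m)
        exact osc_le hF1 s hu hn₀ (hn₀.trans hn₁) (Nat.mul_pos hpp.pos hm1)
      refine (sum_le_sum h6).trans ?_
      rw [sum_add_distrib, ← sum_filter_add_sum_filter_not (NR Y) Nat.Prime]
      have h7 : ∑ m ∈ (NR Y).filter Nat.Prime, Wm m *
          |F (s * (⌊((p * m : ℕ) : ℝ) * Real.exp u⌋₊ : ℤ)) - F (s * ((p * m : ℕ) : ℤ))| ≤ η := by
        have h8 := hbt Y hYa F hF hF1 s (hs.mono (mul_le_mul_of_nonneg_right (by linarith) (by linarith))) p (by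
          have := hpp.eq_two_or_odd
          omega) (by
          rw [← Real.log_le_iff_le_exp hp0]
          have h9 : 1 ≤ θ * Y := by
            rw [div_le_iff₀ hθ] at hYg
            linarith
          linarith) u (hu.trans hτ2)
        refine le_trans (le_of_eq ?_) h8
        apply sum_congr rfl
        intro m hm
        unfold Wm
        rw [ArithmeticFunction.vonMangoldt_apply_prime (mem_filter.1 hm).2]
      have h8 : ∑ m ∈ (NR Y).filter (fun m => ¬ m.Prime), Wm m *
          |F (s * (⌊((p * m : ℕ) : ℝ) * Real.exp u⌋₊ : ℤ)) - F (s * ((p * m : ℕ) : ℤ))| ≤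
          2 * (9 * (Y * Real.exp (-(Y / 2)))) := by
        have h9 : ∀ m ∈ (NR Y).filter (fun m => ¬ m.Prime), Wm m *
          |F (s * (⌊((p * m : ℕ) : ℝ) * Real.exp u⌋₊ : ℤ)) - F (s * ((p * m : ℕ) : ℤ))| ≤ 2 * Wm m := by
          intro m _
          rw [mul_comm]
          apply mul_le_mul_of_nonneg_right _ (Wm_nonneg m)
          refine (abs_sub _ _).trans ?_
          linarith [hF1 (s * (⌊((p * m : ℕ) : ℝ) * Real.exp u⌋₊ : ℤ)), hF1 (s * ((p * m : ℕ) : ℤ))]
        refine (sum_le_sum h9).trans ?_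
        rw [← mul_sum]
        exact mul_le_mul_of_nonneg_left (NR_pow (by linarith)) (by norm_num)
      have hbdy : ∀ c : ℝ, c ≤ Y + ρ + 0.3 →
          ∑ m ∈ NR Y, Wm m * (if |Real.log ((p * m : ℕ) : ℝ) - c| ≤ τ then (1 : ℝ) else 0) ≤
          (36 * R + 1) * ((Y + 1 / 2) / Real.exp (Y - 1 / 2)) := by
        intro c hc
        have h9 : ∀ m ∈ NR Y, Wm m * (if |Real.log ((p * m : ℕ) : ℝ) - c| ≤ τ then (1 : ℝ) else 0) ≤
            if |Real.log ((p * m : ℕ) : ℝ) - c| ≤ τ then (Y + 1 / 2) / Real.exp (Y - 1 / 2) else 0 := by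
          intro m hm
          split_ifs with h
          · rw [mul_one]
            exact Wm_le (by linarith) hm
          · rw [mul_zero]
        refine (sum_le_sum h9).trans ?_
        rw [← sum_filter, sum_const, nsmul_eq_mul]
        apply mul_le_mul_of_nonneg_right _ (by positivity)
        have h10 := short_card (w := c - Real.log p) hτ0.le hτ1
          ((NR Y).filter (fun m => |Real.log ((p * m : ℕ) : ℝ) - c| ≤ τ)) (by
            intro m hm
            rw [mem_filter] at hm
            have hm1 := (mem_NR.1 hm.1).1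
            have hm0 : (0 : ℝ) < m := by exact_mod_cast hm1
            refine ⟨hm1, ?_⟩
            have h11 := hm.2
            push_cast at h11
            rw [Real.log_mul hp0.ne' hm0.ne'] at h11
            have e : Real.log m - (c - Real.log p) = Real.log p + Real.log m - c := by ring
            rw [e]
            exact h11)
        refine h10.trans ?_
        have h11 : Real.exp (c - Real.log p) ≤ 3 * Real.exp Y := by
          have h12 : Real.exp (c - Real.log p) ≤ Real.exp (Y + 1) := Real.exp_le_exp.2 (by linarith)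
          have h13 : Real.exp (Y + 1) = Real.exp Y * Real.exp 1 := Real.exp_add _ _
          have h14 := Real.exp_one_lt_d9
          have h15 : Real.exp Y * Real.exp 1 ≤ Real.exp Y * 3 :=
            mul_le_mul_of_nonneg_left (by linarith) (Real.exp_pos Y).le
          linarith
        have h12 : 6 * Real.exp (c - Real.log p) * τ ≤ 36 * R := by
          calc 6 * Real.exp (c - Real.log p) * τ ≤ 6 * (3 * Real.exp Y) * (2 * R * Real.exp (-Y)) := by
                apply mul_le_mul _ hτ2 hτ0.le (by positivity)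
                exact mul_le_mul_of_nonneg_left h11 (by norm_num)
            _ = 36 * R * (Real.exp Y * Real.exp (-Y)) := by ring
            _ = 36 * R := by
                rw [← Real.exp_add]
                simp
        linarith
      have h9 : ∑ m ∈ NR Y, Wm m * bd τ a b (Real.log ((p * m : ℕ) : ℝ)) ≤
          2 * ((36 * R + 1) * ((Y + 1 / 2) / Real.exp (Y - 1 / 2))) := by
        unfold bd
        have e : ∑ m ∈ NR Y, Wm m * ((if |Real.log ((p * m : ℕ) : ℝ) - a| ≤ τ then (1 : ℝ) else 0) +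
            (if |Real.log ((p * m : ℕ) : ℝ) - b| ≤ τ then (1 : ℝ) else 0)) =
            ∑ m ∈ NR Y, Wm m * (if |Real.log ((p * m : ℕ) : ℝ) - a| ≤ τ then (1 : ℝ) else 0) +
            ∑ m ∈ NR Y, Wm m * (if |Real.log ((p * m : ℕ) : ℝ) - b| ≤ τ then (1 : ℝ) else 0) := by
          rw [← sum_add_distrib]
          apply sum_congr rfl
          intro m _
          ring
        rw [e]
        linarith [hbdy a (by linarith), hbdy b (by linarith)]
      rw [hQ]
      linarith
    have hQ0 : 0 ≤ Q := by rw [hQ]; positivity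
    have h6 : ∫ u in (-τ)..τ, ∑ m ∈ NR Y, Wm m * D m u ≤ Q * (2 * τ) := by
      have hsi : IntervalIntegrable (fun u => ∑ m ∈ NR Y, Wm m * D m u) volume (-τ) τ := by
        have h0 := IntervalIntegrable.sum (NR Y) (f := fun (m : ℕ) (u : ℝ) => Wm m * D m u)
          fun m _ => (hDi m).const_mul (Wm m)
        have e0 : (∑ m ∈ NR Y, fun u : ℝ => Wm m * D m u) = fun u => ∑ m ∈ NR Y, Wm m * D m u := by
          ext u
          rw [Finset.sum_apply]
        rw [e0] at h0
        exact h0
      have h7 := intervalIntegral.integral_mono_on (μ := volume) (a := -τ) (b := τ) (by linarith) hsi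
        (intervalIntegrable_const) (g := fun _ => Q) (by
          intro u hu
          exact h5 u (abs_le.2 hu))
      refine h7.trans (le_of_eq ?_)
      rw [intervalIntegral.integral_const, smul_eq_mul]
      ring
    have h7 : (K : ℝ) * ∫ u in (-τ)..τ, ∑ m ∈ NR Y, Wm m * D m u ≤ 2 * R * Q := by
      calc (K : ℝ) * ∫ u in (-τ)..τ, ∑ m ∈ NR Y, Wm m * D m u ≤ K * (Q * (2 * τ)) :=
            mul_le_mul_of_nonneg_left h6 hK0.le
        _ = 2 * R * Q := by
            rw [hτ]
            field_simp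
    have h8 : 2 * R * Q ≤ ε / 2 := by
      have e1 : 2 * R * η = ε / 4 := by
        rw [hη]
        field_simp
        norm_num
      have e2 : 2 * R * (2 * (9 * (Y * Real.exp (-(Y / 2))))) = 36 * R * (Y ^ 1 * Real.exp (-(1 / 2 * Y))) := by
        rw [pow_one, show -(1 / 2 * Y) = -(Y / 2) by ring]
        ring
      have e3 : 2 * R * (2 * ((36 * R + 1) * ((Y + 1 / 2) / Real.exp (Y - 1 / 2)))) ≤
          200 * R * (36 * R + 1) * (Y ^ 1 * Real.exp (-(1 * Y))) := by
        have h9 : (Y + 1 / 2) / Real.exp (Y - 1 / 2) ≤ 4 * (Y * Real.exp (-Y)) := by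
          have h10 : (Real.exp (Y - 1 / 2))⁻¹ = Real.exp (-Y) * Real.exp (1 / 2) := by
            rw [← Real.exp_neg, ← Real.exp_add]
            congr 1
            ring
          have h11 : Real.exp (1 / 2) ≤ 2 := by
            have h3 : Real.exp (1 / 2) ^ 2 = Real.exp 1 := by
              rw [← Real.exp_nat_mul]
              norm_num
            have h4 := Real.exp_one_lt_d9
            exact (pow_le_pow_iff_left₀ (Real.exp_pos _).le (by norm_num) two_ne_zero).1 (by rw [h3]; linarith)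
          rw [div_eq_mul_inv, h10]
          calc (Y + 1 / 2) * (Real.exp (-Y) * Real.exp (1 / 2)) ≤ (2 * Y) * (Real.exp (-Y) * 2) := by
                apply mul_le_mul (by linarith) _ (by positivity) (by positivity)
                exact mul_le_mul_of_nonneg_left h11 (Real.exp_pos _).le
            _ = _ := by ring
        rw [pow_one, one_mul]
        calc 2 * R * (2 * ((36 * R + 1) * ((Y + 1 / 2) / Real.exp (Y - 1 / 2))))
            ≤ 2 * R * (2 * ((36 * R + 1) * (4 * (Y * Real.exp (-Y))))) := by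
              apply mul_le_mul_of_nonneg_left _ (by positivity)
              apply mul_le_mul_of_nonneg_left _ (by norm_num)
              exact mul_le_mul_of_nonneg_left h9 (by positivity)
          _ = 16 * R * (36 * R + 1) * (Y * Real.exp (-Y)) := by ring
          _ ≤ 200 * R * (36 * R + 1) * (Y * Real.exp (-Y)) := by
              apply mul_le_mul_of_nonneg_right _ (by positivity)
              apply mul_le_mul_of_nonneg_right _ (by positivity)
              linarith
      have e4 : 2 * R * Q = 2 * R * η + 2 * R * (2 * (9 * (Y * Real.exp (-(Y / 2))))) +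
          2 * R * (2 * ((36 * R + 1) * ((Y + 1 / 2) / Real.exp (Y - 1 / 2)))) := by
        rw [hQ]
        ring
      rw [e4, e1, e2]
      linarith
    rw [h4]
    linarith
  -- assembling
  have hsplit : ∑ m ∈ MM Y, aY Y m * JJ F s K a b (Real.log p + Real.log m) =
      ∑ m ∈ NR Y, Wm m * JJ F s K a b (Real.log p + Real.log m) +
      ∑ m ∈ MM Y \ NR Y, aY Y m * JJ F s K a b (Real.log p + Real.log m) := by
    have h1 : ∑ m ∈ NR Y, Wm m * JJ F s K a b (Real.log p + Real.log m) =
        ∑ m ∈ NR Y, aY Y m * JJ F s K a b (Real.log p + Real.log m) := by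
      apply sum_congr rfl
      intro m hm
      obtain ⟨h1, h2⟩ := mem_NR.1 hm
      rw [aY_eq Pool.Agent.Q257.KS.hb (by linarith) h1 h2]
      rfl
    rw [h1, add_comm, sum_sdiff NR_sub]
  have e : ∑ m ∈ MM Y, aY Y m * JJ F s K a b (Real.log p + Real.log m) -
      2 * Real.pi * ∑ m ∈ NR Y, Wm m * be F s n₀ n₁ (p * m) =
      ∑ m ∈ NR Y, Wm m * (JJ F s K a b (Real.log p + Real.log m) - 2 * Real.pi * be F s n₀ n₁ (p * m)) +
      ∑ m ∈ MM Y \ NR Y, aY Y m * JJ F s K a b (Real.log p + Real.log m) := by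
    have h2 : ∑ m ∈ NR Y, Wm m * (JJ F s K a b (Real.log p + Real.log m) - 2 * Real.pi * be F s n₀ n₁ (p * m)) =
        ∑ m ∈ NR Y, Wm m * JJ F s K a b (Real.log p + Real.log m) -
        2 * Real.pi * ∑ m ∈ NR Y, Wm m * be F s n₀ n₁ (p * m) := by
      rw [mul_sum, ← sum_sub_distrib]
      apply sum_congr rfl
      intro m _
      ring
    rw [hsplit, h2]
    ring
  rw [e]
  refine (abs_add_le _ _).trans ?_
  linarith

end Pool.Agent.Run7.h684.E2
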