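import Pool.Agent.Run7.h684.E2.B0
import Pool.Agent.Q211.KS.Near
import Pool.Agent.Q298.KS.Sbv
import Pool.Agent.Q298.KS.Tri
import Pool.Agent.Q298.KS.Mb
import Pool.Agent.Q222.KS.KERV
import Pool.Agent.Q209.KS.Hu
import Pool.Agent.H376R2.MR.Mv

/-!
Project E2 (helper684): small sets of frequencies.
-/

set_option autoImplicit false

namespace Pool.Agent.Run7.h684.E2

open Finset Pool.Agent.H376R2.MR Pool.Agent.Q240.KS Pool.Agent.Q211.KS

theorem inv_sq_far {D : ℝ} (hD : 2 ≤ D) (L : Finset ℤ) (hL : ∀ k ∈ L, D ≤ |(k : ℝ)|) :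
    ∑ k ∈ L, 1 / (k : ℝ) ^ 2 ≤ 8 / D := by
  classical
  have h1 : ∑ k ∈ L, 1 / (k : ℝ) ^ 2 =
      ∑ j ∈ L.image Int.natAbs, ∑ k ∈ L.filter (fun k => k.natAbs = j), 1 / (k : ℝ) ^ 2 :=
    (Finset.sum_fiberwise_of_maps_to (fun k hk => mem_image_of_mem _ hk) _).symm
  rw [h1]
  have h2 : ∀ j ∈ L.image Int.natAbs, ∑ k ∈ L.filter (fun k => k.natAbs = j), 1 / (k : ℝ) ^ 2 ≤
      2 * (1 / (j : ℝ) ^ 2) := by
    intro j _
    have h3 : ∀ k ∈ L.filter (fun k => k.natAbs = j), 1 / (k : ℝ) ^ 2 = 1 / (j : ℝ) ^ 2 := by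
      intro k hk
      rw [Finset.mem_filter] at hk
      rw [← hk.2, Nat.cast_natAbs, Int.cast_abs, sq_abs]
    rw [Finset.sum_congr rfl h3, Finset.sum_const, nsmul_eq_mul]
    apply mul_le_mul_of_nonneg_right _ (by positivity)
    have h4 : L.filter (fun k => k.natAbs = j) ⊆ {(j : ℤ), -(j : ℤ)} := by
      intro k hk
      rw [Finset.mem_filter] at hk
      rw [Finset.mem_insert, Finset.mem_singleton]
      omega
    have h5 := (Finset.card_le_card h4).trans Finset.card_le_two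
    exact_mod_cast h5
  refine (Finset.sum_le_sum h2).trans ?_
  rw [← Finset.mul_sum]
  have hf1 : (1 : ℕ) ≤ ⌊D / 2⌋₊ := Nat.le_floor (by push_cast; linarith)
  have hf2 : (⌊D / 2⌋₊ : ℝ) ≤ D / 2 := Nat.floor_le (by linarith)
  have hf3 : D / 2 < ⌊D / 2⌋₊ + 1 := Nat.lt_floor_add_one _
  have hf4 : (1 : ℝ) ≤ ⌊D / 2⌋₊ := by exact_mod_cast hf1
  have h6 := mv_sum_inv_sq (L.image Int.natAbs) ⌊D / 2⌋₊ hf1 (by
    intro j hj
    rw [mem_image] at hj
    obtain ⟨k, hk, rfl⟩ := hj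
    have h7 := hL k hk
    have h8 : (⌊D / 2⌋₊ : ℝ) < (k.natAbs : ℝ) := by
      rw [Nat.cast_natAbs, Int.cast_abs]
      linarith
    exact_mod_cast h8)
  have h9 : 1 / (⌊D / 2⌋₊ : ℝ) ≤ 4 / D := by
    rw [div_le_div_iff₀ (by linarith) (by linarith)]
    linarith
  calc 2 * ∑ j ∈ L.image Int.natAbs, 1 / (j : ℝ) ^ 2 ≤ 2 * (4 / D) :=
        mul_le_mul_of_nonneg_left (h6.trans h9) (by norm_num)
    _ = 8 / D := by ring

theorem small_set : ∃ ε₂ : ℝ, 0 < ε₂ ∧ ∀ B : ℕ, ∃ A : ℕ, ∃ Y₀ : ℝ, ∀ Y : ℝ, Y₀ ≤ Y → ∀ d ∈ DY Y,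
    ∀ L : Finset ℤ, (∀ k ∈ L, Y ^ A ≤ |(k : ℝ)| ∧ |(k : ℝ)| ≤ Real.exp Y) →
    (L.card : ℝ) ≤ Real.exp (ε₂ * Y) → ∑ k ∈ L, ‖EE (zY Y) d k‖ ^ 2 ≤ 1 / Y ^ B := by
  classical
  have hsbv := Pool.Agent.Q298.KS.sbv
  have hkerv := Pool.Agent.Q222.KS.kerv
  have hhmg := Pool.Agent.Q209.KS.hmg
  have htri := Pool.Agent.Q298.KS.tri
  have hmb := Pool.Agent.Q298.KS.mb
  obtain ⟨C, η, hC, hη, hη2, hs⟩ := hsbv 100
  obtain ⟨C', η', hC', hη', hη'2, hk⟩ := hkerv 9
  obtain ⟨ε₂, he0, he1, he2⟩ : ∃ ε₂ : ℝ, 0 < ε₂ ∧ ε₂ ≤ η / 100 ∧ ε₂ ≤ η' / 8 :=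
    ⟨min (η / 100) (η' / 8), lt_min (by positivity) (by positivity), min_le_left _ _, min_le_right _ _⟩
  refine ⟨ε₂, he0, fun B => ?_⟩
  obtain ⟨C₃, hC₃, hm⟩ := hmb 9 (B + 9)
  set K1 : ℝ := 50 ^ 18 * C ^ 2 * 42 ^ 2 * 2 with hK1
  have hK10 : 0 < K1 := by positivity
  obtain ⟨Y₁, hY₁⟩ := poly_exp (2 * K1) (B + 20) (show 0 < η / 100 by positivity)
  refine ⟨B + 21, max (max 200 (16 * K1)) (max Y₁ (C₃ ^ 2 * 50 ^ 16 * (12 * C'))), ?_⟩
  intro Y hY d hd L hL hcard
  have hY1 : 200 ≤ Y := ((le_max_left _ _).trans (le_max_left _ _)).trans hY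
  have hY2 : 16 * K1 ≤ Y := ((le_max_right _ _).trans (le_max_left _ _)).trans hY
  have hY3 := hY₁ Y (((le_max_left _ _).trans (le_max_right _ _)).trans hY)
  have hY4 : C₃ ^ 2 * 50 ^ 16 * (12 * C') ≤ Y := ((le_max_right _ _).trans (le_max_right _ _)).trans hY
  have hY0 : 0 < Y := by linarith
  unfold DY at hd
  rw [Finset.mem_filter, Fintype.mem_piFinset] at hd
  obtain ⟨hd1, hd2⟩ := hd
  have hdu : ∀ i, (d i : ℝ) ≤ 20 * (Y + 1) := by
    intro i
    have h1 := Finset.mem_range.1 (hd1 i)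
    have h2 : d i ≤ ⌊20 * (Y + 1)⌋₊ := by omega
    exact (Nat.cast_le.2 h2).trans (Nat.floor_le (by linarith))
  have hYA : 2 ≤ Y ^ (B + 21) := by
    calc (2 : ℝ) ≤ Y := by linarith
      _ = Y ^ 1 := (pow_one Y).symm
      _ ≤ Y ^ (B + 21) := pow_le_pow_right₀ (by linarith) (by omega)
  have hpos : ∀ k ∈ L, k ≠ 0 := by
    intro k hk' hc
    have h1 := (hL k hk').1
    rw [hc] at h1
    simp only [Int.cast_zero, abs_zero] at h1
    linarith
  have hT : ∀ (i : Fin 10) (k : ℤ), ‖PF (zY Y) (ty i) (d i) k‖ ≤ 50 * Y := by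
    intro i k
    have h1 := (htri (zY Y) (ty i) (d i) k).1
    linarith [hdu i]
  by_cases hlong : ∃ i : Fin 10, 5 ≤ (i : ℕ) ∧ Y / 5 ≤ (d i : ℝ)
  · -- a long smooth factor
    obtain ⟨i, hi, hdi⟩ := hlong
    have hty : ty i ≠ 0 := by
      unfold ty
      rw [if_neg (by omega)]
      split_ifs <;> decide
    have hterm : ∀ k ∈ L, ‖EE (zY Y) d k‖ ^ 2 ≤
        K1 * Y ^ 20 * (1 / (k : ℝ) ^ 2 + Real.exp (-(η / 50 * Y))) := by
      intro k hk'
      have hkle : |(k : ℝ)| ≤ Real.exp ((100 : ℕ) * (d i : ℝ) / 20) := by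
        refine (hL k hk').2.trans (Real.exp_le_exp.2 ?_)
        push_cast
        linarith
      have h1 := hs (zY Y) (ty i) (d i) k hty (hpos k hk') hkle
      have h4 : Real.exp (-(η * d i / 20)) ≤ Real.exp (-(η / 100 * Y)) := by
        apply Real.exp_le_exp.2
        have h7 : η * (Y / 5) ≤ η * d i := mul_le_mul_of_nonneg_left hdi hη.le
        linarith
      have hk0 : 0 < |(k : ℝ)| := by
        have := (hL k hk').1
        linarith
      have h5 : ‖PF (zY Y) (ty i) (d i) k‖ ≤ C * (42 * Y) * (1 / |(k : ℝ)| + Real.exp (-(η / 100 * Y))) := by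
        refine h1.trans ?_
        apply mul_le_mul _ (by linarith) (by positivity) (by positivity)
        exact mul_le_mul_of_nonneg_left (by linarith [hdu i]) (by linarith)
      have h6 : ‖EE (zY Y) d k‖ ≤ C * (42 * Y) * (1 / |(k : ℝ)| + Real.exp (-(η / 100 * Y))) *
          (50 * Y) ^ 9 := by
        unfold EE
        rw [norm_prod, ← Finset.mul_prod_erase univ _ (Finset.mem_univ i)]
        apply mul_le_mul h5 _ (Finset.prod_nonneg fun _ _ => norm_nonneg _) (by positivity)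
        calc ∏ j ∈ univ.erase i, ‖PF (zY Y) (ty j) (d j) k‖ ≤ ∏ j ∈ univ.erase i, (50 * Y) :=
              Finset.prod_le_prod (fun _ _ => norm_nonneg _) fun j _ => hT j k
          _ = (50 * Y) ^ 9 := by
              rw [Finset.prod_const, Finset.card_erase_of_mem (Finset.mem_univ i)]
              simp
      have h7 : (1 / |(k : ℝ)| + Real.exp (-(η / 100 * Y))) ^ 2 ≤
          2 * (1 / (k : ℝ) ^ 2 + Real.exp (-(η / 50 * Y))) := by
        have e1 : 1 / (k : ℝ) ^ 2 = (1 / |(k : ℝ)|) ^ 2 := by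
          rw [div_pow, one_pow, sq_abs]
        have e2 : Real.exp (-(η / 50 * Y)) = Real.exp (-(η / 100 * Y)) ^ 2 := by
          rw [← Real.exp_nat_mul]
          congr 1
          push_cast
          ring
        rw [e1, e2]
        nlinarith [sq_nonneg (1 / |(k : ℝ)| - Real.exp (-(η / 100 * Y)))]
      calc ‖EE (zY Y) d k‖ ^ 2 ≤ (C * (42 * Y) * (1 / |(k : ℝ)| + Real.exp (-(η / 100 * Y))) *
            (50 * Y) ^ 9) ^ 2 := pow_le_pow_left₀ (norm_nonneg _) h6 2
        _ = 50 ^ 18 * C ^ 2 * 42 ^ 2 * Y ^ 20 * (1 / |(k : ℝ)| + Real.exp (-(η / 100 * Y))) ^ 2 := by ring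
        _ ≤ 50 ^ 18 * C ^ 2 * 42 ^ 2 * Y ^ 20 * (2 * (1 / (k : ℝ) ^ 2 + Real.exp (-(η / 50 * Y)))) :=
            mul_le_mul_of_nonneg_left h7 (by positivity)
        _ = K1 * Y ^ 20 * (1 / (k : ℝ) ^ 2 + Real.exp (-(η / 50 * Y))) := by
            rw [hK1]
            ring
    refine (Finset.sum_le_sum hterm).trans ?_
    rw [← Finset.mul_sum, Finset.sum_add_distrib, Finset.sum_const, nsmul_eq_mul]
    have h1 := inv_sq_far hYA L (fun k hk' => (hL k hk').1)
    have h2 : (L.card : ℝ) * Real.exp (-(η / 50 * Y)) ≤ Real.exp (-(η / 100 * Y)) := by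
      calc (L.card : ℝ) * Real.exp (-(η / 50 * Y)) ≤ Real.exp (ε₂ * Y) * Real.exp (-(η / 50 * Y)) :=
            mul_le_mul_of_nonneg_right hcard (Real.exp_pos _).le
        _ = Real.exp (ε₂ * Y + -(η / 50 * Y)) := (Real.exp_add _ _).symm
        _ ≤ _ := by
            apply Real.exp_le_exp.2
            have : ε₂ * Y ≤ η / 100 * Y := mul_le_mul_of_nonneg_right he1 hY0.le
            linarith
    have h3 : K1 * Y ^ 20 * (8 / Y ^ (B + 21)) ≤ 1 / (2 * Y ^ B) := by
      have e1 : Y ^ (B + 21) = Y ^ B * Y ^ 20 * Y := by ring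
      rw [e1, mul_div_assoc', div_le_div_iff₀ (by positivity) (by positivity)]
      have h9 : 0 < Y ^ B := by positivity
      have h10 : 0 < Y ^ 20 := by positivity
      calc K1 * Y ^ 20 * 8 * (2 * Y ^ B) = (16 * K1) * (Y ^ B * Y ^ 20) := by ring
        _ ≤ Y * (Y ^ B * Y ^ 20) := mul_le_mul_of_nonneg_right hY2 (by positivity)
        _ = 1 * (Y ^ B * Y ^ 20 * Y) := by ring
    have h4 : K1 * Y ^ 20 * Real.exp (-(η / 100 * Y)) ≤ 1 / (2 * Y ^ B) := by
      rw [le_div_iff₀ (by positivity)]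
      calc K1 * Y ^ 20 * Real.exp (-(η / 100 * Y)) * (2 * Y ^ B) =
            2 * K1 * Y ^ (B + 20) * Real.exp (-(η / 100 * Y)) := by ring
        _ ≤ 1 := hY3
    calc K1 * Y ^ 20 * (∑ k ∈ L, 1 / (k : ℝ) ^ 2 + (L.card : ℝ) * Real.exp (-(η / 50 * Y)))
        ≤ K1 * Y ^ 20 * (8 / Y ^ (B + 21) + Real.exp (-(η / 100 * Y))) :=
          mul_le_mul_of_nonneg_left (add_le_add h1 h2) (by positivity)
      _ = K1 * Y ^ 20 * (8 / Y ^ (B + 21)) + K1 * Y ^ 20 * Real.exp (-(η / 100 * Y)) := by ring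
      _ ≤ 1 / (2 * Y ^ B) + 1 / (2 * Y ^ B) := add_le_add h3 h4
      _ = 1 / Y ^ B := by field_simp; norm_num
  · push Not at hlong
    by_cases hmob : ∃ i : Fin 10, (i : ℕ) < 5 ∧ 4 * Y + 9 ≤ (d i : ℝ)
    · obtain ⟨i, hi, hdi⟩ := hmob
      have hty : ty i = 0 := by
        unfold ty
        rw [if_pos hi]
      have h0 : ∀ k ∈ L, ‖EE (zY Y) d k‖ ^ 2 = 0 := by
        intro k _
        have h1 : PF (zY Y) (ty i) (d i) k = 0 := by
          rw [hty]
          by_contra hc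
          linarith [mob_short hc]
        have h2 : EE (zY Y) d k = 0 := by
          unfold EE
          exact Finset.prod_eq_zero (Finset.mem_univ i) h1
        rw [h2]
        simp
      rw [Finset.sum_eq_zero h0]
      positivity
    · push Not at hmob
      have h3 : ∀ j : Fin 10, (j : ℕ) < 5 → 5 / 2 * Y ≤ (d j : ℝ) := by
        intro j hj
        have h1 : ∑ i, (d i : ℝ) = d j + ∑ i ∈ univ.erase j, (d i : ℝ) :=
          (Finset.add_sum_erase univ (fun i => (d i : ℝ)) (Finset.mem_univ j)).symm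
        have h2 : ∑ i ∈ univ.erase j, (d i : ℝ) ≤
            ∑ i ∈ univ.erase j, (if (i : ℕ) < 5 then 4 * Y + 9 else Y / 5) := by
          refine Finset.sum_le_sum fun i _ => ?_
          split_ifs with hi
          · exact (hmob i hi).le
          · exact (hlong i (by omega)).le
        have h6 : ∑ i : Fin 10, (if (i : ℕ) < 5 then 4 * Y + 9 else Y / 5) =
            (4 * Y + 9) + ∑ i ∈ univ.erase j, (if (i : ℕ) < 5 then 4 * Y + 9 else Y / 5) := by
          rw [← Finset.add_sum_erase univ _ (Finset.mem_univ j), if_pos hj]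
        have h7 : ∑ i : Fin 10, (if (i : ℕ) < 5 then 4 * Y + 9 else Y / 5) =
            5 * (4 * Y + 9) + 5 * (Y / 5) := by
          simp only [Fin.sum_univ_succ, Fin.val_succ, Fin.val_zero]
          norm_num
          ring
        have h8 := (abs_le.1 hd2).1
        linarith
      have hd0 := h3 0 (by norm_num)
      have hd1' := h3 1 (by norm_num)
      have hty0 : ty 0 = 0 := by
        unfold ty
        rw [if_pos (by norm_num)]
      have hty1 : ty 1 = 0 := by
        unfold ty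
        rw [if_pos (by norm_num)]
      -- mean square of the first factor
      have hms : ∑ k ∈ L, ‖PF (zY Y) (ty 0) (d 0) k‖ ^ 2 ≤ 12 * C' := by
        apply sq_sum hC' hhmg htri (by rw [hty0]; decide)
        have hN := hk (Real.exp ((d 0 : ℝ) / 20)) (Real.one_le_exp (by positivity))
        apply row_le (R := Real.exp ((d 0 : ℝ) / 20) ^ (-η')) hC' hN.1
        · intro k hk' l hl' hkl
          apply hN.2 (k - l) (sub_ne_zero.2 hkl)
          have h1 : |(((k - l : ℤ)) : ℝ)| ≤ |(k : ℝ)| + |(l : ℝ)| := by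
            push_cast
            exact abs_sub _ _
          rw [← Real.exp_nat_mul]
          have h2 : Real.exp (1.125 * Y) ≤ Real.exp (((9 : ℕ) : ℝ) * ((d 0 : ℝ) / 20)) := by
            apply Real.exp_le_exp.2
            push_cast
            linarith
          have h6 : Real.exp (1.125 * Y) = Real.exp (0.125 * Y) * Real.exp Y := by
            rw [← Real.exp_add]
            congr 1
            ring
          have h8 : (2 : ℝ) ≤ Real.exp (0.125 * Y) := by
            have := Real.add_one_le_exp (0.125 * Y)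
            linarith
          have h7 : 2 * Real.exp Y ≤ Real.exp (0.125 * Y) * Real.exp Y :=
            mul_le_mul_of_nonneg_right h8 (Real.exp_pos _).le
          linarith [(hL k hk').2, (hL l hl').2]
        · positivity
        · have h1 : Real.exp ((d 0 : ℝ) / 20) ^ (-η') ≤ Real.exp (-(ε₂ * Y)) := by
            rw [← Real.exp_mul]
            apply Real.exp_le_exp.2
            have h6 : 0.125 * Y * η' ≤ (d 0 : ℝ) / 20 * η' := mul_le_mul_of_nonneg_right (by linarith) hη'.le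
            have h7 : ε₂ * Y ≤ η' / 8 * Y := mul_le_mul_of_nonneg_right he2 hY0.le
            linarith
          calc (L.card : ℝ) * Real.exp ((d 0 : ℝ) / 20) ^ (-η')
              ≤ Real.exp (ε₂ * Y) * Real.exp (-(ε₂ * Y)) :=
                mul_le_mul hcard h1 (by positivity) (Real.exp_pos _).le
            _ = 1 := by
                rw [← Real.exp_add]
                simp
      have hsec : ∀ k ∈ L, ‖PF (zY Y) (ty 1) (d 1) k‖ ≤ C₃ / Y ^ (B + 9) := by
        intro k hk'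
        have h1 := hm (zY Y) (d 1) k (by
          refine (hL k hk').2.trans (Real.exp_le_exp.2 ?_)
          push_cast
          linarith)
        rw [hty1]
        refine h1.trans ?_
        apply div_le_div_of_nonneg_left (by linarith) (by positivity)
        exact pow_le_pow_left₀ hY0.le (by linarith) _
      have hterm : ∀ k ∈ L, ‖EE (zY Y) d k‖ ^ 2 ≤
          C₃ ^ 2 * 50 ^ 16 / Y ^ (2 * B + 2) * ‖PF (zY Y) (ty 0) (d 0) k‖ ^ 2 := by
        intro k hk'
        have h6 : ‖EE (zY Y) d k‖ ≤ ‖PF (zY Y) (ty 0) (d 0) k‖ * (C₃ / Y ^ (B + 9) * (50 * Y) ^ 8) := by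
          unfold EE
          rw [norm_prod, ← Finset.mul_prod_erase univ _ (Finset.mem_univ (0 : Fin 10))]
          apply mul_le_mul_of_nonneg_left _ (norm_nonneg _)
          have hmem : (1 : Fin 10) ∈ univ.erase (0 : Fin 10) := by decide
          rw [← Finset.mul_prod_erase _ _ hmem]
          apply mul_le_mul (hsec k hk') _ (Finset.prod_nonneg fun _ _ => norm_nonneg _) (by positivity)
          calc ∏ j ∈ (univ.erase (0 : Fin 10)).erase 1, ‖PF (zY Y) (ty j) (d j) k‖ ≤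
                ∏ j ∈ (univ.erase (0 : Fin 10)).erase 1, (50 * Y) :=
                Finset.prod_le_prod (fun _ _ => norm_nonneg _) fun j _ => hT j k
            _ = (50 * Y) ^ 8 := by
                rw [Finset.prod_const]
                congr 1
        calc ‖EE (zY Y) d k‖ ^ 2 ≤
              (‖PF (zY Y) (ty 0) (d 0) k‖ * (C₃ / Y ^ (B + 9) * (50 * Y) ^ 8)) ^ 2 :=
              pow_le_pow_left₀ (norm_nonneg _) h6 2
          _ = C₃ ^ 2 * 50 ^ 16 / Y ^ (2 * B + 2) * ‖PF (zY Y) (ty 0) (d 0) k‖ ^ 2 := by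
              have e1 : Y ^ (B + 9) = Y ^ (B + 1) * Y ^ 8 := by ring
              have e2 : Y ^ (2 * B + 2) = Y ^ (B + 1) * Y ^ (B + 1) := by ring
              rw [e1, e2]
              field_simp
      refine (Finset.sum_le_sum hterm).trans ?_
      rw [← Finset.mul_sum]
      calc C₃ ^ 2 * 50 ^ 16 / Y ^ (2 * B + 2) * ∑ k ∈ L, ‖PF (zY Y) (ty 0) (d 0) k‖ ^ 2
          ≤ C₃ ^ 2 * 50 ^ 16 / Y ^ (2 * B + 2) * (12 * C') := mul_le_mul_of_nonneg_left hms (by positivity)
        _ = C₃ ^ 2 * 50 ^ 16 * (12 * C') / Y ^ (2 * B + 2) := by ring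
        _ ≤ Y / Y ^ (2 * B + 2) := div_le_div_of_nonneg_right hY4 (by positivity)
        _ ≤ 1 / Y ^ B := by
            rw [div_le_div_iff₀ (by positivity) (by positivity), one_mul]
            calc Y * Y ^ B = Y ^ (B + 1) := by ring
              _ ≤ Y ^ (2 * B + 2) := pow_le_pow_right₀ (by linarith) (by omega)

end Pool.Agent.Run7.h684.E2
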