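import Pool.Agent.Run7.h684.E2.Ker
import Pool.Agent.Run7.h684.E2.Pn

/-!
Project E2 (helper684): windows.
-/

set_option autoImplicit false

namespace Pool.Agent.Run7.h684.E2

open Finset MeasureTheory Pool.Agent.H376R2.MR Pool.Agent.Q240.KS Pool.Agent.Q95.KS

theorem sg_le {r : ℕ} {s : Finset ℕ} (hs : s ⊆ cell 100 r) : sg s ≤ 2 := by
  refine le_trans ?_ (mm_le 100 r (by norm_num))
  unfold mm sg
  exact sum_le_sum_of_subset_of_nonneg hs fun _ _ _ => by positivity

/-- the integral of the kernel sum over a window -/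
theorem Win (B : ℕ) : ∃ C₁ : ℝ, 0 < C₁ ∧ ∃ Y₀ : ℝ, 100 ≤ Y₀ ∧ ∀ Y : ℝ, Y₀ ≤ Y →
    ∀ (r : ℕ) (s : Finset ℕ), C₁ * Real.log Y ≤ (r : ℝ) / 100 → (r : ℝ) / 100 ≤ Y → s ⊆ cell 100 r →
    ∀ G : ℝ → ℝ, Measurable G → (∀ u, |G u| ≤ 1) → ∀ a b : ℝ, Y + (r : ℝ) / 100 - 0.3 ≤ a → a ≤ b →
    b ≤ Y + (r : ℝ) / 100 + 0.3 →
    |(∫ u in a..b, G u * Ph Y s ⌊Real.exp Y⌋₊ u) - 2 * Real.pi * sg s * ∫ u in a..b, G u| ≤ 1 / Y ^ B := by
  obtain ⟨C₁, hC₁, c₀, hL2⟩ := L2 (2 * B + 2)
  obtain ⟨c₁, hPn⟩ := Pn (B + 1)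
  obtain ⟨Y₁, hY₁, hL⟩ := hL2 (max c₀ c₁) (le_max_left _ _)
  obtain ⟨Y₂, hY₂, hP⟩ := hPn (max c₀ c₁) (le_max_right _ _)
  refine ⟨C₁, hC₁, max Y₁ Y₂, hY₁.trans (le_max_left _ _), ?_⟩
  intro Y hY r s hr1 hr2 hs G hGm hG1 a b ha hab hb
  have hYa : Y₁ ≤ Y := (le_max_left _ _).trans hY
  have hYb : Y₂ ≤ Y := (le_max_right _ _).trans hY
  have hY100 : 100 ≤ Y := hY₁.trans hYa
  have hY0 : 0 < Y := by linarith
  set c := max c₀ c₁ with hc
  set K := ⌊Real.exp Y⌋₊ with hK
  set K₁ := ⌈Y ^ c⌉₊ with hK₁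
  set Z : ℝ := Y + (r : ℝ) / 100 with hZ
  obtain ⟨hK1, hKK, hint⟩ := hL Y hYa r s hr1 hr2 hs Z
  have hpi3 := Real.pi_gt_three
  have hpi4 := Real.pi_le_four
  set D : ℝ → ℝ := fun u => Ph Y s K u - Ph Y s K₁ u with hD
  have hDc : Continuous D := (Ph_cont Y s K).sub (Ph_cont Y s K₁)
  -- the low resolution
  have hlow : ∀ u, a ≤ u → u ≤ b → |Ph Y s K₁ u - 2 * Real.pi * sg s| ≤ sg s * (1 / Y ^ (B + 1)) := by
    intro u hu1 hu2
    have e : Ph Y s K₁ u - 2 * Real.pi * sg s = ∑ p ∈ s, 1 / (p : ℝ) *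
        (∑ m ∈ MM Y, aY Y m * Fj K₁ ((u - Real.log p) - Real.log m) - 2 * Real.pi) := by
      unfold Ph sg
      rw [mul_sum, ← sum_sub_distrib]
      apply sum_congr rfl
      intro p _
      rw [mul_sub, mul_sum]
      congr 1
      · apply sum_congr rfl
        intro m _
        have e2 : u - Real.log p - Real.log m = u - (Real.log p + Real.log m) := by ring
        rw [e2]
        ring
      · ring
    rw [e]
    unfold sg
    rw [sum_mul]
    refine (abs_sum_le_sum_abs _ _).trans (sum_le_sum fun p hp => ?_)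
    rw [abs_mul, abs_of_nonneg (show (0 : ℝ) ≤ 1 / p by positivity)]
    apply mul_le_mul_of_nonneg_left _ (by positivity)
    apply hP Y hYb
    obtain ⟨h1, h2⟩ := mom_cell_log (hs hp)
    have e3 : ((r : ℝ) + 1) / (100 : ℕ) = (r : ℝ) / 100 + 0.01 := by
      push_cast
      ring
    have e4 : (r : ℝ) / (100 : ℕ) = (r : ℝ) / 100 := by
      push_cast
      ring
    rw [e3] at h2
    rw [e4] at h1
    rw [abs_le]
    constructor <;> linarith
  -- the difference in mean
  have hdiff : ∫ u in a..b, |D u| ≤ 4 / Y ^ (B + 1) := by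
    have hDi : ∀ p q : ℝ, IntervalIntegrable (fun u => |D u|) volume p q := fun p q =>
      hDc.abs.intervalIntegrable _ _
    have h1 : ∫ u in a..b, |D u| ≤ ∫ u in (Z - Real.pi)..(Z + Real.pi), |D u| := by
      apply intervalIntegral.integral_mono_interval (by linarith) hab (by linarith) _ (hDi _ _)
      filter_upwards with u
      exact abs_nonneg _
    have h2 : ∫ u in (Z - Real.pi)..(Z + Real.pi), |D u| = ∫ x in (-Real.pi)..Real.pi, |D (Z + x)| := by
      rw [intervalIntegral.integral_comp_add_left (fun u => |D u|) Z]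
      rfl
    have hDZ : Continuous (fun x => D (Z + x)) := hDc.comp (continuous_const.add continuous_id)
    have h3 : ∫ x in (-Real.pi)..Real.pi, |D (Z + x)| ≤
        ∫ x in (-Real.pi)..Real.pi, (Y ^ (B + 1) / 2 * D (Z + x) ^ 2 + 1 / (2 * Y ^ (B + 1))) := by
      apply intervalIntegral.integral_mono_on (by linarith) (hDZ.abs.intervalIntegrable _ _)
      · apply Continuous.intervalIntegrable
        exact (continuous_const.mul (hDZ.pow 2)).add continuous_const
      · intro x _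
        set z := D (Z + x) with hz
        set w := Y ^ (B + 1) with hw
        have hw0 : 0 < w := by positivity
        have h4 : w / 2 * z ^ 2 + 1 / (2 * w) - |z| = (w * |z| - 1) ^ 2 / (2 * w) := by
          rw [← sq_abs z]
          field_simp
          ring
        have h5 : 0 ≤ (w * |z| - 1) ^ 2 / (2 * w) := by positivity
        linarith
    have h4 : ∫ x in (-Real.pi)..Real.pi, (Y ^ (B + 1) / 2 * D (Z + x) ^ 2 + 1 / (2 * Y ^ (B + 1))) =
        Y ^ (B + 1) / 2 * (∫ x in (-Real.pi)..Real.pi, D (Z + x) ^ 2) + Real.pi * (1 / Y ^ (B + 1)) := by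
      rw [intervalIntegral.integral_add, intervalIntegral.integral_const_mul,
        intervalIntegral.integral_const, smul_eq_mul]
      · field_simp
        ring
      · exact (continuous_const.mul (hDZ.pow 2)).intervalIntegrable _ _
      · exact intervalIntegrable_const
    have h5 : Y ^ (B + 1) / 2 * (∫ x in (-Real.pi)..Real.pi, D (Z + x) ^ 2) ≤ 1 / (2 * Y ^ (B + 1)) := by
      calc Y ^ (B + 1) / 2 * (∫ x in (-Real.pi)..Real.pi, D (Z + x) ^ 2)
          ≤ Y ^ (B + 1) / 2 * (1 / Y ^ (2 * B + 2)) := mul_le_mul_of_nonneg_left hint (by positivity)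
        _ = 1 / (2 * Y ^ (B + 1)) := by
            have e : Y ^ (2 * B + 2) = Y ^ (B + 1) * Y ^ (B + 1) := by ring
            rw [e]
            field_simp
    have hpi5 : Real.pi ≤ 3.2 := by
      have := Real.pi_lt_d2
      linarith
    calc ∫ u in a..b, |D u| ≤ 1 / (2 * Y ^ (B + 1)) + Real.pi * (1 / Y ^ (B + 1)) := by linarith
      _ ≤ 1 / (2 * Y ^ (B + 1)) + 3.2 * (1 / Y ^ (B + 1)) := by
          have : Real.pi * (1 / Y ^ (B + 1)) ≤ 3.2 * (1 / Y ^ (B + 1)) :=
            mul_le_mul_of_nonneg_right hpi5 (by positivity)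
          linarith
      _ = 3.7 * (1 / Y ^ (B + 1)) := by ring
      _ ≤ 4 * (1 / Y ^ (B + 1)) := mul_le_mul_of_nonneg_right (by norm_num) (by positivity)
      _ = 4 / Y ^ (B + 1) := by ring
  -- assembling
  have hsplit : (∫ u in a..b, G u * Ph Y s K u) - 2 * Real.pi * sg s * ∫ u in a..b, G u =
      (∫ u in a..b, G u * D u) + ∫ u in a..b, G u * (Ph Y s K₁ u - 2 * Real.pi * sg s) := by
    rw [← intervalIntegral.integral_const_mul, ← intervalIntegral.integral_sub,
      ← intervalIntegral.integral_add]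
    · apply intervalIntegral.integral_congr
      intro u _
      simp only [hD]
      ring
    · exact G_int hGm hG1 hDc a b
    · exact G_int hGm hG1 ((Ph_cont Y s K₁).sub continuous_const) a b
    · exact G_int hGm hG1 (Ph_cont Y s K) a b
    · exact (G_int1 hGm hG1 a b).const_mul _
  rw [hsplit]
  have e1 : |∫ u in a..b, G u * D u| ≤ 4 / Y ^ (B + 1) := by
    refine le_trans ?_ hdiff
    have h2 := intervalIntegral.norm_integral_le_of_norm_le (μ := volume)
      (f := fun u => G u * D u) (g := fun u => |D u|) hab (by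
        filter_upwards with u _
        rw [Real.norm_eq_abs, abs_mul]
        calc |G u| * |D u| ≤ 1 * |D u| := mul_le_mul_of_nonneg_right (hG1 u) (abs_nonneg _)
          _ = |D u| := one_mul _) (hDc.abs.intervalIntegrable _ _)
    rw [Real.norm_eq_abs] at h2
    exact h2
  have e2 : |∫ u in a..b, G u * (Ph Y s K₁ u - 2 * Real.pi * sg s)| ≤ 2 / Y ^ (B + 1) := by
    have h2 := intervalIntegral.norm_integral_le_of_norm_le_const (a := a) (b := b)
      (f := fun u => G u * (Ph Y s K₁ u - 2 * Real.pi * sg s)) (C := sg s * (1 / Y ^ (B + 1))) (by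
        intro u hu
        rw [Set.uIoc_of_le hab] at hu
        rw [Real.norm_eq_abs, abs_mul]
        calc |G u| * |Ph Y s K₁ u - 2 * Real.pi * sg s| ≤ 1 * (sg s * (1 / Y ^ (B + 1))) :=
              mul_le_mul (hG1 u) (hlow u hu.1.le hu.2) (abs_nonneg _) zero_le_one
          _ = _ := one_mul _)
    rw [Real.norm_eq_abs] at h2
    refine h2.trans ?_
    have h3 : |b - a| ≤ 1 := by
      rw [abs_of_nonneg (by linarith)]
      linarith
    calc sg s * (1 / Y ^ (B + 1)) * |b - a| ≤ 2 * (1 / Y ^ (B + 1)) * 1 := by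
          apply mul_le_mul _ h3 (abs_nonneg _) (by positivity)
          exact mul_le_mul_of_nonneg_right (sg_le hs) (by positivity)
      _ = 2 / Y ^ (B + 1) := by ring
  refine (abs_add_le _ _).trans ((add_le_add e1 e2).trans ?_)
  have e : Y ^ (B + 1) = Y ^ B * Y := by ring
  rw [e, ← add_div, div_le_div_iff₀ (by positivity) (by positivity)]
  have hB : 0 < Y ^ B := by positivity
  nlinarith

end Pool.Agent.Run7.h684.E2
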