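import Pool.Agent.Run7.h684.E2.WinF0
import Pool.Agent.Run7.h684.E2.Pp
import Pool.Agent.Run7.h684.E2.Win
import Pool.Agent.Run7.h684.E2.Ifc

/-!
Project E2 (helper684): windows, for the products of the primes of a cell and the integers.
-/

set_option autoImplicit false

namespace Pool.Agent.Run7.h684.E2

open Finset MeasureTheory Pool.Agent.H376R2.MR Pool.Agent.Q240.KS Pool.Agent.Q95.KS
open Pool.Agent.H499R2.CO

/-- windows -/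
theorem WinF (e : ℕ) {ε : ℝ} (hε : 0 < ε) (hε1 : ε ≤ 1) : ∃ θ : ℝ, 0 < θ ∧ θ ≤ 1 / 8 ∧ ∀ B : ℕ, ∃ C₁ : ℝ, 0 < C₁ ∧
    ∃ Y₀ : ℝ, 100 ≤ Y₀ ∧
    ∀ Y : ℝ, Y₀ ≤ Y → ∀ F : ℤ → ℝ, Coal F → (∀ x, |F x| ≤ 1) → ∀ s : ℤ, Ok e (θ * Y) s →
    ∀ r : ℕ, C₁ * Real.log Y ≤ (r : ℝ) / 100 → (r : ℝ) / 100 ≤ θ * Y → ∀ S : Finset ℕ, S ⊆ cell 100 r →
    ∀ n₀ n₁ : ℕ, 1 ≤ n₀ → n₀ ≤ n₁ →
    Y + (r : ℝ) / 100 - 0.3 ≤ Real.log n₀ → Real.log n₁ ≤ Y + (r : ℝ) / 100 + 0.3 →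
    |∑ n ∈ Ico n₀ n₁, (ww S n / n - sg S * (Real.log ((n + 1 : ℕ) : ℝ) - Real.log n)) * F (s * (n : ℤ))| ≤
      ε * sg S + 1 / Y ^ B := by
  obtain ⟨θ, hθ, hθ1, Y₁, hY₁, hpp⟩ := per_p e hε hε1
  refine ⟨θ, hθ, hθ1, fun B => ?_⟩
  obtain ⟨C₁, hC₁, Y₂, hY₂, hwin⟩ := Win B
  refine ⟨C₁ + 1, by positivity, max Y₁ Y₂, hY₁.trans (le_max_left _ _), ?_⟩
  intro Y hY F hF hF1 s hs r hr1 hr2 S hS n₀ n₁ hn₀ hn₁ h0 h1
  have hYa : Y₁ ≤ Y := (le_max_left _ _).trans hY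
  have hYb : Y₂ ≤ Y := (le_max_right _ _).trans hY
  have hY100 : 100 ≤ Y := hY₁.trans hYa
  have hlog1 : 1 ≤ Real.log Y := by
    rw [Real.le_log_iff_exp_le (by linarith)]
    linarith [Real.exp_one_lt_d9]
  have hr3 : C₁ * Real.log Y ≤ (r : ℝ) / 100 := by
    have : (C₁ + 1) * Real.log Y = C₁ * Real.log Y + Real.log Y := by ring
    linarith
  have hr4 : 1 ≤ (r : ℝ) / 100 := by
    have : (C₁ + 1) * Real.log Y = C₁ * Real.log Y + Real.log Y := by ring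
    have h2 : 0 ≤ C₁ * Real.log Y := by positivity
    linarith
  have hr5 : (r : ℝ) / 100 ≤ Y := by nlinarith
  have hpi3 := Real.pi_gt_three
  have hab : Real.log (n₀ : ℝ) ≤ Real.log n₁ :=
    Real.log_le_log (by exact_mod_cast hn₀) (by exact_mod_cast hn₁)
  have hw := hwin Y hYb r S hr3 hr5 hS (GF F s) (GF_meas F s) (GF_le hF1 s) (Real.log n₀) (Real.log n₁) h0 hab h1
  rw [int_Ph hF1, GF_sum hF1 s hn₀ hn₁] at hw
  have hp : |∑ p ∈ S, 1 / (p : ℝ) * ∑ m ∈ MM Y, aY Y m *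
      JJ F s ⌊Real.exp Y⌋₊ (Real.log n₀) (Real.log n₁) (Real.log p + Real.log m) -
      2 * Real.pi * ∑ p ∈ S, 1 / (p : ℝ) * ∑ m ∈ NR Y, Wm m * be F s n₀ n₁ (p * m)| ≤ ε * sg S := by
    rw [mul_sum, ← sum_sub_distrib]
    unfold sg
    rw [mul_sum]
    refine (abs_sum_le_sum_abs _ _).trans (sum_le_sum fun p hp => ?_)
    have e : 1 / (p : ℝ) * ∑ m ∈ MM Y, aY Y m *
      JJ F s ⌊Real.exp Y⌋₊ (Real.log n₀) (Real.log n₁) (Real.log p + Real.log m) -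
      2 * Real.pi * (1 / (p : ℝ) * ∑ m ∈ NR Y, Wm m * be F s n₀ n₁ (p * m)) =
      1 / (p : ℝ) * (∑ m ∈ MM Y, aY Y m *
      JJ F s ⌊Real.exp Y⌋₊ (Real.log n₀) (Real.log n₁) (Real.log p + Real.log m) -
      2 * Real.pi * ∑ m ∈ NR Y, Wm m * be F s n₀ n₁ (p * m)) := by ring
    rw [e, abs_mul, abs_of_nonneg (show (0 : ℝ) ≤ 1 / p by positivity), mul_comm ε]
    apply mul_le_mul_of_nonneg_left _ (by positivity)
    apply hpp Y hYa F hF hF1 s hs r hr2 p (hS hp) _ n₀ n₁ hn₀ hn₁ h0 h1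
    rintro rfl
    obtain ⟨_, h2, _⟩ := smoo_mem_cell (hS hp)
    have h3 : Real.exp 1 ≤ Real.exp ((r : ℝ) / (100 : ℕ)) := by
      apply Real.exp_le_exp.2
      push_cast
      exact hr4
    have h4 := Real.exp_one_gt_d9
    push_cast at h2 h3
    linarith
  rw [pair_sum F s hS hn₀ h0 h1] at hp
  set A := ∑ p ∈ S, 1 / (p : ℝ) * ∑ m ∈ MM Y, aY Y m *
      JJ F s ⌊Real.exp Y⌋₊ (Real.log n₀) (Real.log n₁) (Real.log p + Real.log m) with hA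
  set P := ∑ n ∈ Ico n₀ n₁, ww S n / n * F (s * (n : ℤ)) with hP
  set Q := ∑ n ∈ Ico n₀ n₁, F (s * (n : ℤ)) * (Real.log ((n + 1 : ℕ) : ℝ) - Real.log n) with hQ
  have e : ∑ n ∈ Ico n₀ n₁, (ww S n / n - sg S * (Real.log ((n + 1 : ℕ) : ℝ) - Real.log n)) * F (s * (n : ℤ)) =
      P - sg S * Q := by
    rw [hP, hQ, mul_sum, ← sum_sub_distrib]
    apply sum_congr rfl
    intro n _
    ring
  rw [e]
  have h2 : 2 * Real.pi * |P - sg S * Q| ≤ ε * sg S + 1 / Y ^ B := by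
    have e2 : 2 * Real.pi * |P - sg S * Q| = |(A - 2 * Real.pi * sg S * Q) - (A - 2 * Real.pi * P)| := by
      rw [show (A - 2 * Real.pi * sg S * Q) - (A - 2 * Real.pi * P) = 2 * Real.pi * (P - sg S * Q) by ring,
        abs_mul, abs_of_pos (by positivity : 0 < 2 * Real.pi)]
    rw [e2]
    refine (abs_sub _ _).trans ?_
    linarith
  have h3 : |P - sg S * Q| ≤ 2 * Real.pi * |P - sg S * Q| :=
    le_mul_of_one_le_left (abs_nonneg _) (by linarith)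
  linarith

end Pool.Agent.Run7.h684.E2
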