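import Pool.Agent.Run7.h684.E2.Loc

/-!
Project E2 (helper684): sums over pairs.
-/

set_option autoImplicit false

namespace Pool.Agent.Run7.h684.E2

open Finset MeasureTheory Pool.Agent.H376R2.MR Pool.Agent.Q240.KS Pool.Agent.Q95.KS
open Pool.Agent.H499R2.CO

theorem GF_step (F : ℤ → ℝ) (s : ℤ) {n : ℕ} (hn : 1 ≤ n) :
    ∫ u in (Real.log n)..(Real.log ((n + 1 : ℕ) : ℝ)), GF F s u =
      F (s * (n : ℤ)) * (Real.log ((n + 1 : ℕ) : ℝ) - Real.log n) := by
  have hn0 : (0 : ℝ) < n := by exact_mod_cast hn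
  have hle : Real.log (n : ℝ) ≤ Real.log ((n + 1 : ℕ) : ℝ) :=
    Real.log_le_log hn0 (by push_cast; linarith)
  rw [intervalIntegral.integral_of_le hle, integral_Ioc_eq_integral_Ioo]
  have h1 : ∫ u in Set.Ioo (Real.log (n : ℝ)) (Real.log ((n + 1 : ℕ) : ℝ)), GF F s u =
      ∫ u in Set.Ioo (Real.log (n : ℝ)) (Real.log ((n + 1 : ℕ) : ℝ)), F (s * (n : ℤ)) := by
    apply setIntegral_congr_fun measurableSet_Ioo
    intro u hu
    have h2 : (n : ℝ) < Real.exp u := by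
      rw [← Real.log_lt_iff_lt_exp hn0]
      exact hu.1
    have h3 : Real.exp u < ((n + 1 : ℕ) : ℝ) := by
      rw [← Real.lt_log_iff_exp_lt (by positivity)]
      exact hu.2
    have h4 : ⌊Real.exp u⌋₊ = n := by
      rw [Nat.floor_eq_iff (Real.exp_pos _).le]
      push_cast at h3
      exact ⟨h2.le, h3⟩
    unfold GF
    rw [h4]
  rw [h1, ← integral_Ioc_eq_integral_Ioo, ← intervalIntegral.integral_of_le hle,
    intervalIntegral.integral_const, smul_eq_mul, mul_comm]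

theorem GF_sum {F : ℤ → ℝ} (hF : ∀ x, |F x| ≤ 1) (s : ℤ) {n₀ n₁ : ℕ} (hn₀ : 1 ≤ n₀) (h : n₀ ≤ n₁) :
    ∫ u in (Real.log n₀)..(Real.log n₁), GF F s u =
      ∑ n ∈ Ico n₀ n₁, F (s * (n : ℤ)) * (Real.log ((n + 1 : ℕ) : ℝ) - Real.log n) := by
  have h1 : ∑ n ∈ Ico n₀ n₁, ∫ u in (Real.log n)..(Real.log ((n + 1 : ℕ) : ℝ)), GF F s u =
      ∫ u in (Real.log n₀)..(Real.log n₁), GF F s u :=
    intervalIntegral.sum_integral_adjacent_intervals_Ico (a := fun n : ℕ => Real.log n) h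
      (fun _ _ => G_int1 (GF_meas F s) (GF_le hF s) _ _)
  rw [← h1]
  apply sum_congr rfl
  intro n hn
  exact GF_step F s (hn₀.trans (mem_Ico.1 hn).1)

theorem int_Ph {F : ℤ → ℝ} (hF : ∀ x, |F x| ≤ 1) (s : ℤ) (Y : ℝ) (S : Finset ℕ) (K : ℕ) (a b : ℝ) :
    ∫ u in a..b, GF F s u * Ph Y S K u =
      ∑ p ∈ S, 1 / (p : ℝ) * ∑ m ∈ MM Y, aY Y m * JJ F s K a b (Real.log p + Real.log m) := by
  have hi : ∀ (p m : ℕ), IntervalIntegrable (fun u => GF F s u * Fj K (u - (Real.log p + Real.log m))) volume a b :=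
    fun p m => G_int (GF_meas F s) (GF_le hF s) ((Fj_cont K).comp (continuous_id.sub continuous_const)) a b
  have h1 : ∀ u, GF F s u * Ph Y S K u = ∑ p ∈ S, ∑ m ∈ MM Y, (1 / (p : ℝ) * aY Y m) *
      (GF F s u * Fj K (u - (Real.log p + Real.log m))) := by
    intro u
    unfold Ph
    rw [mul_sum]
    apply sum_congr rfl
    intro p _
    rw [mul_sum]
    apply sum_congr rfl
    intro m _
    ring
  simp_rw [h1]
  have hi2 : ∀ p ∈ S, IntervalIntegrable (fun u => ∑ m ∈ MM Y, (1 / (p : ℝ) * aY Y m) *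
      (GF F s u * Fj K (u - (Real.log p + Real.log m)))) volume a b := by
    intro p _
    have h0 := IntervalIntegrable.sum (MM Y) (f := fun (m : ℕ) (u : ℝ) => (1 / (p : ℝ) * aY Y m) *
      (GF F s u * Fj K (u - (Real.log p + Real.log m)))) fun m _ => (hi p m).const_mul _
    have e0 : (∑ m ∈ MM Y, fun u : ℝ => (1 / (p : ℝ) * aY Y m) *
      (GF F s u * Fj K (u - (Real.log p + Real.log m)))) = fun u => ∑ m ∈ MM Y, (1 / (p : ℝ) * aY Y m) *
      (GF F s u * Fj K (u - (Real.log p + Real.log m))) := by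
      ext u
      rw [Finset.sum_apply]
    rw [e0] at h0
    exact h0
  rw [intervalIntegral.integral_finsetSum hi2]
  apply sum_congr rfl
  intro p _
  rw [intervalIntegral.integral_finsetSum (fun m _ => (hi p m).const_mul _), mul_sum]
  apply sum_congr rfl
  intro m _
  rw [intervalIntegral.integral_const_mul]
  unfold JJ
  ring

/-- the double sum as a sum over the products -/
theorem pair_sum (F : ℤ → ℝ) (s : ℤ) {Y : ℝ} {r : ℕ} {S : Finset ℕ} (hS : S ⊆ cell 100 r) {n₀ n₁ : ℕ}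
    (hn₀ : 1 ≤ n₀) (h0 : Y + (r : ℝ) / 100 - 0.3 ≤ Real.log n₀) (h1 : Real.log n₁ ≤ Y + (r : ℝ) / 100 + 0.3) :
    ∑ p ∈ S, 1 / (p : ℝ) * ∑ m ∈ NR Y, Wm m * be F s n₀ n₁ (p * m) =
      ∑ n ∈ Ico n₀ n₁, ww S n / n * F (s * (n : ℤ)) := by
  classical
  have hsw : ∑ n ∈ Ico n₀ n₁, ww S n / n * F (s * (n : ℤ)) =
      ∑ p ∈ S, ∑ n ∈ Ico n₀ n₁, (if p ∣ n then ArithmeticFunction.vonMangoldt (n / p) else 0) / n * F (s * (n : ℤ)) := by
    rw [sum_comm]
    apply sum_congr rfl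
    intro n _
    unfold ww
    rw [sum_div, sum_mul]
  rw [hsw]
  apply sum_congr rfl
  intro p hp
  obtain ⟨hpp, hp1, hp2⟩ := smoo_mem_cell (hS hp)
  have hp0 : (0 : ℝ) < p := by exact_mod_cast hpp.pos
  have hlp1 : (r : ℝ) / 100 ≤ Real.log p := by
    rw [Real.le_log_iff_exp_le hp0]
    exact_mod_cast hp1
  have hlp2 : Real.log p ≤ (r : ℝ) / 100 + 0.01 := by
    rw [Real.log_le_iff_le_exp hp0]
    refine hp2.trans (le_of_eq ?_)
    congr 1
    push_cast
    ring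
  have hL : 1 / (p : ℝ) * ∑ m ∈ NR Y, Wm m * be F s n₀ n₁ (p * m) =
      ∑ m ∈ (NR Y).filter (fun m => n₀ ≤ p * m ∧ p * m < n₁),
        ArithmeticFunction.vonMangoldt m / ((p * m : ℕ) : ℝ) * F (s * ((p * m : ℕ) : ℤ)) := by
    rw [mul_sum, sum_filter]
    apply sum_congr rfl
    intro m _
    unfold be Wm
    split_ifs
    · push_cast
      field_simp
    · simp
  have hR : ∑ n ∈ Ico n₀ n₁, (if p ∣ n then ArithmeticFunction.vonMangoldt (n / p) else 0) / n * F (s * (n : ℤ)) =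
      ∑ n ∈ (Ico n₀ n₁).filter (fun n => p ∣ n), ArithmeticFunction.vonMangoldt (n / p) / n * F (s * (n : ℤ)) := by
    rw [sum_filter]
    apply sum_congr rfl
    intro n _
    split_ifs
    · rfl
    · simp
  have himg : (Ico n₀ n₁).filter (fun n => p ∣ n) =
      ((NR Y).filter (fun m => n₀ ≤ p * m ∧ p * m < n₁)).image (fun m => p * m) := by
    ext n
    simp only [mem_filter, mem_Ico, mem_image]
    constructor
    · rintro ⟨⟨h2, h3⟩, m, rfl⟩
      have hm1 : 1 ≤ m := by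
        rcases Nat.eq_zero_or_pos m with h | h
        · rw [h, mul_zero] at h2
          omega
        · exact h
      refine ⟨m, ⟨mem_NR.2 ⟨hm1, ?_⟩, h2, h3⟩, rfl⟩
      have hm0 : (0 : ℝ) < m := by exact_mod_cast hm1
      have e : Real.log ((p * m : ℕ) : ℝ) = Real.log p + Real.log m := by
        push_cast
        rw [Real.log_mul hp0.ne' hm0.ne']
      have a1 : Real.log (n₀ : ℝ) ≤ Real.log ((p * m : ℕ) : ℝ) :=
        Real.log_le_log (by exact_mod_cast hn₀) (by exact_mod_cast h2)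
      have a2 : Real.log ((p * m : ℕ) : ℝ) ≤ Real.log (n₁ : ℝ) :=
        Real.log_le_log (by exact_mod_cast hn₀.trans h2) (by exact_mod_cast h3.le)
      rw [e] at a1 a2
      rw [abs_le]
      constructor <;> linarith
    · rintro ⟨m, ⟨_, h2, h3⟩, rfl⟩
      exact ⟨⟨h2, h3⟩, dvd_mul_right _ _⟩
  rw [hL, hR, himg, sum_image (fun i _ j _ h => Nat.eq_of_mul_eq_mul_left hpp.pos h)]
  apply sum_congr rfl
  intro m _
  rw [Nat.mul_div_cancel_left _ hpp.pos]

end Pool.Agent.Run7.h684.E2
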